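import Pool.Agent.H816_Nef.Sub
import Pool.Agent.Helper684.GX.Ergo.Calc2

/-!
# Changes of charts on a Riemann surface: the Laplacian and integrals
-/

set_option autoImplicit false

open MeasureTheory Set Filter Topology Metric
open scoped InnerProductSpace ContDiff Laplacian ENNReal Manifold

namespace Pool.Agent.H816_Nef

lemma det_mul (c : ℂ) :
    ((ContinuousLinearMap.toSpanSingleton ℂ c).restrictScalars ℝ).det = ‖c‖ ^ 2 := by
  have h2 : ((ContinuousLinearMap.toSpanSingleton ℂ c).restrictScalars ℝ).det =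
      LinearMap.det (((ContinuousLinearMap.toSpanSingleton ℂ c) : ℂ →ₗ[ℂ] ℂ).restrictScalars ℝ) := rfl
  rw [h2, LinearMap.det_restrictScalars, Algebra.norm_complex_eq]
  have h3 : LinearMap.det ((ContinuousLinearMap.toSpanSingleton ℂ c) : ℂ →ₗ[ℂ] ℂ) = c := by
    rw [LinearMap.det_ring]
    simp
  rw [h3]
  simp [Complex.normSq_eq_norm_sq]

lemma lap_eq_laplacian {U : ℂ → ℝ} {w : ℂ} (hU : ContDiffAt ℝ 2 U w) :
    Helper684.GX.Ergo.lap U w = (Δ U) w := by
  rw [InnerProductSpace.laplacian_eq_iteratedFDeriv_complexPlane]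
  unfold Helper684.GX.Ergo.lap
  simp only [iteratedFDeriv_two_apply]
  have h1 : DifferentiableAt ℝ (fderiv ℝ U) w :=
    (hU.fderiv_right (m := 1) (by norm_num)).differentiableAt (by norm_num)
  rw [fderiv_clm_apply h1 (differentiableAt_const _), fderiv_clm_apply h1 (differentiableAt_const _)]
  simp

lemma laplacian_comp_holo {U : ℂ → ℝ} {j : ℂ → ℂ} {w : ℂ} (hU : ContDiffAt ℝ 2 U (j w))
    (hj : AnalyticAt ℂ j w) :
    (Δ fun z => U (j z)) w = ‖deriv j w‖ ^ 2 * (Δ U) (j w) := by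
  have hj2 : ContDiffAt ℝ 2 j w := (hj.contDiffAt (n := 2)).restrict_scalars ℝ
  have h3 : ContDiffAt ℝ 2 (fun z => U (j z)) w := hU.comp w hj2
  rw [← lap_eq_laplacian hU, ← lap_eq_laplacian h3,
    Helper684.GX.Ergo.lap_comp_holo hU hj]

variable {C : Type} [TopologicalSpace C] [ChartedSpace ℂ C]

lemma trans_contDiffOn [IsManifold 𝓘(ℂ, ℂ) ω C] (k l : C) :
    ContDiffOn ℂ ω ((chartAt ℂ k).symm.trans (chartAt ℂ l))
      ((chartAt ℂ k).symm.trans (chartAt ℂ l)).source := by
  have h := (contDiffGroupoid ω 𝓘(ℂ, ℂ)).compatible (chart_mem_atlas ℂ k) (chart_mem_atlas ℂ l)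
  have h1 := (mem_groupoid_of_pregroupoid.1 h).1
  simpa [contDiffPregroupoid] using h1

lemma isManifold_real [IsManifold 𝓘(ℂ, ℂ) ω C] : IsManifold 𝓘(ℝ, ℂ) ∞ C := by
  apply isManifold_of_contDiffOn
  intro e e' he he'
  have h := (contDiffGroupoid ω 𝓘(ℂ, ℂ)).compatible he he'
  have h1 := (mem_groupoid_of_pregroupoid.1 h).1
  have h2 : ContDiffOn ℂ ω (e.symm.trans e') (e.symm.trans e').source := by
    simpa [contDiffPregroupoid] using h1
  have h3 : ContDiffOn ℂ ∞ (e.symm.trans e') (e.symm.trans e').source := h2.of_le le_top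
  have h4 := h3.restrict_scalars ℝ
  simpa using h4

/-- the Laplacian of a function on the surface, in the chart centred at `k` -/
noncomputable def lapC (k : C) (χ : C → ℝ) (z : ℂ) : ℝ :=
  (Δ fun w => χ ((chartAt ℂ k).symm w)) z

lemma smooth_chart [IsManifold 𝓘(ℂ, ℂ) ω C] {χ : C → ℝ} (hχ : ContMDiff 𝓘(ℝ, ℂ) 𝓘(ℝ, ℝ) ∞ χ)
    (k : C) : ContDiffOn ℝ ∞ (fun w => χ ((chartAt ℂ k).symm w)) (chartAt ℂ k).target := by
  haveI : IsManifold 𝓘(ℝ, ℂ) ∞ C := isManifold_real
  have h1 : ContMDiffOn 𝓘(ℝ, ℂ) 𝓘(ℝ, ℂ) ∞ (chartAt ℂ k).symm (chartAt ℂ k).target :=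
    contMDiffOn_chart_symm
  have h2 := hχ.comp_contMDiffOn h1
  exact h2.contDiffOn

lemma trans_analyticAt [IsManifold 𝓘(ℂ, ℂ) ω C] {k l : C} {z : ℂ}
    (hz : z ∈ ((chartAt ℂ k).symm.trans (chartAt ℂ l)).source) :
    AnalyticAt ℂ ((chartAt ℂ k).symm.trans (chartAt ℂ l)) z := by
  have h := (trans_contDiffOn k l).contDiffAt
    (((chartAt ℂ k).symm.trans (chartAt ℂ l)).open_source.mem_nhds hz)
  exact h.analyticAt

/-- the Laplacian in another chart -/
lemma lapC_trans [IsManifold 𝓘(ℂ, ℂ) ω C] {χ : C → ℝ} (hχ : ContMDiff 𝓘(ℝ, ℂ) 𝓘(ℝ, ℝ) ∞ χ)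
    {k l : C} {z : ℂ} (hz : z ∈ ((chartAt ℂ k).symm.trans (chartAt ℂ l)).source) :
    lapC k χ z = ‖deriv ((chartAt ℂ k).symm.trans (chartAt ℂ l)) z‖ ^ 2 *
      lapC l χ (((chartAt ℂ k).symm.trans (chartAt ℂ l)) z) := by
  set τ := (chartAt ℂ k).symm.trans (chartAt ℂ l) with hτ
  have h1 : τ z ∈ (chartAt ℂ l).target := by
    have := τ.map_source hz
    rw [hτ, OpenPartialHomeomorph.trans_target] at this
    exact this.1
  have h2 : ContDiffAt ℝ 2 (fun w => χ ((chartAt ℂ l).symm w)) (τ z) :=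
    ((smooth_chart hχ l).contDiffAt ((chartAt ℂ l).open_target.mem_nhds h1)).of_le
      Helper486.TP.two_le_infty
  have h3 := laplacian_comp_holo h2 (trans_analyticAt hz)
  unfold lapC
  rw [← h3]
  apply Filter.EventuallyEq.eq_of_nhds
  apply InnerProductSpace.laplacian_congr_nhds
  filter_upwards [τ.open_source.mem_nhds hz] with w hw
  have h4 : (chartAt ℂ l).symm (τ w) = (chartAt ℂ k).symm w := by
    have h5 : (chartAt ℂ k).symm w ∈ (chartAt ℂ l).source := by
      rw [hτ, OpenPartialHomeomorph.trans_source] at hw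
      exact hw.2
    simpa [hτ] using (chartAt ℂ l).left_inv h5
  rw [h4]

/-- change of variables -/
lemma integral_trans [IsManifold 𝓘(ℂ, ℂ) ω C] {χ : C → ℝ}
    (hχ : ContMDiff 𝓘(ℝ, ℂ) 𝓘(ℝ, ℝ) ∞ χ) (g : C → ℝ) (k l : C) :
    ∫ z in ((chartAt ℂ k).symm.trans (chartAt ℂ l)).source,
      g ((chartAt ℂ k).symm z) * lapC k χ z =
    ∫ w in ((chartAt ℂ l).symm.trans (chartAt ℂ k)).source,
      g ((chartAt ℂ l).symm w) * lapC l χ w := by
  set τ := (chartAt ℂ k).symm.trans (chartAt ℂ l) with hτ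
  have himg : τ '' τ.source = ((chartAt ℂ l).symm.trans (chartAt ℂ k)).source := by
    have h1 : τ '' τ.source = τ.target := τ.image_source_eq_target
    rw [h1]
    rw [← OpenPartialHomeomorph.symm_source]
    congr 1
    
  rw [← himg]
  have hder : ∀ z ∈ τ.source, HasFDerivWithinAt τ
      ((ContinuousLinearMap.toSpanSingleton ℂ (deriv τ z)).restrictScalars ℝ) τ.source z := by
    intro z hz
    have h1 : HasDerivAt τ (deriv τ z) z := (trans_analyticAt hz).differentiableAt.hasDerivAt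
    have h2 := (h1.hasFDerivAt.restrictScalars ℝ).hasFDerivWithinAt (s := τ.source)
    exact h2
  rw [integral_image_eq_integral_abs_det_fderiv_smul volume τ.open_source.measurableSet hder
    τ.injOn]
  refine setIntegral_congr_fun τ.open_source.measurableSet fun z hz => ?_
  have h4 : (chartAt ℂ l).symm (τ z) = (chartAt ℂ k).symm z := by
    have h5 : (chartAt ℂ k).symm z ∈ (chartAt ℂ l).source := by
      rw [hτ, OpenPartialHomeomorph.trans_source] at hz
      exact hz.2
    simpa [hτ] using (chartAt ℂ l).left_inv h5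
  beta_reduce
  rw [det_mul, h4, lapC_trans hχ hz, smul_eq_mul, abs_of_nonneg (by positivity)]
  ring

/-- change of variables, integrability -/
lemma integrable_trans [IsManifold 𝓘(ℂ, ℂ) ω C] {χ : C → ℝ}
    (hχ : ContMDiff 𝓘(ℝ, ℂ) 𝓘(ℝ, ℝ) ∞ χ) (g : C → ℝ) (k l : C)
    (h : IntegrableOn (fun z => g ((chartAt ℂ k).symm z) * lapC k χ z)
      ((chartAt ℂ k).symm.trans (chartAt ℂ l)).source) :
    IntegrableOn (fun w => g ((chartAt ℂ l).symm w) * lapC l χ w)
      ((chartAt ℂ l).symm.trans (chartAt ℂ k)).source := by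
  set τ := (chartAt ℂ k).symm.trans (chartAt ℂ l) with hτ
  have himg : τ '' τ.source = ((chartAt ℂ l).symm.trans (chartAt ℂ k)).source := by
    have h1 : τ '' τ.source = τ.target := τ.image_source_eq_target
    rw [h1]
    rw [← OpenPartialHomeomorph.symm_source]
    congr 1
  rw [← himg]
  have hder : ∀ z ∈ τ.source, HasFDerivWithinAt τ
      ((ContinuousLinearMap.toSpanSingleton ℂ (deriv τ z)).restrictScalars ℝ) τ.source z := by
    intro z hz
    have h1 : HasDerivAt τ (deriv τ z) z := (trans_analyticAt hz).differentiableAt.hasDerivAt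
    have h2 := (h1.hasFDerivAt.restrictScalars ℝ).hasFDerivWithinAt (s := τ.source)
    exact h2
  rw [integrableOn_image_iff_integrableOn_abs_det_fderiv_smul volume τ.open_source.measurableSet
    hder τ.injOn]
  refine h.congr_fun ?_ τ.open_source.measurableSet
  intro z hz
  have h4 : (chartAt ℂ l).symm (τ z) = (chartAt ℂ k).symm z := by
    have h5 : (chartAt ℂ k).symm z ∈ (chartAt ℂ l).source := by
      rw [hτ, OpenPartialHomeomorph.trans_source] at hz
      exact hz.2
    simpa [hτ] using (chartAt ℂ l).left_inv h5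
  beta_reduce
  rw [det_mul, h4, lapC_trans hχ hz, smul_eq_mul, abs_of_nonneg (by positivity)]
  ring

end Pool.Agent.H816_Nef
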