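import Pool.Agent.H816_Nef.CoreD

/-!
# The degree inequality on a compact Riemann surface
-/

set_option autoImplicit false

open MeasureTheory Set Filter Topology Metric
open scoped InnerProductSpace ContDiff Laplacian ENNReal Manifold

namespace Pool.Agent.H816_Nef

/-- **Degree inequality.** Let `C` be a compact connected Riemann surface with discs of radius `R c`
around its points and let `n : C → ℤ` vanish on these discs off their centres. There are finitely
many points `c ∈ t` and constants `A c ≥ 0` such that `∑ n ≤ ∑ A c * η c` whenever there is a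
function on `C` which, up to factors `exp (± η c)`, is `|z - z_c| ^ (n c)` times a log-subharmonic
function on every disc. -/
theorem core {C : Type} [TopologicalSpace C] [ChartedSpace ℂ C] [IsManifold 𝓘(ℂ, ℂ) ω C]
    [T2Space C] [CompactSpace C] [ConnectedSpace C] (n : C → ℤ) (R : C → ℝ) (hR : ∀ c, 0 < R c)
    (hball : ∀ c, ball (chartAt ℂ c c) (R c) ⊆ (chartAt ℂ c).target)
    (hnz : ∀ c, ∀ z ∈ ball (chartAt ℂ c c) (R c), z ≠ chartAt ℂ c c →
      n ((chartAt ℂ c).symm z) = 0) :
    ∃ (t : Finset C) (A : t → ℝ), (∀ i, 0 ≤ A i) ∧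
      ∀ (η : C → ℝ) (Φ : C → ℝ) (Ψ : C → ℂ → ℝ), LocData n R η Φ Ψ →
        ((∑ᶠ c, n c : ℤ) : ℝ) ≤ ∑ i : t, A i * η i := by
  classical
  have : IsManifold 𝓘(ℝ, ℂ) ∞ C := isManifold_real
  obtain ⟨t, ht⟩ := CompactSpace.elim_nhds_subcover (fun c : C => disc c (R c))
    (fun c => (isOpen_disc c (R c)).mem_nhds (mem_disc_self c (hR c)))
  obtain ⟨f, hf⟩ := SmoothPartitionOfUnity.exists_isSubordinate 𝓘(ℝ, ℂ) (M := C) (s := univ)
    isClosed_univ (fun i : t => disc (i : C) (R i)) (fun i => isOpen_disc _ _) (by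
      intro c _
      have h1 : c ∈ ⋃ x ∈ t, disc x (R x) := by rw [ht]; trivial
      simp only [mem_iUnion] at h1 ⊢
      obtain ⟨i, hi, hc⟩ := h1
      exact ⟨⟨i, hi⟩, hc⟩)
  set χ : t → C → ℝ := fun i c => f i c with hχ
  have hsm : ∀ i, ContMDiff 𝓘(ℝ, ℂ) 𝓘(ℝ, ℝ) ∞ (χ i) := fun i => (f i).contMDiff
  have hsub : ∀ i, tsupport (χ i) ⊆ disc (i : C) (R i) := fun i => hf i
  have hnn : ∀ i c, 0 ≤ χ i c := fun i c => f.nonneg i c
  have hsum : ∀ c, ∑ i, χ i c = 1 := by
    intro c
    have h1 := f.sum_eq_one (mem_univ c)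
    rwa [finsum_eq_sum_of_fintype] at h1
  refine ⟨t, fun i => (2 * Real.pi)⁻¹ * ∑ j : t, (acoef R (χ i) (χ j) j + acoef R (χ j) (χ i) i),
    fun i => ?_, ?_⟩
  · have hpi := Real.pi_pos
    refine mul_nonneg (by positivity) (Finset.sum_nonneg fun j _ => ?_)
    exact add_nonneg (acoef_nonneg (hnn j) _) (acoef_nonneg (hnn i) _)
  intro η Φ Ψ h
  -- the degree
  have hsupp : ∀ c, n c ≠ 0 → c ∈ t ∧ ∀ i : t, (i : C) ≠ c → χ i c = 0 := by
    intro c hc
    have key : ∀ i : t, c ∈ disc (i : C) (R i) → (i : C) = c := by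
      intro i hi
      by_contra hne
      have h1 : chartAt ℂ (i : C) c ≠ chartAt ℂ (i : C) i := by
        intro he
        exact hne ((chartAt ℂ (i : C)).injOn hi.1 (mem_chart_source ℂ _) he).symm
      have h2 := hnz i _ hi.2 h1
      rw [(chartAt ℂ (i : C)).left_inv hi.1] at h2
      exact hc h2
    constructor
    · have h1 : c ∈ ⋃ x ∈ t, disc x (R x) := by rw [ht]; trivial
      simp only [mem_iUnion] at h1
      obtain ⟨i, hi, hci⟩ := h1
      have := key ⟨i, hi⟩ hci
      rw [← this]; exact hi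
    · intro i hi
      by_contra hne
      exact hi (key i (hsub i (subset_tsupport _ hne)))
  have hdeg : ((∑ᶠ c, n c : ℤ) : ℝ) = ∑ i : t, (n i : ℝ) * χ i i := by
    have h1 : ∑ᶠ c, n c = ∑ c ∈ t, n c := by
      apply finsum_eq_sum_of_support_subset
      intro c hc
      exact (hsupp c hc).1
    rw [h1, ← Finset.sum_coe_sort]
    push_cast
    refine Finset.sum_congr rfl fun i _ => ?_
    by_cases hi : n i = 0
    · rw [hi]; simp
    · have h2 := hsum (i : C)
      rw [Finset.sum_eq_single i] at h2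
      · rw [h2, mul_one]
      · intro j _ hj
        exact (hsupp i hi).2 j fun he => hj (Subtype.ext he)
      · intro h'; exact absurd (Finset.mem_univ _) h'
  -- the sum of the pairings
  set I : t → ℝ := fun i => ∫ z in ball (chartAt ℂ (i : C) i) (R i), wt n Ψ i z * lapC (i : C) (χ i) z
    with hI
  have hI1 : 2 * Real.pi * ∑ i : t, (n i : ℝ) * χ i i ≤ ∑ i, I i := by
    rw [Finset.mul_sum]
    exact Finset.sum_le_sum fun i _ => h.pair_ge i (hsm i) (hsub i) (hnn i)
  have hI2 : ∀ i, I i ≤ ∑ j : t, (scoef n R Ψ (χ i) (χ j) j +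
      (η i + η j) * acoef R (χ i) (χ j) j) := by
    intro i
    have h1 : I i = ∑ j : t, ∫ z in ball (chartAt ℂ (i : C) i) (R i),
        χ j ((chartAt ℂ (i : C)).symm z) * (wt n Ψ i z * lapC (i : C) (χ i) z) := by
      rw [← integral_finsetSum]
      · refine integral_congr_ae (Eventually.of_forall fun z => ?_)
        beta_reduce
        rw [← Finset.sum_mul, hsum, one_mul]
      · intro j _
        exact integrableOn_aux2 (hball i) (hsm i) (hsub i) (hsm j) (h.wt_locInt i)
    rw [h1]
    exact Finset.sum_le_sum fun j _ => h.compare i j (hsm i) (hsub i) (hsm j) (hsub j) (hnn j)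
  have hS : ∑ i : t, ∑ j : t, scoef n R Ψ (χ i) (χ j) j = 0 := by
    rw [Finset.sum_comm]
    refine Finset.sum_eq_zero fun j _ => ?_
    unfold scoef
    rw [← integral_finsetSum]
    · rw [← integral_zero (α := ℂ) (μ := volume.restrict (ball (chartAt ℂ (j : C) j) (R j)))
        (G := ℝ)]
      refine setIntegral_congr_fun measurableSet_ball fun w hw => ?_
      beta_reduce
      rw [← Finset.mul_sum, ← Finset.mul_sum, sum_lapC hsm hsum (hball j hw)]
      simp
    · intro i _
      exact integrableOn_aux (hball j) (hsm j) (hsub j) (h.wt_locInt j)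
        ((continuousOn_lapC (hsm i) j).mono (hball j))
  have hfin : 2 * Real.pi * ∑ i : t, (n i : ℝ) * χ i i ≤
      ∑ i : t, η i * ∑ j : t, (acoef R (χ i) (χ j) j + acoef R (χ j) (χ i) i) := by
    calc 2 * Real.pi * ∑ i : t, (n i : ℝ) * χ i i ≤ ∑ i, I i := hI1
      _ ≤ ∑ i : t, ∑ j : t, (scoef n R Ψ (χ i) (χ j) j +
          (η i + η j) * acoef R (χ i) (χ j) j) := Finset.sum_le_sum fun i _ => hI2 i
      _ = ∑ i : t, ∑ j : t, (η i + η j) * acoef R (χ i) (χ j) j := by
          simp only [Finset.sum_add_distrib]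
          rw [hS, zero_add]
      _ = ∑ i : t, ∑ j : t, η i * acoef R (χ i) (χ j) j +
            ∑ i : t, ∑ j : t, η j * acoef R (χ i) (χ j) j := by
          simp only [add_mul, Finset.sum_add_distrib]
      _ = ∑ i : t, ∑ j : t, η i * acoef R (χ i) (χ j) j +
            ∑ i : t, ∑ j : t, η i * acoef R (χ j) (χ i) i := by
          congr 1
          rw [Finset.sum_comm]
      _ = _ := by
          rw [← Finset.sum_add_distrib]
          refine Finset.sum_congr rfl fun i _ => ?_
          rw [← Finset.sum_add_distrib, Finset.mul_sum]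
          refine Finset.sum_congr rfl fun j _ => ?_
          ring
  rw [hdeg]
  have hpi := Real.pi_pos
  have h2pi : 0 < 2 * Real.pi := by positivity
  have h3 : ∑ i : t, (n i : ℝ) * χ i i = (2 * Real.pi)⁻¹ * (2 * Real.pi * ∑ i : t, (n i : ℝ) * χ i i) := by
    rw [← mul_assoc, inv_mul_cancel₀ h2pi.ne', one_mul]
  rw [h3]
  calc (2 * Real.pi)⁻¹ * (2 * Real.pi * ∑ i : t, (n i : ℝ) * χ i i) ≤ (2 * Real.pi)⁻¹ *
        ∑ i : t, η i * ∑ j : t, (acoef R (χ i) (χ j) j + acoef R (χ j) (χ i) i) :=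
        mul_le_mul_of_nonneg_left hfin (by positivity)
    _ = _ := by
        rw [Finset.mul_sum]
        refine Finset.sum_congr rfl fun i _ => ?_
        ring

end Pool.Agent.H816_Nef
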