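import Pool.Agent.H816_Nef.Chart

/-!
# The degree inequality on a compact Riemann surface, part A: cut-off functions in charts
-/

set_option autoImplicit false

open MeasureTheory Set Filter Topology Metric
open scoped InnerProductSpace ContDiff Laplacian ENNReal Manifold

namespace Pool.Agent.H816_Nef

variable {C : Type} [TopologicalSpace C] [ChartedSpace ℂ C]

/-- the coordinate disc of radius `r` centred at `c` -/
def disc (c : C) (r : ℝ) : Set C :=
  (chartAt ℂ c).source ∩ (chartAt ℂ c) ⁻¹' (ball (chartAt ℂ c c) r)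

lemma isOpen_disc (c : C) (r : ℝ) : IsOpen (disc c r) :=
  (chartAt ℂ c).isOpen_inter_preimage isOpen_ball

lemma mem_disc_self (c : C) {r : ℝ} (hr : 0 < r) : c ∈ disc c r :=
  ⟨mem_chart_source ℂ c, mem_ball_self hr⟩

lemma symm_mem_disc {c : C} {r : ℝ} (h : ball (chartAt ℂ c c) r ⊆ (chartAt ℂ c).target) {z : ℂ}
    (hz : z ∈ ball (chartAt ℂ c c) r) : (chartAt ℂ c).symm z ∈ disc c r := by
  refine ⟨(chartAt ℂ c).map_target (h hz), ?_⟩
  simpa [(chartAt ℂ c).right_inv (h hz)] using hz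

lemma symm_mem_disc_iff {c : C} {r : ℝ} {z : ℂ} (hz : z ∈ (chartAt ℂ c).target) :
    (chartAt ℂ c).symm z ∈ disc c r ↔ z ∈ ball (chartAt ℂ c c) r := by
  unfold disc
  constructor
  · intro h
    simpa [(chartAt ℂ c).right_inv hz] using h.2
  · intro h
    exact ⟨(chartAt ℂ c).map_target hz, by simpa [(chartAt ℂ c).right_inv hz] using h⟩

open Classical in
/-- the function `χ` read in the disc of radius `r` of the chart centred at `k`, extended by `0` -/
noncomputable def cut (k : C) (r : ℝ) (χ : C → ℝ) (z : ℂ) : ℝ :=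
  if z ∈ ball (chartAt ℂ k k) r then χ ((chartAt ℂ k).symm z) else 0

lemma cut_of_mem {k : C} {r : ℝ} {χ : C → ℝ} {z : ℂ} (hz : z ∈ ball (chartAt ℂ k k) r) :
    cut k r χ z = χ ((chartAt ℂ k).symm z) := by
  unfold cut; rw [if_pos hz]

lemma cut_of_notMem {k : C} {r : ℝ} {χ : C → ℝ} {z : ℂ} (hz : z ∉ ball (chartAt ℂ k k) r) :
    cut k r χ z = 0 := by
  unfold cut; rw [if_neg hz]

lemma cut_nonneg {k : C} {r : ℝ} {χ : C → ℝ} (h : ∀ c, 0 ≤ χ c) (z : ℂ) : 0 ≤ cut k r χ z := by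
  unfold cut; split_ifs
  · exact h _
  · exact le_rfl

section
variable {k : C} {r : ℝ} (hb : ball (chartAt ℂ k k) r ⊆ (chartAt ℂ k).target) {χ : C → ℝ}
  (hs : tsupport χ ⊆ disc k r)
include hb hs

/-- support of a cut-off -/
lemma cut_zero {z : ℂ} (hz : z ∉ (chartAt ℂ k) '' tsupport χ) : cut k r χ z = 0 := by
  unfold cut
  split_ifs with h
  · by_contra hne
    have h1 : (chartAt ℂ k).symm z ∈ tsupport χ := subset_tsupport _ hne
    exact hz ⟨_, h1, (chartAt ℂ k).right_inv (hb h)⟩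
  · rfl

omit hb in
lemma supp_compact [CompactSpace C] : IsCompact ((chartAt ℂ k) '' tsupport χ) ∧
      (chartAt ℂ k) '' tsupport χ ⊆ ball (chartAt ℂ k k) r := by
  have hcomp : IsCompact (tsupport χ) := (isClosed_tsupport χ).isCompact
  refine ⟨hcomp.image_of_continuousOn ((chartAt ℂ k).continuousOn.mono fun c hc => (hs hc).1), ?_⟩
  rintro z ⟨c, hc, rfl⟩
  exact (hs hc).2

lemma cut_tsupport [CompactSpace C] : tsupport (cut k r χ) ⊆ ball (chartAt ℂ k k) r := by
  obtain ⟨h1, h2⟩ := supp_compact hs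
  refine Set.Subset.trans ?_ h2
  apply closure_minimal _ h1.isClosed
  intro z hz
  by_contra hc
  exact hz (cut_zero hb hs hc)

lemma cut_compact [CompactSpace C] : HasCompactSupport (cut k r χ) := by
  obtain ⟨h1, h2⟩ := supp_compact hs
  exact HasCompactSupport.intro h1 fun z hz => cut_zero hb hs hz

lemma cut_smooth [CompactSpace C] [IsManifold 𝓘(ℂ, ℂ) ω C]
    (hχ : ContMDiff 𝓘(ℝ, ℂ) 𝓘(ℝ, ℝ) ∞ χ) : ContDiff ℝ ∞ (cut k r χ) := by
  obtain ⟨h1, h2⟩ := supp_compact hs
  rw [contDiff_iff_contDiffAt]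
  intro z
  by_cases hz : z ∈ ball (chartAt ℂ k k) r
  · have h3 : ContDiffAt ℝ ∞ (fun w => χ ((chartAt ℂ k).symm w)) z :=
      (smooth_chart hχ k).contDiffAt ((chartAt ℂ k).open_target.mem_nhds (hb hz))
    refine h3.congr_of_eventuallyEq ?_
    filter_upwards [isOpen_ball.mem_nhds hz] with w hw
    exact cut_of_mem hw
  · have hz' : z ∉ (chartAt ℂ k) '' tsupport χ := fun h => hz (h2 h)
    refine (contDiffAt_const (c := (0 : ℝ))).congr_of_eventuallyEq ?_
    filter_upwards [h1.isClosed.isOpen_compl.mem_nhds hz'] with w hw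
    exact cut_zero hb hs hw

end

lemma lap_cut {k : C} {r : ℝ} {χ : C → ℝ} {z : ℂ} (hz : z ∈ ball (chartAt ℂ k k) r) :
    (Δ (cut k r χ)) z = lapC k χ z := by
  apply Filter.EventuallyEq.eq_of_nhds
  apply InnerProductSpace.laplacian_congr_nhds
  filter_upwards [isOpen_ball.mem_nhds hz] with w hw
  exact cut_of_mem hw

/-- the Laplacian in a chart is continuous -/
lemma continuousOn_lapC [IsManifold 𝓘(ℂ, ℂ) ω C] {χ : C → ℝ}
    (hχ : ContMDiff 𝓘(ℝ, ℂ) 𝓘(ℝ, ℝ) ∞ χ) (k : C) :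
    ContinuousOn (lapC k χ) (chartAt ℂ k).target := by
  have h1 := smooth_chart hχ k
  have ho := (chartAt ℂ k).open_target
  have h2 : ContDiffOn ℝ ∞ (fun w => χ ((chartAt ℂ k).symm w)) (chartAt ℂ k).target := h1
  unfold lapC
  rw [InnerProductSpace.laplacian_eq_iteratedFDeriv_complexPlane]
  have h3 : ContinuousOn (iteratedFDeriv ℝ 2 (fun w => χ ((chartAt ℂ k).symm w)))
      (chartAt ℂ k).target := by
    have h4 := h2.continuousOn_iteratedFDerivWithin (m := 2) Helper486.TP.two_le_infty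
      ho.uniqueDiffOn
    refine h4.congr fun z hz => ?_
    exact (iteratedFDerivWithin_of_isOpen 2 ho hz).symm
  have h5 : ∀ v : Fin 2 → ℂ, ContinuousOn (fun z =>
      iteratedFDeriv ℝ 2 (fun w => χ ((chartAt ℂ k).symm w)) z v) (chartAt ℂ k).target := fun v =>
    (ContinuousMultilinearMap.apply ℝ (fun _ : Fin 2 => ℂ) ℝ v).continuous.comp_continuousOn h3
  exact (h5 _).add (h5 _)

/-- the Laplacian of `χ` in a chart vanishes off the support -/
lemma lapC_zero {k : C} {χ : C → ℝ} {z : ℂ} (hz : z ∈ (chartAt ℂ k).target)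
    (h : (chartAt ℂ k).symm z ∉ tsupport χ) : lapC k χ z = 0 := by
  have h1 : (fun w => χ ((chartAt ℂ k).symm w)) =ᶠ[𝓝 z] fun _ => (0 : ℝ) := by
    have h2 : ∀ᶠ c in 𝓝 ((chartAt ℂ k).symm z), c ∉ tsupport χ :=
      (isClosed_tsupport χ).isOpen_compl.mem_nhds h
    have h3 := ((chartAt ℂ k).continuousAt_symm hz).eventually h2
    filter_upwards [h3] with w hw
    exact image_eq_zero_of_notMem_tsupport hw
  have h2 := (InnerProductSpace.laplacian_congr_nhds h1).eq_of_nhds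
  unfold lapC
  rw [h2]
  simp

/-- the Laplacians of a partition of unity add up to zero -/
lemma sum_lapC [IsManifold 𝓘(ℂ, ℂ) ω C] {ι : Type} [Fintype ι] {χ : ι → C → ℝ}
    (hχ : ∀ i, ContMDiff 𝓘(ℝ, ℂ) 𝓘(ℝ, ℝ) ∞ (χ i)) (h1 : ∀ c, ∑ i, χ i c = 1) {k : C} {z : ℂ}
    (hz : z ∈ (chartAt ℂ k).target) : ∑ i, lapC k (χ i) z = 0 := by
  have h2 : ∀ i, ContDiffAt ℝ 2 (fun w => χ i ((chartAt ℂ k).symm w)) z := fun i =>
    ((smooth_chart (hχ i) k).contDiffAt ((chartAt ℂ k).open_target.mem_nhds hz)).of_le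
      Helper486.TP.two_le_infty
  have h3 : ∀ s : Finset ι, (Δ fun w => ∑ i ∈ s, χ i ((chartAt ℂ k).symm w)) z =
      ∑ i ∈ s, lapC k (χ i) z := by
    classical
    intro s
    induction s using Finset.induction_on with
    | empty => simp
    | insert i s hi ih =>
      rw [Finset.sum_insert hi, ← ih]
      have h4 : (fun w => ∑ j ∈ insert i s, χ j ((chartAt ℂ k).symm w)) =
          (fun w => χ i ((chartAt ℂ k).symm w)) + fun w => ∑ j ∈ s, χ j ((chartAt ℂ k).symm w) := by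
        funext w
        simp [Finset.sum_insert hi]
      rw [h4, ContDiffAt.laplacian_add (h2 i) (ContDiffAt.sum fun j _ => h2 j)]
      rfl
  rw [← h3 Finset.univ]
  simp only [h1]
  simp

end Pool.Agent.H816_Nef
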