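import Pool.Agent.H816_Nef.CoreA

/-!
# The degree inequality on a compact Riemann surface, part B
-/

set_option autoImplicit false

open MeasureTheory Set Filter Topology Metric
open scoped InnerProductSpace ContDiff Laplacian ENNReal Manifold

namespace Pool.Agent.H816_Nef

variable {C : Type} [TopologicalSpace C] [ChartedSpace ℂ C]

/-- The local data: on the disc of radius `R c` around every point `c` the function `Φ` is
comparable, with the factor `exp (η c)`, with `|z - z_c| ^ (n c)` times a log-subharmonic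
function. -/
structure LocData (n : C → ℤ) (R : C → ℝ) (η : C → ℝ) (Φ : C → ℝ) (Ψ : C → ℂ → ℝ) : Prop where
  Rpos : ∀ c, 0 < R c
  ball_sub : ∀ c, ball (chartAt ℂ c c) (R c) ⊆ (chartAt ℂ c).target
  nz : ∀ c, ∀ z ∈ ball (chartAt ℂ c c) (R c), z ≠ chartAt ℂ c c → n ((chartAt ℂ c).symm z) = 0
  area : ∀ c, AreaSub (Ψ c) (ball (chartAt ℂ c c) (R c))
  cmp : ∀ c, ∀ z ∈ ball (chartAt ℂ c c) (R c), z ≠ chartAt ℂ c c →
    Real.exp (-η c) * (‖z - chartAt ℂ c c‖ ^ (n c) * Ψ c z) ≤ Φ ((chartAt ℂ c).symm z) ∧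
      Φ ((chartAt ℂ c).symm z) ≤ Real.exp (η c) * (‖z - chartAt ℂ c c‖ ^ (n c) * Ψ c z)
  pos : ∃ c, 0 < Ψ c (chartAt ℂ c c)

variable {n : C → ℤ} {R : C → ℝ} {η : C → ℝ} {Φ : C → ℝ} {Ψ : C → ℂ → ℝ}

/-- positivity of `Φ` and of `Ψ` agree off the centre -/
lemma LocData.pos_iff (h : LocData n R η Φ Ψ) {c : C} {z : ℂ}
    (hz : z ∈ ball (chartAt ℂ c c) (R c)) (hne : z ≠ chartAt ℂ c c) :
    0 < Φ ((chartAt ℂ c).symm z) ↔ 0 < Ψ c z := by
  obtain ⟨h1, h2⟩ := h.cmp c z hz hne
  have h3 : 0 < ‖z - chartAt ℂ c c‖ ^ (n c) := zpow_pos (norm_pos_iff.2 (sub_ne_zero.2 hne)) _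
  constructor
  · intro h4
    by_contra h5
    have h6 : Ψ c z = 0 := le_antisymm (not_lt.1 h5) ((h.area c).nonneg z hz)
    rw [h6, mul_zero, mul_zero] at h2
    linarith
  · intro h4
    exact lt_of_lt_of_le (by positivity) h1

/-- every punctured neighbourhood of every point contains points where `Φ` is positive -/
lemma LocData.dense [ConnectedSpace C] [T2Space C] (h : LocData n R η Φ Ψ) (c : C) :
    ∃ᶠ c' in 𝓝[≠] c, 0 < Φ c' := by
  set Z : Set C := {c | ∀ᶠ c' in 𝓝[≠] c, ¬ 0 < Φ c'} with hZ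
  -- `Z` is open
  have hZo : IsOpen Z := by
    rw [isOpen_iff_mem_nhds]
    intro a ha
    obtain ⟨V, hV, hVo, haV⟩ : ∃ V : Set C, (∀ c' ∈ V, c' ≠ a → ¬ 0 < Φ c') ∧ IsOpen V ∧ a ∈ V := by
      have h1 := eventually_nhdsWithin_iff.1 ha
      obtain ⟨V, hV, hVo, haV⟩ := eventually_nhds_iff.1 h1
      exact ⟨V, fun c' hc' hne => hV c' hc' hne, hVo, haV⟩
    refine mem_of_superset (hVo.mem_nhds haV) fun b hb => ?_
    by_cases hba : b = a
    · rw [hba]; exact ha
    · refine nhdsWithin_le_nhds ?_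
      filter_upwards [hVo.mem_nhds hb, isOpen_compl_singleton.mem_nhds hba] with c' h1 h2
      exact hV c' h1 h2
  -- the complement is open
  have key : ∀ (a : C) (x : ℂ) (r : ℝ), 0 < r → closedBall x r ⊆ ball (chartAt ℂ a a) (R a) →
      0 < Ψ a x → ∀ y ∈ ball x r, (chartAt ℂ a).symm y ∉ Z := by
    intro a x r hr hsub hpos y hy hyZ
    obtain ⟨hae, -⟩ := (h.area a).integrable hr hsub hpos
    have hyb : y ∈ ball (chartAt ℂ a a) (R a) := hsub (ball_subset_closedBall hy)
    have hyt : y ∈ (chartAt ℂ a).target := h.ball_sub a hyb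
    have h1 := eventually_nhdsWithin_iff.1 hyZ
    have h2 := ((chartAt ℂ a).continuousAt_symm hyt).eventually h1
    have h3 : ∀ᶠ w in 𝓝 y, w ∈ ball x r ∧ w ∈ (chartAt ℂ a).target := by
      filter_upwards [isOpen_ball.mem_nhds hy, (chartAt ℂ a).open_target.mem_nhds hyt] with w h4 h5
      exact ⟨h4, h5⟩
    obtain ⟨s, hs, hs'⟩ := Metric.eventually_nhds_iff_ball.1 (h2.and h3)
    -- on the small ball minus two points `Ψ` is not positive
    have h4 : ∀ w ∈ ball y s, w ≠ y → w ≠ chartAt ℂ a a → ¬ 0 < Ψ a w := by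
      intro w hw hwy hwa hcon
      obtain ⟨h5, h6, h7⟩ := hs' w hw
      have h8 : (chartAt ℂ a).symm w ≠ (chartAt ℂ a).symm y := by
        intro he
        exact hwy ((chartAt ℂ a).symm.injOn h7 hyt he)
      have h9 := h5 h8
      exact h9 ((h.pos_iff (hsub (ball_subset_closedBall h6)) hwa).2 hcon)
    have h5 : volume (ball y s) = 0 := by
      have h6 : ∀ᵐ w ∂(volume : Measure ℂ), w ∈ ball x r → 0 < Ψ a w :=
        (ae_restrict_iff' measurableSet_ball).1 hae
      have h7 : ∀ᵐ w ∂(volume : Measure ℂ), w ∉ ({y, chartAt ℂ a a} : Set ℂ) := by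
        rw [ae_iff]
        simp only [not_not]
        exact ((Set.toFinite ({y, chartAt ℂ a a} : Set ℂ)).measure_zero _)
      have h8 : ∀ᵐ w ∂(volume : Measure ℂ), w ∉ ball y s := by
        filter_upwards [h6, h7] with w h9 h10 h11
        simp only [mem_insert_iff, mem_singleton_iff, not_or] at h10
        exact h4 w h11 h10.1 h10.2 (h9 (hs' w h11).2.1)
      rw [ae_iff] at h8
      have h12 : {a : ℂ | ¬ a ∉ ball y s} = ball y s := by
        ext a; simp only [not_not]; rfl
      rwa [h12] at h8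
    exact (measure_ball_pos volume y hs).ne' h5
  have hZc : IsOpen Zᶜ := by
    rw [isOpen_iff_mem_nhds]
    intro a ha
    have h1 : ∃ᶠ c' in 𝓝[≠] a, 0 < Φ c' := by
      intro h2
      exact ha h2
    have hR := h.Rpos a
    -- a point of positivity close to the centre
    have h2 : ∀ᶠ c' in 𝓝[≠] a, c' ∈ disc a (R a / 4) :=
      nhdsWithin_le_nhds ((isOpen_disc a _).mem_nhds (mem_disc_self a (by positivity)))
    obtain ⟨c', hc'pos, hc'd, hc'ne⟩ := (h1.and_eventually (h2.and self_mem_nhdsWithin)).exists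
    set x := chartAt ℂ a c' with hx
    have hxb : x ∈ ball (chartAt ℂ a a) (R a / 4) := hc'd.2
    have hxne : x ≠ chartAt ℂ a a := by
      intro he
      exact hc'ne ((chartAt ℂ a).injOn hc'd.1 (mem_chart_source ℂ a) he)
    have hxb' : x ∈ ball (chartAt ℂ a a) (R a) := ball_subset_ball (by linarith) hxb
    have hxs : (chartAt ℂ a).symm x = c' := (chartAt ℂ a).left_inv hc'd.1
    have hpos : 0 < Ψ a x := (h.pos_iff hxb' hxne).1 (by rw [hxs]; exact hc'pos)
    have hsub : closedBall x (R a / 2) ⊆ ball (chartAt ℂ a a) (R a) := by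
      intro w hw
      rw [mem_ball] at hxb ⊢
      rw [mem_closedBall] at hw
      calc dist w (chartAt ℂ a a) ≤ dist w x + dist x (chartAt ℂ a a) := dist_triangle _ _ _
        _ < R a := by linarith
    refine mem_of_superset ((isOpen_disc a (R a / 4)).mem_nhds (mem_disc_self a (by positivity)))
      fun b hb => ?_
    have h3 := key a x (R a / 2) (by positivity) hsub hpos (chartAt ℂ a b) (by
      rw [mem_ball] at hxb ⊢
      have := hb.2
      rw [mem_preimage, mem_ball] at this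
      calc dist (chartAt ℂ a b) x ≤ dist (chartAt ℂ a b) (chartAt ℂ a a) +
            dist x (chartAt ℂ a a) := dist_triangle_right _ _ _
        _ < R a / 2 := by linarith)
    rwa [(chartAt ℂ a).left_inv hb.1] at h3
  -- `Z` is not everything
  have hZne : Z ≠ univ := by
    intro he
    obtain ⟨a, ha⟩ := h.pos
    have hR := h.Rpos a
    have h1 := key a (chartAt ℂ a a) (R a / 2) (by positivity)
      (closedBall_subset_ball (by linarith)) ha (chartAt ℂ a a) (mem_ball_self (by positivity))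
    rw [he] at h1
    exact h1 (mem_univ _)
  have hZclopen : IsClopen Z := ⟨⟨hZc⟩, hZo⟩
  have hZe : Z = ∅ := (isClopen_iff.1 hZclopen).resolve_right hZne
  have h1 : c ∉ Z := by rw [hZe]; exact notMem_empty c
  exact h1

/-- `log Ψ` is locally integrable -/
lemma LocData.locInt [ConnectedSpace C] [T2Space C] (h : LocData n R η Φ Ψ) (c : C) :
    (∀ᵐ z ∂(volume : Measure ℂ), z ∈ ball (chartAt ℂ c c) (R c) → 0 < Ψ c z) ∧
      LocallyIntegrableOn (fun z => Real.log (Ψ c z)) (ball (chartAt ℂ c c) (R c)) := by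
  have key : ∀ y ∈ ball (chartAt ℂ c c) (R c), ∃ V ∈ 𝓝 y,
      (∀ᵐ z ∂(volume.restrict V), 0 < Ψ c z) ∧ IntegrableOn (fun z => Real.log (Ψ c z)) V := by
    intro y hy
    have hyt : y ∈ (chartAt ℂ c).target := h.ball_sub c hy
    obtain ⟨r, hr, hrs⟩ := Metric.isOpen_iff.1 isOpen_ball y hy
    have h1 := h.dense ((chartAt ℂ c).symm y)
    -- points of positivity near `y`
    have h2 : ∀ᶠ c' in 𝓝[≠] ((chartAt ℂ c).symm y), c' ∈ (chartAt ℂ c).source ∧
        chartAt ℂ c c' ∈ ball y (r / 4) ∧ c' ≠ (chartAt ℂ c).symm y ∧ chartAt ℂ c c' ≠ chartAt ℂ c c := by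
      have hs : (chartAt ℂ c).symm y ∈ (chartAt ℂ c).source := (chartAt ℂ c).map_target hyt
      have h3 : ∀ᶠ c' in 𝓝 ((chartAt ℂ c).symm y), c' ∈ (chartAt ℂ c).source :=
        (chartAt ℂ c).open_source.mem_nhds hs
      have h4 : ∀ᶠ c' in 𝓝 ((chartAt ℂ c).symm y), chartAt ℂ c c' ∈ ball y (r / 4) := by
        have h5 := ((chartAt ℂ c).continuousAt hs)
        have h6 : ball y (r / 4) ∈ 𝓝 (chartAt ℂ c ((chartAt ℂ c).symm y)) := by
          rw [(chartAt ℂ c).right_inv hyt]
          exact ball_mem_nhds _ (by positivity)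
        exact h5 h6
      have h7 : ∀ᶠ c' in 𝓝[≠] ((chartAt ℂ c).symm y), c' ≠ c := by
        by_cases hc : (chartAt ℂ c).symm y = c
        · rw [hc]; exact self_mem_nhdsWithin
        · exact nhdsWithin_le_nhds (isOpen_compl_singleton.mem_nhds hc)
      filter_upwards [nhdsWithin_le_nhds h3, nhdsWithin_le_nhds h4, self_mem_nhdsWithin, h7]
        with c' a1 a2 a3 a4
      refine ⟨a1, a2, a3, fun he => a4 ?_⟩
      exact (chartAt ℂ c).injOn a1 (mem_chart_source ℂ c) he
    obtain ⟨c', hpos, h3, h4, h5, h6⟩ := (h1.and_eventually h2).exists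
    set x := chartAt ℂ c c' with hx
    have hxb : x ∈ ball (chartAt ℂ c c) (R c) := hrs (ball_subset_ball (by linarith) h4)
    have hxs : (chartAt ℂ c).symm x = c' := (chartAt ℂ c).left_inv h3
    have hΨ : 0 < Ψ c x := (h.pos_iff hxb h6).1 (by rw [hxs]; exact hpos)
    have hsub : closedBall x (r / 2) ⊆ ball (chartAt ℂ c c) (R c) := by
      intro w hw
      apply hrs
      rw [mem_ball] at h4 ⊢
      rw [mem_closedBall] at hw
      calc dist w y ≤ dist w x + dist x y := dist_triangle _ _ _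
        _ < r := by linarith
    refine ⟨ball x (r / 2), isOpen_ball.mem_nhds ?_, (h.area c).integrable (by positivity) hsub hΨ⟩
    rw [mem_ball] at h4 ⊢
    rw [dist_comm]; linarith
  constructor
  · have h1 : volume ({z | ¬ 0 < Ψ c z} ∩ ball (chartAt ℂ c c) (R c)) = 0 := by
      apply measure_null_of_locally_null
      rintro y ⟨-, hy⟩
      obtain ⟨V, hV, hV1, -⟩ := key y hy
      refine ⟨{z | ¬ 0 < Ψ c z} ∩ ball (chartAt ℂ c c) (R c) ∩ interior V, ?_, ?_⟩
      · refine inter_mem self_mem_nhdsWithin (nhdsWithin_le_nhds ?_)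
        exact interior_mem_nhds.2 hV
      · have h2 : ∀ᵐ z ∂(volume.restrict (interior V)), 0 < Ψ c z :=
          ae_restrict_of_ae_restrict_of_subset interior_subset hV1
        rw [ae_restrict_iff' isOpen_interior.measurableSet, ae_iff] at h2
        refine measure_mono_null ?_ h2
        rintro z ⟨⟨h3, -⟩, h4⟩
        simp only [mem_ofPred_eq, Classical.not_imp]
        exact ⟨h4, h3⟩
    rw [ae_iff]
    refine measure_mono_null ?_ h1
    intro z hz
    simp only [mem_ofPred_eq, Classical.not_imp] at hz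
    exact ⟨hz.2, hz.1⟩
  · intro y hy
    obtain ⟨V, hV, -, hV2⟩ := key y hy
    exact ⟨V, nhdsWithin_le_nhds hV, hV2⟩

end Pool.Agent.H816_Nef
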