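import Pool.Agent.H816_Nef.CoreB

/-!
# The degree inequality on a compact Riemann surface, part C: the main inequality
-/

set_option autoImplicit false

open MeasureTheory Set Filter Topology Metric
open scoped InnerProductSpace ContDiff Laplacian ENNReal Manifold

namespace Pool.Agent.H816_Nef

variable {C : Type} [TopologicalSpace C] [ChartedSpace ℂ C]
variable {n : C → ℤ} {R : C → ℝ} {η : C → ℝ} {Φ : C → ℝ} {Ψ : C → ℂ → ℝ}

/-- the local weight -/
noncomputable def wt (n : C → ℤ) (Ψ : C → ℂ → ℝ) (k : C) (z : ℂ) : ℝ :=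
  n k * Real.log ‖z - chartAt ℂ k k‖ + Real.log (Ψ k z)

lemma log_locInt (p : ℂ) : LocallyIntegrable (fun z : ℂ => Real.log ‖z - p‖) := by
  have h0 : ∀ K : Set ℂ, IsCompact K → IntegrableOn (fun z : ℂ => Real.log ‖z - p‖) K := by
    intro K hK
    have h1 : IntegrableOn (fun z : ℂ => Real.log ‖z‖) ((fun z => z + p) ⁻¹' K) := by
      have h2 : IsCompact ((fun z => z + p) ⁻¹' K) := by
        have := (Homeomorph.addRight p).isCompact_preimage.2 hK
        exact this
      exact R235.BD.locInt_log0.integrableOn_isCompact h2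
    have h3 := (measurePreserving_add_right (volume : Measure ℂ) p).integrableOn_comp_preimage
      (Homeomorph.addRight p).measurableEmbedding (f := fun z : ℂ => Real.log ‖z - p‖) (s := K)
    rw [← h3]
    refine h1.congr_fun_ae (Eventually.of_forall fun z => ?_)
    simp
  rw [locallyIntegrable_iff]
  exact fun K hK => h0 K hK

lemma LocData.wt_locInt [ConnectedSpace C] [T2Space C] (h : LocData n R η Φ Ψ) (c : C) :
    LocallyIntegrableOn (wt n Ψ c) (ball (chartAt ℂ c c) (R c)) := by
  have h1 := (h.locInt c).2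
  have h2 : LocallyIntegrableOn (fun z : ℂ => (n c : ℝ) * Real.log ‖z - chartAt ℂ c c‖)
      (ball (chartAt ℂ c c) (R c)) :=
    ((log_locInt _).locallyIntegrableOn _).smul (n c : ℝ)
  exact h2.add h1

lemma LocData.wt_meas (h : LocData n R η Φ Ψ) (c : C) : Measurable (wt n Ψ c) := by
  unfold wt
  have h1 : Measurable fun z : ℂ => Real.log ‖z - chartAt ℂ c c‖ :=
    Real.measurable_log.comp (measurable_norm.comp (measurable_id.sub_const _))
  exact (h1.const_mul _).add (Real.measurable_log.comp (h.area c).meas)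

/-- lower bound for the pairing of the weight with the Laplacian of a cut-off -/
lemma LocData.pair_ge [ConnectedSpace C] [T2Space C] [CompactSpace C] [IsManifold 𝓘(ℂ, ℂ) ω C]
    (h : LocData n R η Φ Ψ) (k : C) {χ : C → ℝ} (hχ : ContMDiff 𝓘(ℝ, ℂ) 𝓘(ℝ, ℝ) ∞ χ)
    (hs : tsupport χ ⊆ disc k (R k)) (h0 : ∀ c, 0 ≤ χ c) :
    2 * Real.pi * (n k * χ k) ≤
      ∫ z in ball (chartAt ℂ k k) (R k), wt n Ψ k z * lapC k χ z := by
  have hb := h.ball_sub k
  set φ := cut k (R k) χ with hφ
  have hsm : ContDiff ℝ ∞ φ := cut_smooth hb hs hχ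
  have hsm2 : ContDiff ℝ 2 φ := hsm.of_le Helper486.TP.two_le_infty
  have hc : HasCompactSupport φ := cut_compact hb hs
  have ht : tsupport φ ⊆ ball (chartAt ℂ k k) (R k) := cut_tsupport hb hs
  have h1 := (h.area k).weak isOpen_ball (h.locInt k).1 (h.locInt k).2 hsm hc ht (cut_nonneg h0)
  have h2 := R235.BD.log_translate (chartAt ℂ k k) hsm2 hc
  have h3 : Integrable fun z => Real.log (Ψ k z) * (Δ φ) z := by
    have h4 : IntegrableOn (fun z => Real.log (Ψ k z) * (Δ φ) z) (tsupport φ) := by
      have h5 := (h.locInt k).2.integrableOn_compact_subset ht hc.isCompact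
      exact h5.mul_continuousOn (R235.BD.continuous_laplacian hsm2).continuousOn hc.isCompact
    refine (integrableOn_iff_integrable_of_support_subset ?_).1 h4
    intro z hz
    by_contra hzn
    apply hz
    simp only
    rw [R235.BD.laplacian_zero_of_notMem hsm2 hzn, mul_zero]
  have h4 := R235.BD.integrable_log_laplacian (chartAt ℂ k k) hsm2 hc
  have h5 : ∫ z in ball (chartAt ℂ k k) (R k), wt n Ψ k z * lapC k χ z =
      ∫ z, wt n Ψ k z * (Δ φ) z := by
    rw [← integral_indicator measurableSet_ball]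
    congr 1
    funext z
    by_cases hz : z ∈ ball (chartAt ℂ k k) (R k)
    · rw [indicator_of_mem hz, hφ, lap_cut hz]
    · rw [indicator_of_notMem hz, R235.BD.laplacian_zero_of_notMem hsm2 (fun h' => hz (ht h')),
        mul_zero]
  have h6 : ∫ z, wt n Ψ k z * (Δ φ) z = n k * (∫ z, Real.log ‖z - chartAt ℂ k k‖ * (Δ φ) z) +
      ∫ z, Real.log (Ψ k z) * (Δ φ) z := by
    rw [← integral_const_mul, ← integral_add (h4.const_mul _) h3]
    congr 1
    funext z
    unfold wt
    ring
  rw [h5, h6, h2]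
  have h7 : φ (chartAt ℂ k k) = χ k := by
    rw [hφ, cut_of_mem (mem_ball_self (h.Rpos k)), (chartAt ℂ k).left_inv (mem_chart_source ℂ k)]
  rw [h7]
  linarith

end Pool.Agent.H816_Nef
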