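import Pool.Agent.H816_Nef.CoreC

/-!
# The degree inequality on a compact Riemann surface, part D: comparison in two discs
-/

set_option autoImplicit false

open MeasureTheory Set Filter Topology Metric
open scoped InnerProductSpace ContDiff Laplacian ENNReal Manifold

namespace Pool.Agent.H816_Nef

variable {C : Type} [TopologicalSpace C] [ChartedSpace ℂ C]
variable {n : C → ℤ} {R : C → ℝ} {η : C → ℝ} {Φ : C → ℝ} {Ψ : C → ℂ → ℝ}

/-- `∫ χ' |Δ χ|` in the disc around `l` -/
noncomputable def acoef (R : C → ℝ) (χ χ' : C → ℝ) (l : C) : ℝ :=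
  ∫ w in ball (chartAt ℂ l l) (R l), χ' ((chartAt ℂ l).symm w) * |lapC l χ w|

/-- `∫ χ' W Δ χ` in the disc around `l` -/
noncomputable def scoef (n : C → ℤ) (R : C → ℝ) (Ψ : C → ℂ → ℝ) (χ χ' : C → ℝ) (l : C) : ℝ :=
  ∫ w in ball (chartAt ℂ l l) (R l), χ' ((chartAt ℂ l).symm w) * (wt n Ψ l w * lapC l χ w)

lemma acoef_nonneg {χ χ' : C → ℝ} (h : ∀ c, 0 ≤ χ' c) (l : C) : 0 ≤ acoef R χ χ' l :=
  integral_nonneg fun _ => mul_nonneg (h _) (abs_nonneg _)

section
variable [ConnectedSpace C] [T2Space C] [CompactSpace C] [IsManifold 𝓘(ℂ, ℂ) ω C]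

/-- integrability of a locally integrable function against `χ' · (continuous)` in a disc -/
lemma integrableOn_aux {l : C} {r : ℝ} (hb : ball (chartAt ℂ l l) r ⊆ (chartAt ℂ l).target)
    {χ' : C → ℝ} (hχ' : ContMDiff 𝓘(ℝ, ℂ) 𝓘(ℝ, ℝ) ∞ χ') (hs : tsupport χ' ⊆ disc l r)
    {W : ℂ → ℝ} (hW : LocallyIntegrableOn W (ball (chartAt ℂ l l) r)) {g : ℂ → ℝ}
    (hg : ContinuousOn g (ball (chartAt ℂ l l) r)) :
    IntegrableOn (fun w => χ' ((chartAt ℂ l).symm w) * (W w * g w)) (ball (chartAt ℂ l l) r) := by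
  obtain ⟨hK, hKs⟩ := supp_compact hs
  set K := (chartAt ℂ l) '' tsupport χ' with hKd
  have h1 : IntegrableOn (fun w => W w * g w) K :=
    (hW.integrableOn_compact_subset hKs hK).mul_continuousOn (hg.mono hKs) hK
  have hcont : ContinuousOn (fun w => χ' ((chartAt ℂ l).symm w)) K := by
    have := (smooth_chart hχ' l).continuousOn
    exact this.mono (hKs.trans hb)
  have h2 : IntegrableOn (fun w => χ' ((chartAt ℂ l).symm w) * (W w * g w)) K :=
    h1.continuousOn_mul hcont hK
  refine IntegrableOn.of_forall_sdiff_eq_zero h2 measurableSet_ball ?_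
  intro w hw
  have h3 : χ' ((chartAt ℂ l).symm w) = 0 := by
    by_contra hne
    exact hw.2 ⟨_, subset_tsupport _ hne, (chartAt ℂ l).right_inv (hb hw.1)⟩
  rw [h3, zero_mul]

/-- integrability against the Laplacian of a cut-off -/
lemma integrableOn_aux2 {k : C} {r : ℝ} (hb : ball (chartAt ℂ k k) r ⊆ (chartAt ℂ k).target)
    {χ χ' : C → ℝ} (hχ : ContMDiff 𝓘(ℝ, ℂ) 𝓘(ℝ, ℝ) ∞ χ) (hs : tsupport χ ⊆ disc k r)
    (hχ' : ContMDiff 𝓘(ℝ, ℂ) 𝓘(ℝ, ℝ) ∞ χ')
    {W : ℂ → ℝ} (hW : LocallyIntegrableOn W (ball (chartAt ℂ k k) r)) :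
    IntegrableOn (fun z => χ' ((chartAt ℂ k).symm z) * (W z * lapC k χ z))
      (ball (chartAt ℂ k k) r) := by
  obtain ⟨hK, hKs⟩ := supp_compact hs
  set K := (chartAt ℂ k) '' tsupport χ with hKd
  have h1 : IntegrableOn (fun w => W w * lapC k χ w) K :=
    (hW.integrableOn_compact_subset hKs hK).mul_continuousOn
      ((continuousOn_lapC hχ k).mono (hKs.trans hb)) hK
  have hcont : ContinuousOn (fun w => χ' ((chartAt ℂ k).symm w)) K := by
    have := (smooth_chart hχ' k).continuousOn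
    exact this.mono (hKs.trans hb)
  have h2 : IntegrableOn (fun w => χ' ((chartAt ℂ k).symm w) * (W w * lapC k χ w)) K :=
    h1.continuousOn_mul hcont hK
  refine IntegrableOn.of_forall_sdiff_eq_zero h2 measurableSet_ball ?_
  intro w hw
  have h3 : lapC k χ w = 0 := by
    apply lapC_zero (hb hw.1)
    intro hne
    exact hw.2 ⟨_, hne, (chartAt ℂ k).right_inv (hb hw.1)⟩
  rw [h3, mul_zero, mul_zero]

/-- the comparison between the discs around `k` and `l` -/
lemma LocData.compare (h : LocData n R η Φ Ψ) (k l : C) {χ χ' : C → ℝ}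
    (hχ : ContMDiff 𝓘(ℝ, ℂ) 𝓘(ℝ, ℝ) ∞ χ) (hs : tsupport χ ⊆ disc k (R k))
    (hχ' : ContMDiff 𝓘(ℝ, ℂ) 𝓘(ℝ, ℝ) ∞ χ') (hs' : tsupport χ' ⊆ disc l (R l))
    (h0' : ∀ c, 0 ≤ χ' c) :
    ∫ z in ball (chartAt ℂ k k) (R k), χ' ((chartAt ℂ k).symm z) * (wt n Ψ k z * lapC k χ z) ≤
      scoef n R Ψ χ χ' l + (η k + η l) * acoef R χ χ' l := by
  classical
  have hbk := h.ball_sub k
  have hbl := h.ball_sub l
  set g : C → ℝ := (disc k (R k) ∩ disc l (R l)).indicator
    (fun c => χ' c * wt n Ψ k (chartAt ℂ k c)) with hg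
  have hg1 : ∀ c, c ∈ disc k (R k) → c ∈ disc l (R l) → g c = χ' c * wt n Ψ k (chartAt ℂ k c) :=
    fun c h1 h2 => indicator_of_mem (s := disc k (R k) ∩ disc l (R l)) ⟨h1, h2⟩ _
  have hg2 : ∀ c, c ∉ disc k (R k) → g c = 0 := fun c h1 =>
    indicator_of_notMem (fun h2 => h1 h2.1) _
  have hg3 : ∀ c, c ∉ disc l (R l) → g c = 0 := fun c h1 =>
    indicator_of_notMem (fun h2 => h1 h2.2) _
  have hχ'0 : ∀ c, c ∉ disc l (R l) → χ' c = 0 := fun c h1 => by
    by_contra hne
    exact h1 (hs' (subset_tsupport _ hne))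
  -- indicator functions agree in the chart `k`
  have e1 : (ball (chartAt ℂ k k) (R k)).indicator
      (fun z => χ' ((chartAt ℂ k).symm z) * (wt n Ψ k z * lapC k χ z)) =
      ((chartAt ℂ k).symm.trans (chartAt ℂ l)).source.indicator
        (fun z => g ((chartAt ℂ k).symm z) * lapC k χ z) := by
    funext z
    by_cases hz : z ∈ ball (chartAt ℂ k k) (R k)
    · rw [indicator_of_mem hz]
      have hzd := symm_mem_disc hbk hz
      by_cases hzl : (chartAt ℂ k).symm z ∈ disc l (R l)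
      · have hzs : z ∈ ((chartAt ℂ k).symm.trans (chartAt ℂ l)).source := by
          rw [OpenPartialHomeomorph.trans_source]
          exact ⟨hbk hz, hzl.1⟩
        rw [indicator_of_mem hzs, hg1 _ hzd hzl, (chartAt ℂ k).right_inv (hbk hz)]
        ring
      · rw [hχ'0 _ hzl, zero_mul]
        by_cases hzs : z ∈ ((chartAt ℂ k).symm.trans (chartAt ℂ l)).source
        · rw [indicator_of_mem hzs, hg3 _ hzl, zero_mul]
        · rw [indicator_of_notMem hzs]
    · rw [indicator_of_notMem hz]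
      by_cases hzs : z ∈ ((chartAt ℂ k).symm.trans (chartAt ℂ l)).source
      · have hzt : z ∈ (chartAt ℂ k).target := by
          rw [OpenPartialHomeomorph.trans_source] at hzs
          exact hzs.1
        have hzd : (chartAt ℂ k).symm z ∉ disc k (R k) := fun h' =>
          hz ((symm_mem_disc_iff hzt).1 h')
        rw [indicator_of_mem hzs, hg2 _ hzd, zero_mul]
      · rw [indicator_of_notMem hzs]
  -- indicator functions agree in the chart `l`
  have e2 : (ball (chartAt ℂ l l) (R l)).indicator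
      (fun w => g ((chartAt ℂ l).symm w) * lapC l χ w) =
      ((chartAt ℂ l).symm.trans (chartAt ℂ k)).source.indicator
        (fun w => g ((chartAt ℂ l).symm w) * lapC l χ w) := by
    funext w
    by_cases hw : w ∈ ball (chartAt ℂ l l) (R l)
    · rw [indicator_of_mem hw]
      by_cases hws : w ∈ ((chartAt ℂ l).symm.trans (chartAt ℂ k)).source
      · rw [indicator_of_mem hws]
      · rw [indicator_of_notMem hws]
        have h1 : (chartAt ℂ l).symm w ∉ disc k (R k) := by
          intro h2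
          apply hws
          rw [OpenPartialHomeomorph.trans_source]
          exact ⟨hbl hw, h2.1⟩
        rw [hg2 _ h1, zero_mul]
    · rw [indicator_of_notMem hw]
      by_cases hws : w ∈ ((chartAt ℂ l).symm.trans (chartAt ℂ k)).source
      · have hwt : w ∈ (chartAt ℂ l).target := by
          rw [OpenPartialHomeomorph.trans_source] at hws
          exact hws.1
        have h1 : (chartAt ℂ l).symm w ∉ disc l (R l) := fun h' =>
          hw ((symm_mem_disc_iff hwt).1 h')
        rw [indicator_of_mem hws, hg3 _ h1, zero_mul]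
      · rw [indicator_of_notMem hws]
  have hsrc1 : MeasurableSet ((chartAt ℂ k).symm.trans (chartAt ℂ l)).source :=
    ((chartAt ℂ k).symm.trans (chartAt ℂ l)).open_source.measurableSet
  have hsrc2 : MeasurableSet ((chartAt ℂ l).symm.trans (chartAt ℂ k)).source :=
    ((chartAt ℂ l).symm.trans (chartAt ℂ k)).open_source.measurableSet
  have i1 : ∫ z in ball (chartAt ℂ k k) (R k),
      χ' ((chartAt ℂ k).symm z) * (wt n Ψ k z * lapC k χ z) =
      ∫ w in ball (chartAt ℂ l l) (R l), g ((chartAt ℂ l).symm w) * lapC l χ w := by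
    rw [← integral_indicator measurableSet_ball, e1, integral_indicator hsrc1,
      integral_trans hχ g k l, ← integral_indicator hsrc2, ← e2,
      integral_indicator measurableSet_ball]
  have i2 : IntegrableOn (fun w => g ((chartAt ℂ l).symm w) * lapC l χ w)
      (ball (chartAt ℂ l l) (R l)) := by
    have h1 := integrableOn_aux2 hbk hχ hs hχ' (h.wt_locInt k)
    rw [← integrable_indicator_iff measurableSet_ball, e1, integrable_indicator_iff hsrc1] at h1
    have h2 := integrable_trans hχ g k l h1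
    rw [← integrable_indicator_iff hsrc2, ← e2, integrable_indicator_iff measurableSet_ball] at h2
    exact h2
  have i3 : IntegrableOn (fun w => χ' ((chartAt ℂ l).symm w) * (wt n Ψ l w * lapC l χ w))
      (ball (chartAt ℂ l l) (R l)) :=
    integrableOn_aux hbl hχ' hs' (h.wt_locInt l) ((continuousOn_lapC hχ l).mono hbl)
  have i4 : IntegrableOn (fun w => χ' ((chartAt ℂ l).symm w) * |lapC l χ w|)
      (ball (chartAt ℂ l l) (R l)) := by
    have h1 : LocallyIntegrableOn (fun _ : ℂ => (1 : ℝ)) (ball (chartAt ℂ l l) (R l)) :=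
      (locallyIntegrable_const 1).locallyIntegrableOn _
    have h2 := integrableOn_aux hbl hχ' hs' h1 ((continuousOn_lapC hχ l).mono hbl).abs
    simpa using h2
  rw [i1]
  unfold scoef acoef
  rw [← integral_const_mul, ← integral_add i3 (i4.const_mul _)]
  refine integral_mono_ae i2 (i3.add (i4.const_mul _)) ?_
  have h7 : ∀ᵐ w ∂(volume : Measure ℂ), w ∉ ({chartAt ℂ l l, chartAt ℂ l k} : Set ℂ) := by
    rw [ae_iff]
    simp only [not_not]
    exact ((Set.toFinite ({chartAt ℂ l l, chartAt ℂ l k} : Set ℂ)).measure_zero _)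
  filter_upwards [ae_restrict_mem measurableSet_ball, ae_restrict_of_ae (h.locInt l).1,
    ae_restrict_of_ae h7] with w hw hpos hne
  simp only [mem_insert_iff, mem_singleton_iff, not_or] at hne
  have hΨl := hpos hw
  have hwl := symm_mem_disc hbl hw
  show g ((chartAt ℂ l).symm w) * lapC l χ w ≤
    χ' ((chartAt ℂ l).symm w) * (wt n Ψ l w * lapC l χ w) +
      (η k + η l) * (χ' ((chartAt ℂ l).symm w) * |lapC l χ w|)
  by_cases hwk : (chartAt ℂ l).symm w ∈ disc k (R k)
  · rw [hg1 _ hwk hwl]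
    set c := (chartAt ℂ l).symm w with hc
    set z := chartAt ℂ k c with hz
    have hzb : z ∈ ball (chartAt ℂ k k) (R k) := hwk.2
    have hzs : (chartAt ℂ k).symm z = c := (chartAt ℂ k).left_inv hwk.1
    have hzne : z ≠ chartAt ℂ k k := by
      intro he
      have h1 : c = k := (chartAt ℂ k).injOn hwk.1 (mem_chart_source ℂ k) he
      apply hne.2
      rw [← h1, hc, (chartAt ℂ l).right_inv (hbl hw)]
    have hΦ : 0 < Φ c := (h.pos_iff hw hne.1).2 hΨl
    have hΨk : 0 < Ψ k z := (h.pos_iff hzb hzne).1 (by rw [hzs]; exact hΦ)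
    obtain ⟨a1, a2⟩ := h.cmp k z hzb hzne
    obtain ⟨b1, b2⟩ := h.cmp l w hw hne.1
    rw [hzs] at a1 a2
    have hXk : 0 < ‖z - chartAt ℂ k k‖ ^ (n k) * Ψ k z :=
      mul_pos (zpow_pos (norm_pos_iff.2 (sub_ne_zero.2 hzne)) _) hΨk
    have hXl : 0 < ‖w - chartAt ℂ l l‖ ^ (n l) * Ψ l w :=
      mul_pos (zpow_pos (norm_pos_iff.2 (sub_ne_zero.2 hne.1)) _) hΨl
    have hlk : Real.log (‖z - chartAt ℂ k k‖ ^ (n k) * Ψ k z) = wt n Ψ k z := by
      rw [Real.log_mul (zpow_pos (norm_pos_iff.2 (sub_ne_zero.2 hzne)) _).ne' hΨk.ne',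
        Real.log_zpow]
      rfl
    have hll : Real.log (‖w - chartAt ℂ l l‖ ^ (n l) * Ψ l w) = wt n Ψ l w := by
      rw [Real.log_mul (zpow_pos (norm_pos_iff.2 (sub_ne_zero.2 hne.1)) _).ne' hΨl.ne',
        Real.log_zpow]
      rfl
    have c1 := Real.log_le_log (by positivity) a1
    have c2 := Real.log_le_log hΦ a2
    have c3 := Real.log_le_log (by positivity) b1
    have c4 := Real.log_le_log hΦ b2
    rw [Real.log_mul (Real.exp_pos _).ne' hXk.ne', Real.log_exp, hlk] at c1 c2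
    rw [Real.log_mul (Real.exp_pos _).ne' hXl.ne', Real.log_exp, hll] at c3 c4
    have d1 : |wt n Ψ k z - wt n Ψ l w| ≤ η k + η l := by
      rw [abs_le]; constructor <;> linarith
    have d2 : (wt n Ψ k z - wt n Ψ l w) * lapC l χ w ≤ (η k + η l) * |lapC l χ w| := by
      calc (wt n Ψ k z - wt n Ψ l w) * lapC l χ w ≤ |(wt n Ψ k z - wt n Ψ l w) * lapC l χ w| :=
            le_abs_self _
        _ = |wt n Ψ k z - wt n Ψ l w| * |lapC l χ w| := abs_mul _ _
        _ ≤ _ := mul_le_mul_of_nonneg_right d1 (abs_nonneg _)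
    have d3 := mul_le_mul_of_nonneg_left d2 (h0' c)
    nlinarith [d3]
  · rw [hg2 _ hwk]
    have h1 : lapC l χ w = 0 := lapC_zero (hbl hw) fun h' => hwk (hs h')
    rw [h1]
    simp

end

end Pool.Agent.H816_Nef
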