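import Pool.Agent.H816_Nef.Push

/-!
# Sheets of a holomorphic covering
-/

set_option autoImplicit false

open Set Filter Topology Metric
open scoped ContDiff Manifold

namespace Pool.Agent.H816_Nef

variable {E : Type} [NormedAddCommGroup E] [NormedSpace ℂ E]
variable {X : Type} [TopologicalSpace X] [ChartedSpace E X] [IsManifold 𝓘(ℂ, E) ω X]
variable {Y : Type} [TopologicalSpace Y] [ChartedSpace E Y] [IsManifold 𝓘(ℂ, E) ω Y]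

/-- a local continuous inverse of a local diffeomorphism is holomorphic -/
lemma section_hol {p : Y → X} (hpl : IsLocalDiffeomorph 𝓘(ℂ, E) 𝓘(ℂ, E) ω p) {j : X → Y} {x : X}
    (hj : ContinuousAt j x) (hpj : ∀ᶠ x' in 𝓝 x, p (j x') = x') :
    ContMDiffAt 𝓘(ℂ, E) 𝓘(ℂ, E) ω j x := by
  obtain ⟨Φ, hΦ, hΦe⟩ := hpl (j x)
  have h1 : ∀ᶠ x' in 𝓝 x, j x' ∈ Φ.source := hj.eventually (Φ.open_source.mem_nhds hΦ)
  have h2 : ∀ᶠ x' in 𝓝 x, j x' = Φ.symm x' := by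
    filter_upwards [h1, hpj] with x' a1 a2
    have a3 : Φ (j x') = x' := by rw [← hΦe a1, a2]
    calc j x' = Φ.symm (Φ (j x')) := (Φ.left_inv a1).symm
      _ = Φ.symm x' := by rw [a3]
  have hx : x ∈ Φ.target := by
    have a3 : Φ (j x) = x := by rw [← hΦe hΦ]; exact hpj.self_of_nhds
    rw [← a3]
    exact Φ.map_source hΦ
  have h3 : ContMDiffAt 𝓘(ℂ, E) 𝓘(ℂ, E) ω Φ.symm x :=
    Φ.contMDiffOn_invFun.contMDiffAt (Φ.open_target.mem_nhds hx)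
  exact h3.congr_of_eventuallyEq h2

/-- Sheets over a neighbourhood of a point. -/
structure Sheets (p : Y → X) (V : Set X) (ι : Type) (j : ι → X → Y) : Prop where
  isOpen : IsOpen V
  hol : ∀ i, ∀ x ∈ V, ContMDiffAt 𝓘(ℂ, E) 𝓘(ℂ, E) ω (j i) x
  inv : ∀ i, ∀ x ∈ V, p (j i x) = x
  surj : ∀ y, p y ∈ V → ∃ i, j i (p y) = y

lemma exists_sheets {p : Y → X} (hp : IsCoveringMap p)
    (hpl : IsLocalDiffeomorph 𝓘(ℂ, E) 𝓘(ℂ, E) ω p) (x₀ : X) :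
    ∃ V : Set X, x₀ ∈ V ∧ ∃ (ι : Type) (j : ι → X → Y), Sheets (E := E) p V ι j := by
  classical
  obtain ⟨_, U, hxU, hU, hfU, H, hH⟩ := hp x₀
  set j : (p ⁻¹' {x₀}) → X → Y := fun i x =>
    if hx : x ∈ U then (H.symm (⟨x, hx⟩, i)).1 else i.1 with hj
  have hj1 : ∀ i, ∀ x, ∀ hx : x ∈ U, j i x = (H.symm (⟨x, hx⟩, i)).1 := by
    intro i x hx
    rw [hj]; simp only; rw [dif_pos hx]
  have hinv : ∀ i, ∀ x ∈ U, p (j i x) = x := by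
    intro i x hx
    rw [hj1 i x hx, ← hH, H.apply_symm_apply]
  refine ⟨U, hxU, p ⁻¹' {x₀}, j, hU, ?_, hinv, ?_⟩
  · intro i x hx
    refine section_hol hpl ?_ ?_
    · have h1 : ContinuousOn (j i) U := by
        rw [continuousOn_iff_continuous_domRestrict]
        have h2 : U.domRestrict (j i) = fun x : U => (H.symm (x, i)).1 := by
          funext x
          exact hj1 i x.1 x.2
        rw [h2]
        exact continuous_subtype_val.comp (H.symm.continuous.comp (by fun_prop))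
      exact h1.continuousAt (hU.mem_nhds hx)
    · filter_upwards [hU.mem_nhds hx] with x' hx' using hinv i x' hx'
  · intro y hy
    refine ⟨(H ⟨y, hy⟩).2, ?_⟩
    rw [hj1 _ _ hy]
    have h1 : ((⟨p y, hy⟩ : U), (H ⟨y, hy⟩).2) = H ⟨y, hy⟩ := by
      apply Prod.ext
      · apply Subtype.ext
        exact (hH ⟨y, hy⟩).symm
      · rfl
    rw [h1, H.symm_apply_apply]

variable {p : Y → X} {V : Set X} {ι : Type} {j : ι → X → Y}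

lemma Sheets.comp_eq (h : Sheets (E := E) p V ι j)
    (hpl : IsLocalDiffeomorph 𝓘(ℂ, E) 𝓘(ℂ, E) ω p) {y : Y} (hy : p y ∈ V) {i : ι}
    (hi : j i (p y) = y) : ∀ᶠ y' in 𝓝 y, j i (p y') = y' := by
  obtain ⟨Φ, hΦ, hΦe⟩ := hpl y
  have hpc : ContinuousAt p y := ((hpl y).contMDiffAt).continuousAt
  have h1 : ∀ᶠ y' in 𝓝 y, p y' ∈ V := hpc.eventually (h.isOpen.mem_nhds hy)
  have h2 : ∀ᶠ y' in 𝓝 y, y' ∈ Φ.source := Φ.open_source.mem_nhds hΦ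
  have h3 : ContinuousAt (fun y' => j i (p y')) y :=
    ContinuousAt.comp (g := j i) ((h.hol i _ hy).continuousAt) hpc
  have h4 : ∀ᶠ y' in 𝓝 y, j i (p y') ∈ Φ.source := by
    apply h3.eventually
    have h5 : (fun y' => j i (p y')) y = y := hi
    rw [h5]
    exact Φ.open_source.mem_nhds hΦ
  filter_upwards [h1, h2, h4] with y' a1 a2 a3
  apply Φ.injOn a3 a2
  show Φ _ = Φ _
  rw [← hΦe a3, ← hΦe a2]
  exact h.inv i _ a1

lemma tb_ext {a b : Y} {va : TangentSpace 𝓘(ℂ, E) a} {vb : TangentSpace 𝓘(ℂ, E) b} (hab : a = b)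
    (h : (va : E) = (vb : E)) :
    (⟨a, va⟩ : TangentBundle 𝓘(ℂ, E) Y) = ⟨b, vb⟩ := by
  subst hab
  exact congrArg _ h

lemma tangentMap_of_eventually_id {g : Y → Y} {w : TangentBundle 𝓘(ℂ, E) Y}
    (h : ∀ᶠ y in 𝓝 w.proj, g y = y) : tangentMap 𝓘(ℂ, E) 𝓘(ℂ, E) g w = w := by
  have h2 : mfderiv 𝓘(ℂ, E) 𝓘(ℂ, E) g w.proj = mfderiv 𝓘(ℂ, E) 𝓘(ℂ, E) id w.proj :=
    Filter.EventuallyEq.mfderiv_eq h
  have h3 : tangentMap 𝓘(ℂ, E) 𝓘(ℂ, E) g w = (⟨g w.proj,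
    mfderiv 𝓘(ℂ, E) 𝓘(ℂ, E) g w.proj w.snd⟩ : TangentBundle 𝓘(ℂ, E) Y) := rfl
  rw [h3]
  have h4 : w = (⟨w.proj, w.snd⟩ : TangentBundle 𝓘(ℂ, E) Y) := rfl
  rw [h4]
  refine tb_ext h.self_of_nhds ?_
  show (mfderiv 𝓘(ℂ, E) 𝓘(ℂ, E) g w.proj w.snd : E) = (w.snd : E)
  have h5 : (mfderiv 𝓘(ℂ, E) 𝓘(ℂ, E) g w.proj w.snd : E) =
      (mfderiv 𝓘(ℂ, E) 𝓘(ℂ, E) (id : Y → Y) w.proj w.snd : E) := by
    exact congrArg (fun L : E →L[ℂ] E => L w.snd) h2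
  rw [h5, mfderiv_id]
  rfl

/-- lifts of tangent vectors -/
lemma Sheets.lift (h : Sheets (E := E) p V ι j)
    (hpl : IsLocalDiffeomorph 𝓘(ℂ, E) 𝓘(ℂ, E) ω p) {w : TangentBundle 𝓘(ℂ, E) Y}
    (hw : p w.proj ∈ V) : ∃ i, j i (p w.proj) = w.proj ∧ tangentMap 𝓘(ℂ, E) 𝓘(ℂ, E) (j i)
      (tangentMap 𝓘(ℂ, E) 𝓘(ℂ, E) p w) = w := by
  obtain ⟨i, hi⟩ := h.surj _ hw
  refine ⟨i, hi, ?_⟩
  have hpd : MDifferentiableAt 𝓘(ℂ, E) 𝓘(ℂ, E) p w.proj :=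
    (hpl w.proj).contMDiffAt.mdifferentiableAt (by simp)
  have hjd : MDifferentiableAt 𝓘(ℂ, E) 𝓘(ℂ, E) (j i) (p w.proj) :=
    (h.hol i _ hw).mdifferentiableAt (by simp)
  have h1 := tangentMap_comp_at w hjd hpd
  rw [← h1]
  exact tangentMap_of_eventually_id (h.comp_eq hpl hw hi)

lemma Sheets.proj (h : Sheets (E := E) p V ι j)
    (hpl : IsLocalDiffeomorph 𝓘(ℂ, E) 𝓘(ℂ, E) ω p) {v : TangentBundle 𝓘(ℂ, E) X}
    (hv : v.proj ∈ V) (i : ι) : tangentMap 𝓘(ℂ, E) 𝓘(ℂ, E) p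
      (tangentMap 𝓘(ℂ, E) 𝓘(ℂ, E) (j i) v) = v := by
  have hpd : MDifferentiableAt 𝓘(ℂ, E) 𝓘(ℂ, E) p (j i v.proj) :=
    (hpl _).contMDiffAt.mdifferentiableAt (by simp)
  have hjd : MDifferentiableAt 𝓘(ℂ, E) 𝓘(ℂ, E) (j i) v.proj :=
    (h.hol i _ hv).mdifferentiableAt (by simp)
  have h1 := tangentMap_comp_at v hpd hjd
  rw [← h1]
  apply tangentMap_of_eventually_id
  filter_upwards [h.isOpen.mem_nhds hv] with x hx using h.inv i x hx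

end Pool.Agent.H816_Nef
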