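import Pool.Agent.H816_Nef.LemK
import Pool.Agent.H816_Nef.Sheets
import Pool.Agent.PNB.Defs

/-!
# Pulling back a Kähler form to an open subset of a vector space which covers the manifold
-/

set_option autoImplicit false

open Set Filter Topology Metric MeasureTheory
open scoped ContDiff Manifold

namespace Pool.Agent.H816_Nef

variable {E : Type} [NormedAddCommGroup E] [NormedSpace ℂ E]
variable {X : Type} [TopologicalSpace X] [ChartedSpace E X] [IsManifold 𝓘(ℂ, E) ω X]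
variable {U : TopologicalSpace.Opens E} {p : U → X} {x₀ : X}

open Classical in
/-- extension of a map from an open set to the vector space by a constant -/
noncomputable def pe (p : U → X) (x₀ : X) (y : E) : X := if h : y ∈ U then p ⟨y, h⟩ else x₀

omit [TopologicalSpace X] [ChartedSpace E X] [IsManifold 𝓘(ℂ, E) ω X] in
lemma pe_apply {y : E} (hy : y ∈ U) : pe p x₀ y = p ⟨y, hy⟩ := dif_pos hy

omit [TopologicalSpace X] [ChartedSpace E X] [IsManifold 𝓘(ℂ, E) ω X] in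
lemma pe_coe (y : U) : pe p x₀ (y : E) = p y := pe_apply y.2

lemma pe_contMDiffAt (hpl : IsLocalDiffeomorph 𝓘(ℂ, E) 𝓘(ℂ, E) ω p) {y : E} (hy : y ∈ U) :
    ContMDiffAt 𝓘(ℂ, E) 𝓘(ℂ, E) ω (pe p x₀) y := by
  have h1 : ContMDiffAt 𝓘(ℂ, E) 𝓘(ℂ, E) ω p ⟨y, hy⟩ := (hpl ⟨y, hy⟩).contMDiffAt
  have h2 : p = fun y : U => pe p x₀ (y : E) := by
    funext y; exact (pe_coe y).symm
  rw [h2] at h1
  exact (contMDiffAt_subtype_iff (U := U) (f := pe p x₀) (x := ⟨y, hy⟩)).1 h1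

lemma pe_section (hpl : IsLocalDiffeomorph 𝓘(ℂ, E) 𝓘(ℂ, E) ω p) {y : E} (hy : y ∈ U) :
    ∃ J : X → E, ContMDiffAt 𝓘(ℂ, E) 𝓘(ℂ, E) ω J (pe p x₀ y) ∧ J (pe p x₀ y) = y ∧
      (∀ᶠ x in 𝓝 (pe p x₀ y), J x ∈ U ∧ pe p x₀ (J x) = x) ∧
      ∀ᶠ y' in 𝓝 y, J (pe p x₀ y') = y' := by
  have hloc := hpl ⟨y, hy⟩
  set Φ := hloc.localInverse with hΦ
  have hpy : pe p x₀ y = p ⟨y, hy⟩ := pe_apply hy
  refine ⟨fun x => (Φ x : E), ?_, ?_, ?_, ?_⟩
  · rw [hpy]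
    exact contMDiff_subtype_val.contMDiffAt.comp _ hloc.localInverse_contMDiffAt
  · rw [hpy]
    exact congrArg Subtype.val (hloc.localInverse_eventuallyEq_left.self_of_nhds)
  · rw [hpy]
    filter_upwards [hloc.localInverse_eventuallyEq_right] with x hx
    refine ⟨(Φ x).2, ?_⟩
    rw [pe_coe]
    exact hx
  · have h1 : ∀ᶠ y' : U in 𝓝 ⟨y, hy⟩, Φ (p y') = y' := hloc.localInverse_eventuallyEq_left
    have h2 : ∀ᶠ y' in 𝓝 y, ∀ h : y' ∈ U, Φ (p ⟨y', h⟩) = ⟨y', h⟩ := by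
      have h3 : map (Subtype.val : U → E) (𝓝 ⟨y, hy⟩) = 𝓝 y :=
        map_nhds_subtype_coe_eq_nhds hy (U.isOpen.mem_nhds hy)
      rw [← h3, eventually_map]
      filter_upwards [h1] with y' hy' h
      exact hy'
    filter_upwards [h2, U.isOpen.mem_nhds hy] with y' h3 h4
    rw [pe_apply h4, h3 h4]

/-- complex analytic maps into a complex manifold are real smooth -/
lemma contMDiffAt_real {F : Type} [NormedAddCommGroup F] [NormedSpace ℂ F] {f : F → X} {y : F}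
    (hf : ContMDiffAt 𝓘(ℂ, F) 𝓘(ℂ, E) ω f y) : ContMDiffAt 𝓘(ℝ, F) 𝓘(ℝ, E) ∞ f y := by
  rw [contMDiffAt_iff] at hf ⊢
  refine ⟨hf.1, ?_⟩
  have h1 := (hf.2.restrict_scalars ℝ).of_le (show (∞ : WithTop ℕ∞) ≤ ω from le_top)
  exact h1

section Kaehler

variable (κ : PNB.ClosedForm E X)

/-- the pulled back potentials -/
noncomputable def pot (κ : PNB.ClosedForm E X) (p : U → X) (x₀ : X) (j : κ.J) (y : E) : ℝ :=
  κ.pot j (pe p x₀ y)

lemma cont_pe (hpl : IsLocalDiffeomorph 𝓘(ℂ, E) 𝓘(ℂ, E) ω p) :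
    ContinuousOn (pe p x₀) U := fun y hy => (pe_contMDiffAt hpl hy).continuousAt.continuousWithinAt

lemma isOpen_potdom (hpl : IsLocalDiffeomorph 𝓘(ℂ, E) 𝓘(ℂ, E) ω p) (j : κ.J) :
    IsOpen {y : E | y ∈ U ∧ pe p x₀ y ∈ κ.V j} :=
  (cont_pe hpl).isOpen_inter_preimage U.isOpen (κ.isOpen_V j)

lemma contDiffAt_pot (hpl : IsLocalDiffeomorph 𝓘(ℂ, E) 𝓘(ℂ, E) ω p) {j : κ.J} {y : E}
    (hy : y ∈ U) (hj : pe p x₀ y ∈ κ.V j) : ContDiffAt ℝ ∞ (pot κ p x₀ j) y := by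
  have h1 : ContMDiffAt 𝓘(ℝ, E) 𝓘(ℝ, ℝ) ∞ (κ.pot j) (pe p x₀ y) :=
    (κ.smooth j).contMDiffAt ((κ.isOpen_V j).mem_nhds hj)
  have h2 := h1.comp y (contMDiffAt_real (pe_contMDiffAt (x₀ := x₀) hpl hy))
  exact h2.contDiffAt

/-- affine discs -/
lemma isHolDisc_line (hpl : IsLocalDiffeomorph 𝓘(ℂ, E) 𝓘(ℂ, E) ω p) {y : E} (hy : y ∈ U)
    {S : Set X} (hS : IsOpen S) (hyS : pe p x₀ y ∈ S) (v : E) : ∃ r : ℝ, 0 < r ∧
      PNB.IsHolDisc E S r (fun ζ : ℂ => pe p x₀ (y + ζ • v)) := by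
  have hO : IsOpen {y : E | y ∈ U ∧ pe p x₀ y ∈ S} :=
    (cont_pe hpl).isOpen_inter_preimage U.isOpen hS
  have hc : Continuous fun ζ : ℂ => y + ζ • v := by fun_prop
  have h0 : (fun ζ : ℂ => y + ζ • v) 0 ∈ {y : E | y ∈ U ∧ pe p x₀ y ∈ S} := by
    simpa using ⟨hy, hyS⟩
  obtain ⟨r, hr, hrb⟩ := Metric.mem_nhds_iff.1 (hc.continuousAt.preimage_mem_nhds (hO.mem_nhds h0))
  refine ⟨r, hr, ?_, fun ζ hζ => (hrb hζ).2⟩
  intro ζ hζ
  have h1 : ContMDiffAt 𝓘(ℂ, ℂ) 𝓘(ℂ, E) ω (fun ζ : ℂ => y + ζ • v) ζ := by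
    have : ContDiffAt ℂ ω (fun ζ : ℂ => y + ζ • v) ζ := by fun_prop
    exact this.contMDiffAt
  exact (ContMDiffAt.comp (g := pe p x₀) (f := fun ζ : ℂ => y + ζ • v) ζ
    (pe_contMDiffAt hpl (hrb hζ).1) h1).contMDiffWithinAt

lemma deriv_line (y v : E) (ζ : ℂ) : deriv (fun ζ : ℂ => y + ζ • v) ζ = v := by
  have : HasDerivAt (fun t : ℂ => y + t • v) ((1 : ℂ) • v) ζ :=
    ((hasDerivAt_id ζ).smul_const v).const_add y
  rw [this.deriv, one_smul]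

lemma c2_line {φ : E → ℝ} {y v : E} (hφ : ContDiffAt ℝ 2 φ y) :
    ContDiffAt ℝ 2 (fun ζ : ℂ => φ (y + ζ • v)) 0 := by
  have h1 : ContDiffAt ℝ 2 (fun ζ : ℂ => y + ζ • v) 0 := by
    have : ContDiffAt ℂ 2 (fun ζ : ℂ => y + ζ • v) 0 := by fun_prop
    exact this.restrict_scalars ℝ
  refine ContDiffAt.comp (f := fun ζ : ℂ => y + ζ • v) 0 ?_ h1
  simpa using hφ

lemma levi_eq_laplaceAtZero [CompleteSpace E] {φ : E → ℝ} {y v : E} (hφ : ContDiffAt ℝ 2 φ y) :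
    PNB.laplaceAtZero (fun ζ : ℂ => φ (y + ζ • v)) = levi φ y v := by
  rw [laplaceAtZero_eq (c2_line hφ)]
  have hf : AnalyticAt ℂ (fun ζ : ℂ => y + ζ • v) 0 := by fun_prop
  have h1 := laplacian_comp_hol (φ := φ) hf (by simpa using hφ)
  rw [h1, deriv_line]
  simp

/-- the system of local potentials on the open set `U` -/
noncomputable def potSys [CompleteSpace E] (hκ : κ.IsKahler) (p : U → X)
    (hpl : IsLocalDiffeomorph 𝓘(ℂ, E) 𝓘(ℂ, E) ω p) (x₀ : X) : PotSys E (U : Set E) where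
  J := κ.J
  O := fun j => {y : E | y ∈ U ∧ pe p x₀ y ∈ κ.V j}
  φ := pot κ p x₀
  isOpen_O := isOpen_potdom κ hpl
  cover := fun y hy => by
    obtain ⟨j, hj⟩ := κ.cover (pe p x₀ y)
    exact ⟨j, hy, hj⟩
  smooth := fun j y hy => (contDiffAt_pot κ hpl hy.1 hy.2).contDiffWithinAt
  plh := by
    intro j k y hy v
    have h1 := (contDiffAt_pot κ hpl hy.1.1 hy.1.2).of_le PotSys.two_le
    have h2 := (contDiffAt_pot κ hpl hy.2.1 hy.2.2).of_le PotSys.two_le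
    obtain ⟨r, hr, hd⟩ := isHolDisc_line (x₀ := x₀) hpl hy.1.1
      ((κ.isOpen_V j).inter (κ.isOpen_V k)) ⟨hy.1.2, hy.2.2⟩ v
    have h3 := κ.pluriharmonic j k r _ hr hd
    have h4 : PNB.laplaceAtZero (fun ζ : ℂ => pot κ p x₀ j (y + ζ • v) -
        pot κ p x₀ k (y + ζ • v)) = 0 := h3
    have h5 := levi_eq_laplaceAtZero (φ := fun y => pot κ p x₀ j y - pot κ p x₀ k y) (y := y)
      (v := v) (h1.sub h2)
    rw [h4, levi_sub h1 h2] at h5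
    linarith
  pos := by
    intro j y hy v hv
    have h1 := (contDiffAt_pot κ hpl hy.1 hy.2).of_le PotSys.two_le
    obtain ⟨r, hr, hd⟩ := isHolDisc_line (x₀ := x₀) hpl hy.1 (κ.isOpen_V j) hy.2 v
    rw [← levi_eq_laplaceAtZero h1]
    refine hκ j r _ hr hd ?_
    -- the derivative does not vanish
    intro h0
    obtain ⟨J, hJ1, hJ2, -, hJ4⟩ := pe_section (x₀ := x₀) hpl hy.1
    have hline : ContMDiffAt 𝓘(ℂ, ℂ) 𝓘(ℂ, E) ω (fun ζ : ℂ => pe p x₀ (y + ζ • v)) 0 :=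
      (hd.1 0 (mem_ball_self hr)).contMDiffAt (isOpen_ball.mem_nhds (mem_ball_self hr))
    have e0 : (fun ζ : ℂ => pe p x₀ (y + ζ • v)) 0 = pe p x₀ y := by simp
    have hJ1' : MDifferentiableAt 𝓘(ℂ, E) 𝓘(ℂ, E) J ((fun ζ : ℂ => pe p x₀ (y + ζ • v)) 0) := by
      rw [e0]
      exact hJ1.mdifferentiableAt (by simp)
    have h2 : mfderiv 𝓘(ℂ, ℂ) 𝓘(ℂ, E) (J ∘ fun ζ : ℂ => pe p x₀ (y + ζ • v)) 0 = 0 := by
      rw [mfderiv_comp (x := (0 : ℂ)) (g := J) (f := fun ζ : ℂ => pe p x₀ (y + ζ • v)) hJ1'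
        (hline.mdifferentiableAt (by simp)), h0]
      exact ContinuousLinearMap.comp_zero _
    have h3 : (J ∘ fun ζ : ℂ => pe p x₀ (y + ζ • v)) =ᶠ[𝓝 0] fun ζ : ℂ => y + ζ • v := by
      have hc : Tendsto (fun ζ : ℂ => y + ζ • v) (𝓝 0) (𝓝 y) := by
        have : Continuous fun ζ : ℂ => y + ζ • v := by fun_prop
        have := this.tendsto 0
        simpa using this
      exact hc.eventually hJ4
    rw [h3.mfderiv_eq, mfderiv_eq_fderiv] at h2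
    have h4 : fderiv ℂ (fun ζ : ℂ => y + ζ • v) 0 1 = v := by
      rw [fderiv_apply_one_eq_deriv, deriv_line]
    have h5 : fderiv ℂ (fun ζ : ℂ => y + ζ • v) 0 1 = (0 : E) :=
      congrArg (fun L : ℂ →L[ℂ] E => L 1) h2
    exact hv (h4.symm.trans h5)

end Kaehler

end Pool.Agent.H816_Nef
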