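import Mathlib

/-!
# The product of an open set and a vector space, and fibrewise affine coverings
-/

set_option autoImplicit false

open Set Topology
open scoped ContDiff Manifold

namespace Pool.Agent.H816_Nef

variable {E₁ : Type} [NormedAddCommGroup E₁] [NormedSpace ℂ E₁]

/-- The product `D × E₂` of an open subset `D` of the vector space `E₁` and the vector space `E₂`,
as an open subset of `E₁ × E₂`. -/
def cylinder (D : TopologicalSpace.Opens E₁) (E₂ : Type) [NormedAddCommGroup E₂]
    [NormedSpace ℂ E₂] : TopologicalSpace.Opens (E₁ × E₂) :=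
  ⟨(D : Set E₁) ×ˢ (univ : Set E₂), D.isOpen.prod isOpen_univ⟩

/-- The point `(z, w)` of the cylinder `D × E₂`. -/
def cpt {D : TopologicalSpace.Opens E₁} {E₂ : Type} [NormedAddCommGroup E₂]
    [NormedSpace ℂ E₂] (z : D) (w : E₂) : cylinder D E₂ :=
  ⟨(z.1, w), z.2, trivial⟩

/-- The map `p` from the cylinder `D × E₂` is fibrewise affine: whenever `p (z, w) = p (z', w')`
there is a linear map `A` with `p (z, w + v) = p (z', w' + A v)` for all `v` in `E₂`. For a covering
map `p` this says that the deck transformations are affine in the second variable. -/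
def FibrewiseAffine {D : TopologicalSpace.Opens E₁} {E₂ : Type} [NormedAddCommGroup E₂]
    [NormedSpace ℂ E₂] {X : Type} (p : cylinder D E₂ → X) : Prop :=
  ∀ (z z' : D) (w w' : E₂), p (cpt z w) = p (cpt z' w') →
    ∃ A : E₂ →L[ℂ] E₂, ∀ v : E₂, p (cpt z (w + v)) = p (cpt z' (w' + A v))

end Pool.Agent.H816_Nef
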