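import Mathlib

/-!
# Degrees of line subbundles of the pulled back tangent bundle, and nefness of the cotangent bundle

`X` is a complex manifold modelled on a complex normed space `E`, `C` is a Riemann surface and
`f : C → X` is holomorphic.
-/

set_option autoImplicit false

open Set Filter Topology Metric
open scoped ContDiff Manifold

namespace Pool.Agent.H816_Nef

section
variable (E : Type) [NormedAddCommGroup E] [NormedSpace ℂ E]
variable {X : Type} [TopologicalSpace X] [ChartedSpace E X] [IsManifold 𝓘(ℂ, E) ω X]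
variable {C : Type} [TopologicalSpace C] [ChartedSpace ℂ C]

/-- The family `g` of tangent vectors `g c` of `X` at `f c` is holomorphic near `c₀`: the map
`c ↦ (f c, g c)` into the tangent bundle of `X` is holomorphic near `c₀`. -/
def HolAlong (f : C → X) (g : ∀ c, TangentSpace 𝓘(ℂ, E) (f c)) (c₀ : C) : Prop :=
  ContMDiffAt 𝓘(ℂ, ℂ) 𝓘(ℂ, E).tangent ω
    (fun c => (⟨f c, g c⟩ : TangentBundle 𝓘(ℂ, E) X)) c₀

/-- The meromorphic section `s` of `f^* TX` has order `k` at `c₀` as a section of the line
subbundle which it spans: on a punctured neighbourhood of `c₀` one has `s = z ^ k • g`, where `z`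
is a local coordinate centred at `c₀` and `g` is a section of `f^* TX` which is holomorphic near
`c₀` with `g c₀ ≠ 0`. -/
def HasOrderAt (f : C → X) (s : ∀ c, TangentSpace 𝓘(ℂ, E) (f c)) (c₀ : C) (k : ℤ) : Prop :=
  ∃ g : ∀ c, TangentSpace 𝓘(ℂ, E) (f c), HolAlong E f g c₀ ∧ g c₀ ≠ 0 ∧
    ∀ᶠ c in 𝓝[≠] c₀, s c = (chartAt ℂ c₀ c - chartAt ℂ c₀ c₀) ^ k • g c

variable (X) in
/-- The cotangent bundle of `X` is nef (tested on curves): for every compact connected Riemann
surface `C`, every holomorphic map `f : C → X` and every meromorphic section `s` of `f^* TX` (not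
identically zero, of order `n c` at `c` as a section of the line subbundle `M` of `f^* TX` which it
spans) the degree `deg M = ∑ n c` is at most `0`. In other words, all line subbundles of `f^* TX`
have degree `≤ 0`, that is, all quotient line bundles of `f^* T^*X` have degree `≥ 0`. -/
def CotangentNef : Prop :=
  ∀ (C : Type) [TopologicalSpace C] [ChartedSpace ℂ C] [IsManifold 𝓘(ℂ, ℂ) ω C] [T2Space C]
    [CompactSpace C] [ConnectedSpace C] (f : C → X), ContMDiff 𝓘(ℂ, ℂ) 𝓘(ℂ, E) ω f →
    ∀ (s : ∀ c, TangentSpace 𝓘(ℂ, E) (f c)) (n : C → ℤ), (∀ c, HasOrderAt E f s c (n c)) →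
      ∑ᶠ c, n c ≤ 0

end

/-- `u ≥ 0` is continuous on the open set `Ω` of the complex plane and `log u` is subharmonic
there (or `-∞`): all truncations `log (max u δ)` satisfy the sub-mean value inequality. -/
def LogSubharmonicOn (u : ℂ → ℝ) (Ω : Set ℂ) : Prop :=
  ContinuousOn u Ω ∧ (∀ z ∈ Ω, 0 ≤ u z) ∧ ∀ z r, 0 < r → closedBall z r ⊆ Ω → ∀ δ, 0 < δ →
    Real.log (max (u z) δ) ≤ Real.circleAverage (fun w => Real.log (max (u w) δ)) z r

/-- `lam` is coarsely Lipschitz on the covering `p : Y → X`: every point of `X` has a neighbourhood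
`U` such that `lam` varies by a bounded amount on the path components of `p⁻¹ U`, with a bound
which only depends on `U`. -/
def CoarselyLipschitz {X Y : Type} [TopologicalSpace X] [TopologicalSpace Y] (p : Y → X)
    (lam : Y → ℝ) : Prop :=
  ∀ x : X, ∃ U ∈ 𝓝 x, ∃ L : ℝ, ∀ y y' : Y, JoinedIn (p ⁻¹' U) y y' → |lam y - lam y'| ≤ L

end Pool.Agent.H816_Nef
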