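import Pool.Agent.H816_Nef.Defs

/-!
# Log-plurisubharmonic Finsler functions on relative tangent vectors
-/

set_option autoImplicit false

open Set Filter Topology Metric
open scoped ContDiff Manifold

namespace Pool.Agent.H816_Nef

section
variable {E : Type} [NormedAddCommGroup E] [NormedSpace ℂ E]
variable {E' : Type} [NormedAddCommGroup E'] [NormedSpace ℂ E']
variable {Y : Type} [TopologicalSpace Y] [ChartedSpace E Y] [IsManifold 𝓘(ℂ, E) ω Y]
variable {S : Type} [TopologicalSpace S] [ChartedSpace E' S]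

/-- The tangent vector `w` of `Y` is vertical with respect to `q : Y → S`: the differential of `q`
maps it to `0`. -/
def IsVertical (E E' : Type) [NormedAddCommGroup E] [NormedSpace ℂ E] [NormedAddCommGroup E']
    [NormedSpace ℂ E'] {Y : Type} [TopologicalSpace Y] [ChartedSpace E Y]
    {S : Type} [TopologicalSpace S] [ChartedSpace E' S] (q : Y → S)
    (w : TangentBundle 𝓘(ℂ, E) Y) : Prop :=
  mfderiv 𝓘(ℂ, E) 𝓘(ℂ, E') q w.proj w.snd = 0

/-- `F` is a log-plurisubharmonic Finsler function on the tangent vectors of `Y` which are vertical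
with respect to `q : Y → S`: it is absolutely homogeneous, and for every holomorphic family `G z`
of vertical tangent vectors, with `z` in an open subset `Ω` of the plane, the function
`z ↦ F (G z)` is continuous and nonnegative with subharmonic logarithm. -/
structure LogPshFinsler (E E' : Type) [NormedAddCommGroup E] [NormedSpace ℂ E]
    [NormedAddCommGroup E'] [NormedSpace ℂ E'] {Y : Type} [TopologicalSpace Y] [ChartedSpace E Y]
    [IsManifold 𝓘(ℂ, E) ω Y] {S : Type} [TopologicalSpace S] [ChartedSpace E' S] (q : Y → S)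
    (F : TangentBundle 𝓘(ℂ, E) Y → ℝ) : Prop where
  homogeneous : ∀ (a : ℂ) (w : TangentBundle 𝓘(ℂ, E) Y), IsVertical E E' q w →
    F ⟨w.proj, a • w.snd⟩ = ‖a‖ * F w
  logpsh : ∀ (Ω : Set ℂ) (G : ℂ → TangentBundle 𝓘(ℂ, E) Y), IsOpen Ω →
    ContMDiffOn 𝓘(ℂ, ℂ) 𝓘(ℂ, E).tangent ω G Ω → (∀ z ∈ Ω, IsVertical E E' q (G z)) →
    LogSubharmonicOn (fun z => F (G z)) Ω

/-- The tangent vector `v` of `X`, vertical with respect to `π : X → S`, is detected by
log-plurisubharmonic Finsler functions of subexponential growth on a covering `p : Y → X`: there is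
a coarsely Lipschitz function `lam` on `Y` such that for every `ε > 0` there is a
log-plurisubharmonic Finsler function `F` on the tangent vectors of `Y` which are vertical over `S`
which is at most a constant times `exp (ε lam)` over every compact set of tangent vectors of `X`
and which is positive on some lift `w` of `v` to `Y`. -/
def SubexpDetected (E E' : Type) [NormedAddCommGroup E] [NormedSpace ℂ E]
    [NormedAddCommGroup E'] [NormedSpace ℂ E'] {X : Type} [TopologicalSpace X] [ChartedSpace E X]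
    [IsManifold 𝓘(ℂ, E) ω X] {S : Type} [TopologicalSpace S] [ChartedSpace E' S] (π : X → S)
    (v : TangentBundle 𝓘(ℂ, E) X) : Prop :=
  ∃ (Y : Type) (_ : TopologicalSpace Y) (_ : ChartedSpace E Y) (_ : IsManifold 𝓘(ℂ, E) ω Y)
    (p : Y → X) (lam : Y → ℝ), IsCoveringMap p ∧ IsLocalDiffeomorph 𝓘(ℂ, E) 𝓘(ℂ, E) ω p ∧
    CoarselyLipschitz p lam ∧ ∀ ε : ℝ, 0 < ε → ∃ F : TangentBundle 𝓘(ℂ, E) Y → ℝ,
      LogPshFinsler E E' (fun y => π (p y)) F ∧
      (∀ K : Set (TangentBundle 𝓘(ℂ, E) X), IsCompact K → ∃ A : ℝ,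
        ∀ w : TangentBundle 𝓘(ℂ, E) Y, IsVertical E E' (fun y => π (p y)) w →
          tangentMap 𝓘(ℂ, E) 𝓘(ℂ, E) p w ∈ K → F w ≤ A * Real.exp (ε * lam w.proj)) ∧
      ∃ w : TangentBundle 𝓘(ℂ, E) Y, tangentMap 𝓘(ℂ, E) 𝓘(ℂ, E) p w = v ∧ 0 < F w

end

end Pool.Agent.H816_Nef
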