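import Pool.Agent.H816_Nef.VertK

/-!
# Vertical affine lines in a compact Kähler manifold have infinite area
-/

set_option autoImplicit false

open Set Filter Topology Metric MeasureTheory
open scoped ContDiff Manifold

namespace Pool.Agent.H816_Nef

/-- lower bound for a circle average by the integral over an arc -/
lemma circleAverage_arc {f : ℂ → ℝ} (hf : Continuous f) (h0 : ∀ t, 0 ≤ f t) {s θ₁ b : ℝ}
    (hθ0 : 0 ≤ θ₁) (hθ1 : θ₁ ≤ 1) (hb : ∀ θ ∈ Icc 0 θ₁, b ≤ f (circleMap 0 s θ)) :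
    θ₁ * b ≤ 2 * Real.pi * Real.circleAverage f 0 s := by
  have hpi := Real.pi_gt_three
  have hc : Continuous fun θ : ℝ => f (circleMap 0 s θ) := hf.comp (continuous_circleMap 0 s)
  rw [Real.circleAverage_def, smul_eq_mul, ← mul_assoc,
    mul_inv_cancel₀ (by positivity), one_mul]
  have h1 : θ₁ * b = ∫ θ in (0 : ℝ)..θ₁, b := by
    rw [intervalIntegral.integral_const, smul_eq_mul, sub_zero]
  have h2 : ∫ θ in (0 : ℝ)..θ₁, b ≤ ∫ θ in (0 : ℝ)..θ₁, f (circleMap 0 s θ) :=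
    intervalIntegral.integral_mono_on hθ0 (continuous_const.intervalIntegrable _ _)
      (hc.intervalIntegrable _ _) hb
  have h3 : ∫ θ in (0 : ℝ)..θ₁, f (circleMap 0 s θ) ≤
      ∫ θ in (0 : ℝ)..2 * Real.pi, f (circleMap 0 s θ) := by
    apply intervalIntegral.integral_mono_interval le_rfl hθ0 (by linarith)
    · exact Eventually.of_forall fun θ => h0 _
    · exact hc.intervalIntegrable _ _
  linarith

variable {E₁ E₂ : Type} [NormedAddCommGroup E₁] [NormedSpace ℂ E₁] [FiniteDimensional ℂ E₁]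
  [NormedAddCommGroup E₂] [NormedSpace ℂ E₂] [FiniteDimensional ℂ E₂]
variable {X : Type} [TopologicalSpace X] [ChartedSpace (E₁ × E₂) X]
  [IsManifold 𝓘(ℂ, E₁ × E₂) ω X] [CompactSpace X]
variable {D : TopologicalSpace.Opens E₁} {p : cylinder D E₂ → X} {x₀ : X}

/-- bounds for the metric near a point -/
lemma L_bounds {E : Type} [NormedAddCommGroup E] [NormedSpace ℂ E] [FiniteDimensional ℂ E]
    {U : Set E} (hU : IsOpen U) (P : PotSys E U) {q : E} {η : ℝ} (hη : closedBall q η ⊆ U) :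
    ∃ a b : ℝ, 0 < a ∧ 0 < b ∧ ∀ y ∈ closedBall q η, ∀ v : E,
      a * ‖v‖ ^ 2 ≤ P.L y v ∧ P.L y v ≤ b * ‖v‖ ^ 2 := by
  have : ProperSpace E := FiniteDimensional.proper ℂ E
  have hK : IsCompact (closedBall q η ×ˢ sphere (0 : E) 1) :=
    (isCompact_closedBall q η).prod (isCompact_sphere 0 1)
  have hc : ContinuousOn (fun z : E × E => P.L z.1 z.2) (closedBall q η ×ˢ sphere (0 : E) 1) :=
    (P.continuousOn_L hU).mono (prod_mono hη (subset_univ _))
  have key : ∀ a b : ℝ, (∀ y ∈ closedBall q η, ∀ v ∈ sphere (0 : E) 1, a ≤ P.L y v ∧ P.L y v ≤ b) →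
      ∀ y ∈ closedBall q η, ∀ v : E, a * ‖v‖ ^ 2 ≤ P.L y v ∧ P.L y v ≤ b * ‖v‖ ^ 2 := by
    intro a b h y hy v
    by_cases hv : v = 0
    · have h1 := P.L_smul (hη hy) 0 (0 : E)
      rw [zero_smul, norm_zero] at h1
      rw [hv, norm_zero]
      have h2 : P.L y 0 = 0 := by rw [h1]; ring
      rw [h2]
      constructor <;> simp
    · have hn : 0 < ‖v‖ := norm_pos_iff.2 hv
      have h1 : v = ((‖v‖ : ℝ) : ℂ) • (((‖v‖⁻¹ : ℝ) : ℂ) • v) := by
        rw [smul_smul, ← Complex.ofReal_mul, mul_inv_cancel₀ hn.ne', Complex.ofReal_one, one_smul]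
      have h2 : ((‖v‖⁻¹ : ℝ) : ℂ) • v ∈ sphere (0 : E) 1 := by
        rw [mem_sphere_zero_iff_norm, norm_smul, Complex.norm_real, Real.norm_of_nonneg
          (inv_nonneg.2 hn.le), inv_mul_cancel₀ hn.ne']
      have h3 := h y hy _ h2
      have h4 : P.L y v = ‖v‖ ^ 2 * P.L y (((‖v‖⁻¹ : ℝ) : ℂ) • v) := by
        conv_lhs => rw [h1]
        rw [P.L_smul (hη hy), Complex.norm_real, Real.norm_of_nonneg hn.le]
      rw [h4]
      constructor
      · rw [mul_comm]; exact mul_le_mul_of_nonneg_left h3.1 (by positivity)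
      · rw [mul_comm b]; exact mul_le_mul_of_nonneg_left h3.2 (by positivity)
  by_cases hne : (closedBall q η ×ˢ sphere (0 : E) 1).Nonempty
  · obtain ⟨z₁, hz₁, hmin⟩ := hK.exists_isMinOn hne hc
    obtain ⟨z₂, hz₂, hmax⟩ := hK.exists_isMaxOn hne hc
    have hv : ∀ z ∈ closedBall q η ×ˢ sphere (0 : E) 1, 0 < P.L z.1 z.2 := by
      intro z hz
      apply P.L_pos (hη hz.1)
      intro h0
      have := hz.2
      rw [h0] at this
      simp at this
    exact ⟨P.L z₁.1 z₁.2, P.L z₂.1 z₂.2, hv _ hz₁, hv _ hz₂, key _ _ fun y hy v hv =>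
      ⟨hmin (a := (y, v)) ⟨hy, hv⟩, hmax (a := (y, v)) ⟨hy, hv⟩⟩⟩
  · refine ⟨1, 1, one_pos, one_pos, key _ _ fun y hy v hv => ?_⟩
    exact (hne ⟨(y, v), hy, hv⟩).elim

/-- **Infinite area of the vertical affine lines.** -/
theorem infArea (κ : PNB.ClosedForm (E₁ × E₂) X) (hκ : κ.IsKahler)
    (hpl : IsLocalDiffeomorph 𝓘(ℂ, E₁ × E₂) 𝓘(ℂ, E₁ × E₂) ω p) (haff : FibrewiseAffine p)
    (hps : Function.Surjective p) {y : E₁ × E₂} (hy : y ∈ cylinder D E₂) {ς : E₂} (hς : ς ≠ 0) :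
    InfArea (potSys κ hκ p hpl x₀) y (0, ς) := by
  have : CompleteSpace E₁ := FiniteDimensional.complete ℂ E₁
  have : CompleteSpace E₂ := FiniteDimensional.complete ℂ E₂
  set P := potSys κ hκ p hpl x₀ with hP
  set a : E₁ × E₂ := (0, ς) with ha
  have ha0 : a ≠ 0 := fun h => hς (congrArg Prod.snd h)
  by_contra hcon
  unfold InfArea at hcon
  push Not at hcon
  obtain ⟨σ, hσ⟩ := hcon
  have hU : IsOpen ((cylinder D E₂ : TopologicalSpace.Opens (E₁ × E₂)) : Set (E₁ × E₂)) :=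
    (cylinder D E₂).isOpen
  have hmem : ∀ t : ℂ, y + t • a ∈ cylinder D E₂ := fun t => mem_cyl_line hy ς t
  have hsm : ∀ n : ℕ, ∃ s : ℝ, (n + 1 : ℝ) ≤ s ∧ 0 < s ∧ s ^ 2 * mr P y a s < 1 / (n + 1) := by
    intro n
    exact small_of_linear (cont_mr hU hmem).continuousOn (fun t _ => mr_nonneg _ _ _)
      (A := chf (mr P y a) 0) (B := σ) hσ (by positivity) (n + 1)
  choose s hs1 hs2 hs3 using hsm
  obtain ⟨xs, hxs⟩ : ∃ x, MapClusterPt x atTop (fun n => pe p x₀ (y + (s n : ℂ) • a)) :=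
    exists_clusterPt_of_compactSpace _
  obtain ⟨⟨ys, hysU⟩, hys'⟩ := hps xs
  have hys : pe p x₀ ys = xs := by rw [pe_apply hysU]; exact hys'
  obtain ⟨J, hJ1, hJ2, hJ3, -⟩ := pe_section (x₀ := x₀) hpl hysU
  rw [hys] at hJ1 hJ2 hJ3
  obtain ⟨η, hη, hηU⟩ := Metric.nhds_basis_closedBall.mem_iff.1 (hU.mem_nhds hysU)
  obtain ⟨κ₀, C₀, hκ₀, hC₀, hL⟩ := L_bounds hU P hηU
  have hN : ∀ᶠ x in 𝓝 xs, (J x ∈ cylinder D E₂ ∧ pe p x₀ (J x) = x) ∧ J x ∈ ball ys (η / 2) := by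
    refine hJ3.and ?_
    have h1 : ContinuousAt J xs := hJ1.continuousAt
    have h2 : J xs ∈ ball ys (η / 2) := by rw [hJ2]; exact mem_ball_self (by positivity)
    exact h1.eventually (isOpen_ball.mem_nhds h2)
  have hc₀ : 0 < P.L y a := P.L_pos hy ha0
  -- large indices
  have hl1 : ∀ᶠ n : ℕ in atTop, 2 * Real.pi * (1 / ((n : ℝ) + 1)) < κ₀ * η ^ 2 / 16 := by
    have h1 : Tendsto (fun n : ℕ => 2 * Real.pi * (1 / ((n : ℝ) + 1))) atTop
        (𝓝 (2 * Real.pi * 0)) := tendsto_one_div_add_atTop_nhds_zero_nat.const_mul _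
    rw [mul_zero] at h1
    exact h1.eventually (gt_mem_nhds (by positivity))
  have hl2 : ∀ᶠ n : ℕ in atTop, C₀ * (η / 4) ^ 2 * (1 / ((n : ℝ) + 1)) < P.L y a := by
    have h1 : Tendsto (fun n : ℕ => C₀ * (η / 4) ^ 2 * (1 / ((n : ℝ) + 1))) atTop
        (𝓝 (C₀ * (η / 4) ^ 2 * 0)) := tendsto_one_div_add_atTop_nhds_zero_nat.const_mul _
    rw [mul_zero] at h1
    exact h1.eventually (gt_mem_nhds hc₀)
  obtain ⟨n, ⟨⟨hJU, hJp⟩, hJb⟩, hn1, hn2⟩ :=
    ((hxs.frequently hN).and_eventually (hl1.and hl2)).exists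
  set yn := J (pe p x₀ (y + (s n : ℂ) • a)) with hyn
  obtain ⟨A, hA⟩ := affine_pe (x₀ := x₀) haff (hmem (s n)) hJU hJp.symm
  set b : E₁ × E₂ := (0, A ς) with hb
  set q₀ : E₁ × E₂ := yn - (s n : ℂ) • b with hq₀
  have hsm2 : ∀ (c : ℂ) (v : E₂), c • ((0, v) : E₁ × E₂) = (0, c • v) := fun c v => by
    rw [Prod.smul_mk, smul_zero]
  have hline : ∀ t : ℂ, pe p x₀ (y + t • a) = pe p x₀ (q₀ + t • b) := by
    intro t
    have h1 := hA ((t - s n) • ς)
    have h2 : y + (s n : ℂ) • a + (0, (t - s n) • ς) = y + t • a := by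
      rw [← hsm2, add_assoc, ← add_smul]
      congr 2
      ring
    have h3 : yn + (0, A ((t - s n) • ς)) = q₀ + t • b := by
      rw [map_smul, ← hsm2, hq₀, sub_smul]
      abel
    rw [h2, h3] at h1
    exact h1
  have hq₀U : q₀ ∈ cylinder D E₂ := by
    refine ⟨?_, trivial⟩
    show yn.1 - (s n : ℂ) • (0 : E₁) ∈ (D : Set E₁)
    rw [smul_zero, sub_zero]
    exact hJU.1
  have hmem' : ∀ t : ℂ, q₀ + t • b ∈ cylinder D E₂ := fun t => mem_cyl_line hq₀U (A ς) t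
  have hLL : ∀ t : ℂ, P.L (y + t • a) a = P.L (q₀ + t • b) b := fun t =>
    L_line_eq κ hκ hpl hmem hmem' hline t
  have hmr : mr P y a = mr P q₀ b := mr_line_eq κ hκ hpl hmem hmem' hline
  have hLb : P.L y a = P.L q₀ b := by
    have := hLL 0
    simpa using this
  have hs0 := hs2 n
  set ϱ := s n * ‖b‖ with hϱ
  have hnorm : ‖(s n : ℂ) • b‖ = ϱ := by
    rw [norm_smul, Complex.norm_real, Real.norm_of_nonneg hs0.le]
  have hdist : dist yn ys < η / 2 := hJb
  -- the radius is small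
  have hϱs : ϱ ≤ η / 4 := by
    by_contra hlt
    push Not at hlt
    have hϱ0 : 0 < ϱ := by linarith
    have hcont : Continuous fun t : ℂ => P.L (q₀ + t • b) b := by
      rw [← continuousOn_univ]
      exact (P.continuousOn_L hU).comp (f := fun t : ℂ => (q₀ + t • b, b)) (by fun_prop)
        (fun t _ => ⟨hmem' t, trivial⟩)
    have h1 := circleAverage_arc (f := fun t : ℂ => P.L (q₀ + t • b) b) hcont
      (fun t => P.L_nonneg _ _) (s := s n) (θ₁ := η / (4 * ϱ)) (b := κ₀ * ‖b‖ ^ 2)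
      (by positivity) (by rw [div_le_one (by positivity)]; linarith) (by
        intro θ hθ
        refine (hL _ ?_ b).1
        have h2 : q₀ + circleMap 0 (s n) θ • b = yn +
            (Complex.exp (Complex.I * θ) - 1) • ((s n : ℂ) • b) := by
          rw [hq₀, circleMap, zero_add, sub_smul, one_smul, smul_smul]
          have : (s n : ℂ) * Complex.exp (θ * Complex.I) =
              Complex.exp (Complex.I * θ) * (s n : ℂ) := by
            rw [mul_comm (θ : ℂ) Complex.I]; ring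
          rw [this]
          abel
        have h3 : ‖(Complex.exp (Complex.I * θ) - 1) • ((s n : ℂ) • b)‖ ≤ η / 4 := by
          rw [norm_smul, hnorm]
          have h4 := Real.norm_exp_I_mul_ofReal_sub_one_le (x := θ)
          rw [Real.norm_of_nonneg hθ.1] at h4
          calc ‖Complex.exp (Complex.I * θ) - 1‖ * ϱ ≤ η / (4 * ϱ) * ϱ :=
                mul_le_mul_of_nonneg_right (h4.trans hθ.2) hϱ0.le
            _ = η / 4 := by field_simp
        show q₀ + circleMap 0 (s n) θ • b ∈ closedBall ys η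
        rw [h2, mem_closedBall, dist_eq_norm]
        have h5 : yn + (Complex.exp (Complex.I * θ) - 1) • ((s n : ℂ) • b) - ys =
          (yn - ys) + (Complex.exp (Complex.I * θ) - 1) • ((s n : ℂ) • b) := by abel
        rw [h5]
        have h6 : ‖yn - ys‖ < η / 2 := by rw [← dist_eq_norm]; exact hdist
        calc _ ≤ ‖yn - ys‖ + ‖(Complex.exp (Complex.I * θ) - 1) • ((s n : ℂ) • b)‖ :=
              norm_add_le _ _
          _ ≤ η := by linarith)
    have h7 : s n ^ 2 * (η / (4 * ϱ) * (κ₀ * ‖b‖ ^ 2)) = κ₀ * η * ϱ / 4 := by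
      have : s n ^ 2 * ‖b‖ ^ 2 = ϱ ^ 2 := by rw [hϱ]; ring
      calc s n ^ 2 * (η / (4 * ϱ) * (κ₀ * ‖b‖ ^ 2)) = η / (4 * ϱ) * κ₀ * (s n ^ 2 * ‖b‖ ^ 2) := by
            ring
        _ = η / (4 * ϱ) * κ₀ * ϱ ^ 2 := by rw [this]
        _ = _ := by field_simp
    have h8 := mul_le_mul_of_nonneg_left h1 (sq_nonneg (s n))
    rw [h7] at h8
    have h9 := hs3 n
    rw [hmr] at h9
    have h10 : Real.circleAverage (fun t : ℂ => P.L (q₀ + t • b) b) 0 (s n) = mr P q₀ b (s n) := rfl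
    rw [h10] at h8
    have hpi := Real.pi_pos
    have h11 : s n ^ 2 * (2 * Real.pi * mr P q₀ b (s n)) < 2 * Real.pi * (1 / ((n : ℝ) + 1)) := by
      have := mul_lt_mul_of_pos_left h9 (by positivity : 0 < 2 * Real.pi)
      linarith
    have h12 : κ₀ * η * (η / 4) / 4 ≤ κ₀ * η * ϱ / 4 := by
      have : κ₀ * η * (η / 4) ≤ κ₀ * η * ϱ := mul_le_mul_of_nonneg_left hlt.le (by positivity)
      linarith
    have h13 : κ₀ * η * (η / 4) / 4 = κ₀ * η ^ 2 / 16 := by ring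
    linarith
  -- contradiction
  have hq₀b : q₀ ∈ closedBall ys η := by
    rw [mem_closedBall, dist_eq_norm]
    have h5 : q₀ - ys = (yn - ys) - (s n : ℂ) • b := by rw [hq₀]; abel
    have h6 : ‖yn - ys‖ < η / 2 := by rw [← dist_eq_norm]; exact hdist
    rw [h5]
    calc _ ≤ ‖yn - ys‖ + ‖(s n : ℂ) • b‖ := norm_sub_le _ _
      _ ≤ η := by rw [hnorm]; linarith
  have h1 := (hL q₀ hq₀b b).2
  rw [← hLb] at h1
  have h2 : ‖b‖ = ϱ / s n := by rw [hϱ]; field_simp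
  have h3 : C₀ * ‖b‖ ^ 2 ≤ C₀ * (η / 4) ^ 2 * (1 / ((n : ℝ) + 1)) := by
    rw [h2, div_pow, mul_assoc]
    apply mul_le_mul_of_nonneg_left _ hC₀.le
    have hn0 : (1 : ℝ) ≤ (n : ℝ) + 1 := by
      have : (0 : ℝ) ≤ n := Nat.cast_nonneg n
      linarith
    have h4 : (n : ℝ) + 1 ≤ s n ^ 2 := by
      have := hs1 n
      nlinarith
    have hϱn : 0 ≤ ϱ := mul_nonneg hs0.le (norm_nonneg _)
    have h5 : ϱ ^ 2 ≤ (η / 4) ^ 2 := pow_le_pow_left₀ hϱn hϱs 2
    rw [mul_one_div, div_le_div_iff₀ (by positivity) (by positivity)]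
    exact mul_le_mul h5 h4 (by positivity) (by positivity)
  linarith

end Pool.Agent.H816_Nef
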