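import Mathlib
import Pool.Agent.H792R2.SS.MEAN
import Pool.Agent.H792R2.SS.MEANa

set_option autoImplicit false

open Set Filter Topology Metric MeasureTheory
open scoped ContDiff

namespace Pool.Agent.H816_Nef

theorem J1_lap_scale (h : ℂ → ℝ) (z : ℂ) (R' : ℝ) (hR : R' ≠ 0) (w : ℂ) :
    Laplacian.laplacian (fun w => h (z + R' • w)) w =
      R' ^ 2 * Laplacian.laplacian h (z + R' • w) := by
  have e := InnerProductSpace.laplacian_eq_iteratedFDeriv_complexPlane (fun w => h (z + R' • w))
  have e' := InnerProductSpace.laplacian_eq_iteratedFDeriv_complexPlane h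
  rw [e, e']
  have key : ∀ v : Fin 2 → ℂ, iteratedFDeriv ℝ 2 (fun w => h (z + R' • w)) w v =
      R' ^ 2 * iteratedFDeriv ℝ 2 h (z + R' • w) v := by
    intro v
    let g : ℂ ≃L[ℝ] ℂ := ContinuousLinearEquiv.smulLeft (Units.mk0 R' hR)
    have hg : ∀ w, g w = R' • w := fun w => rfl
    have h1 := g.iteratedFDerivWithin_comp_right (fun w => h (z + w)) (s := univ)
      uniqueDiffOn_univ (x := w) (mem_univ _) 2
    rw [preimage_univ, iteratedFDerivWithin_univ, iteratedFDerivWithin_univ] at h1
    have h2 : (fun w => h (z + R' • w)) = (fun w => h (z + w)) ∘ g := by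
      funext w
      simp [hg]
    rw [h2, h1, iteratedFDeriv_comp_add_left]
    rw [ContinuousMultilinearMap.compContinuousLinearMap_apply, hg]
    have h3 : (fun i => (g : ℂ →L[ℝ] ℂ) (v i)) = fun i => R' • v i := rfl
    rw [h3]
    have h4 := (iteratedFDeriv ℝ 2 h (z + R' • w)).map_smul_univ (fun _ => R') v
    rw [h4]
    simp
  simp only [key]
  ring

/-- the Laplacian of a C^2 function is continuous. -/
theorem continuousOn_laplacian {h : ℂ → ℝ} {Ω : Set ℂ} (hΩ : IsOpen Ω) (hh : ContDiffOn ℝ 2 h Ω) :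
    ContinuousOn (Laplacian.laplacian h) Ω := by
  have h1 : ContinuousOn (iteratedFDeriv ℝ 2 h) Ω := by
    have h2 := hh.continuousOn_iteratedFDerivWithin (m := 2) (by norm_num) hΩ.uniqueDiffOn
    refine h2.congr ?_
    intro z hz
    exact (iteratedFDerivWithin_of_isOpen 2 hΩ hz).symm
  rw [InnerProductSpace.laplacian_eq_iteratedFDeriv_complexPlane h]
  apply ContinuousOn.add
  · exact (ContinuousMultilinearMap.apply ℝ (fun _ : Fin 2 => ℂ) ℝ
      ![1, 1]).continuous.comp_continuousOn h1
  · exact (ContinuousMultilinearMap.apply ℝ (fun _ : Fin 2 => ℂ) ℝ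
      ![Complex.I, Complex.I]).continuous.comp_continuousOn h1

theorem J1_avg (F : ℂ → ℝ) (z : ℂ) (R' t : ℝ) :
    Real.circleAverage (fun w => F (z + R' • w)) 0 t = Real.circleAverage F z (R' * t) := by
  unfold Real.circleAverage
  have h1 : ∀ θ : ℝ, z + R' • circleMap 0 t θ = circleMap z (R' * t) θ := by
    intro θ
    simp only [circleMap, zero_add, Complex.real_smul]
    push_cast
    ring
  simp only [h1]

theorem jensen {h : ℂ → ℝ} {z : ℂ} {R' r : ℝ} (hh : ContDiffOn ℝ 2 h (ball z R')) (hr : 0 < r)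
    (hrR : r < R') : Real.circleAverage h z r =
      h z + ∫ t in (0 : ℝ)..r, t * Real.log (r / t) *
        Real.circleAverage (Laplacian.laplacian h) z t := by
  have hR : 0 < R' := hr.trans hrR
  have hg : ContDiffOn ℝ 2 (fun w => h (z + R' • w)) (ball (0 : ℂ) 1) := by
    refine hh.comp (g := h) (f := fun w : ℂ => z + R' • w) (by fun_prop) ?_
    intro w hw
    rw [mem_ball_zero_iff] at hw
    rw [mem_ball_iff_norm, add_sub_cancel_left, norm_smul, Real.norm_of_nonneg hR.le]
    nlinarith
  have h1 := Pool.Agent.H792R2.SS.MEANx.ftc Pool.Agent.H792R2.SS.t_MEANa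
    (fun w => h (z + R' • w)) (r / R') hg (by positivity) ((div_lt_one hR).2 hrR)
  rw [J1_avg h z R' (r / R'), mul_div_cancel₀ _ hR.ne'] at h1
  simp only [smul_zero, add_zero] at h1
  rw [h1]
  congr 1
  have h2 : Pool.Agent.H792R2.SS.Lap (fun w => h (z + R' • w)) =
      fun w => (fun v => R' ^ 2 * Laplacian.laplacian h v) (z + R' • w) := by
    funext w
    exact J1_lap_scale h z R' hR.ne' w
  have h3 : ∀ t, Real.circleAverage (Pool.Agent.H792R2.SS.Lap (fun w => h (z + R' • w))) 0 t =
      R' ^ 2 * Real.circleAverage (Laplacian.laplacian h) z (R' * t) := by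
    intro t
    rw [h2, J1_avg (fun v => R' ^ 2 * Laplacian.laplacian h v) z R' t]
    unfold Real.circleAverage
    rw [intervalIntegral.integral_const_mul, smul_eq_mul, smul_eq_mul]
    ring
  have h4 : ∀ t, t * Real.log (r / R' / t) *
      Real.circleAverage (Pool.Agent.H792R2.SS.Lap (fun w => h (z + R' • w))) 0 t =
      R' * ((R' * t) * Real.log (r / (R' * t)) *
        Real.circleAverage (Laplacian.laplacian h) z (R' * t)) := by
    intro t
    rw [h3, div_div]
    ring
  simp only [h4]
  rw [intervalIntegral.integral_const_mul, intervalIntegral.integral_comp_mul_left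
    (fun s => s * Real.log (r / s) * Real.circleAverage (Laplacian.laplacian h) z s) hR.ne',
    smul_eq_mul, mul_zero, mul_div_cancel₀ _ hR.ne', mul_inv_cancel_left₀ hR.ne']

theorem submean_C2 {h : ℂ → ℝ} {z : ℂ} {R' r : ℝ} (hh : ContDiffOn ℝ 2 h (ball z R')) (hr : 0 < r)
    (hrR : r < R') (hl : ∀ w ∈ ball z R', 0 ≤ Laplacian.laplacian h w) :
    h z ≤ Real.circleAverage h z r := by
  rw [jensen hh hr hrR]
  refine le_add_of_nonneg_right ?_
  refine intervalIntegral.integral_nonneg hr.le fun t ht => ?_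
  by_cases ht0 : t = 0
  · simp [ht0]
  have ht1 : 0 < t := lt_of_le_of_ne ht.1 (Ne.symm ht0)
  refine mul_nonneg (mul_nonneg ht.1 (Real.log_nonneg ?_)) ?_
  · rw [le_div_iff₀ ht1]
    linarith [ht.2]
  · unfold Real.circleAverage
    refine smul_nonneg (by positivity) ?_
    refine intervalIntegral.integral_nonneg (by positivity) fun θ _ => hl _ ?_
    rw [mem_ball_iff_norm, circleMap_sub_center, norm_circleMap_zero, abs_of_pos ht1]
    exact lt_of_le_of_lt ht.2 hrR

theorem mean_C2 {h : ℂ → ℝ} {z : ℂ} {R' r : ℝ} (hh : ContDiffOn ℝ 2 h (ball z R')) (hr : 0 < r)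
    (hrR : r < R') (hl : ∀ w ∈ ball z R', Laplacian.laplacian h w = 0) :
    Real.circleAverage h z r = h z := by
  rw [jensen hh hr hrR]
  have h1 : ∫ t in (0 : ℝ)..r, t * Real.log (r / t) *
      Real.circleAverage (Laplacian.laplacian h) z t = ∫ t in (0 : ℝ)..r, (0 : ℝ) := by
    refine intervalIntegral.integral_congr fun t ht => ?_
    rw [uIcc_of_le hr.le] at ht
    have h2 : Real.circleAverage (Laplacian.laplacian h) z t = 0 := by
      unfold Real.circleAverage
      have h3 : ∀ θ : ℝ, Laplacian.laplacian h (circleMap z t θ) = 0 := by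
        intro θ
        apply hl
        rw [mem_ball_iff_norm, circleMap_sub_center, norm_circleMap_zero, abs_of_nonneg ht.1]
        exact lt_of_le_of_lt ht.2 hrR
      simp [h3]
    simp only [h2, mul_zero]
  rw [h1]
  simp

end Pool.Agent.H816_Nef
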