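import Mathlib

/-!
# From local to global sub-mean value inequalities, and approximation by real parts of polynomials
-/

set_option autoImplicit false

open Set Filter Topology Metric MeasureTheory
open scoped ContDiff

namespace Pool.Agent.H816_Nef

/-- The point of the circle with centre `z` and radius `r` with parameter `x`. -/
noncomputable def J2_pt (z : ℂ) (r : ℝ) (x : AddCircle (1 : ℝ)) : ℂ :=
  z + r * (AddCircle.toCircle x : ℂ)

theorem J2_pt_continuous (z : ℂ) (r : ℝ) : Continuous (J2_pt z r) := by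
  unfold J2_pt
  have h := AddCircle.continuous_toCircle (T := (1 : ℝ))
  fun_prop

theorem J2_pt_mem {z : ℂ} {r : ℝ} (hr : 0 < r) (x : AddCircle (1 : ℝ)) :
    J2_pt z r x ∈ sphere z r := by
  unfold J2_pt
  rw [mem_sphere, dist_eq_norm, add_sub_cancel_left, norm_mul, Complex.norm_real,
    Real.norm_eq_abs, abs_of_pos hr, Circle.norm_coe, mul_one]

theorem J2_pt_surj {z : ℂ} {r : ℝ} (hr : 0 < r) {w : ℂ} (hw : w ∈ sphere z r) :
    ∃ x, J2_pt z r x = w := by
  have hne : (r : ℂ) ≠ 0 := by exact_mod_cast hr.ne'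
  have h1 : ‖(w - z) / r‖ = 1 := by
    rw [mem_sphere, dist_eq_norm] at hw
    rw [norm_div, hw, Complex.norm_real, Real.norm_eq_abs, abs_of_pos hr, div_self hr.ne']
  let c : Circle := ⟨(w - z) / r, by simpa [Submonoid.unitSphere, mem_sphere, dist_eq_norm] using h1⟩
  obtain ⟨x, hx⟩ := (AddCircle.homeomorphCircle (T := (1 : ℝ)) one_ne_zero).surjective c
  rw [AddCircle.homeomorphCircle_apply] at hx
  refine ⟨x, ?_⟩
  unfold J2_pt
  rw [hx]
  show z + r * ((w - z) / r) = w
  field_simp
  ring

theorem J2_fourier_nat {z : ℂ} {r : ℝ} (hr : 0 < r) (m : ℕ) (x : AddCircle (1 : ℝ)) :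
    ((Polynomial.C (1 / (r : ℂ)) * (Polynomial.X - Polynomial.C z)) ^ m).eval (J2_pt z r x)
      = fourier (m : ℤ) x := by
  have hne : (r : ℂ) ≠ 0 := by exact_mod_cast hr.ne'
  rw [Polynomial.eval_pow, Polynomial.eval_mul, Polynomial.eval_sub, Polynomial.eval_C,
    Polynomial.eval_C, Polynomial.eval_X, fourier_apply, AddCircle.toCircle_zsmul]
  unfold J2_pt
  have : 1 / (r : ℂ) * (z + r * (AddCircle.toCircle x : ℂ) - z) = (AddCircle.toCircle x : ℂ) := by
    field_simp
    ring
  rw [this]
  simp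

theorem J2_span {z : ℂ} {r : ℝ} (hr : 0 < r) (q : C(AddCircle (1 : ℝ), ℂ))
    (hq : q ∈ Submodule.span ℂ (range (fourier (T := (1 : ℝ))))) :
    ∃ P Q : Polynomial ℂ, ∀ x, q x = P.eval (J2_pt z r x) +
      (starRingEnd ℂ) (Q.eval (J2_pt z r x)) := by
  induction hq using Submodule.span_induction with
  | mem q hq =>
    obtain ⟨n, rfl⟩ := hq
    obtain ⟨m, rfl | rfl⟩ := n.eq_nat_or_neg
    · refine ⟨(Polynomial.C (1 / (r : ℂ)) * (Polynomial.X - Polynomial.C z)) ^ m, 0, fun x => ?_⟩
      rw [J2_fourier_nat hr m x]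
      simp
    · refine ⟨0, (Polynomial.C (1 / (r : ℂ)) * (Polynomial.X - Polynomial.C z)) ^ m, fun x => ?_⟩
      rw [J2_fourier_nat hr m x, fourier_neg]
      simp
  | zero => exact ⟨0, 0, fun x => by simp⟩
  | add q₁ q₂ _ _ h₁ h₂ =>
    obtain ⟨P₁, Q₁, h₁⟩ := h₁
    obtain ⟨P₂, Q₂, h₂⟩ := h₂
    refine ⟨P₁ + P₂, Q₁ + Q₂, fun x => ?_⟩
    rw [ContinuousMap.add_apply, h₁, h₂, Polynomial.eval_add, Polynomial.eval_add, map_add]
    ring
  | smul c q _ h =>
    obtain ⟨P, Q, h⟩ := h
    refine ⟨Polynomial.C c * P, Polynomial.C ((starRingEnd ℂ) c) * Q, fun x => ?_⟩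
    rw [ContinuousMap.smul_apply, h, Polynomial.eval_mul, Polynomial.eval_mul, map_mul,
      Polynomial.eval_C, Polynomial.eval_C, Complex.conj_conj, smul_eq_mul]
    ring

/-- density of real parts of polynomials on a circle. -/
theorem exists_poly_approx {z : ℂ} {r : ℝ} (hr : 0 < r) {u : ℂ → ℝ}
    (hu : ContinuousOn u (sphere z r)) {ε : ℝ} (hε : 0 < ε) :
    ∃ P : Polynomial ℂ, ∀ w ∈ sphere z r, |u w - (P.eval w).re| ≤ ε := by
  have hc : Continuous fun x : AddCircle (1 : ℝ) => ((u (J2_pt z r x) : ℝ) : ℂ) := by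
    refine Complex.continuous_ofReal.comp ?_
    exact hu.comp_continuous (J2_pt_continuous z r) (fun x => J2_pt_mem hr x)
  let g : C(AddCircle (1 : ℝ), ℂ) := ⟨_, hc⟩
  have hg : g ∈ (Submodule.span ℂ (range (fourier (T := (1 : ℝ))))).topologicalClosure := by
    rw [span_fourier_closure_eq_top]
    trivial
  rw [← SetLike.mem_coe, Submodule.topologicalClosure_coe, Metric.mem_closure_iff] at hg
  obtain ⟨q, hq, hgq⟩ := hg ε hε
  obtain ⟨P, Q, hPQ⟩ := J2_span (z := z) hr q hq
  refine ⟨P + Q, fun w hw => ?_⟩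
  obtain ⟨x, rfl⟩ := J2_pt_surj hr hw
  have h1 : ‖g x - q x‖ ≤ ε := by
    have := ContinuousMap.dist_apply_le_dist (f := g) (g := q) x
    rw [dist_eq_norm] at this
    exact this.trans hgq.le
  have h2 : (g x - q x).re = u (J2_pt z r x) - ((P + Q).eval (J2_pt z r x)).re := by
    have hgx : g x = ((u (J2_pt z r x) : ℝ) : ℂ) := rfl
    rw [hPQ x, hgx, Polynomial.eval_add]
    simp
  rw [← h2]
  exact (Complex.abs_re_le_norm _).trans h1

theorem J2_mean_re {f : ℂ → ℂ} (hf : Differentiable ℂ f) (c : ℂ) (R : ℝ) :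
    Real.circleAverage (fun w => (f w).re) c R = (f c).re := by
  have h1 : Real.circleAverage f c R = f c :=
    DiffContOnCl.circleAverage hf.diffContOnCl
  have h2 := ContinuousLinearMap.circleAverage_comp_comm Complex.reCLM (f := f) (c := c) (R := R)
    (hf.continuous.continuousOn.circleIntegrable')
  rw [h1] at h2
  exact h2

theorem J2_avg_sq (z c : ℂ) (ρ : ℝ) (hρ : 0 < ρ) :
    Real.circleAverage (fun w => ‖w - z‖ ^ 2) c ρ = ‖c - z‖ ^ 2 + ρ ^ 2 := by
  have e : Set.EqOn (fun w : ℂ => ‖w - z‖ ^ 2)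
      (fun w : ℂ => (((‖c - z‖ ^ 2 + ρ ^ 2 : ℝ) : ℂ) +
        2 * ((starRingEnd ℂ) (c - z) * (w - c))).re) (sphere c |ρ|) := by
    intro w hw
    rw [abs_of_pos hρ, mem_sphere, dist_eq_norm] at hw
    have h1 : ‖w - z‖ ^ 2 = ‖c - z‖ ^ 2 + ‖w - c‖ ^ 2 +
        2 * ((starRingEnd ℂ) (c - z) * (w - c)).re := by
      rw [← Complex.normSq_eq_norm_sq, ← Complex.normSq_eq_norm_sq, ← Complex.normSq_eq_norm_sq,
        Complex.normSq_apply, Complex.normSq_apply, Complex.normSq_apply]
      simp only [Complex.sub_re, Complex.sub_im, Complex.mul_re, Complex.conj_re,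
        Complex.conj_im]
      ring
    simp only
    rw [h1, hw, Complex.add_re, Complex.ofReal_re]
    simp
  rw [Real.circleAverage_congr_sphere e]
  rw [J2_mean_re (f := fun w => ((‖c - z‖ ^ 2 + ρ ^ 2 : ℝ) : ℂ) +
        2 * ((starRingEnd ℂ) (c - z) * (w - c))) (by fun_prop) c ρ]
  simp [-Complex.ofReal_add, -Complex.ofReal_pow]

theorem submean_of_local {u : ℂ → ℝ} {Ω : Set ℂ} (hΩ : IsOpen Ω) (hu : ContinuousOn u Ω)
    (hloc : ∀ z ∈ Ω, ∃ ρ₀ : ℝ, 0 < ρ₀ ∧ ∀ ρ, 0 < ρ → ρ < ρ₀ → u z ≤ Real.circleAverage u z ρ) :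
    ∀ z r, 0 < r → closedBall z r ⊆ Ω → u z ≤ Real.circleAverage u z r := by
  intro z r hr hsub
  have hsph : sphere z r ⊆ Ω := sphere_subset_closedBall.trans hsub
  have huI : CircleIntegrable u z r := by
    apply ContinuousOn.circleIntegrable hr.le
    exact hu.mono hsph
  refine le_of_forall_pos_le_add fun η hη => ?_
  set ε : ℝ := η / 2 with hε
  have hεpos : 0 < ε := by positivity
  obtain ⟨P, hP⟩ := exists_poly_approx hr (hu.mono hsph) hεpos
  have hPd : Differentiable ℂ fun w => P.eval w := P.differentiable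
  have hPc : Continuous fun w => (P.eval w).re := Complex.continuous_re.comp hPd.continuous
  -- the mean value of the polynomial
  have hmeanP : (P.eval z).re ≤ Real.circleAverage u z r + ε := by
    rw [← J2_mean_re hPd z r]
    have h1 : Real.circleAverage (fun w => (P.eval w).re) z r ≤
        Real.circleAverage (fun w => u w + ε) z r := by
      refine Real.circleAverage_mono ?_ ?_ ?_
      · exact hPc.continuousOn.circleIntegrable'
      · exact huI.add (circleIntegrable_const _ _ _)
      · intro w hw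
        rw [abs_of_pos hr] at hw
        have := abs_le.1 (hP w hw)
        linarith [this.1]
    rw [Real.circleAverage_fun_add huI (circleIntegrable_const _ _ _),
      Real.circleAverage_const] at h1
    exact h1
  -- the maximum principle
  have hmax : ∀ δ : ℝ, 0 < δ → u z - (P.eval z).re ≤ ε + δ * r ^ 2 := by
    intro δ hδ
    set v : ℂ → ℝ := fun w => u w - (P.eval w).re + δ * ‖w - z‖ ^ 2 with hv
    have hvc : ContinuousOn v (closedBall z r) := by
      have h1 : ContinuousOn u (closedBall z r) := hu.mono hsub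
      have h2 : Continuous fun w : ℂ => δ * ‖w - z‖ ^ 2 := by fun_prop
      exact (h1.sub hPc.continuousOn).add h2.continuousOn
    obtain ⟨ζ, hζ, hζmax⟩ := (isCompact_closedBall z r).exists_isMaxOn
      ⟨z, mem_closedBall_self hr.le⟩ hvc
    have hvz : v z ≤ v ζ := hζmax (mem_closedBall_self hr.le)
    have hvz' : v z = u z - (P.eval z).re := by simp [hv]
    have hζb : v ζ ≤ ε + δ * r ^ 2 := by
      rcases (mem_closedBall.1 hζ).lt_or_eq with hlt | heq
      · exfalso
        -- interior maximum is impossible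
        obtain ⟨ρ₀, hρ₀, hρ⟩ := hloc ζ (hsub hζ)
        set ρ : ℝ := min (ρ₀ / 2) ((r - dist ζ z) / 2) with hρdef
        have hρpos : 0 < ρ := by
          apply lt_min <;> linarith
        have hρlt : ρ < ρ₀ := lt_of_le_of_lt (min_le_left _ _) (by linarith)
        have hρle : ρ ≤ (r - dist ζ z) / 2 := min_le_right _ _
        have hsm := hρ ρ hρpos hρlt
        have hin : closedBall ζ ρ ⊆ closedBall z r := by
          intro w hw
          rw [mem_closedBall] at hw ⊢
          have := dist_triangle w ζ z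
          linarith
        have hin' : sphere ζ |ρ| ⊆ closedBall z r := by
          rw [abs_of_pos hρpos]
          exact sphere_subset_closedBall.trans hin
        have hI1 : CircleIntegrable u ζ ρ := by
          apply ContinuousOn.circleIntegrable hρpos.le
          exact hu.mono (sphere_subset_closedBall.trans (hin.trans hsub))
        have hI2 : CircleIntegrable (fun w => (P.eval w).re) ζ ρ :=
          hPc.continuousOn.circleIntegrable'
        have hI3 : CircleIntegrable (fun w => δ * ‖w - z‖ ^ 2) ζ ρ := by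
          apply ContinuousOn.circleIntegrable'
          have h2 : Continuous fun w : ℂ => δ * ‖w - z‖ ^ 2 := by fun_prop
          exact h2.continuousOn
        have hav : Real.circleAverage v ζ ρ = Real.circleAverage u ζ ρ - (P.eval ζ).re +
            δ * (‖ζ - z‖ ^ 2 + ρ ^ 2) := by
          have e1 : Real.circleAverage v ζ ρ = Real.circleAverage (fun w => u w - (P.eval w).re) ζ ρ
              + Real.circleAverage (fun w => δ * ‖w - z‖ ^ 2) ζ ρ :=
            Real.circleAverage_fun_add (hI1.sub hI2) hI3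
          have e2 : Real.circleAverage (fun w => u w - (P.eval w).re) ζ ρ =
              Real.circleAverage u ζ ρ - (P.eval ζ).re := by
            rw [Real.circleAverage_fun_sub hI1 hI2, J2_mean_re hPd ζ ρ]
          have e3 : Real.circleAverage (fun w => δ * ‖w - z‖ ^ 2) ζ ρ =
              δ * (‖ζ - z‖ ^ 2 + ρ ^ 2) := by
            have := Real.circleAverage_fun_smul (a := δ) (f := fun w : ℂ => ‖w - z‖ ^ 2)
              (c := ζ) (R := ρ)
            simp only [smul_eq_mul] at this
            rw [this, J2_avg_sq z ζ ρ hρpos]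
          rw [e1, e2, e3]
        have hle : Real.circleAverage v ζ ρ ≤ v ζ := by
          apply Real.circleAverage_mono_on_of_le_circle ((hI1.sub hI2).add hI3)
          intro w hw
          exact hζmax (hin' hw)
        have hvζ : v ζ = u ζ - (P.eval ζ).re + δ * ‖ζ - z‖ ^ 2 := rfl
        have : 0 < δ * ρ ^ 2 := by positivity
        rw [hav, hvζ] at hle
        nlinarith
      · have hζs : ζ ∈ sphere z r := heq
        have h1 := (abs_le.1 (hP ζ hζs)).2
        have h2 : ‖ζ - z‖ = r := by rw [← dist_eq_norm]; exact heq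
        have hvζ : v ζ = u ζ - (P.eval ζ).re + δ * ‖ζ - z‖ ^ 2 := rfl
        rw [hvζ, h2]
        linarith
    linarith
  have hfin : u z - (P.eval z).re ≤ ε := by
    by_contra hcon
    push Not at hcon
    have hr2 : 0 < r ^ 2 := by positivity
    have := hmax ((u z - (P.eval z).re - ε) / (2 * r ^ 2)) (by
      apply div_pos <;> linarith)
    have e : (u z - (P.eval z).re - ε) / (2 * r ^ 2) * r ^ 2 = (u z - (P.eval z).re - ε) / 2 := by
      field_simp
    rw [e] at this
    linarith
  linarith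

end Pool.Agent.H816_Nef
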