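import Mathlib

/-!
# The Laplacian of a parameter average
-/

set_option autoImplicit false

open Set Filter Topology Metric MeasureTheory
open scoped ContDiff

namespace Pool.Agent.H816_Nef

/-- Differentiation under the integral sign. -/
lemma J3_hasFDerivAt {E G : Type} [NormedAddCommGroup E] [NormedSpace ℝ E]
    [FiniteDimensional ℝ E] [NormedAddCommGroup G] [NormedSpace ℝ G] [CompleteSpace G]
    {W : Set (ℝ × E)} (hW : IsOpen W) {U : Set E} (hU : IsOpen U)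
    (hWU : ∀ y ∈ U, ∀ s ∈ Icc (0 : ℝ) 1, (s, y) ∈ W)
    (k : ℝ × E → G) (hk : ContDiffOn ℝ 1 k W) {y₀ : E} (hy₀ : y₀ ∈ U) :
    HasFDerivAt (fun y => ∫ s in (0:ℝ)..1, k (s, y))
      (∫ s in (0:ℝ)..1, (fderiv ℝ k (s, y₀)).comp (ContinuousLinearMap.inr ℝ ℝ E)) y₀ := by
  obtain ⟨δ, hδ, hδU⟩ := Metric.nhds_basis_closedBall.mem_iff.1 (hU.mem_nhds hy₀)
  have hcf : ContinuousOn (fderiv ℝ k) W := hk.continuousOn_fderiv_of_isOpen hW le_rfl
  have hcF' : ContinuousOn (fun q : ℝ × E => (fderiv ℝ k q).comp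
      (ContinuousLinearMap.inr ℝ ℝ E)) W := hcf.clm_comp continuousOn_const
  have hcomp : IsCompact (Icc (0:ℝ) 1 ×ˢ closedBall y₀ δ) :=
    isCompact_Icc.prod (isCompact_closedBall _ _)
  obtain ⟨C, hC⟩ := hcomp.exists_bound_of_continuousOn
    (hcF'.mono (fun q hq => hWU q.2 (hδU hq.2) q.1 hq.1))
  have hu : uIcc (0:ℝ) 1 = Icc 0 1 := uIcc_of_le zero_le_one
  have hcont : ∀ y ∈ U, ContinuousOn (fun s : ℝ => k (s, y)) (Icc 0 1) := by
    intro y hy
    exact hk.continuousOn.comp (by fun_prop) (fun s hs => hWU y hy s hs)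
  have hcont' : ∀ y ∈ U, ContinuousOn (fun s : ℝ => (fderiv ℝ k (s, y)).comp
      (ContinuousLinearMap.inr ℝ ℝ E)) (Icc 0 1) := by
    intro y hy
    exact hcF'.comp (by fun_prop) (fun s hs => hWU y hy s hs)
  have hsub : uIoc (0:ℝ) 1 ⊆ Icc 0 1 := by
    rw [← hu]; exact uIoc_subset_uIcc
  refine intervalIntegral.hasFDerivAt_integral_of_dominated_of_fderiv_le
    (F := fun y s => k (s, y))
    (F' := fun y s => (fderiv ℝ k (s, y)).comp (ContinuousLinearMap.inr ℝ ℝ E))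
    (bound := fun _ => C) (closedBall_mem_nhds y₀ hδ) ?_ ?_ ?_ ?_ ?_ ?_
  · filter_upwards [hU.mem_nhds hy₀] with y hy
    exact ((hcont y hy).mono hsub).aestronglyMeasurable measurableSet_uIoc
  · exact ContinuousOn.intervalIntegrable (by rw [hu]; exact hcont y₀ hy₀)
  · exact ((hcont' y₀ hy₀).mono hsub).aestronglyMeasurable measurableSet_uIoc
  · refine Filter.Eventually.of_forall fun t ht y hy => ?_
    exact hC (t, y) ⟨hsub ht, hy⟩
  · exact continuous_const.intervalIntegrable _ _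
  · refine Filter.Eventually.of_forall fun t ht y hy => ?_
    have hd : DifferentiableAt ℝ k (t, y) :=
      (hk.contDiffAt (hW.mem_nhds (hWU y (hδU hy) t (hsub ht)))).differentiableAt (by simp)
    exact hd.hasFDerivAt.comp y (hasFDerivAt_prodMk_right t y)

lemma J3_contDiffOn_nat {E G : Type} [NormedAddCommGroup E] [NormedSpace ℝ E]
    [FiniteDimensional ℝ E] [NormedAddCommGroup G] [NormedSpace ℝ G] [CompleteSpace G]
    {W : Set (ℝ × E)} (hW : IsOpen W) {U : Set E} (hU : IsOpen U)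
    (hWU : ∀ y ∈ U, ∀ s ∈ Icc (0 : ℝ) 1, (s, y) ∈ W) (n : ℕ) :
    ∀ k : ℝ × E → G, ContDiffOn ℝ ∞ k W →
      ContDiffOn ℝ n (fun y => ∫ s in (0:ℝ)..1, k (s, y)) U := by
  induction n with
  | zero =>
    intro k hk
    rw [Nat.cast_zero, contDiffOn_zero]
    intro y hy
    exact (J3_hasFDerivAt hW hU hWU k (hk.of_le (by simp)) hy).continuousAt.continuousWithinAt
  | succ n ih =>
    intro k hk
    have h1 : ContDiffOn ℝ ((n : ℕ∞ω) + 1) (fun y => ∫ s in (0:ℝ)..1, k (s, y)) U := by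
      apply contDiffOn_succ_of_fderiv_apply
      · intro y hy
        exact (J3_hasFDerivAt hW hU hWU k (hk.of_le (by simp))
          hy).differentiableAt.differentiableWithinAt
      · simp
      · intro v
        have h2 : ContDiffOn ℝ ∞ (fun q : ℝ × E => fderiv ℝ k q ((0:ℝ), v)) W := by
          have := hk.fderiv_of_isOpen hW (m := ∞) (by simp)
          exact this.clm_apply contDiffOn_const
        refine (ih _ h2).congr ?_
        intro y hy
        rw [fderivWithin_of_isOpen hU hy,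
          (J3_hasFDerivAt hW hU hWU k (hk.of_le (by simp)) hy).fderiv]
        have hint : IntervalIntegrable (fun s => (fderiv ℝ k (s, y)).comp
            (ContinuousLinearMap.inr ℝ ℝ E)) MeasureTheory.volume 0 1 := by
          apply ContinuousOn.intervalIntegrable
          rw [uIcc_of_le zero_le_one]
          have hcf : ContinuousOn (fderiv ℝ k) W :=
            hk.continuousOn_fderiv_of_isOpen hW (by simp)
          exact (hcf.clm_comp continuousOn_const).comp (by fun_prop)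
            (fun s hs => hWU y hy s hs)
        rw [ContinuousLinearMap.intervalIntegral_apply hint]
        rfl
    simpa using h1

lemma J3_contDiffOn {E G : Type} [NormedAddCommGroup E] [NormedSpace ℝ E]
    [FiniteDimensional ℝ E] [NormedAddCommGroup G] [NormedSpace ℝ G] [CompleteSpace G]
    {W : Set (ℝ × E)} (hW : IsOpen W) {U : Set E} (hU : IsOpen U)
    (hWU : ∀ y ∈ U, ∀ s ∈ Icc (0 : ℝ) 1, (s, y) ∈ W)
    (k : ℝ × E → G) (hk : ContDiffOn ℝ ∞ k W) :
    ContDiffOn ℝ ∞ (fun y => ∫ s in (0 : ℝ)..1, k (s, y)) U :=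
  contDiffOn_infty.2 fun n => J3_contDiffOn_nat hW hU hWU n k hk

/-- The circle average as an integral over `[0,1]`. -/
lemma J3_circleAverage (f : ℂ → ℝ) (c : ℂ) (ρ : ℝ) :
    Real.circleAverage f c ρ = ∫ s in (0 : ℝ)..1, f (circleMap c ρ (2 * Real.pi * s)) := by
  have h : (2 * Real.pi) ≠ 0 := by positivity
  rw [Real.circleAverage_def, intervalIntegral.integral_comp_mul_left
    (fun θ => f (circleMap c ρ θ)) h]
  simp

/-- The chart `(s, t) ↦ (c + ρ e^{2 π i s}, t)`. -/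
noncomputable def J3_map (c : ℂ) (ρ : ℝ) (q : ℝ × ℂ) : ℂ × ℂ :=
  (circleMap c ρ (2 * Real.pi * q.1), q.2)

lemma J3_map_contDiff (c : ℂ) (ρ : ℝ) : ContDiff ℝ ∞ (J3_map c ρ) := by
  unfold J3_map
  apply ContDiff.prodMk
  · exact (contDiff_circleMap c ρ).comp (contDiff_const.mul contDiff_fst)
  · exact contDiff_snd

lemma J3_setup {φ : ℂ × ℂ → ℝ} {W : Set (ℂ × ℂ)} (hW : IsOpen W)
    (hφ : ContDiffOn ℝ ∞ φ W) {c : ℂ} {ρ : ℝ} (hρ : 0 < ρ) {U : Set ℂ}
    (h : ∀ t ∈ U, ∀ x ∈ sphere c ρ, (x, t) ∈ W) :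
    IsOpen (J3_map c ρ ⁻¹' W) ∧ (∀ y ∈ U, ∀ s ∈ Icc (0 : ℝ) 1, (s, y) ∈ J3_map c ρ ⁻¹' W) ∧
      ContDiffOn ℝ ∞ (fun q => φ (J3_map c ρ q)) (J3_map c ρ ⁻¹' W) := by
  refine ⟨hW.preimage (J3_map_contDiff c ρ).continuous, ?_, ?_⟩
  · intro y hy s _
    exact h y hy _ (circleMap_mem_sphere c hρ.le _)
  · exact hφ.comp (J3_map_contDiff c ρ).contDiffOn (fun q hq => hq)

/-- The derivative applied to a vector. -/
lemma J3_fderiv_apply {E G : Type} [NormedAddCommGroup E] [NormedSpace ℝ E]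
    [FiniteDimensional ℝ E] [NormedAddCommGroup G] [NormedSpace ℝ G] [CompleteSpace G]
    {W : Set (ℝ × E)} (hW : IsOpen W) {U : Set E} (hU : IsOpen U)
    (hWU : ∀ y ∈ U, ∀ s ∈ Icc (0 : ℝ) 1, (s, y) ∈ W)
    (k : ℝ × E → G) (hk : ContDiffOn ℝ 1 k W) {y : E} (hy : y ∈ U) (v : E) :
    fderiv ℝ (fun y => ∫ s in (0:ℝ)..1, k (s, y)) y v =
      ∫ s in (0:ℝ)..1, (fderiv ℝ k (s, y)) ((0 : ℝ), v) := by
  rw [(J3_hasFDerivAt hW hU hWU k hk hy).fderiv]
  have hint : IntervalIntegrable (fun s => (fderiv ℝ k (s, y)).comp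
      (ContinuousLinearMap.inr ℝ ℝ E)) MeasureTheory.volume 0 1 := by
    apply ContinuousOn.intervalIntegrable
    rw [uIcc_of_le zero_le_one]
    have hcf : ContinuousOn (fderiv ℝ k) W :=
      hk.continuousOn_fderiv_of_isOpen hW (by simp)
    exact (hcf.clm_comp continuousOn_const).comp (by fun_prop)
      (fun s hs => hWU y hy s hs)
  rw [ContinuousLinearMap.intervalIntegral_apply hint]
  rfl

/-- Second derivatives under the integral sign. -/
lemma J3_second {W : Set (ℝ × ℂ)} (hW : IsOpen W) {U : Set ℂ} (hU : IsOpen U)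
    (hWU : ∀ y ∈ U, ∀ s ∈ Icc (0 : ℝ) 1, (s, y) ∈ W)
    (k : ℝ × ℂ → ℝ) (hk : ContDiffOn ℝ ∞ k W) {t : ℂ} (ht : t ∈ U) (v : ℂ) :
    IntervalIntegrable (fun s => iteratedFDeriv ℝ 2 (fun y => k (s, y)) t ![v, v]) volume 0 1 ∧
    iteratedFDeriv ℝ 2 (fun y => ∫ s in (0:ℝ)..1, k (s, y)) t ![v, v] =
      ∫ s in (0:ℝ)..1, iteratedFDeriv ℝ 2 (fun y => k (s, y)) t ![v, v] := by
  set K : ℝ × ℂ → (ℂ →L[ℝ] ℝ) := fun q => (fderiv ℝ k q).comp (ContinuousLinearMap.inr ℝ ℝ ℂ)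
    with hKdef
  have hK : ContDiffOn ℝ ∞ K W :=
    (hk.fderiv_of_isOpen hW (m := ∞) (by simp)).clm_comp contDiffOn_const
  -- the pointwise second derivative
  have e1 : ∀ s ∈ Icc (0 : ℝ) 1, iteratedFDeriv ℝ 2 (fun y => k (s, y)) t ![v, v]
      = (fderiv ℝ K (s, t)) ((0 : ℝ), v) v := by
    intro s hs
    rw [iteratedFDeriv_two_apply]
    have h1 : fderiv ℝ (fun y => k (s, y)) =ᶠ[𝓝 t] fun y => K (s, y) := by
      have : ∀ᶠ y in 𝓝 t, (s, y) ∈ W := by
        have hc : Continuous (fun y : ℂ => (s, y)) := by fun_prop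
        exact hc.continuousAt.eventually (hW.mem_nhds (hWU t ht s hs))
      filter_upwards [this] with y hy
      have hd : DifferentiableAt ℝ k (s, y) :=
        (hk.contDiffAt (hW.mem_nhds hy)).differentiableAt (by simp)
      exact (hd.hasFDerivAt.comp y (hasFDerivAt_prodMk_right s y)).fderiv
    have hd : DifferentiableAt ℝ K (s, t) :=
      (hK.contDiffAt (hW.mem_nhds (hWU t ht s hs))).differentiableAt (by simp)
    have h2 : fderiv ℝ (fun y => K (s, y)) t
        = (fderiv ℝ K (s, t)).comp (ContinuousLinearMap.inr ℝ ℝ ℂ) :=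
      (hd.hasFDerivAt.comp t (hasFDerivAt_prodMk_right s t)).fderiv
    rw [h1.fderiv_eq, h2]
    rfl
  have hu : uIcc (0:ℝ) 1 = Icc 0 1 := uIcc_of_le zero_le_one
  have hcf : ContinuousOn (fderiv ℝ K) W := hK.continuousOn_fderiv_of_isOpen hW (by simp)
  have hcomp : ContinuousOn (fun s : ℝ => fderiv ℝ K (s, t)) (Icc 0 1) :=
    hcf.comp (by fun_prop) (fun s hs => hWU t ht s hs)
  have hcont : ContinuousOn (fun s : ℝ => (fderiv ℝ K (s, t)) ((0 : ℝ), v) v) (Icc 0 1) :=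
    (hcomp.clm_apply continuousOn_const).clm_apply continuousOn_const
  have hint : IntervalIntegrable (fun s : ℝ => (fderiv ℝ K (s, t)) ((0 : ℝ), v) v) volume 0 1 :=
    ContinuousOn.intervalIntegrable (by rw [hu]; exact hcont)
  constructor
  · refine ContinuousOn.intervalIntegrable ?_
    rw [hu]
    exact hcont.congr e1
  · rw [iteratedFDeriv_two_apply]
    have h1 : fderiv ℝ (fun y => ∫ s in (0:ℝ)..1, k (s, y)) =ᶠ[𝓝 t]
        fun y => ∫ s in (0:ℝ)..1, K (s, y) := by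
      filter_upwards [hU.mem_nhds ht] with y hy
      exact (J3_hasFDerivAt hW hU hWU k (hk.of_le (by simp)) hy).fderiv
    have h2 := J3_fderiv_apply hW hU hWU K (hK.of_le (by simp)) ht v
    have e2 : (![v, v] : Fin 2 → ℂ) 0 = v := rfl
    have e3 : (![v, v] : Fin 2 → ℂ) 1 = v := rfl
    rw [e2, e3, h1.fderiv_eq, h2]
    have hint2 : IntervalIntegrable (fun s => (fderiv ℝ K (s, t)) ((0 : ℝ), v)) volume 0 1 := by
      apply ContinuousOn.intervalIntegrable
      rw [hu]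
      exact hcomp.clm_apply continuousOn_const
    rw [ContinuousLinearMap.intervalIntegral_apply hint2]
    apply intervalIntegral.integral_congr
    intro s hs
    rw [hu] at hs
    exact (e1 s hs).symm

lemma J3_laplacian (f : ℂ → ℝ) (t : ℂ) : Laplacian.laplacian f t =
    iteratedFDeriv ℝ 2 f t ![1, 1] + iteratedFDeriv ℝ 2 f t ![Complex.I, Complex.I] := by
  rw [InnerProductSpace.laplacian_eq_iteratedFDeriv_complexPlane]

theorem contDiffOn_circleAverage_param {φ : ℂ × ℂ → ℝ} {W : Set (ℂ × ℂ)} (hW : IsOpen W)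
    (hφ : ContDiffOn ℝ ∞ φ W) {c : ℂ} {ρ : ℝ} (hρ : 0 < ρ) {U : Set ℂ} (hU : IsOpen U)
    (h : ∀ t ∈ U, ∀ x ∈ sphere c ρ, (x, t) ∈ W) :
    ContDiffOn ℝ ∞ (fun t => Real.circleAverage (fun x => φ (x, t)) c ρ) U := by
  obtain ⟨h1, h2, h3⟩ := J3_setup hW hφ hρ h
  refine (J3_contDiffOn h1 hU h2 _ h3).congr ?_
  intro t _
  exact J3_circleAverage _ c ρ

theorem laplacian_circleAverage_param {φ : ℂ × ℂ → ℝ} {W : Set (ℂ × ℂ)} (hW : IsOpen W)
    (hφ : ContDiffOn ℝ ∞ φ W) {c : ℂ} {ρ : ℝ} (hρ : 0 < ρ) {U : Set ℂ} (hU : IsOpen U)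
    (h : ∀ t ∈ U, ∀ x ∈ sphere c ρ, (x, t) ∈ W) {t : ℂ} (ht : t ∈ U) :
    Laplacian.laplacian (fun t => Real.circleAverage (fun x => φ (x, t)) c ρ) t =
      Real.circleAverage (fun x => Laplacian.laplacian (fun t => φ (x, t)) t) c ρ := by
  obtain ⟨h1, h2, h3⟩ := J3_setup hW hφ hρ h
  have e1 : (fun t => Real.circleAverage (fun x => φ (x, t)) c ρ)
      = fun y => ∫ s in (0:ℝ)..1, (fun q => φ (J3_map c ρ q)) (s, y) := by
    funext y
    exact J3_circleAverage _ c ρ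
  have k1 := J3_second h1 hU h2 _ h3 ht 1
  have k2 := J3_second h1 hU h2 _ h3 ht Complex.I
  rw [e1, J3_laplacian, k1.2, k2.2, J3_circleAverage, ← intervalIntegral.integral_add k1.1 k2.1]
  apply intervalIntegral.integral_congr
  intro s _
  simp only
  rw [J3_laplacian]
  rfl

end Pool.Agent.H816_Nef
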