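import Mathlib

/-!
# Fubini for circle averages
-/

set_option autoImplicit false

open Set Filter Topology Metric MeasureTheory
open scoped ContDiff

namespace Pool.Agent.H816_Nef

theorem J4_integrableOn {G : ℝ → ℝ → ℝ} {a b c d : ℝ} {K : Set (ℝ × ℝ)} (hK : IsCompact K)
    (hsub : uIoc a b ×ˢ uIoc c d ⊆ K) (hG : ContinuousOn (Function.uncurry G) K) :
    IntegrableOn (Function.uncurry G) (uIoc a b ×ˢ uIoc c d) :=
  (hG.integrableOn_compact hK).mono_set hsub

theorem circleAverage_swap {F : ℂ → ℂ → ℝ} {a b : ℂ} {r s : ℝ} (hr : 0 ≤ r) (hs : 0 ≤ s)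
    (hF : ContinuousOn (fun q : ℂ × ℂ => F q.1 q.2) (sphere a r ×ˢ sphere b s)) :
    Real.circleAverage (fun x => Real.circleAverage (fun y => F x y) b s) a r =
      Real.circleAverage (fun y => Real.circleAverage (fun x => F x y) a r) b s := by
  have hG : Continuous (Function.uncurry (fun x y : ℝ => F (circleMap a r x) (circleMap b s y))) := by
    have h2 : Continuous (fun q : ℝ × ℝ => (circleMap a r q.1, circleMap b s q.2)) := by fun_prop
    have h3 := hF.comp_continuous h2 (fun q =>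
      ⟨circleMap_mem_sphere a hr q.1, circleMap_mem_sphere b hs q.2⟩)
    exact h3
  have hint : IntegrableOn
      (Function.uncurry (fun x y : ℝ => F (circleMap a r x) (circleMap b s y)))
      (uIoc 0 (2 * Real.pi) ×ˢ uIoc 0 (2 * Real.pi)) :=
    J4_integrableOn (K := uIcc 0 (2 * Real.pi) ×ˢ uIcc 0 (2 * Real.pi))
      (isCompact_uIcc.prod isCompact_uIcc)
      (Set.prod_mono uIoc_subset_uIcc uIoc_subset_uIcc) hG.continuousOn
  simp only [Real.circleAverage_def, intervalIntegral.integral_smul]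
  rw [intervalIntegral_intervalIntegral_swap hint]

theorem circleAverage_integral_swap {F : ℂ → ℝ → ℝ} {a : ℂ} {r : ℝ} {R : ℝ} (hr : 0 ≤ r)
    (hR : 0 ≤ R) (hF : ContinuousOn (fun q : ℂ × ℝ => F q.1 q.2) (sphere a r ×ˢ Icc 0 R)) :
    Real.circleAverage (fun x => ∫ t in (0 : ℝ)..R, F x t) a r =
      ∫ t in (0 : ℝ)..R, Real.circleAverage (fun x => F x t) a r := by
  have hG : ContinuousOn (Function.uncurry (fun x t : ℝ => F (circleMap a r x) t))
      (uIcc 0 (2 * Real.pi) ×ˢ uIcc 0 R) := by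
    have h2 : Continuous (fun q : ℝ × ℝ => (circleMap a r q.1, q.2)) := by fun_prop
    have h3 := hF.comp h2.continuousOn (s := uIcc 0 (2 * Real.pi) ×ˢ uIcc 0 R) (fun q hq =>
      ⟨circleMap_mem_sphere a hr q.1, by rw [← uIcc_of_le hR]; exact hq.2⟩)
    exact h3
  have hint : IntegrableOn
      (Function.uncurry (fun x t : ℝ => F (circleMap a r x) t))
      (uIoc 0 (2 * Real.pi) ×ˢ uIoc 0 R) :=
    J4_integrableOn (isCompact_uIcc.prod isCompact_uIcc)
      (Set.prod_mono uIoc_subset_uIcc uIoc_subset_uIcc) hG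
  simp only [Real.circleAverage_def, intervalIntegral.integral_smul]
  rw [intervalIntegral_intervalIntegral_swap hint]

/-- continuity of circle averages with parameters. -/
theorem continuousOn_circleAverage_param {α : Type} [TopologicalSpace α] [FirstCountableTopology α]
    {F : α → ℂ → ℝ} {A : Set α} {b : ℂ} {R : ℝ}
    (hF : ContinuousOn (fun q : α × ℂ => F q.1 q.2) (A ×ˢ closedBall b R)) :
    ContinuousOn (fun q : α × ℝ => Real.circleAverage (F q.1) b q.2) (A ×ˢ Icc 0 R) := by
  rw [continuousOn_iff_continuous_domRestrict] at *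
  have hmem (x : ↥(A ×ˢ Icc (0 : ℝ) R) × ℝ) :
      (x.1.1.1, circleMap b x.1.1.2 x.2) ∈ A ×ˢ closedBall b R := by
    refine ⟨x.1.2.1, ?_⟩
    have h1 := circleMap_mem_closedBall b x.1.2.2.1 x.2
    exact closedBall_subset_closedBall x.1.2.2.2 h1
  have hc : Continuous (Function.uncurry (fun (x : ↥(A ×ˢ Icc (0 : ℝ) R)) (t : ℝ) =>
      F x.1.1 (circleMap b x.1.2 t))) := by
    have h3 : Continuous (fun x : ↥(A ×ˢ Icc (0 : ℝ) R) × ℝ =>
        (⟨(x.1.1.1, circleMap b x.1.1.2 x.2), hmem x⟩ : ↥(A ×ˢ closedBall b R))) := by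
      refine Continuous.subtype_mk (Continuous.prodMk (by fun_prop) ?_) _
      have h2 : Continuous (fun x : ↥(A ×ˢ Icc (0 : ℝ) R) × ℝ => (x.1.1.2, x.2)) := by fun_prop
      exact (Real.circleMap.continuous (c := b)).comp h2
    exact hF.comp h3
  have h4 := (intervalIntegral.continuous_parametric_intervalIntegral_of_continuous'
    (μ := volume) hc 0 (2 * Real.pi)).const_smul (2 * Real.pi)⁻¹
  exact h4

end Pool.Agent.H816_Nef
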