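import Mathlib
import Pool.Agent.PNB.Defs

set_option autoImplicit false

open Set Filter Topology Metric MeasureTheory
open scoped ContDiff

namespace Pool.Agent.H816_Nef

variable {E : Type} [NormedAddCommGroup E] [NormedSpace ℂ E]

/-- the Levi form (times 4) of a real function on a complex vector space -/
noncomputable def levi (φ : E → ℝ) (x v : E) : ℝ :=
  fderiv ℝ (fderiv ℝ φ) x v v + fderiv ℝ (fderiv ℝ φ) x (Complex.I • v) (Complex.I • v)

theorem J5_sym {φ : E → ℝ} {x : E} (hφ : ContDiffAt ℝ 2 φ x) (v w : E) :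
    fderiv ℝ (fderiv ℝ φ) x v w = fderiv ℝ (fderiv ℝ φ) x w v := by
  have h := hφ.isSymmSndFDerivAt (by simp)
  exact h v w

/-- the derivative of a `C²` function is differentiable -/
theorem J5_diff {F : Type} [NormedAddCommGroup F] [NormedSpace ℝ F] {φ : F → ℝ} {x : F}
    (hφ : ContDiffAt ℝ 2 φ x) : DifferentiableAt ℝ (fderiv ℝ φ) x := by
  have h : ContDiffAt ℝ 1 (fderiv ℝ φ) x := hφ.fderiv_right (m := 1) (by norm_num)
  exact h.differentiableAt (by norm_num)

theorem J5_ev {F : Type} [NormedAddCommGroup F] [NormedSpace ℝ F] {φ : F → ℝ} {x : F}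
    (hφ : ContDiffAt ℝ 2 φ x) : ∀ᶠ y in 𝓝 x, DifferentiableAt ℝ φ y := by
  have h := hφ.eventually (by simp)
  filter_upwards [h] with y hy
  exact hy.differentiableAt (by norm_num)

/-- the second derivative of `φ ∘ f` in the direction `e` -/
theorem J5_second [CompleteSpace E] {φ : E → ℝ} {f : ℂ → E} {ζ : ℂ}
    (hf : AnalyticAt ℂ f ζ) (hφ : ContDiffAt ℝ 2 φ (f ζ)) (e : ℂ) :
    fderiv ℝ (fderiv ℝ (fun w => φ (f w))) ζ e e =
      fderiv ℝ (fderiv ℝ φ) (f ζ) (e • deriv f ζ) (e • deriv f ζ) +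
        fderiv ℝ φ (f ζ) ((e * e) • deriv (deriv f) ζ) := by
  have hfR : ContDiffAt ℝ 2 f ζ := by
    have h1 : ContDiffAt ℂ 2 f ζ := hf.contDiffAt
    exact h1.restrict_scalars ℝ
  have hg : ContDiffAt ℝ 2 (fun w => φ (f w)) ζ := hφ.comp ζ hfR
  -- step 1: evaluate the first derivative
  have h1 : fderiv ℝ (fderiv ℝ (fun w => φ (f w))) ζ e e =
      fderiv ℝ (fun w => fderiv ℝ (fun w => φ (f w)) w e) ζ e := by
    have hd := (J5_diff hg).hasFDerivAt.clm_apply (hasFDerivAt_const e ζ)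
    rw [hd.fderiv]
    simp
  -- step 2: the chain rule near ζ
  have hφev : ∀ᶠ w in 𝓝 ζ, DifferentiableAt ℝ φ (f w) :=
    hf.continuousAt.eventually (J5_ev hφ)
  have h2 : (fun w => fderiv ℝ (fun w => φ (f w)) w e) =ᶠ[𝓝 ζ]
      fun w => fderiv ℝ φ (f w) (e • deriv f w) := by
    filter_upwards [hφev, hf.eventually_analyticAt] with w hw hfw
    have hfd : HasFDerivAt f ((ContinuousLinearMap.toSpanSingleton ℂ (deriv f w)).restrictScalars ℝ) w :=
      (hfw.differentiableAt.hasDerivAt.hasFDerivAt).restrictScalars ℝ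
    have hc := hw.hasFDerivAt.comp w hfd
    have hc' : fderiv ℝ (fun w => φ (f w)) w =
      (fderiv ℝ φ (f w)).comp ((ContinuousLinearMap.toSpanSingleton ℂ (deriv f w)).restrictScalars ℝ) :=
      hc.fderiv
    rw [hc']
    simp
  rw [h1, h2.fderiv_eq]
  -- step 3: product rule
  have hfd : HasFDerivAt f ((ContinuousLinearMap.toSpanSingleton ℂ (deriv f ζ)).restrictScalars ℝ) ζ :=
      (hf.differentiableAt.hasDerivAt.hasFDerivAt).restrictScalars ℝ
  have hfd2 : HasFDerivAt (fun w => e • deriv f w)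
      (e • (ContinuousLinearMap.toSpanSingleton ℂ (deriv (deriv f) ζ)).restrictScalars ℝ) ζ :=
    ((hf.deriv.differentiableAt.hasDerivAt.hasFDerivAt).restrictScalars ℝ).const_smul e
  have hA := (J5_diff hφ).hasFDerivAt.comp ζ hfd
  have hAB := hA.clm_apply hfd2
  have hAB' := hAB.fderiv
  simp only [Function.comp_def] at hAB'
  rw [hAB']
  simp [smul_smul, add_comm]

theorem laplacian_comp_hol [CompleteSpace E] {φ : E → ℝ} {f : ℂ → E} {ζ : ℂ}
    (hf : AnalyticAt ℂ f ζ) (hφ : ContDiffAt ℝ 2 φ (f ζ)) :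
    Laplacian.laplacian (fun w => φ (f w)) ζ = levi φ (f ζ) (deriv f ζ) := by
  rw [InnerProductSpace.laplacian_eq_iteratedFDeriv_complexPlane]
  simp only [iteratedFDeriv_two_apply]
  have h1 := J5_second hf hφ 1
  have hI := J5_second hf hφ Complex.I
  simp only [Matrix.cons_val_zero, Matrix.cons_val_one]
  rw [h1, hI, levi]
  simp only [one_smul, one_mul, Complex.I_mul_I, neg_smul, map_neg]
  ring

theorem J5_line {u : ℂ → ℝ} (hu : ContDiffAt ℝ 2 u 0) (e : ℂ) :
    iteratedDeriv 2 (fun s : ℝ => u ((s : ℂ) * e)) 0 = fderiv ℝ (fderiv ℝ u) 0 e e := by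
  have hline : ∀ s : ℝ, HasDerivAt (fun s : ℝ => (s : ℂ) * e) e s := by
    intro s
    have h := (Complex.ofRealCLM.hasDerivAt (x := s)).mul_const e
    simpa using h
  have hcont : Tendsto (fun s : ℝ => (s : ℂ) * e) (𝓝 0) (𝓝 0) := by
    have h := (hline 0).continuousAt
    simpa [ContinuousAt] using h
  rw [iteratedDeriv_succ, iteratedDeriv_one]
  have h1 : deriv (fun s : ℝ => u ((s : ℂ) * e)) =ᶠ[𝓝 0] fun s => fderiv ℝ u ((s : ℂ) * e) e := by
    filter_upwards [hcont.eventually (J5_ev hu)] with s hs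
    exact (hs.hasFDerivAt.comp_hasDerivAt s (hline s)).deriv
  rw [h1.deriv_eq]
  have hd : HasFDerivAt (fderiv ℝ u) (fderiv ℝ (fderiv ℝ u) 0) (((0 : ℝ) : ℂ) * e) := by
    simpa using (J5_diff hu).hasFDerivAt
  have h2 : HasDerivAt (fun s : ℝ => fderiv ℝ u ((s : ℂ) * e)) (fderiv ℝ (fderiv ℝ u) 0 e) 0 :=
    hd.comp_hasDerivAt 0 (hline 0)
  have h3 := h2.clm_apply (hasDerivAt_const (0 : ℝ) e)
  rw [h3.deriv]
  simp

theorem laplaceAtZero_eq {u : ℂ → ℝ} (hu : ContDiffAt ℝ 2 u 0) :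
    PNB.laplaceAtZero u = Laplacian.laplacian u 0 := by
  rw [InnerProductSpace.laplacian_eq_iteratedFDeriv_complexPlane]
  simp only [iteratedFDeriv_two_apply, Matrix.cons_val_zero, Matrix.cons_val_one]
  have h1 := J5_line hu 1
  have h2 := J5_line hu Complex.I
  simp only [mul_one] at h1
  rw [PNB.laplaceAtZero, h1, h2]

theorem continuousOn_levi {φ : E → ℝ} {O : Set E} (hO : IsOpen O) (hφ : ContDiffOn ℝ 2 φ O) :
    ContinuousOn (fun q : E × E => levi φ q.1 q.2) (O ×ˢ univ) := by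
  have h1 : ContDiffOn ℝ 1 (fderiv ℝ φ) O := hφ.fderiv_of_isOpen hO (by norm_num)
  have h2 : ContinuousOn (fderiv ℝ (fderiv ℝ φ)) O :=
    h1.continuousOn_fderiv_of_isOpen hO (by norm_num)
  have h3 : ContinuousOn (fun q : E × E => fderiv ℝ (fderiv ℝ φ) q.1) (O ×ˢ univ) :=
    h2.comp continuousOn_fst (fun q hq => hq.1)
  have h4 : ContinuousOn (fun q : E × E => q.2) (O ×ˢ (univ : Set E)) := continuousOn_snd
  have h5 : ContinuousOn (fun q : E × E => Complex.I • q.2) (O ×ˢ (univ : Set E)) :=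
    h4.const_smul Complex.I
  unfold levi
  exact ((h3.clm_apply h4).clm_apply h4).add ((h3.clm_apply h5).clm_apply h5)

theorem levi_smul (φ : E → ℝ) {x : E} (hφ : ContDiffAt ℝ 2 φ x) (a : ℂ) (v : E) :
    levi φ x (a • v) = ‖a‖ ^ 2 * levi φ x v := by
  have hs := J5_sym hφ v (Complex.I • v)
  have ha : a • v = a.re • v + a.im • (Complex.I • v) := by
    conv_lhs => rw [← Complex.re_add_im a]
    rw [add_smul, mul_smul]
    rfl
  have hIa : Complex.I • (a • v) = a.re • (Complex.I • v) - a.im • v := by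
    have : Complex.I • (a • v) = ((a.re : ℂ) * Complex.I - (a.im : ℂ)) • v := by
      rw [smul_smul]
      congr 1
      apply Complex.ext <;> simp
    rw [this, sub_smul, mul_smul]
    rfl
  have hn : ‖a‖ ^ 2 = a.re ^ 2 + a.im ^ 2 := by
    rw [← Complex.normSq_eq_norm_sq, Complex.normSq_apply]; ring
  unfold levi
  rw [hIa, ha, hn]
  simp only [map_add, map_sub, map_smul, add_apply, sub_apply, smul_apply, smul_eq_mul]
  rw [hs]
  ring

theorem levi_sub {φ ψ : E → ℝ} {x : E} (hφ : ContDiffAt ℝ 2 φ x) (hψ : ContDiffAt ℝ 2 ψ x)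
    (v : E) : levi (fun y => φ y - ψ y) x v = levi φ x v - levi ψ x v := by
  have h1 : fderiv ℝ (fun y => φ y - ψ y) =ᶠ[𝓝 x] fun y => fderiv ℝ φ y - fderiv ℝ ψ y := by
    filter_upwards [J5_ev hφ, J5_ev hψ] with y h1 h2
    exact fderiv_fun_sub h1 h2
  have h2 : fderiv ℝ (fderiv ℝ (fun y => φ y - ψ y)) x =
      fderiv ℝ (fderiv ℝ φ) x - fderiv ℝ (fderiv ℝ ψ) x := by
    rw [h1.fderiv_eq]
    exact fderiv_fun_sub (J5_diff hφ) (J5_diff hψ)
  unfold levi
  rw [h2]
  simp only [sub_apply]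
  ring

end Pool.Agent.H816_Nef
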