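import Mathlib

/-!
# Kiselman's minimum principle
-/

set_option autoImplicit false

open Set Filter Topology Metric MeasureTheory
open scoped ContDiff

namespace Pool.Agent.H816_Nef

/-- outside `[m, M]` a coercive convex function is larger than at `0` -/
theorem J6_out {f : ℝ → ℝ} {m M : ℝ} (hm : m < 0) (hM : 0 < M) (hconv : ConvexOn ℝ univ f)
    (hco : f 0 < f m ∧ f 0 < f M) {T : ℝ} (hT : T ∉ Icc m M) : f 0 < f T := by
  by_contra hle
  push Not at hle
  rcases lt_or_ge T m with h | h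
  · have h1 := hconv.le_max_of_mem_Icc (mem_univ T) (mem_univ 0) (z := m) ⟨h.le, hm.le⟩
    have h2 : max (f T) (f 0) = f 0 := max_eq_right hle
    rw [h2] at h1
    exact absurd hco.1 (not_lt.2 h1)
  · have h' : M < T := by
      by_contra hc
      push Not at hc
      exact hT ⟨h, hc⟩
    have h1 := hconv.le_max_of_mem_Icc (mem_univ 0) (mem_univ T) (z := M) ⟨hM.le, h'.le⟩
    have h2 : max (f 0) (f T) = f 0 := max_eq_left hle
    rw [h2] at h1
    exact absurd hco.2 (not_lt.2 h1)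

/-- existence of the minimum -/
theorem J6_min {f : ℝ → ℝ} {m M : ℝ} (hm : m < 0) (hM : 0 < M) (hc : Continuous f)
    (hconv : ConvexOn ℝ univ f) (hco : f 0 < f m ∧ f 0 < f M) :
    ∃ T ∈ Icc m M, (⨅ T, f T) = f T ∧ (∀ T', f T ≤ f T') ∧ (⨅ T, f T) = sInf (f '' Icc m M) := by
  have hmM : m ≤ M := (hm.trans hM).le
  obtain ⟨T, hT, hmin⟩ := isCompact_Icc.exists_isMinOn (nonempty_Icc.2 hmM) hc.continuousOn
  have hall : ∀ T', f T ≤ f T' := by
    intro T'
    by_cases h : T' ∈ Icc m M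
    · exact hmin h
    · exact (hmin (⟨hm.le, hM.le⟩ : (0 : ℝ) ∈ Icc m M)).trans (J6_out hm hM hconv hco h).le
  have h1 : (⨅ T, f T) = f T :=
    le_antisymm (ciInf_le ⟨f T, by rintro _ ⟨T', rfl⟩; exact hall T'⟩ T) (le_ciInf hall)
  refine ⟨T, hT, h1, hall, ?_⟩
  rw [h1]
  refine le_antisymm (le_csInf ⟨f T, mem_image_of_mem f hT⟩ ?_) (csInf_le ⟨f T, ?_⟩
    (mem_image_of_mem f hT))
  · rintro _ ⟨T', _, rfl⟩
    exact hall T'
  · rintro _ ⟨T', _, rfl⟩
    exact hall T'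

theorem J6_slice {S : Set ℂ} {F : ℂ → ℝ → ℝ}
    (hc : ContinuousOn (fun q : ℂ × ℝ => F q.1 q.2) (S ×ˢ univ)) {c : ℂ} (hcS : c ∈ S) :
    Continuous (F c) := by
  have h : Continuous fun T : ℝ => F c T :=
    hc.comp_continuous (f := fun T : ℝ => ((c, T) : ℂ × ℝ)) (by fun_prop)
      (fun T => ⟨hcS, mem_univ _⟩)
  exact h

theorem continuousOn_inf {S : Set ℂ} {F : ℂ → ℝ → ℝ} {m M : ℝ} (hm : m < 0) (hM : 0 < M)
    (hc : ContinuousOn (fun q : ℂ × ℝ => F q.1 q.2) (S ×ˢ univ))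
    (hconv : ∀ c ∈ S, ConvexOn ℝ univ (F c))
    (hco : ∀ c ∈ S, F c 0 < F c m ∧ F c 0 < F c M) :
    ContinuousOn (fun c => ⨅ T, F c T) S ∧ ∀ c ∈ S, ∃ T ∈ Icc m M, (⨅ T, F c T) = F c T ∧
      ∀ T', F c T ≤ F c T' := by
  have key : ∀ c ∈ S, ∃ T ∈ Icc m M, (⨅ T, F c T) = F c T ∧ (∀ T', F c T ≤ F c T') ∧
      (⨅ T, F c T) = sInf (F c '' Icc m M) := fun c hcS =>
    J6_min hm hM (J6_slice hc hcS) (hconv c hcS) (hco c hcS)
  constructor
  · rw [continuousOn_iff_continuous_domRestrict]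
    have h1 : Continuous fun x : S => sInf ((fun T : ℝ => F x.1 T) '' Icc m M) := by
      refine IsCompact.continuous_sInf (f := fun (x : S) (T : ℝ) => F x.1 T) isCompact_Icc ?_
      exact hc.comp_continuous (f := fun q : S × ℝ => ((q.1.1, q.2) : ℂ × ℝ)) (by fun_prop)
        (fun q => ⟨q.1.2, mem_univ _⟩)
    refine h1.congr fun x => ?_
    obtain ⟨T, -, -, -, h4⟩ := key x.1 x.2
    exact h4.symm
  · intro c hcS
    obtain ⟨T, h1, h2, h3, -⟩ := key c hcS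
    exact ⟨T, h1, h2, h3⟩

theorem kiselman (hdense : ∀ (z : ℂ) (r : ℝ), 0 < r → ∀ u : ℂ → ℝ, ContinuousOn u (sphere z r) →
      ∀ ε : ℝ, 0 < ε → ∃ P : Polynomial ℂ, ∀ w ∈ sphere z r, |u w - (P.eval w).re| ≤ ε)
    {z₀ : ℂ} {ρ : ℝ} (hρ : 0 < ρ) {F : ℂ → ℝ → ℝ} {m M : ℝ} (hm : m < 0) (hM : 0 < M)
    (hc : ContinuousOn (fun q : ℂ × ℝ => F q.1 q.2) (closedBall z₀ ρ ×ˢ univ))
    (hconv : ∀ c ∈ closedBall z₀ ρ, ConvexOn ℝ univ (F c))
    (hco : ∀ c ∈ closedBall z₀ ρ, F c 0 < F c m ∧ F c 0 < F c M)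
    (hsub : ∀ P : Polynomial ℂ,
      F z₀ (P.eval z₀).re ≤ Real.circleAverage (fun c => F c (P.eval c).re) z₀ ρ) :
    (⨅ T, F z₀ T) ≤ Real.circleAverage (fun c => ⨅ T, F c T) z₀ ρ := by
  classical
  obtain ⟨hK, hmin⟩ := continuousOn_inf hm hM hc hconv hco
  have hsc : sphere z₀ ρ ⊆ closedBall z₀ ρ := sphere_subset_closedBall
  have hKs : ContinuousOn (fun c => ⨅ T, F c T) (sphere z₀ ρ) := hK.mono hsc
  refine le_of_forall_pos_le_add fun ε' hε' => ?_
  set ε : ℝ := ε' / 2 with hεd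
  have hε : 0 < ε := by positivity
  -- the selection
  have hloc : ∀ x : sphere z₀ ρ, ∃ T : ℝ, ∀ᶠ y : sphere z₀ ρ in 𝓝 x,
      T ∈ {T | T ∈ Icc m M ∧ F y.1 T < (⨅ T, F y.1 T) + ε} := by
    intro x
    obtain ⟨T, hT, h1, -⟩ := hmin x.1 (hsc x.2)
    refine ⟨T, ?_⟩
    have h2 : Continuous fun y : sphere z₀ ρ => F y.1 T :=
      hc.comp_continuous (f := fun y : sphere z₀ ρ => ((y.1, T) : ℂ × ℝ)) (by fun_prop)
        (fun q => ⟨hsc q.2, mem_univ _⟩)
    have h3 : Continuous fun y : sphere z₀ ρ => (⨅ T, F y.1 T) + ε :=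
      (continuousOn_iff_continuous_domRestrict.1 hKs).add continuous_const
    have h4 : F x.1 T < (⨅ T, F x.1 T) + ε := by rw [h1]; linarith
    filter_upwards [h2.continuousAt.eventually_lt h3.continuousAt h4] with y hy
    exact ⟨hT, hy⟩
  have hcx : ∀ x : sphere z₀ ρ, Convex ℝ {T | T ∈ Icc m M ∧ F x.1 T < (⨅ T, F x.1 T) + ε} := by
    intro x
    have h1 := (hconv x.1 (hsc x.2)).convex_lt ((⨅ T, F x.1 T) + ε)
    have h2 := (convex_Icc (𝕜 := ℝ) m M).inter h1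
    have h3 : {T | T ∈ Icc m M ∧ F x.1 T < (⨅ T, F x.1 T) + ε} =
        Icc m M ∩ {T | T ∈ univ ∧ F x.1 T < (⨅ T, F x.1 T) + ε} := by
      ext T; simp
    rw [h3]
    exact h2
  obtain ⟨g, hg⟩ := exists_continuous_forall_mem_convex_of_local_const hcx hloc
  set u : ℂ → ℝ := fun w => if h : w ∈ sphere z₀ ρ then g ⟨w, h⟩ else 0 with hu
  have huc : ContinuousOn u (sphere z₀ ρ) := by
    rw [continuousOn_iff_continuous_domRestrict]
    refine g.continuous.congr fun x => ?_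
    simp only [hu, domRestrict_apply]
    rw [dif_pos x.2]
  have hug : ∀ w (h : w ∈ sphere z₀ ρ), u w ∈ Icc m M ∧ F w (u w) < (⨅ T, F w T) + ε := by
    intro w h
    have h1 := hg ⟨w, h⟩
    simp only [hu]
    rw [dif_pos h]
    exact h1
  -- uniform continuity
  have hcomp : IsCompact (sphere z₀ ρ ×ˢ Icc (m - 1) (M + 1)) :=
    (isCompact_sphere _ _).prod isCompact_Icc
  have huni := hcomp.uniformContinuousOn_of_continuous
    (f := fun q : ℂ × ℝ => F q.1 q.2) (hc.mono (prod_mono hsc (subset_univ _)))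
  rw [Metric.uniformContinuousOn_iff] at huni
  obtain ⟨δ, hδ, hδ'⟩ := huni ε hε
  set η : ℝ := min (δ / 2) 1 with hη
  have hη0 : 0 < η := lt_min (by positivity) one_pos
  obtain ⟨P, hP⟩ := hdense z₀ ρ hρ u huc η hη0
  have hPb : ∀ w ∈ sphere z₀ ρ, F w (P.eval w).re ≤ (⨅ T, F w T) + ε' := by
    intro w hw
    obtain ⟨h1, h2⟩ := hug w hw
    have h3 := hP w hw
    have h4 : |u w - (P.eval w).re| ≤ 1 := h3.trans (min_le_right _ _)
    have h5 : |u w - (P.eval w).re| < δ := by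
      have : |u w - (P.eval w).re| ≤ δ / 2 := h3.trans (min_le_left _ _)
      linarith
    rw [abs_le] at h4
    have h6 := hδ' (w, (P.eval w).re) ⟨hw, ⟨by linarith [h1.1], by linarith [h1.2]⟩⟩
      (w, u w) ⟨hw, ⟨by linarith [h1.1], by linarith [h1.2]⟩⟩ (by
        rw [Prod.dist_eq, dist_self, Real.dist_eq, abs_sub_comm]
        exact max_lt hδ h5)
    rw [Real.dist_eq, abs_lt] at h6
    have h7 : F w (P.eval w).re - F w (u w) < ε := h6.2
    have h8 : ε' = ε + ε := by rw [hεd]; ring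
    linarith
  -- conclusion
  have hz0 : z₀ ∈ closedBall z₀ ρ := mem_closedBall_self hρ.le
  obtain ⟨T0, -, h01, h02⟩ := hmin z₀ hz0
  have hPc : ContinuousOn (fun c => F c (P.eval c).re) (sphere z₀ ρ) :=
    hc.comp (f := fun c : ℂ => ((c, (P.eval c).re) : ℂ × ℝ)) (s := sphere z₀ ρ)
      (by
        refine continuousOn_id.prodMk ?_
        exact (Complex.continuous_re.comp P.continuous).continuousOn)
      (fun c hcc => ⟨hsc hcc, mem_univ _⟩)
  have hi1 : CircleIntegrable (fun c => F c (P.eval c).re) z₀ ρ := hPc.circleIntegrable hρ.le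
  have hi2 : CircleIntegrable (fun c => ⨅ T, F c T) z₀ ρ := hKs.circleIntegrable hρ.le
  have hi3 : CircleIntegrable (fun _ : ℂ => ε') z₀ ρ := circleIntegrable_const _ _ _
  calc (⨅ T, F z₀ T) = F z₀ T0 := h01
    _ ≤ F z₀ (P.eval z₀).re := h02 _
    _ ≤ Real.circleAverage (fun c => F c (P.eval c).re) z₀ ρ := hsub P
    _ ≤ Real.circleAverage ((fun c => ⨅ T, F c T) + fun _ => ε') z₀ ρ := by
        refine Real.circleAverage_mono hi1 (hi2.add hi3) fun x hx => ?_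
        rw [abs_of_pos hρ] at hx
        exact hPb x hx
    _ = Real.circleAverage (fun c => ⨅ T, F c T) z₀ ρ + ε' := by
        rw [Real.circleAverage_add hi2 hi3, Real.circleAverage_const]

end Pool.Agent.H816_Nef
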