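import Mathlib

/-!
# The characteristic function of a radial density
-/

set_option autoImplicit false

open Set Filter Topology Metric MeasureTheory
open scoped ContDiff

namespace Pool.Agent.H816_Nef

/-- the characteristic function of a radial density -/
noncomputable def chf (m : ℝ → ℝ) (T : ℝ) : ℝ :=
  ∫ t in (0 : ℝ)..1 / 2, t * Real.log (1 / 2 / t) * (Real.exp T ^ 2 * m (Real.exp T * t))

/-- The integrand after the substitution. -/
noncomputable def J7_f (m : ℝ → ℝ) (T s : ℝ) : ℝ :=
  max ((T - Real.log 2) * s - s * Real.log s) 0 * m s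

theorem J7_cont {m : ℝ → ℝ} (hm : ContinuousOn m (Ici 0)) (T : ℝ) :
    ContinuousOn (J7_f m T) (Ici 0) := by
  unfold J7_f
  refine ContinuousOn.mul (Continuous.continuousOn ?_) hm
  exact ((continuous_const.mul continuous_id).sub Real.continuous_mul_log).max continuous_const

theorem J7_int {m : ℝ → ℝ} (hm : ContinuousOn m (Ici 0)) (T : ℝ) {a b : ℝ} (ha : 0 ≤ a)
    (hb : 0 ≤ b) : IntervalIntegrable (J7_f m T) volume a b := by
  refine ContinuousOn.intervalIntegrable ((J7_cont hm T).mono fun x hx => ?_)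
  rw [mem_uIcc] at hx
  rcases hx with hx | hx
  · exact ha.trans hx.1
  · exact hb.trans hx.1

theorem J7_nonneg {m : ℝ → ℝ} (h0 : ∀ t, 0 ≤ t → 0 ≤ m t) (T : ℝ) {s : ℝ} (hs : 0 ≤ s) :
    0 ≤ J7_f m T s := mul_nonneg (le_max_right _ _) (h0 s hs)

/-- The value of the integrand in the range of integration. -/
theorem J7_val {m : ℝ → ℝ} {T s : ℝ} (hs : 0 < s) (hs' : Real.log s ≤ T - Real.log 2) :
    J7_f m T s = (T - Real.log 2 - Real.log s) * s * m s := by
  have h1 : (T - Real.log 2) * s - s * Real.log s = (T - Real.log 2 - Real.log s) * s := by ring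
  rw [J7_f, h1, max_eq_left (mul_nonneg (by linarith) hs.le)]

/-- The characteristic function after the substitution. -/
theorem J7_eq {m : ℝ → ℝ} (hm : ContinuousOn m (Ici 0)) {T R : ℝ} (hR : Real.exp T / 2 ≤ R) :
    chf m T = ∫ s in (0 : ℝ)..R, J7_f m T s := by
  have hE := Real.exp_pos T
  -- the part beyond `e ^ T / 2`
  have h1 : ∫ s in (Real.exp T / 2)..R, J7_f m T s = 0 := by
    have h2 : ∀ s ∈ uIcc (Real.exp T / 2) R, J7_f m T s = 0 := by
      intro s hs
      rw [uIcc_of_le hR] at hs
      have hs0 : 0 < s := lt_of_lt_of_le (by positivity) hs.1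
      have h3 : T - Real.log 2 ≤ Real.log s := by
        have h4 := Real.log_le_log (by positivity) hs.1
        rwa [Real.log_div (by positivity) (by norm_num), Real.log_exp] at h4
      have h5 : (T - Real.log 2) * s - s * Real.log s ≤ 0 := by
        have h6 := mul_nonneg hs0.le (sub_nonneg.2 h3)
        nlinarith
      rw [J7_f, max_eq_right h5, zero_mul]
    rw [intervalIntegral.integral_congr h2]
    simp
  have h2 := intervalIntegral.integral_add_adjacent_intervals
    (J7_int hm T le_rfl (b := Real.exp T / 2) (by positivity))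
    (J7_int hm T (a := Real.exp T / 2) (by positivity) ((by positivity : (0 : ℝ) ≤
      Real.exp T / 2).trans hR))
  rw [h1, add_zero] at h2
  rw [← h2]
  -- the substitution
  have h3 : chf m T = Real.exp T * ∫ t in (0 : ℝ)..1 / 2, J7_f m T (Real.exp T * t) := by
    rw [chf, ← intervalIntegral.integral_const_mul]
    refine intervalIntegral.integral_congr fun t ht => ?_
    rw [uIcc_of_le (by norm_num)] at ht
    rcases ht.1.eq_or_lt with h4 | h4
    · rw [← h4]
      simp [J7_f]
    · have h5 : Real.log (Real.exp T * t) = T + Real.log t := by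
        rw [Real.log_mul hE.ne' h4.ne', Real.log_exp]
      have h6 : Real.log (1 / 2 / t) = -Real.log 2 - Real.log t := by
        rw [Real.log_div (by norm_num) h4.ne', one_div, Real.log_inv]
      have h7 : Real.log t ≤ -Real.log 2 := by
        have h8 := Real.log_le_log h4 ht.2
        rwa [one_div, Real.log_inv] at h8
      rw [J7_val (mul_pos hE h4) (by rw [h5]; linarith), h5, h6]
      ring
  rw [h3, intervalIntegral.integral_comp_mul_left _ hE.ne', mul_zero, smul_eq_mul, ← mul_assoc,
    mul_inv_cancel₀ hE.ne', one_mul]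
  congr 1
  ring

theorem chf_nonneg {m : ℝ → ℝ} (h0 : ∀ t, 0 ≤ t → 0 ≤ m t) (T : ℝ) : 0 ≤ chf m T := by
  refine intervalIntegral.integral_nonneg (by norm_num) fun t ht => ?_
  have h1 : 0 ≤ Real.log (1 / 2 / t) := by
    rcases ht.1.eq_or_lt with h | h
    · rw [← h]
      simp
    · refine Real.log_nonneg ?_
      rw [le_div_iff₀ h]
      linarith [ht.2]
  exact mul_nonneg (mul_nonneg ht.1 h1)
    (mul_nonneg (sq_nonneg _) (h0 _ (mul_nonneg (Real.exp_pos T).le ht.1)))

theorem convexOn_chf {m : ℝ → ℝ} (hm : ContinuousOn m (Ici 0)) (h0 : ∀ t, 0 ≤ t → 0 ≤ m t) :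
    ConvexOn ℝ univ (chf m) := by
  refine ⟨convex_univ, fun x _ y _ a b ha hb hab => ?_⟩
  simp only [smul_eq_mul]
  obtain ⟨R, hx, hy, hxy⟩ : ∃ R : ℝ, Real.exp x / 2 ≤ R ∧ Real.exp y / 2 ≤ R ∧
      Real.exp (a * x + b * y) / 2 ≤ R :=
    ⟨max (max (Real.exp x / 2) (Real.exp y / 2)) (Real.exp (a * x + b * y) / 2),
      (le_max_left _ _).trans (le_max_left _ _), (le_max_right _ _).trans (le_max_left _ _),
      le_max_right _ _⟩
  have hR : 0 ≤ R := (by positivity : (0 : ℝ) ≤ Real.exp x / 2).trans hx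
  rw [J7_eq hm hx, J7_eq hm hy, J7_eq hm hxy, ← intervalIntegral.integral_const_mul,
    ← intervalIntegral.integral_const_mul, ← intervalIntegral.integral_add
    ((J7_int hm x le_rfl hR).const_mul a) ((J7_int hm y le_rfl hR).const_mul b)]
  refine intervalIntegral.integral_mono_on hR (J7_int hm _ le_rfl hR)
    (((J7_int hm x le_rfl hR).const_mul a).add ((J7_int hm y le_rfl hR).const_mul b)) ?_
  intro s hs
  have h1 : max ((a * x + b * y - Real.log 2) * s - s * Real.log s) 0 ≤
      a * max ((x - Real.log 2) * s - s * Real.log s) 0 +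
        b * max ((y - Real.log 2) * s - s * Real.log s) 0 := by
    refine max_le ?_ (add_nonneg (mul_nonneg ha (le_max_right _ _))
      (mul_nonneg hb (le_max_right _ _)))
    have h2 := mul_le_mul_of_nonneg_left
      (le_max_left ((x - Real.log 2) * s - s * Real.log s) 0) ha
    have h3 := mul_le_mul_of_nonneg_left
      (le_max_left ((y - Real.log 2) * s - s * Real.log s) 0) hb
    have h4 : (a * x + b * y - Real.log 2) * s - s * Real.log s =
        a * ((x - Real.log 2) * s - s * Real.log s) +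
          b * ((y - Real.log 2) * s - s * Real.log s) := by
      have h5 : b = 1 - a := by linarith
      rw [h5]
      ring
    rw [h4]
    exact add_le_add h2 h3
  have h2 := mul_le_mul_of_nonneg_right h1 (h0 s hs.1)
  simp only [J7_f]
  refine h2.trans (le_of_eq ?_)
  ring

theorem small_of_linear {m : ℝ → ℝ} (hm : ContinuousOn m (Ici 0)) (h0 : ∀ t, 0 ≤ t → 0 ≤ m t)
    {A B : ℝ} (h : ∀ T, 0 < T → chf m T ≤ A + B * T) {ε : ℝ} (hε : 0 < ε) (s₀ : ℝ) :
    ∃ s, s₀ ≤ s ∧ 0 < s ∧ s ^ 2 * m s < ε := by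
  by_contra hc
  push Not at hc
  obtain ⟨s₁, h1, h2⟩ : ∃ s₁ : ℝ, 1 ≤ s₁ ∧ s₀ ≤ s₁ := ⟨max 1 s₀, le_max_left _ _, le_max_right _ _⟩
  have hs1 : 0 < s₁ := by linarith
  -- the lower bound
  have key : ∀ T, 0 < T → Real.log 2 + Real.log s₁ ≤ T / 2 →
      T / 2 * ε * (T / 2 - Real.log 2 - Real.log s₁) ≤ chf m T := by
    intro T hT hT1
    rw [J7_eq hm le_rfl]
    set b : ℝ := Real.exp (T / 2) / 2 with hb
    have hb0 : 0 < b := by positivity
    have hlb : Real.log b = T / 2 - Real.log 2 := by
      rw [hb, Real.log_div (by positivity) (by norm_num), Real.log_exp]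
    have hb1 : s₁ ≤ b := by
      rw [← Real.log_le_log_iff hs1 hb0, hlb]
      linarith
    have hb2 : b ≤ Real.exp T / 2 := by
      rw [hb]
      have h3 : Real.exp (T / 2) ≤ Real.exp T := Real.exp_le_exp.2 (by linarith)
      linarith
    have hR : 0 ≤ Real.exp T / 2 := by positivity
    have h3 : ∫ s in s₁..b, J7_f m T s ≤ ∫ s in (0 : ℝ)..Real.exp T / 2, J7_f m T s := by
      refine intervalIntegral.integral_mono_interval hs1.le hb1 hb2 ?_ (J7_int hm T le_rfl hR)
      refine (ae_restrict_mem measurableSet_Ioc).mono fun s hs => ?_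
      exact J7_nonneg h0 T hs.1.le
    refine le_trans ?_ h3
    have h4 : ∫ s in s₁..b, T / 2 * ε * s⁻¹ = T / 2 * ε * (T / 2 - Real.log 2 - Real.log s₁) := by
      rw [intervalIntegral.integral_const_mul, integral_inv_of_pos hs1 hb0,
        Real.log_div hb0.ne' hs1.ne', hlb]
    rw [← h4]
    refine intervalIntegral.integral_mono_on hb1 ?_ (J7_int hm T hs1.le hb0.le) ?_
    · refine ContinuousOn.intervalIntegrable ?_
      refine ContinuousOn.mul continuousOn_const (continuousOn_inv₀.mono fun x hx => ?_)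
      rw [uIcc_of_le hb1] at hx
      exact (lt_of_lt_of_le hs1 hx.1).ne'
    · intro s hs
      have hs0 : 0 < s := lt_of_lt_of_le hs1 hs.1
      have h5 : Real.log s ≤ T / 2 - Real.log 2 := by
        rw [← hlb]
        exact Real.log_le_log hs0 hs.2
      rw [J7_val hs0 (by linarith)]
      have h6 := hc s (h2.trans hs.1) hs0
      have h7 : ε * s⁻¹ ≤ s * m s := by
        rw [← div_eq_mul_inv, div_le_iff₀ hs0]
        nlinarith
      have h8 : 0 ≤ s * m s := mul_nonneg hs0.le (h0 s hs0.le)
      calc T / 2 * ε * s⁻¹ = T / 2 * (ε * s⁻¹) := by ring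
        _ ≤ T / 2 * (s * m s) := mul_le_mul_of_nonneg_left h7 (by linarith)
        _ ≤ (T - Real.log 2 - Real.log s) * (s * m s) :=
          mul_le_mul_of_nonneg_right (by linarith) h8
        _ = (T - Real.log 2 - Real.log s) * s * m s := by ring
  -- the choice of `T`
  set C : ℝ := ε / 2 * (Real.log 2 + Real.log s₁) + B with hC
  set T : ℝ := 1 + 4 * (|A| + |C|) / ε + 2 * |Real.log 2 + Real.log s₁| with hT
  have p1 : 0 ≤ 4 * (|A| + |C|) / ε := by positivity
  have p2 := le_abs_self (Real.log 2 + Real.log s₁)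
  have p3 := abs_nonneg (Real.log 2 + Real.log s₁)
  have p4 : 1 ≤ T := by linarith
  have p5 := key T (by linarith) (by linarith)
  have p6 := h T (by linarith)
  have p7 : |A| + |C| < ε * T / 4 := by
    have q1 : 4 * (|A| + |C|) / ε < T := by linarith
    rw [div_lt_iff₀ hε] at q1
    linarith
  have p8 : ε * T / 4 * T ≤ A + C * T := by
    have q1 : T / 2 * ε * (T / 2 - Real.log 2 - Real.log s₁) =
        ε * T / 4 * T - ε / 2 * (Real.log 2 + Real.log s₁) * T := by ring
    rw [q1] at p5
    rw [hC]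
    linarith
  have p9 : A + C * T ≤ (|A| + |C|) * T := by
    have q1 : A ≤ |A| := le_abs_self A
    have q2 : |A| ≤ |A| * T := le_mul_of_one_le_right (abs_nonneg A) p4
    have q3 : C * T ≤ |C| * T := mul_le_mul_of_nonneg_right (le_abs_self C) (by linarith)
    linarith
  have p10 : (|A| + |C|) * T < ε * T / 4 * T := mul_lt_mul_of_pos_right p7 (by linarith)
  linarith

end Pool.Agent.H816_Nef
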