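import Mathlib
import Pool.Agent.H816_Nef.FinslerDefs
import Pool.Agent.H816_Nef.Sheets

set_option autoImplicit false

open Set Filter Topology Metric MeasureTheory
open scoped ContDiff Manifold

namespace Pool.Agent.H816_Nef

/-- Jensen's inequality -/
theorem J8_jensen {k : ℂ → ℂ} {c : ℂ} {R : ℝ} (hR : 0 < R)
    (hk : AnalyticOnNhd ℂ k (closedBall c R)) (h0 : k c ≠ 0) :
    Real.log ‖k c‖ ≤ Real.circleAverage (fun w => Real.log ‖k w‖) c R := by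
  have hk' : AnalyticOnNhd ℂ k (closedBall c |R|) := by rwa [abs_of_pos hR]
  rw [hk'.circleAverage_log_norm hR.ne' h0]
  have : 0 ≤ ∑ᶠ u, MeromorphicOn.divisor k (closedBall c |R|) u *
      Real.log (R * ‖c - u‖⁻¹) := by
    refine finsum_nonneg fun u => ?_
    by_cases hu : u ∈ closedBall c |R|
    · refine mul_nonneg ?_ ?_
      · have := (MeromorphicOn.AnalyticOnNhd.divisor_nonneg hk') u
        exact_mod_cast this
      · rcases eq_or_ne c u with h1 | h1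
        · simp [h1]
        · have h2 : 0 < ‖c - u‖ := norm_pos_iff.2 (sub_ne_zero.2 h1)
          have h3 : ‖c - u‖ ≤ R := by
            rw [mem_closedBall, dist_eq_norm, abs_of_pos hR] at hu
            rwa [norm_sub_rev]
          apply Real.log_nonneg
          rw [← div_eq_mul_inv, one_le_div h2]
          exact h3
    · rw [Function.locallyFinsuppWithin.apply_eq_zero_of_notMem _ hu]
      simp
  linarith

theorem logSubharmonicOn_norm {k : ℂ → ℂ} {Ω : Set ℂ} (hΩ : IsOpen Ω)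
    (hk : DifferentiableOn ℂ k Ω) : LogSubharmonicOn (fun z => ‖k z‖) Ω := by
  refine ⟨hk.continuousOn.norm, fun z _ => norm_nonneg _, ?_⟩
  intro z r hr hsub δ hδ
  have hcont : ContinuousOn (fun w => Real.log (max ‖k w‖ δ)) Ω := by
    apply ContinuousOn.log
    · exact hk.continuousOn.norm.sup continuousOn_const
    · intro w _
      exact (lt_max_of_lt_right hδ).ne'
  have hsph : sphere z |r| ⊆ Ω := by
    rw [abs_of_pos hr]
    exact sphere_subset_closedBall.trans hsub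
  have hci : CircleIntegrable (fun w => Real.log (max ‖k w‖ δ)) z r :=
    ContinuousOn.circleIntegrable' (hcont.mono hsph)
  show Real.log (max ‖k z‖ δ) ≤ _
  rcases le_or_gt ‖k z‖ δ with h1 | h1
  · rw [max_eq_right h1]
    have h2 : Real.circleAverage (fun _ : ℂ => Real.log δ) z r = Real.log δ :=
      Real.circleAverage_const _ _ _
    rw [← h2]
    apply Real.circleAverage_mono (circleIntegrable_const _ _ _) hci
    intro w _
    exact Real.log_le_log hδ (le_max_right _ _)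
  · rw [max_eq_left h1.le]
    have h0 : k z ≠ 0 := by
      intro h
      rw [h, norm_zero] at h1
      linarith
    have han : AnalyticOnNhd ℂ k (closedBall z r) :=
      (hk.analyticOnNhd hΩ).mono hsub
    refine (J8_jensen hr han h0).trans ?_
    -- a.e. comparison
    have hk' : AnalyticOnNhd ℂ k (closedBall z |r|) := by rwa [abs_of_pos hr]
    have hcod : {ζ : ℂ | k ζ ≠ 0} ∈ codiscreteWithin (sphere z |r|) := by
      have h1 : k ⁻¹' {0}ᶜ ∈ codiscreteWithin (closedBall z |r|) :=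
        hk'.preimage_zero_mem_codiscreteWithin h0 (by simp)
          ⟨⟨z, by simp⟩, (convex_closedBall z |r|).isPreconnected⟩
      exact codiscreteWithin_mono sphere_subset_closedBall h1
    have hci0 : CircleIntegrable (fun ζ => Real.log ‖k ζ‖) z r :=
      (hk'.mono sphere_subset_closedBall).meromorphicOn.circleIntegrable_log_norm
    set g : ℂ → ℝ := fun ζ => Real.log (max ‖k ζ‖ δ) with hg
    set f : ℂ → ℝ := fun ζ => if k ζ = 0 then g ζ else Real.log ‖k ζ‖ with hf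
    have hfeq : (fun ζ => Real.log ‖k ζ‖) =ᶠ[codiscreteWithin (sphere z |r|)] f := by
      filter_upwards [hcod] with ζ hζ
      have : k ζ ≠ 0 := hζ
      simp [hf, this]
    have hfi : CircleIntegrable f z r := hci0.congr_codiscreteWithin hfeq
    rw [Real.circleAverage_congr_codiscreteWithin hfeq hr.ne']
    refine Real.circleAverage_mono hfi hci fun ζ _ => ?_
    by_cases hz : k ζ = 0
    · simp [hf, hz]
    · simp only [hf, hz, if_false]
      exact Real.log_le_log (norm_pos_iff.2 hz) (le_max_left _ _)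

variable {E : Type} [NormedAddCommGroup E] [NormedSpace ℂ E]
variable {X : Type} [TopologicalSpace X] [ChartedSpace E X] [IsManifold 𝓘(ℂ, E) ω X]
variable {Y : Type} [TopologicalSpace Y] [ChartedSpace E Y] [IsManifold 𝓘(ℂ, E) ω Y]

/-- the differential as a vector of the model space -/
noncomputable def J8_d {F : Type} [NormedAddCommGroup F] [NormedSpace ℂ F] (g : X → F) (x : X)
    (v : TangentSpace 𝓘(ℂ, E) x) : F := mfderiv 𝓘(ℂ, E) 𝓘(ℂ, F) g x v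

lemma J8_chart_hol (x₀ : X) {x : X} (hx : x ∈ (chartAt E x₀).source) :
    ContMDiffAt 𝓘(ℂ, E) 𝓘(ℂ, E) ω (chartAt E x₀) x :=
  (contMDiffOn_chart (I := 𝓘(ℂ, E)) (n := ω) (x := x₀)).contMDiffAt
    ((chartAt E x₀).open_source.mem_nhds hx)

lemma J8_symm_hol (x₀ : X) {z : E} (hz : z ∈ (chartAt E x₀).target) :
    ContMDiffAt 𝓘(ℂ, E) 𝓘(ℂ, E) ω (chartAt E x₀).symm z :=
  (contMDiffOn_chart_symm (I := 𝓘(ℂ, E)) (n := ω) (x := x₀)).contMDiffAt
    ((chartAt E x₀).open_target.mem_nhds hz)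

/-- the derivative of the chart at a moving point, as a function of the tangent vector -/
lemma J8_cont (v₀ : TangentBundle 𝓘(ℂ, E) X) :
    ContinuousAt (fun v : TangentBundle 𝓘(ℂ, E) X =>
      J8_d (chartAt E v₀.proj) v.proj v.snd) v₀ := by
  set φ := chartAt E v₀.proj with hφ
  have h1 : ContMDiffOn 𝓘(ℂ, E) 𝓘(ℂ, E) ω φ φ.source := contMDiffOn_chart
  have h2 := h1.continuousOn_tangentMapWithin (by simp) φ.open_source.uniqueMDiffOn
  have h3 : IsOpen (Bundle.TotalSpace.proj ⁻¹' φ.source : Set (TangentBundle 𝓘(ℂ, E) X)) :=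
    φ.open_source.preimage (FiberBundle.continuous_proj E (TangentSpace 𝓘(ℂ, E)))
  have h4 : v₀ ∈ (Bundle.TotalSpace.proj ⁻¹' φ.source : Set (TangentBundle 𝓘(ℂ, E) X)) :=
    mem_chart_source E v₀.proj
  have h5 := h2.continuousAt (h3.mem_nhds h4)
  have h6 : ContinuousAt (fun v : TangentBundle 𝓘(ℂ, E) X =>
      (tangentMapWithin 𝓘(ℂ, E) 𝓘(ℂ, E) φ φ.source v).snd) v₀ :=
    ((contMDiff_snd_tangentBundle_modelSpace (n := 0) E 𝓘(ℂ, E)).continuous.continuousAt).comp h5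
  refine h6.congr ?_
  filter_upwards [h3.mem_nhds h4] with v hv
  show (mfderivWithin 𝓘(ℂ, E) 𝓘(ℂ, E) φ φ.source v.proj v.snd : E) = _
  rw [mfderivWithin_of_isOpen φ.open_source hv]
  rfl

lemma J8_cauchy {x₀ : X} {V : Set X} {r B M : ℝ} (hr : 0 < r) (hB : 0 < B)
    (hball : ∀ z ∈ ball (chartAt E x₀ x₀) (2 * r), z ∈ (chartAt E x₀).target ∧
      (chartAt E x₀).symm z ∈ V)
    {x : X} (hx : x ∈ (chartAt E x₀).source) (hxr : chartAt E x₀ x ∈ ball (chartAt E x₀ x₀) r)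
    (v : TangentSpace 𝓘(ℂ, E) x)
    (hv : ‖J8_d (chartAt E x₀) x v‖ ≤ B)
    {g : X → ℂ} (hg : ∀ x ∈ V, ContMDiffAt 𝓘(ℂ, E) 𝓘(ℂ, ℂ) ω g x) (hgM : ∀ x ∈ V, ‖g x‖ ≤ M) :
    ‖J8_d g x v‖ ≤ M / (r / (2 * B)) := by
  set φ := chartAt E x₀ with hφ
  set a : E := φ x with ha
  set b : E := J8_d φ x v with hb
  set ρ : ℝ := r / (2 * B) with hρ
  have hρ0 : 0 < ρ := by positivity
  -- points on the line
  have hline : ∀ t : ℂ, ‖t‖ ≤ ρ → a + t • b ∈ ball (φ x₀) (2 * r) := by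
    intro t ht
    rw [mem_ball, dist_eq_norm] at hxr ⊢
    have h1 : a + t • b - φ x₀ = (φ x - φ x₀) + t • b := by rw [ha]; abel
    rw [h1]
    have h2 : ‖t • b‖ ≤ ρ * B := by
      rw [norm_smul]
      exact mul_le_mul ht hv (norm_nonneg _) hρ0.le
    have h3 : ρ * B = r / 2 := by rw [hρ]; field_simp
    have h4 := norm_add_le (φ x - φ x₀) (t • b)
    linarith
  -- the composed function
  have hG : ∀ z ∈ ball (φ x₀) (2 * r), ContMDiffAt 𝓘(ℂ, E) 𝓘(ℂ, ℂ) ω (fun z => g (φ.symm z)) z := by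
    intro z hz
    exact (hg _ (hball z hz).2).comp z (J8_symm_hol x₀ (hball z hz).1)
  have hGd : ∀ z ∈ ball (φ x₀) (2 * r), DifferentiableAt ℂ (fun z => g (φ.symm z)) z := by
    intro z hz
    exact ((hG z hz).mdifferentiableAt (by simp)).differentiableAt
  have hl : ∀ t : ℂ, HasDerivAt (fun t : ℂ => a + t • b) b t := by
    intro t
    simpa using ((hasDerivAt_id t).smul_const b).const_add a
  have hcd : ∀ t : ℂ, ‖t‖ ≤ ρ → HasDerivAt (fun t : ℂ => g (φ.symm (a + t • b)))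
      (fderiv ℂ (fun z => g (φ.symm z)) (a + t • b) b) t := by
    intro t ht
    exact (hGd _ (hline t ht)).hasFDerivAt.comp_hasDerivAt t (hl t)
  have hdc : DiffContOnCl ℂ (fun t : ℂ => g (φ.symm (a + t • b))) (ball 0 ρ) := by
    apply DifferentiableOn.diffContOnCl
    rw [closure_ball _ hρ0.ne']
    intro t ht
    rw [mem_closedBall, dist_zero_right] at ht
    exact (hcd t ht).differentiableAt.differentiableWithinAt
  have hC : ∀ t ∈ sphere (0 : ℂ) ρ, ‖g (φ.symm (a + t • b))‖ ≤ M := by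
    intro t ht
    rw [mem_sphere, dist_zero_right] at ht
    exact hgM _ (hball _ (hline t ht.le)).2
  have h1 := Complex.norm_deriv_le_of_forall_mem_sphere_norm_le hρ0 hdc hC
  have h2 : deriv (fun t : ℂ => g (φ.symm (a + t • b))) 0 =
      fderiv ℂ (fun z => g (φ.symm z)) a b := by
    have := (hcd 0 (by simpa using hρ0.le)).deriv
    simpa using this
  have ha0 : a ∈ ball (φ x₀) (2 * r) := by simpa using hline 0 (by simpa using hρ0.le)
  -- chain rule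
  have h3 : J8_d g x v = fderiv ℂ (fun z => g (φ.symm z)) a b := by
    have hφd : MDifferentiableAt 𝓘(ℂ, E) 𝓘(ℂ, E) φ x := (J8_chart_hol x₀ hx).mdifferentiableAt (by simp)
    have hGm : MDifferentiableAt 𝓘(ℂ, E) 𝓘(ℂ, ℂ) (fun z => g (φ.symm z)) (φ x) :=
      (hG _ ha0).mdifferentiableAt (by simp)
    have h4 := mfderiv_comp x hGm hφd
    have h5 : g =ᶠ[𝓝 x] (fun z => g (φ.symm z)) ∘ φ := by
      filter_upwards [φ.open_source.mem_nhds hx] with y hy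
      simp only [Function.comp]
      rw [φ.left_inv hy]
    have h6 : mfderiv 𝓘(ℂ, E) 𝓘(ℂ, ℂ) g x =
        mfderiv 𝓘(ℂ, E) 𝓘(ℂ, ℂ) ((fun z => g (φ.symm z)) ∘ φ) x := h5.mfderiv_eq
    have h7 : J8_d g x v = J8_d ((fun z => g (φ.symm z)) ∘ φ) x v :=
      congrArg (fun L : E →L[ℂ] ℂ => L v) h6
    rw [h7]
    unfold J8_d
    rw [h4, mfderiv_eq_fderiv]
    rfl
  rw [h3, ← h2]
  exact h1

/-- local uniform bound -/
lemma J8_local {V : Set X} (hV : IsOpen V) (v₀ : TangentBundle 𝓘(ℂ, E) X) (hx₀ : v₀.proj ∈ V)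
    (M : ℝ) : ∃ N ∈ 𝓝 v₀, ∃ A : ℝ, ∀ v ∈ N, v.proj ∈ V ∧ ∀ g : X → ℂ,
      (∀ x ∈ V, ContMDiffAt 𝓘(ℂ, E) 𝓘(ℂ, ℂ) ω g x) → (∀ x ∈ V, ‖g x‖ ≤ M) →
      ‖J8_d g v.proj v.snd‖ ≤ A := by
  set x₀ := v₀.proj with hx₀'
  set φ := chartAt E x₀ with hφ
  have hS : x₀ ∈ φ.source := mem_chart_source E x₀
  -- radius
  have h1 : φ.target ∩ φ.symm ⁻¹' V ∈ 𝓝 (φ x₀) := by
    have := φ.symm.isOpen_inter_preimage hV
    refine this.mem_nhds ⟨φ.map_source hS, ?_⟩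
    show φ.symm (φ x₀) ∈ V
    rw [φ.left_inv hS]
    exact hx₀
  obtain ⟨ε, hε, hball⟩ := Metric.mem_nhds_iff.1 h1
  set r := ε / 2 with hr
  have hr0 : 0 < r := by positivity
  have h2r : 2 * r = ε := by rw [hr]; ring
  set b₀ : ℝ := ‖J8_d φ v₀.proj v₀.snd‖ with hb₀
  have hproj : ContinuousAt (fun v : TangentBundle 𝓘(ℂ, E) X => v.proj) v₀ :=
    (FiberBundle.continuous_proj E (TangentSpace 𝓘(ℂ, E))).continuousAt
  have e1 : ∀ᶠ v : TangentBundle 𝓘(ℂ, E) X in 𝓝 v₀, v.proj ∈ V ∩ φ.source :=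
    hproj.eventually ((hV.inter φ.open_source).mem_nhds ⟨hx₀, hS⟩)
  have e2 : ∀ᶠ v : TangentBundle 𝓘(ℂ, E) X in 𝓝 v₀, φ v.proj ∈ ball (φ x₀) r := by
    have hc : ContinuousAt (fun v : TangentBundle 𝓘(ℂ, E) X => φ v.proj) v₀ :=
      ContinuousAt.comp (g := φ) (φ.continuousAt hS) hproj
    exact hc.eventually (ball_mem_nhds _ hr0)
  have e3 : ∀ᶠ v : TangentBundle 𝓘(ℂ, E) X in 𝓝 v₀,
      ‖J8_d φ v.proj v.snd‖ < b₀ + 1 := by
    have hc : ContinuousAt (fun v : TangentBundle 𝓘(ℂ, E) X => ‖J8_d φ v.proj v.snd‖) v₀ :=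
      (J8_cont v₀).norm
    exact hc.eventually_lt continuousAt_const (by linarith)
  refine ⟨_, (e1.and (e2.and e3)), M / (r / (2 * (b₀ + 1))), ?_⟩
  rintro v ⟨⟨a1, a2⟩, a3, a4⟩
  refine ⟨a1, fun g hg hgM => ?_⟩
  have hb0 : 0 ≤ b₀ := norm_nonneg _
  refine J8_cauchy (x₀ := x₀) hr0 (by linarith) ?_ a2 a3 v.snd a4.le hg hgM
  intro z hz
  rw [h2r] at hz
  exact hball hz

theorem detected_of_bounded {p : Y → X} (hp : IsCoveringMap p)
    (hpl : IsLocalDiffeomorph 𝓘(ℂ, E) 𝓘(ℂ, E) ω p) {h : Y → ℂ}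
    (hh : ContMDiff 𝓘(ℂ, E) 𝓘(ℂ, ℂ) ω h) {M : ℝ} (hM : ∀ y, ‖h y‖ ≤ M)
    {w : TangentBundle 𝓘(ℂ, E) Y} (hw : mfderiv 𝓘(ℂ, E) 𝓘(ℂ, ℂ) h w.proj w.snd ≠ 0) :
    SubexpDetected E ℂ (fun _ : X => (0 : ℂ)) (tangentMap 𝓘(ℂ, E) 𝓘(ℂ, E) p w) := by
  refine ⟨Y, inferInstance, inferInstance, inferInstance, p, fun _ => 0, hp, hpl, ?_, ?_⟩
  · intro x
    refine ⟨univ, univ_mem, 0, ?_⟩
    intro y y' _
    simp
  intro ε hε
  refine ⟨fun w => ‖J8_d h w.proj w.snd‖, ⟨?_, ?_⟩, ?_, w, rfl, ?_⟩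
  · intro a w _
    show ‖J8_d h w.proj (a • w.snd)‖ = _
    have h1 : J8_d h w.proj (a • w.snd) = a • J8_d h w.proj w.snd := by
      unfold J8_d
      rw [map_smul]
      rfl
    rw [h1]
    exact norm_smul _ _
  · intro Ω G hΩ hG _
    have h1 : ContMDiff 𝓘(ℂ, E).tangent 𝓘(ℂ, ℂ).tangent ω (tangentMap 𝓘(ℂ, E) 𝓘(ℂ, ℂ) h) :=
      hh.contMDiff_tangentMap le_top
    have h2 : ContMDiffOn 𝓘(ℂ, ℂ) 𝓘(ℂ, ℂ) ω
        (fun z => ((tangentMap 𝓘(ℂ, E) 𝓘(ℂ, ℂ) h (G z)).snd : ℂ)) Ω :=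
      (contMDiff_snd_tangentBundle_modelSpace (n := ω) ℂ 𝓘(ℂ, ℂ)).comp_contMDiffOn
        (h1.comp_contMDiffOn hG)
    have h3 : DifferentiableOn ℂ (fun z => ((tangentMap 𝓘(ℂ, E) 𝓘(ℂ, ℂ) h (G z)).snd : ℂ)) Ω :=
      h2.contDiffOn.differentiableOn (by simp)
    exact logSubharmonicOn_norm hΩ h3
  · intro K hK
    have hloc : ∀ v₀ : TangentBundle 𝓘(ℂ, E) X, ∃ N ∈ 𝓝 v₀, ∃ A : ℝ,
        ∀ w : TangentBundle 𝓘(ℂ, E) Y, tangentMap 𝓘(ℂ, E) 𝓘(ℂ, E) p w ∈ N →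
          ‖J8_d h w.proj w.snd‖ ≤ A := by
      intro v₀
      obtain ⟨V, hxV, ι, j, hj⟩ := exists_sheets hp hpl v₀.proj
      obtain ⟨N, hN, A, hA⟩ := J8_local hj.isOpen v₀ hxV M
      refine ⟨N, hN, A, fun w hwN => ?_⟩
      obtain ⟨hwV, hA'⟩ := hA _ hwN
      have hwV' : p w.proj ∈ V := hwV
      obtain ⟨i, hi, hi2⟩ := hj.lift hpl hwV'
      have h1 := hA' (fun x => h (j i x)) (fun x hx => (hh _).comp x (hj.hol i x hx))
        (fun x _ => hM _)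
      have hjd : MDifferentiableAt 𝓘(ℂ, E) 𝓘(ℂ, E) (j i)
          (tangentMap 𝓘(ℂ, E) 𝓘(ℂ, E) p w).proj :=
        (hj.hol i _ hwV).mdifferentiableAt (by simp)
      have hhd : MDifferentiableAt 𝓘(ℂ, E) 𝓘(ℂ, ℂ) h
          (j i (tangentMap 𝓘(ℂ, E) 𝓘(ℂ, E) p w).proj) :=
        (hh _).mdifferentiableAt (by simp)
      have h2 := tangentMap_comp_at (tangentMap 𝓘(ℂ, E) 𝓘(ℂ, E) p w) hhd hjd
      rw [hi2] at h2
      have h3 : (tangentMap 𝓘(ℂ, E) 𝓘(ℂ, ℂ) (h ∘ j i) (tangentMap 𝓘(ℂ, E) 𝓘(ℂ, E) p w)).snd =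
          (mfderiv 𝓘(ℂ, E) 𝓘(ℂ, ℂ) (h ∘ j i) (tangentMap 𝓘(ℂ, E) 𝓘(ℂ, E) p w).proj
            (tangentMap 𝓘(ℂ, E) 𝓘(ℂ, E) p w).snd : ℂ) := rfl
      have h4 : ((tangentMap 𝓘(ℂ, E) 𝓘(ℂ, ℂ) (h ∘ j i) (tangentMap 𝓘(ℂ, E) 𝓘(ℂ, E) p w)).snd : ℂ) =
          J8_d h w.proj w.snd := by
        have h5 : (((tangentMap 𝓘(ℂ, E) 𝓘(ℂ, ℂ) h w).snd : ℂ)) =
          (mfderiv 𝓘(ℂ, E) 𝓘(ℂ, ℂ) h w.proj w.snd : ℂ) := rfl
        rw [h2]
        exact h5
      rw [← h4]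
      exact h1
    -- compactness
    choose N hN A hA using hloc
    obtain ⟨t, ht⟩ := hK.elim_nhds_subcover N (fun v _ => hN v)
    refine ⟨∑ v ∈ t, |A v|, ?_⟩
    intro w _ hwK
    have h1 := ht.2 hwK
    simp only [mem_iUnion] at h1
    obtain ⟨v, hv, hwv⟩ := h1
    have h2 := hA v w hwv
    have h3 : |A v| ≤ ∑ v ∈ t, |A v| :=
      Finset.single_le_sum (f := fun v => |A v|) (fun _ _ => abs_nonneg _) hv
    simp only [mul_zero, Real.exp_zero, mul_one]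
    exact (h2.trans (le_abs_self _)).trans h3
  · exact norm_pos_iff.2 (show J8_d h w.proj w.snd ≠ 0 from hw)

end Pool.Agent.H816_Nef
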