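import Mathlib
import Pool.Agent.H816_Nef.CylDefs

set_option autoImplicit false

open Set Filter Topology Metric MeasureTheory
open scoped ContDiff Manifold

namespace Pool.Agent.H816_Nef

theorem J9_removable_limit {f : ℂ → ℂ} {c : ℂ} (hd : ∀ᶠ z in 𝓝[≠] c, DifferentiableAt ℂ f z)
    {C : ℝ} (hb : ∀ᶠ z in 𝓝[≠] c, ‖f z‖ ≤ C) : ∃ l, Tendsto f (𝓝[≠] c) (𝓝 l) := by
  refine ⟨_, Complex.tendsto_limUnder_of_differentiable_on_punctured_nhds_of_bounded_under hd ?_⟩
  refine ⟨C + ‖f c‖, ?_⟩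
  rw [eventually_map]
  filter_upwards [hb] with z hz
  exact norm_sub_le_of_le hz le_rfl

theorem J9_differentiableAt_update {f : ℂ → ℂ} {c l : ℂ}
    (hd : ∀ᶠ z in 𝓝[≠] c, DifferentiableAt ℂ f z) (hl : Tendsto f (𝓝[≠] c) (𝓝 l)) :
    DifferentiableAt ℂ (Function.update f c l) c := by
  rw [eventually_nhdsWithin_iff] at hd
  set s : Set ℂ := {z | z ≠ c → DifferentiableAt ℂ f z} with hs
  have hsn : s ∈ 𝓝 c := hd
  have h1 : DifferentiableOn ℂ (Function.update f c l) (s \ {c}) := by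
    intro z hz
    have h2 : DifferentiableAt ℂ f z := hz.1 hz.2
    have h3 : Function.update f c l =ᶠ[𝓝 z] f := by
      filter_upwards [isOpen_ne.mem_nhds hz.2] with w hw
      exact Function.update_of_ne hw _ _
    exact (h3.differentiableAt_iff.2 h2).differentiableWithinAt
  have h2 : ContinuousAt (Function.update f c l) c := continuousAt_update_same.2 hl
  exact ((Complex.differentiableOn_compl_singleton_and_continuousAt_iff hsn).1 ⟨h1, h2⟩).differentiableAt hsn

theorem J9_affine_of_injective_aux {H : ℂ → ℂ} (hH : Differentiable ℂ H) (hinj : Function.Injective H)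
    (h0 : H 0 = 0) (hd0 : deriv H 0 ≠ 0) : ∃ a, a ≠ 0 ∧ ∀ z, H z = a * z := by
  have hne : ∀ z, z ≠ 0 → H z ≠ 0 := fun z hz h => hz (hinj (h.trans h0.symm))
  -- openness
  have hopen : IsOpenMap H := by
    have han : AnalyticOnNhd ℂ H univ := fun z _ => hH.analyticAt z
    rcases han.is_constant_or_isOpenMap with ⟨w, hw⟩ | h
    · exact absurd (hinj ((hw 0).trans (hw 1).symm)) zero_ne_one
    · exact h
  obtain ⟨ε, hε, hball⟩ : ∃ ε > 0, ∀ z : ℂ, 1 ≤ ‖z‖ → ε ≤ ‖H z‖ := by
    have h1 : H '' Metric.ball 0 1 ∈ 𝓝 (H 0) :=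
      (hopen _ Metric.isOpen_ball).mem_nhds (mem_image_of_mem _ (Metric.mem_ball_self one_pos))
    rw [h0] at h1
    obtain ⟨ε, hε, hb⟩ := Metric.mem_nhds_iff.1 h1
    refine ⟨ε, hε, fun z hz => ?_⟩
    by_contra hlt
    push Not at hlt
    obtain ⟨w, hw, hwz⟩ := hb (show H z ∈ Metric.ball 0 ε by simpa using hlt)
    rw [hinj hwz] at hw
    simp at hw
    linarith
  set K : ℂ → ℂ := fun z => (dslope H 0 z)⁻¹ with hK
  have hds : Differentiable ℂ (dslope H 0) := by
    rw [← differentiableOn_univ]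
    exact (Complex.differentiableOn_dslope univ_mem).2 hH.differentiableOn
  have hKz : ∀ z, z ≠ 0 → K z = z * (H z)⁻¹ := by
    intro z hz
    simp only [hK]
    rw [dslope_of_ne _ hz, slope_def_field, h0]
    simp [div_eq_mul_inv]
  have hdne : ∀ z, dslope H 0 z ≠ 0 := by
    intro z
    by_cases hz : z = 0
    · rw [hz, dslope_same]; exact hd0
    · rw [dslope_of_ne _ hz, slope_def_field, h0, sub_zero, sub_zero]
      exact div_ne_zero (hne z hz) hz
  have hKd : Differentiable ℂ K := fun z => (hds z).inv (hdne z)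
  set G : ℂ → ℂ := fun ζ => (H ζ⁻¹)⁻¹ with hG
  have hGd : ∀ ζ, ζ ≠ 0 → DifferentiableAt ℂ G ζ := by
    intro ζ hζ
    exact ((hH _).comp ζ (differentiableAt_inv hζ)).inv (hne _ (inv_ne_zero hζ))
  have hGd' : ∀ᶠ ζ in 𝓝[≠] (0:ℂ), DifferentiableAt ℂ G ζ := by
    filter_upwards [self_mem_nhdsWithin] with ζ hζ
    exact hGd ζ hζ
  have hGb : ∀ᶠ ζ in 𝓝[≠] (0:ℂ), ‖G ζ‖ ≤ ε⁻¹ := by
    have h1 : Metric.ball (0:ℂ) 1 ∈ 𝓝[≠] (0:ℂ) := mem_nhdsWithin_of_mem_nhds (Metric.ball_mem_nhds _ one_pos)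
    filter_upwards [self_mem_nhdsWithin, h1] with ζ hζ hζ1
    have h2 : ‖ζ‖ < 1 := by simpa using hζ1
    have h3 : 0 < ‖ζ‖ := norm_pos_iff.2 hζ
    have h4 : 1 ≤ ‖ζ⁻¹‖ := by
      rw [norm_inv]
      exact (one_le_inv₀ h3).2 h2.le
    simp only [hG, norm_inv]
    exact inv_anti₀ hε (hball _ h4)
  obtain ⟨c, hc⟩ := J9_removable_limit hGd' hGb
  by_cases hc0 : c = 0
  · subst hc0
    have hd := (J9_differentiableAt_update hGd' hc).hasDerivAt
    rw [hasDerivAt_iff_tendsto_slope] at hd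
    set d := deriv (Function.update G 0 0) 0 with hdd
    have h1 : Tendsto K (Bornology.cobounded ℂ) (𝓝 d) := by
      have h2 : Tendsto (fun z : ℂ => slope (Function.update G 0 0) 0 z⁻¹) (Bornology.cobounded ℂ) (𝓝 d) :=
        hd.comp tendsto_inv₀_cobounded'
      refine h2.congr' ?_
      have h3 : ∀ᶠ z : ℂ in Bornology.cobounded ℂ, z ≠ 0 := Bornology.eventually_ne_cobounded 0
      filter_upwards [h3] with z hz
      rw [hKz z hz, slope_def_field, Function.update_self, Function.update_of_ne (inv_ne_zero hz)]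
      simp [hG, mul_comm]
    rw [Metric.cobounded_eq_cocompact] at h1
    have h5 : ∀ z, K z = d := fun z => hKd.apply_eq_of_tendsto_cocompact z h1
    have hdne0 : d ≠ 0 := by
      rw [← h5 0]
      exact inv_ne_zero (hdne 0)
    refine ⟨d⁻¹, inv_ne_zero hdne0, fun z => ?_⟩
    by_cases hz : z = 0
    · rw [hz, h0, mul_zero]
    · have h6 := h5 z
      rw [hKz z hz] at h6
      have h7 := hne z hz
      field_simp at h6 ⊢
      linear_combination (-1 : ℂ) * h6
  · exfalso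
    have h1 : Tendsto H (Bornology.cobounded ℂ) (𝓝 c⁻¹) := by
      have h2 : Tendsto (fun z : ℂ => (G z⁻¹)⁻¹) (Bornology.cobounded ℂ) (𝓝 c⁻¹) :=
        (hc.comp tendsto_inv₀_cobounded').inv₀ hc0
      refine h2.congr ?_
      intro z
      simp [hG]
    rw [Metric.cobounded_eq_cocompact] at h1
    have h5 : ∀ z, H z = c⁻¹ := fun z => hH.apply_eq_of_tendsto_cocompact z h1
    exact zero_ne_one (hinj ((h5 0).trans (h5 1).symm))

theorem affine_of_injective_entire {f : ℂ → ℂ} (hf : Differentiable ℂ f)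
    (hi : Function.Injective f) : ∃ a b : ℂ, ∀ z, f z = a * z + b := by
  obtain ⟨z₁, hz₁⟩ : ∃ z₁, deriv f z₁ ≠ 0 := by
    by_contra h
    push Not at h
    have := is_const_of_deriv_eq_zero hf h 0 1
    exact zero_ne_one (hi this)
  have h1 : Differentiable ℂ (fun z => f (z₁ + z) - f z₁) := by fun_prop
  have h2 : Function.Injective (fun z => f (z₁ + z) - f z₁) := by
    intro x y hxy
    simp only [sub_left_inj] at hxy
    exact add_left_cancel (hi hxy)
  have h3 : deriv (fun z => f (z₁ + z) - f z₁) 0 ≠ 0 := by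
    rw [deriv_sub_const, deriv_comp_const_add, add_zero]
    exact hz₁
  obtain ⟨a, ha, h⟩ := J9_affine_of_injective_aux h1 h2 (by simp) h3
  refine ⟨a, f z₁ - a * z₁, fun z => ?_⟩
  have := h (z - z₁)
  simp only [add_sub_cancel] at this
  linear_combination this

/-- lifting of a fibre -/
theorem J9_lift {E₁ E₂ : Type} [NormedAddCommGroup E₁] [NormedSpace ℂ E₁]
    [NormedAddCommGroup E₂] [NormedSpace ℂ E₂]
    {X : Type} [TopologicalSpace X] [ChartedSpace (E₁ × E₂) X]
    {D : TopologicalSpace.Opens E₁} (hD : Bornology.IsBounded (D : Set E₁))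
    {p : cylinder D E₂ → X} (hp : IsCoveringMap p)
    (hpl : IsLocalDiffeomorph 𝓘(ℂ, E₁ × E₂) 𝓘(ℂ, E₁ × E₂) ω p)
    (z z' : D) (w w' : E₂) (h : p (cpt z w) = p (cpt z' w')) :
    ∃ f : E₂ → E₂, Differentiable ℂ f ∧ f 0 = w' ∧
      ∀ v, p (cpt z' (f v)) = p (cpt z (w + v)) := by
  -- the fibre map
  have hι : ContMDiff 𝓘(ℂ, E₂) 𝓘(ℂ, E₁ × E₂) ∞ (fun v : E₂ => (cpt z (w + v) : cylinder D E₂)) := by
    rw [← ContMDiff.subtypeVal_comp_iff]
    rw [contMDiff_iff_contDiff]
    change ContDiff ℂ ∞ (fun v : E₂ => (z.1, w + v))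
    fun_prop
  have hφ : ContMDiff 𝓘(ℂ, E₂) 𝓘(ℂ, E₁ × E₂) ∞ (fun v : E₂ => p (cpt z (w + v))) :=
    (hpl.contMDiff.of_le le_top).comp hι
  let φ : C(E₂, X) := ⟨fun v => p (cpt z (w + v)), hφ.continuous⟩
  obtain ⟨F, ⟨hF0, hF⟩, -⟩ := hp.existsUnique_continuousMap_lifts φ 0 (cpt z' w')
    (by change p (cpt z' w') = p (cpt z (w + 0)); rw [add_zero, h])
  have hFp : ∀ v, p (F v) = p (cpt z (w + v)) := fun v => congrFun hF v
  have hFs : ContMDiff 𝓘(ℂ, E₂) 𝓘(ℂ, E₁ × E₂) ∞ (fun v : E₂ => F v) := by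
    intro v0
    have hloc := hpl (F v0)
    have hev : (fun v : E₂ => F v) =ᶠ[𝓝 v0] fun v => hloc.localInverse (p (cpt z (w + v))) := by
      have h1 : ∀ᶠ v in 𝓝 v0, F v ∈ hloc.localInverse.target :=
        F.continuous.continuousAt.eventually
          (hloc.localInverse.open_target.mem_nhds hloc.localInverse_mem_target)
      filter_upwards [h1] with v hv
      rw [← hFp v, hloc.localInverse_left_inv hv]
    refine ContMDiffAt.congr_of_eventuallyEq ?_ hev
    have h2 : ContMDiffAt 𝓘(ℂ, E₁ × E₂) 𝓘(ℂ, E₁ × E₂) ∞ hloc.localInverse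
        (p (cpt z (w + v0))) := by
      rw [← hFp v0]
      exact hloc.localInverse_contMDiffAt.of_le le_top
    exact h2.comp v0 (hφ v0)
  have hFc : ContDiff ℂ ∞ (fun v : E₂ => (F v).1) := by
    rw [← contMDiff_iff_contDiff]
    exact (ContMDiff.subtypeVal_comp_iff _ _).mpr hFs
  have hFd : Differentiable ℂ (fun v : E₂ => (F v).1) := hFc.differentiable (by simp)
  have hF1 : ∀ v, (F v).1.1 = z'.1 := by
    intro v
    have hd1 : Differentiable ℂ (fun v : E₂ => (F v).1.1) := hFd.fst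
    have hbd : Bornology.IsBounded (range fun v : E₂ => (F v).1.1) := by
      apply hD.subset
      rintro _ ⟨v, rfl⟩
      exact (F v).2.1
    have := hd1.apply_eq_apply_of_bounded hbd v 0
    rw [this, hF0]
    rfl
  refine ⟨fun v => (F v).1.2, hFd.snd, ?_, ?_⟩
  · simp only [hF0]
    rfl
  · intro v
    rw [← hFp v]
    congr 1
    apply Subtype.ext
    exact Prod.ext (hF1 v).symm rfl

theorem fibrewiseAffine_of_finrank_one {E₁ E₂ : Type} [NormedAddCommGroup E₁] [NormedSpace ℂ E₁]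
    [FiniteDimensional ℂ E₁] [NormedAddCommGroup E₂] [NormedSpace ℂ E₂] [FiniteDimensional ℂ E₂]
    {X : Type} [TopologicalSpace X] [ChartedSpace (E₁ × E₂) X] [IsManifold 𝓘(ℂ, E₁ × E₂) ω X]
    {D : TopologicalSpace.Opens E₁} (hD : Bornology.IsBounded (D : Set E₁))
    {p : cylinder D E₂ → X} (hp : IsCoveringMap p)
    (hpl : IsLocalDiffeomorph 𝓘(ℂ, E₁ × E₂) 𝓘(ℂ, E₁ × E₂) ω p)
    (h1 : Module.finrank ℂ E₂ = 1) : FibrewiseAffine p := by
  intro z z' w w' h
  obtain ⟨f, hf, hf0, hfp⟩ := J9_lift hD hp hpl z z' w w' h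
  obtain ⟨g, hg, hg0, hgp⟩ := J9_lift hD hp hpl z' z w' w h.symm
  have hcpt : ∀ y : D, Continuous (fun v : E₂ => (cpt y v : cylinder D E₂)) := by
    intro y
    exact Continuous.subtype_mk (by fun_prop) _
  have hgf : ∀ v, g (f v - w') = w + v := by
    have hc1 : Continuous (fun v : E₂ => (cpt z (g (f v - w')) : cylinder D E₂)) :=
      (hcpt z).comp (hg.continuous.comp (hf.continuous.sub continuous_const))
    have hc2 : Continuous (fun v : E₂ => (cpt z (w + v) : cylinder D E₂)) :=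
      (hcpt z).comp (continuous_const.add continuous_id)
    have key : (fun v : E₂ => (cpt z (g (f v - w')) : cylinder D E₂)) =
        fun v : E₂ => cpt z (w + v) := by
      apply hp.eq_of_comp_eq hc1 hc2 ?_ 0 ?_
      · funext v
        change p (cpt z (g (f v - w'))) = p (cpt z (w + v))
        rw [hgp, add_sub_cancel, hfp]
      · rw [hf0, sub_self, hg0, add_zero]
    intro v
    have := congrFun key v
    exact congrArg (fun x : cylinder D E₂ => x.1.2) this
  have hinj : Function.Injective f := by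
    intro a b hab
    have h2 := hgf a
    rw [hab, hgf b] at h2
    exact (add_left_cancel h2).symm
  -- the linear equivalence
  let ℓ : ℂ ≃L[ℂ] E₂ := ContinuousLinearEquiv.ofFinrankEq (by rw [h1, Module.finrank_self])
  obtain ⟨a, b, hab⟩ := affine_of_injective_entire (f := fun x => ℓ.symm (f (ℓ x)))
    (ℓ.symm.differentiable.comp (hf.comp ℓ.differentiable))
    (ℓ.symm.injective.comp (hinj.comp ℓ.injective))
  refine ⟨a • ContinuousLinearMap.id ℂ E₂, fun v => ?_⟩
  have hv : f v = w' + a • v := by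
    have h2 := hab (ℓ.symm v)
    have h3 := hab 0
    simp only [ContinuousLinearEquiv.apply_symm_apply, map_zero, hf0, mul_zero, zero_add] at h2 h3
    apply ℓ.symm.injective
    rw [h2, map_add, map_smul, smul_eq_mul, ← h3, add_comm]
  rw [← hfp v, hv]
  rfl

end Pool.Agent.H816_Nef
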