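import Pool.Agent.H816_Nef.LemS
import Pool.Agent.H816_Nef.J2
import Pool.Agent.H816_Nef.J6
import Pool.Agent.H816_Nef.J7

/-!
# The minimum principle for families of lines
-/

set_option autoImplicit false

open Set Filter Topology Metric MeasureTheory
open scoped ContDiff

namespace Pool.Agent.H816_Nef

variable {E : Type} [NormedAddCommGroup E] [NormedSpace ℂ E] {U : Set E} {P : PotSys E U}

/-- rotation and scaling of circle averages around the origin -/
lemma circleAverage_mul (g : ℂ → ℝ) {a : ℂ} {s : ℝ} :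
    Real.circleAverage (fun t => g (t * a)) 0 s = Real.circleAverage g 0 (‖a‖ * s) := by
  by_cases ha : a = 0
  · subst ha
    have h1 : (fun t : ℂ => g (t * 0)) = fun _ => g 0 := by funext t; rw [mul_zero]
    rw [h1, norm_zero, zero_mul, Real.circleAverage_zero, Real.circleAverage_const]
  rw [Real.circleAverage_eq_integral_add (Complex.arg a) (f := g) (c := 0) (R := ‖a‖ * s),
    Real.circleAverage_def]
  congr 1
  apply intervalIntegral.integral_congr
  intro θ _
  simp only
  congr 1
  simp only [circleMap, zero_add]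
  push_cast
  rw [add_mul, Complex.exp_add]
  have h2 := Complex.norm_mul_exp_arg_mul_I a
  calc (s : ℂ) * Complex.exp (θ * Complex.I) * a =
        (s : ℂ) * Complex.exp (θ * Complex.I) * ((‖a‖ : ℂ) * Complex.exp (a.arg * Complex.I)) := by
        rw [h2]
    _ = _ := by ring

/-- the average of the density over the circle of radius `s` -/
noncomputable def mr (P : PotSys E U) (y ς : E) (s : ℝ) : ℝ :=
  Real.circleAverage (fun t => P.L (y + t • ς) ς) 0 s

lemma mr_nonneg (y ς : E) (s : ℝ) : 0 ≤ mr P y ς s :=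
  Real.circleAverage_nonneg_of_nonneg (fun _ _ => P.L_nonneg _ _)

lemma mr_smul {y ς : E} (hmem : ∀ t : ℂ, y + t • ς ∈ U) (a : ℂ) (s : ℝ) :
    mr P y (a • ς) s = ‖a‖ ^ 2 * mr P y ς (‖a‖ * s) := by
  unfold mr
  have h1 : (fun t : ℂ => P.L (y + t • a • ς) (a • ς)) =
      fun t : ℂ => ‖a‖ ^ 2 • (fun t : ℂ => P.L (y + t • ς) ς) (t * a) := by
    funext t
    have h2 : t • a • ς = (t * a) • ς := by rw [mul_smul]
    rw [h2, P.L_smul (hmem (t * a))]
    rfl
  rw [h1, Real.circleAverage_fun_smul, circleAverage_mul (fun t : ℂ => P.L (y + t • ς) ς),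
    smul_eq_mul]

/-- scaling of the characteristic function -/
lemma chf_smul {y ς : E} (hmem : ∀ t : ℂ, y + t • ς ∈ U) {a : ℂ} (ha : a ≠ 0) (T : ℝ) :
    chf (mr P y (a • ς)) T = chf (mr P y ς) (T + Real.log ‖a‖) := by
  unfold chf
  apply intervalIntegral.integral_congr
  intro t _
  simp only
  rw [mr_smul hmem, Real.exp_add, Real.exp_log (norm_pos_iff.2 ha)]
  have : ‖a‖ * (Real.exp T * t) = Real.exp T * ‖a‖ * t := by ring
  rw [this]
  ring

lemma Tc_eq (y ς : ℂ → E) (c : ℂ) : LineFam.Tc P y ς c = chf (mr P (y c) (ς c)) 0 := by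
  unfold LineFam.Tc chf
  apply intervalIntegral.integral_congr
  intro t _
  simp only [Real.exp_zero, one_pow, one_mul]
  rfl

/-- the minimum of the characteristic function minus a linear function -/
noncomputable def Kf (P : PotSys E U) (σ : ℝ) (y ς : E) : ℝ :=
  ⨅ T, (chf (mr P y ς) T - σ * T)

lemma Kf_smul {y ς : E} (hmem : ∀ t : ℂ, y + t • ς ∈ U) {a : ℂ} (ha : a ≠ 0) {σ : ℝ}
    (hbdd : BddBelow (range fun T => chf (mr P y ς) T - σ * T)) :
    Kf P σ y (a • ς) = Kf P σ y ς + σ * Real.log ‖a‖ := by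
  unfold Kf
  have h1 : (fun T => chf (mr P y (a • ς)) T - σ * T) =
      fun T => (fun T' => (chf (mr P y ς) T' - σ * T')) ((Equiv.addRight (Real.log ‖a‖)) T) +
        σ * Real.log ‖a‖ := by
    funext T
    rw [chf_smul hmem ha]
    simp only [Equiv.coe_addRight]
    ring
  rw [h1]
  have h2 : BddBelow (range fun T => (fun T' => (chf (mr P y ς) T' - σ * T'))
      ((Equiv.addRight (Real.log ‖a‖)) T)) := by
    obtain ⟨b, hb⟩ := hbdd
    exact ⟨b, by rintro _ ⟨T, rfl⟩; exact hb ⟨_, rfl⟩⟩
  rw [← ciInf_add h2]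
  congr 1
  exact (Equiv.addRight (Real.log ‖a‖)).iInf_comp (g := fun T' => (chf (mr P y ς) T' - σ * T'))

/-- infinite area -/
def InfArea (P : PotSys E U) (y ς : E) : Prop :=
  ∀ σ : ℝ, ∃ T, 0 < T ∧ chf (mr P y ς) 0 + σ * T < chf (mr P y ς) T

lemma cont_mr [CompleteSpace E] (hU : IsOpen U) {y ς : E} (hmem : ∀ t : ℂ, y + t • ς ∈ U) :
    Continuous (mr P y ς) := by
  have h1 : Continuous fun t : ℂ => P.L (y + t • ς) ς := by
    rw [← continuousOn_univ]
    exact (P.continuousOn_L hU).comp (f := fun t : ℂ => (y + t • ς, ς)) (by fun_prop)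
      (fun t _ => ⟨hmem t, trivial⟩)
  exact Real.Continuous.circleAverage h1

namespace LineFam

variable {B : Set ℂ} {y ς : ℂ → E} (h : LineFam U B y ς)
include h

lemma mul {k : ℂ → ℂ} (hk : DifferentiableOn ℂ k B) : LineFam U B y (fun c => k c • ς c) where
  isOpen := h.isOpen
  hy := h.hy
  hς := hk.smul h.hς
  mem := fun c hc t => by
    have := h.mem c hc (t * k c)
    rwa [mul_smul] at this

/-- joint continuity -/
lemma cont_chf (hU : IsOpen U) :
    ContinuousOn (fun q : ℂ × ℝ => chf (mr P (y q.1) (ς q.1)) q.2) (B ×ˢ univ) := by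
  have h1 : ContinuousOn (fun q : ℂ × ℝ => mr P (y q.1) (ς q.1) q.2) (B ×ˢ Ici 0) := by
    have h2 : ∀ R : ℝ, ContinuousOn (fun q : ℂ × ℝ => mr P (y q.1) (ς q.1) q.2)
        (B ×ˢ Icc 0 R) := by
      intro R
      refine continuousOn_circleAverage_param (F := fun c s => P.L (y c + s • ς c) (ς c)) ?_
      exact (h.cont_dens hU).mono (prod_mono_right (subset_univ _))
    rintro ⟨c, s⟩ ⟨hc, hs⟩
    have h3 := h2 (s + 1) (c, s) ⟨hc, hs, by linarith⟩
    refine h3.mono_of_mem_nhdsWithin ?_
    have h4 : B ×ˢ Icc 0 (s + 1) = (B ×ˢ Ici 0) ∩ {q : ℂ × ℝ | q.2 ≤ s + 1} := by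
      ext q
      simp only [mem_prod, mem_Icc, mem_inter_iff, mem_Ici, mem_ofPred_eq]
      tauto
    rw [h4]
    refine inter_mem self_mem_nhdsWithin (mem_nhdsWithin_of_mem_nhds ?_)
    have h5 : ∀ᶠ q : ℂ × ℝ in 𝓝 (c, s), q.2 < s + 1 :=
      (continuous_snd.tendsto (c, s)).eventually (gt_mem_nhds (by linarith))
    filter_upwards [h5] with q hq using hq.le
  rw [continuousOn_iff_continuous_domRestrict]
  have h6 : Continuous (fun q : ((B ×ˢ univ : Set (ℂ × ℝ))) × ℝ =>
      max q.2 0 * Real.log (1 / 2 / max q.2 0) * (Real.exp q.1.1.2 ^ 2 *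
        mr P (y q.1.1.1) (ς q.1.1.1) (Real.exp q.1.1.2 * max q.2 0))) := by
    have h7 : Continuous (fun q : ((B ×ˢ univ : Set (ℂ × ℝ))) × ℝ =>
        mr P (y q.1.1.1) (ς q.1.1.1) (Real.exp q.1.1.2 * max q.2 0)) := by
      refine h1.comp_continuous (f := fun q : ((B ×ˢ univ : Set (ℂ × ℝ))) × ℝ =>
        (q.1.1.1, Real.exp q.1.1.2 * max q.2 0)) (by fun_prop) ?_
      intro q
      exact ⟨q.1.2.1, mul_nonneg (Real.exp_pos _).le (le_max_right _ _)⟩
    have h8 : Continuous (fun q : ((B ×ˢ univ : Set (ℂ × ℝ))) × ℝ =>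
        max q.2 0 * Real.log (1 / 2 / max q.2 0)) :=
      cont_w.comp (by fun_prop : Continuous fun q : ((B ×ˢ univ : Set (ℂ × ℝ))) × ℝ => max q.2 0)
    have h9 : Continuous (fun q : ((B ×ˢ univ : Set (ℂ × ℝ))) × ℝ => Real.exp q.1.1.2 ^ 2) := by
      fun_prop
    exact h8.mul (h9.mul h7)
  have h10 := intervalIntegral.continuous_parametric_intervalIntegral_of_continuous'
    (μ := volume) (f := fun (q : (B ×ˢ univ : Set (ℂ × ℝ))) (t : ℝ) =>
      max t 0 * Real.log (1 / 2 / max t 0) * (Real.exp q.1.2 ^ 2 *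
        mr P (y q.1.1) (ς q.1.1) (Real.exp q.1.2 * max t 0))) h6 0 (1 / 2)
  refine h10.congr fun q => ?_
  show _ = chf (mr P (y q.1.1) (ς q.1.1)) q.1.2
  unfold chf
  apply intervalIntegral.integral_congr
  intro t ht
  rw [uIcc_of_le (by norm_num)] at ht
  simp only [max_eq_left ht.1]

/-- **The minimum principle.** -/
theorem submean_K [CompleteSpace E] (hU : IsOpen U) {j₀ : P.J} (hj₀ : ∀ c ∈ B, y c ∈ P.O j₀)
    (hne : ∀ c ∈ B, InfArea P (y c) (ς c)) {σ : ℝ} (hσ : 0 < σ) :
    ContinuousOn (fun c => P.φ j₀ (y c) + Kf P σ (y c) (ς c)) B ∧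
    ∀ z r, 0 < r → closedBall z r ⊆ B → P.φ j₀ (y z) + Kf P σ (y z) (ς z) ≤
      Real.circleAverage (fun c => P.φ j₀ (y c) + Kf P σ (y c) (ς c)) z r := by
  set F : ℂ → ℝ → ℝ := fun c T => P.φ j₀ (y c) + (chf (mr P (y c) (ς c)) T - σ * T) with hF
  have hφ : ContinuousOn (fun c => P.φ j₀ (y c)) B :=
    (P.smooth j₀).continuousOn.comp h.hy.continuousOn hj₀
  have hFc : ContinuousOn (fun q : ℂ × ℝ => F q.1 q.2) (B ×ˢ univ) := by
    refine (hφ.comp continuousOn_fst (fun q hq => hq.1)).add ((h.cont_chf hU).sub ?_)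
    fun_prop
  have hconv : ∀ c ∈ B, ConvexOn ℝ univ (F c) := by
    intro c hc
    have h1 : ConvexOn ℝ univ (chf (mr P (y c) (ς c))) :=
      convexOn_chf (cont_mr hU (h.mem c hc)).continuousOn (fun t _ => mr_nonneg _ _ _)
    have h2 : ConvexOn ℝ univ (fun T : ℝ => -(σ * T)) := by
      refine ⟨convex_univ, fun a _ b _ s t _ _ _ => le_of_eq ?_⟩
      simp only [smul_eq_mul]; ring
    have h3 := (h1.add h2).add_const (P.φ j₀ (y c))
    have h4 : F c = fun T => (chf (mr P (y c) (ς c)) + fun T => -(σ * T)) T + P.φ j₀ (y c) := by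
      funext T
      simp only [hF, Pi.add_apply]
      ring
    rw [h4]
    exact h3
  -- uniform coercivity on compact sets
  have hco : ∀ K : Set ℂ, IsCompact K → K ⊆ B → ∃ m M : ℝ, m < 0 ∧ 0 < M ∧
      ∀ c ∈ K, F c 0 < F c m ∧ F c 0 < F c M := by
    intro K hK hKB
    have hT0 : ContinuousOn (fun c => chf (mr P (y c) (ς c)) 0) K :=
      ((h.cont_chf hU).comp (f := fun c : ℂ => (c, (0 : ℝ))) (by fun_prop)
        (fun c hc => ⟨hc, trivial⟩)).mono hKB
    obtain ⟨A, hA⟩ := hK.exists_bound_of_continuousOn hT0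
    obtain ⟨M, hM0, hM⟩ : ∃ M, 0 < M ∧ ∀ c ∈ K, F c 0 < F c M := by
      refine hK.induction_on (p := fun s => ∃ M, 0 < M ∧ ∀ c ∈ s, c ∈ K → F c 0 < F c M) ?_ ?_ ?_ ?_
        |>.imp fun M hM => ⟨hM.1, fun c hc => hM.2 c hc hc⟩
      · exact ⟨1, one_pos, fun c hc => hc.elim⟩
      · rintro s s' hs ⟨M, h1, h2⟩
        exact ⟨M, h1, fun c hc => h2 c (hs hc)⟩
      · rintro s s' ⟨M, h1, h2⟩ ⟨M', h1', h2'⟩
        refine ⟨max M M', lt_max_of_lt_left h1, ?_⟩
        have key : ∀ c ∈ K, ∀ M₁ M₂, 0 < M₁ → M₁ ≤ M₂ → F c 0 < F c M₁ → F c 0 < F c M₂ := by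
          intro c hc M₁ M₂ h3 h4 h5
          by_contra h6
          push Not at h6
          have h7 := (hconv c (hKB hc)).le_max_of_mem_Icc (mem_univ 0) (mem_univ M₂)
            (z := M₁) ⟨h3.le, h4⟩
          rw [max_eq_left h6] at h7
          exact absurd h5 (not_lt.2 h7)
        rintro c (hc | hc) hcK
        · exact key c hcK M _ h1 (le_max_left _ _) (h2 c hc hcK)
        · exact key c hcK M' _ h1' (le_max_right _ _) (h2' c hc hcK)
      · intro c hc
        obtain ⟨T, hT0, hT⟩ := hne c (hKB hc) σ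
        have h1 : F c 0 < F c T := by
          simp only [hF]
          linarith
        have h2 : ∀ T : ℝ, ContinuousWithinAt (fun c => F c T) K c := by
          intro T
          exact (hFc.comp (f := fun c : ℂ => (c, T)) (by fun_prop)
            (fun c hc => ⟨hc, trivial⟩) c (hKB hc)).mono hKB
        have h3 : ∀ᶠ c' in 𝓝[K] c, F c' 0 < F c' T := by
          exact (h2 0).eventually_lt (h2 T) h1
        exact ⟨_, h3, T, hT0, fun c' hc' _ => hc'⟩
    refine ⟨-((|A| + 1) / σ), M, by
      have : 0 < (|A| + 1) / σ := by positivity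
      linarith, hM0, fun c hc => ⟨?_, hM c hc⟩⟩
    simp only [hF]
    have h1 := chf_nonneg (m := mr P (y c) (ς c)) (fun t _ => mr_nonneg _ _ _)
      (-((|A| + 1) / σ))
    have h2 := (le_abs_self _).trans (hA c hc)
    have h3 : σ * -((|A| + 1) / σ) = -(|A| + 1) := by
      field_simp
    have h4 := le_abs_self A
    rw [h3]
    linarith
  -- the functions with `Re P`
  have hsubP : ∀ z r, 0 < r → closedBall z r ⊆ B → ∀ Q : Polynomial ℂ,
      F z (Q.eval z).re ≤ Real.circleAverage (fun c => F c (Q.eval c).re) z r := by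
    intro z r hr hzr Q
    have hk : DifferentiableOn ℂ (fun c => Complex.exp (Q.eval c)) B :=
      (Q.differentiable.cexp).differentiableOn
    have hfam := h.mul hk
    set u : ℂ → ℝ := fun c => P.φ j₀ (y c) + Tc P y (fun c => Complex.exp (Q.eval c) • ς c) c
      with hu
    have huc : ContinuousOn u B := hφ.add (hfam.cont_Tc hU)
    have h1 := submean_of_local h.isOpen huc (fun c hc => hfam.local_submean hU hj₀ hc) z r hr hzr
    have h2 : ∀ c ∈ B, u c = F c (Q.eval c).re + σ * (Q.eval c).re := by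
      intro c hc
      simp only [hu, hF]
      rw [Tc_eq, chf_smul (h.mem c hc) (Complex.exp_ne_zero _), Complex.norm_exp, Real.log_exp,
        zero_add]
      ring
    have h3 : Real.circleAverage (fun c => (Q.eval c).re) z r = (Q.eval z).re := by
      have h4 : Real.circleAverage (fun c => Q.eval c) z r = Q.eval z :=
        DiffContOnCl.circleAverage (Q.differentiable.diffContOnCl)
      have h5 : CircleIntegrable (fun c => Q.eval c) z r :=
        ContinuousOn.circleIntegrable hr.le Q.continuous.continuousOn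
      have h6 := Complex.reCLM.circleAverage_comp_comm h5
      rw [h4] at h6
      exact h6
    have hsph : sphere z r ⊆ B := sphere_subset_closedBall.trans hzr
    have h7 : Real.circleAverage u z r = Real.circleAverage (fun c => F c (Q.eval c).re) z r +
        σ * (Q.eval z).re := by
      have h8 : Real.circleAverage u z r = Real.circleAverage ((fun c => F c (Q.eval c).re) +
          fun c => σ • (Q.eval c).re) z r := by
        apply Real.circleAverage_congr_sphere
        intro c hc
        rw [abs_of_pos hr] at hc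
        exact h2 c (hsph hc)
      rw [h8, Real.circleAverage_add, Real.circleAverage_fun_smul, h3, smul_eq_mul]
      · apply ContinuousOn.circleIntegrable hr.le
        exact (hFc.comp (f := fun c : ℂ => (c, (Q.eval c).re))
          (by
            have := Complex.continuous_re.comp Q.continuous
            exact (continuous_id.prodMk this).continuousOn)
          (fun c hc => ⟨hc, trivial⟩)).mono hsph
      · apply ContinuousOn.circleIntegrable hr.le
        exact ((Complex.continuous_re.comp Q.continuous).const_smul σ).continuousOn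
    have hzB : z ∈ B := hzr (mem_closedBall_self hr.le)
    have h9 := h2 z hzB
    rw [h7] at h1
    change u z ≤ _ at h1
    rw [h9] at h1
    linarith
  -- the infimum
  have hinf : ∀ c ∈ B, (⨅ T, F c T) = P.φ j₀ (y c) + Kf P σ (y c) (ς c) := by
    intro c hc
    obtain ⟨m, M, hm, hM, hmM⟩ := hco {c} isCompact_singleton (singleton_subset_iff.2 hc)
    have hc1 : Continuous (F c) := by
      rw [← continuousOn_univ]
      exact hFc.comp (f := fun T : ℝ => (c, T)) (by fun_prop) (fun T _ => ⟨hc, trivial⟩)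
    obtain ⟨T, _, _, hT, _⟩ := J6_min hm hM hc1 (hconv c hc) (hmM c rfl)
    have hb : BddBelow (range fun T => chf (mr P (y c) (ς c)) T - σ * T) := by
      refine ⟨chf (mr P (y c) (ς c)) T - σ * T, ?_⟩
      rintro _ ⟨T', rfl⟩
      have := hT T'
      simp only [hF] at this
      show _ ≤ chf (mr P (y c) (ς c)) T' - σ * T'
      linarith
    unfold Kf
    rw [add_comm, ciInf_add hb]
    congr 1
    funext T'
    simp only [hF]
    ring
  constructor
  · have h1 : ContinuousOn (fun c => ⨅ T, F c T) B := by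
      intro c hc
      obtain ⟨r, hr, hrB⟩ := Metric.nhds_basis_closedBall.mem_iff.1 (h.isOpen.mem_nhds hc)
      obtain ⟨m, M, hm, hM, hmM⟩ := hco (closedBall c r) (isCompact_closedBall c r) hrB
      have h2 := (continuousOn_inf hm hM (hFc.mono (prod_mono_left hrB))
        (fun c hc => hconv c (hrB hc)) hmM).1
      exact (h2.continuousAt (closedBall_mem_nhds c hr)).continuousWithinAt
    exact h1.congr fun c hc => (hinf c hc).symm
  · intro z r hr hzr
    obtain ⟨m, M, hm, hM, hmM⟩ := hco (closedBall z r) (isCompact_closedBall z r) hzr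
    have h1 := kiselman (fun z r hr u hu ε hε => exists_poly_approx hr hu hε) hr hm hM
      (hFc.mono (prod_mono_left hzr)) (fun c hc => hconv c (hzr hc)) hmM
      (hsubP z r hr hzr)
    rw [hinf z (hzr (mem_closedBall_self hr.le))] at h1
    refine h1.trans (le_of_eq ?_)
    apply Real.circleAverage_congr_sphere
    intro c hc
    rw [abs_of_pos hr] at hc
    exact hinf c (hzr (sphere_subset_closedBall hc))

end LineFam

end Pool.Agent.H816_Nef
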