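import Pool.Agent.H816_Nef.Pot

/-!
# The sub-mean property of the characteristic function of a family of lines
-/

set_option autoImplicit false

open Set Filter Topology Metric MeasureTheory
open scoped ContDiff

namespace Pool.Agent.H816_Nef

variable {E : Type} [NormedAddCommGroup E] [NormedSpace ℂ E] {U : Set E} {P : PotSys E U}

namespace LineFam

variable {B : Set ℂ} {y ς : ℂ → E} (h : LineFam U B y ς)
include h

lemma isOpen_W (j : P.J) : IsOpen {q : ℂ × ℂ | q.1 ∈ B ∧ y q.1 + q.2 • ς q.1 ∈ P.O j} := by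
  have h1 := h.cont.isOpen_inter_preimage (h.isOpen.prod isOpen_univ) (P.isOpen_O j)
  convert h1 using 1
  ext q
  simp

lemma smooth_W [CompleteSpace E] (j : P.J) :
    ContDiffOn ℝ ∞ (fun q : ℂ × ℂ => P.φ j (y q.1 + q.2 • ς q.1))
      {q : ℂ × ℂ | q.1 ∈ B ∧ y q.1 + q.2 • ς q.1 ∈ P.O j} := by
  have hy' : ContDiffOn ℝ ∞ y B := (h.hy.contDiffOn h.isOpen).restrict_scalars ℝ
  have hς' : ContDiffOn ℝ ∞ ς B := (h.hς.contDiffOn h.isOpen).restrict_scalars ℝ
  have h1 : ContDiffOn ℝ ∞ (fun q : ℂ × ℂ => y q.1)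
      {q : ℂ × ℂ | q.1 ∈ B ∧ y q.1 + q.2 • ς q.1 ∈ P.O j} :=
    hy'.comp contDiffOn_fst (fun q hq => hq.1)
  have h2 : ContDiffOn ℝ ∞ (fun q : ℂ × ℂ => ς q.1)
      {q : ℂ × ℂ | q.1 ∈ B ∧ y q.1 + q.2 • ς q.1 ∈ P.O j} :=
    hς'.comp contDiffOn_fst (fun q hq => hq.1)
  exact (P.smooth j).comp (h1.add (contDiffOn_snd.smul h2)) (fun q hq => hq.2)

omit h in
/-- the Laplacian along the lines -/
lemma lap_t [CompleteSpace E] {j : P.J} {x t : ℂ} (ht : y x + t • ς x ∈ P.O j) :
    (Laplacian.laplacian (fun t : ℂ => P.φ j (y x + t • ς x)) : ℂ → ℝ) t =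
      P.L (y x + t • ς x) (ς x) := by
  have hf : AnalyticAt ℂ (fun t : ℂ => y x + t • ς x) t := by fun_prop
  have h1 := laplacian_comp_hol hf (P.contDiffAt2 j ht)
  have h2 : deriv (fun t : ℂ => y x + t • ς x) t = ς x := by
    have : HasDerivAt (fun t : ℂ => y x + t • ς x) ((1 : ℂ) • ς x) t :=
      ((hasDerivAt_id t).smul_const (ς x)).const_add (y x)
    rw [this.deriv, one_smul]
  rw [h1, h2, P.L_eq ht]

lemma an_c [CompleteSpace E] {x : ℂ} (hx : x ∈ B) (t : ℂ) :
    AnalyticAt ℂ (fun x => y x + t • ς x) x := by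
  have h1 := h.hy.analyticOnNhd h.isOpen x hx
  have h2 := h.hς.analyticOnNhd h.isOpen x hx
  fun_prop

lemma c2_c [CompleteSpace E] {j : P.J} {x t : ℂ} (hx : x ∈ B) (ht : y x + t • ς x ∈ P.O j) :
    ContDiffAt ℝ 2 (fun x => P.φ j (y x + t • ς x)) x := by
  have h1 : ContDiffAt ℝ 2 (fun x => y x + t • ς x) x :=
    ((h.an_c hx t).contDiffAt (n := 2)).restrict_scalars ℝ
  exact ContDiffAt.comp (f := fun x => y x + t • ς x) x (P.contDiffAt2 j ht) h1

/-- the Laplacian transversally to the lines -/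
lemma lap_c [CompleteSpace E] {j : P.J} {x t : ℂ} (hx : x ∈ B) (ht : y x + t • ς x ∈ P.O j) :
    (Laplacian.laplacian (fun x : ℂ => P.φ j (y x + t • ς x)) : ℂ → ℝ) x =
      P.L (y x + t • ς x) (deriv (fun x => y x + t • ς x) x) := by
  have h1 := laplacian_comp_hol (h.an_c hx t) (P.contDiffAt2 j ht)
  rw [h1, P.L_eq ht]

/-- the difference of the average and the central value -/
noncomputable def Nj (P : PotSys E U) (y ς : ℂ → E) (c : ℂ) (ρ : ℝ) (j : P.J) (t : ℂ) : ℝ :=
  Real.circleAverage (fun x => P.φ j (y x + t • ς x)) c ρ - P.φ j (y c + t • ς c)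

omit h in
lemma circInt {u : ℂ → ℝ} {c : ℂ} {ρ ρ₀ : ℝ} (hρ : 0 < ρ) (hρ₀ : ρ < ρ₀)
    (hu : ContinuousOn u (ball c ρ₀)) : CircleIntegrable u c ρ := by
  apply ContinuousOn.circleIntegrable hρ.le
  exact hu.mono (sphere_subset_closedBall.trans (closedBall_subset_ball hρ₀))

lemma c2_on [CompleteSpace E] {c : ℂ} {ρ₀ : ℝ} (hB : closedBall c ρ₀ ⊆ B) {j : P.J} {t : ℂ}
    (hj : ∀ x ∈ closedBall c ρ₀, y x + t • ς x ∈ P.O j) :
    ContDiffOn ℝ 2 (fun x => P.φ j (y x + t • ς x)) (ball c ρ₀) := fun x hx =>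
  (h.c2_c (hB (ball_subset_closedBall hx)) (hj x (ball_subset_closedBall hx))).contDiffWithinAt

/-- independence of the potential -/
lemma Nj_eq [CompleteSpace E] {c : ℂ} {ρ ρ₀ : ℝ} (hρ : 0 < ρ) (hρ₀ : ρ < ρ₀)
    (hB : closedBall c ρ₀ ⊆ B) {j k : P.J} {t : ℂ}
    (hj : ∀ x ∈ closedBall c ρ₀, y x + t • ς x ∈ P.O j)
    (hk : ∀ x ∈ closedBall c ρ₀, y x + t • ς x ∈ P.O k) :
    Nj P y ς c ρ j t = Nj P y ς c ρ k t := by
  have h1 := h.c2_on hB hj
  have h2 := h.c2_on hB hk
  have h3 : Real.circleAverage ((fun x => P.φ j (y x + t • ς x)) -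
      fun x => P.φ k (y x + t • ς x)) c ρ = P.φ j (y c + t • ς c) - P.φ k (y c + t • ς c) := by
    refine mean_C2 (h := (fun x => P.φ j (y x + t • ς x)) -
      fun x => P.φ k (y x + t • ς x)) (h1.sub h2) hρ hρ₀ ?_
    intro x hx
    have hxB := hB (ball_subset_closedBall hx)
    have a1 := hj x (ball_subset_closedBall hx)
    have a2 := hk x (ball_subset_closedBall hx)
    rw [(h.c2_c hxB a1).laplacian_sub (h.c2_c hxB a2), h.lap_c hxB a1, h.lap_c hxB a2, sub_self]
  rw [Real.circleAverage_sub (circInt hρ hρ₀ h1.continuousOn)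
    (circInt hρ hρ₀ h2.continuousOn)] at h3
  unfold Nj
  linarith

lemma Nj_nonneg [CompleteSpace E] {c : ℂ} {ρ ρ₀ : ℝ} (hρ : 0 < ρ) (hρ₀ : ρ < ρ₀)
    (hB : closedBall c ρ₀ ⊆ B) {j : P.J} {t : ℂ}
    (hj : ∀ x ∈ closedBall c ρ₀, y x + t • ς x ∈ P.O j) :
    0 ≤ Nj P y ς c ρ j t := by
  have h1 := submean_C2 (h.c2_on hB hj) hρ hρ₀ (fun x hx => by
    rw [h.lap_c (hB (ball_subset_closedBall hx)) (hj x (ball_subset_closedBall hx))]
    exact P.L_nonneg _ _)
  unfold Nj
  linarith

/-- smoothness and Laplacian in `t` -/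
lemma Nj_smooth [CompleteSpace E] {c : ℂ} {ρ ρ₀ : ℝ} (hρ : 0 < ρ) (hρ₀ : ρ < ρ₀)
    (hB : closedBall c ρ₀ ⊆ B) {j : P.J} {V : Set ℂ} (hV : IsOpen V)
    (hj : ∀ t ∈ V, ∀ x ∈ closedBall c ρ₀, y x + t • ς x ∈ P.O j) :
    ContDiffOn ℝ 2 (Nj P y ς c ρ j) V ∧ ∀ t ∈ V, Laplacian.laplacian (Nj P y ς c ρ j) t =
      Real.circleAverage (fun x => P.L (y x + t • ς x) (ς x)) c ρ -
        P.L (y c + t • ς c) (ς c) := by
  have hsub : ∀ x ∈ sphere c ρ, x ∈ closedBall c ρ₀ := fun x hx =>
    closedBall_subset_closedBall hρ₀.le (sphere_subset_closedBall hx)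
  have hW : ∀ t ∈ V, ∀ x ∈ sphere c ρ,
      (x, t) ∈ {q : ℂ × ℂ | q.1 ∈ B ∧ y q.1 + q.2 • ς q.1 ∈ P.O j} := fun t ht x hx =>
    ⟨hB (hsub x hx), hj t ht x (hsub x hx)⟩
  have h1 := contDiffOn_circleAverage_param (h.isOpen_W j) (h.smooth_W j) hρ hV hW
  have hc : c ∈ closedBall c ρ₀ := mem_closedBall_self (hρ.le.trans hρ₀.le)
  have h2 : ∀ t ∈ V, ContDiffAt ℝ 2 (fun t => P.φ j (y c + t • ς c)) t := by
    intro t ht
    have h3 : ContDiffAt ℝ 2 (fun t : ℂ => y c + t • ς c) t := by
      have hf : AnalyticAt ℂ (fun t : ℂ => y c + t • ς c) t := by fun_prop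
      exact (hf.contDiffAt (n := 2)).restrict_scalars ℝ
    exact ContDiffAt.comp (f := fun t : ℂ => y c + t • ς c) t (P.contDiffAt2 j (hj t ht c hc)) h3
  have h1' : ∀ t ∈ V, ContDiffAt ℝ 2
      (fun t => Real.circleAverage (fun x => P.φ j (y x + t • ς x)) c ρ) t := fun t ht =>
    ((h1.of_le PotSys.two_le).contDiffAt (hV.mem_nhds ht))
  constructor
  · intro t ht
    exact ((h1' t ht).sub (h2 t ht)).contDiffWithinAt
  · intro t ht
    have h3 : Laplacian.laplacian (Nj P y ς c ρ j) t =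
        (Laplacian.laplacian ((fun t : ℂ => Real.circleAverage (fun x => P.φ j (y x + t • ς x)) c ρ) -
          fun t : ℂ => P.φ j (y c + t • ς c)) : ℂ → ℝ) t := rfl
    rw [h3, (h1' t ht).laplacian_sub (h2 t ht), lap_t (hj t ht c hc),
      laplacian_circleAverage_param (h.isOpen_W j) (h.smooth_W j) hρ hV hW ht]
    congr 1
    apply Real.circleAverage_congr_sphere
    intro x hx
    rw [abs_of_pos hρ] at hx
    exact lap_t (hj t ht x (hsub x hx))

omit h in
/-- the characteristic function of the line at `c` -/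
noncomputable def Tc (P : PotSys E U) (y ς : ℂ → E) (c : ℂ) : ℝ :=
  ∫ t in (0 : ℝ)..1 / 2, t * Real.log (1 / 2 / t) *
    Real.circleAverage (fun s => P.L (y c + s • ς c) (ς c)) 0 t

lemma cont_avg (hU : IsOpen U) : ContinuousOn (fun q : ℂ × ℝ =>
    Real.circleAverage (fun s => P.L (y q.1 + s • ς q.1) (ς q.1)) 0 q.2) (B ×ˢ Icc 0 1) := by
  refine continuousOn_circleAverage_param (F := fun c s => P.L (y c + s • ς c) (ς c)) ?_
  exact (h.cont_dens hU).mono (prod_mono_right (subset_univ _))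

omit h in
lemma cont_w : Continuous (fun t : ℝ => t * Real.log (1 / 2 / t)) := by
  have h1 : (fun t : ℝ => t * Real.log (1 / 2 / t)) =
      fun t => t * Real.log (1 / 2) - t * Real.log t := by
    funext t
    by_cases h : t = 0
    · simp [h]
    · rw [Real.log_div (by norm_num) h]; ring
  rw [h1]
  have := Real.continuous_mul_log
  fun_prop

/-- the characteristic function is continuous -/
lemma cont_Tc (hU : IsOpen U) : ContinuousOn (Tc P y ς) B := by
  have h1 : ContinuousOn (fun q : ℂ × ℝ => q.2 * Real.log (1 / 2 / q.2) *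
      Real.circleAverage (fun s => P.L (y q.1 + s • ς q.1) (ς q.1)) 0 q.2) (B ×ˢ Icc 0 1) :=
    ((cont_w.comp continuous_snd).continuousOn).mul (h.cont_avg hU)
  rw [continuousOn_iff_continuous_domRestrict]
  have h2 : Continuous (fun q : B × ℝ => (projIcc (0 : ℝ) 1 zero_le_one q.2 : ℝ) *
      Real.log (1 / 2 / (projIcc (0 : ℝ) 1 zero_le_one q.2 : ℝ)) *
      Real.circleAverage (fun s => P.L (y q.1 + s • ς q.1) (ς q.1)) 0
        (projIcc (0 : ℝ) 1 zero_le_one q.2 : ℝ)) := by
    refine h1.comp_continuous (f := fun q : B × ℝ =>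
      ((q.1 : ℂ), ((projIcc (0 : ℝ) 1 zero_le_one q.2 : Icc (0:ℝ) 1) : ℝ))) ?_ ?_
    · exact (continuous_subtype_val.comp continuous_fst).prodMk
        (continuous_subtype_val.comp (continuous_projIcc.comp continuous_snd))
    · exact fun q => ⟨q.1.2, (projIcc (0 : ℝ) 1 zero_le_one q.2).2⟩
  have h3 := intervalIntegral.continuous_parametric_intervalIntegral_of_continuous'
    (μ := volume) (f := fun (c : B) (t : ℝ) => (projIcc (0 : ℝ) 1 zero_le_one t : ℝ) *
      Real.log (1 / 2 / (projIcc (0 : ℝ) 1 zero_le_one t : ℝ)) *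
      Real.circleAverage (fun s => P.L (y c + s • ς c) (ς c)) 0
        (projIcc (0 : ℝ) 1 zero_le_one t : ℝ)) h2 0 (1 / 2)
  refine h3.congr fun c => ?_
  apply intervalIntegral.integral_congr
  intro t ht
  rw [uIcc_of_le (by norm_num)] at ht
  have h4 : (projIcc (0 : ℝ) 1 zero_le_one t : ℝ) = t := by
    rw [projIcc_of_mem zero_le_one ⟨ht.1, ht.2.trans (by norm_num)⟩]
  simp only [h4]

/-- **Local sub-mean value inequality.** -/
theorem local_submean [CompleteSpace E] (hU : IsOpen U) {j₀ : P.J} (hj₀ : ∀ c ∈ B, y c ∈ P.O j₀)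
    {c : ℂ} (hc : c ∈ B) : ∃ ρ₀ : ℝ, 0 < ρ₀ ∧ ∀ ρ, 0 < ρ → ρ < ρ₀ →
      P.φ j₀ (y c) + Tc P y ς c ≤
        Real.circleAverage (fun x => P.φ j₀ (y x) + Tc P y ς x) c ρ := by
  classical
  obtain ⟨ρ₀, hρ₀, hB, hloc⟩ := h.exists_radius (P := P) hc
  have : Nonempty P.J := ⟨j₀⟩
  refine ⟨ρ₀, hρ₀, fun ρ hρ hρρ => ?_⟩
  choose! jf δ hδ hjf using hloc
  have hself : ∀ t ∈ closedBall (0 : ℂ) 1, ∀ x ∈ closedBall c ρ₀, y x + t • ς x ∈ P.O (jf t) :=
    fun t ht x hx => hjf t ht x hx t (mem_ball_self (hδ t ht))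
  set N : ℂ → ℝ := fun t => Nj P y ς c ρ (jf t) t with hN
  have hcc : c ∈ closedBall c ρ₀ := mem_closedBall_self hρ₀.le
  -- local description
  have hNloc : ∀ t ∈ ball (0 : ℂ) 1, N =ᶠ[𝓝 t] Nj P y ς c ρ (jf t) := by
    intro t ht
    filter_upwards [ball_mem_nhds t (hδ t (ball_subset_closedBall ht)), isOpen_ball.mem_nhds ht]
      with t' h1 h2
    exact h.Nj_eq hρ hρρ hB (hself t' (ball_subset_closedBall h2))
      (fun x hx => hjf t (ball_subset_closedBall ht) x hx t' h1)
  have hNs : ∀ t ∈ ball (0 : ℂ) 1, ContDiffAt ℝ 2 N t ∧ Laplacian.laplacian N t =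
      Real.circleAverage (fun x => P.L (y x + t • ς x) (ς x)) c ρ -
        P.L (y c + t • ς c) (ς c) := by
    intro t ht
    have htc := ball_subset_closedBall ht
    obtain ⟨a1, a2⟩ := h.Nj_smooth hρ hρρ hB (j := jf t) (V := ball t (δ t)) isOpen_ball
      (fun t' ht' x hx => hjf t htc x hx t' ht')
    have htm : t ∈ ball t (δ t) := mem_ball_self (hδ t htc)
    constructor
    · exact (a1.contDiffAt (isOpen_ball.mem_nhds htm)).congr_of_eventuallyEq (hNloc t ht)
    · rw [(InnerProductSpace.laplacian_congr_nhds (hNloc t ht)).self_of_nhds]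
      exact a2 t htm
  have hJ := jensen (h := N) (z := 0) (R' := 1) (r := 1 / 2)
    (fun t ht => (hNs t ht).1.contDiffWithinAt) (by norm_num) (by norm_num)
  have hnn : 0 ≤ Real.circleAverage N 0 (1 / 2) := by
    have h1 : Real.circleAverage (fun _ : ℂ => (0 : ℝ)) 0 (1 / 2) ≤
        Real.circleAverage N 0 (1 / 2) := by
      apply Real.circleAverage_mono
      · exact ContinuousOn.circleIntegrable (by norm_num) continuousOn_const
      · apply ContinuousOn.circleIntegrable (by norm_num)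
        intro t ht
        have : t ∈ ball (0 : ℂ) 1 := by
          rw [mem_sphere] at ht; rw [mem_ball, ht]; norm_num
        exact (hNs t this).1.continuousAt.continuousWithinAt
      · intro t ht
        have ht' : t ∈ closedBall (0 : ℂ) 1 := by
          rw [mem_sphere] at ht; rw [mem_closedBall, ht, abs_of_pos (by norm_num)]; norm_num
        exact h.Nj_nonneg hρ hρρ hB (hself t ht')
    rwa [Real.circleAverage_const] at h1
  -- the value at zero
  have h0 : N 0 = Real.circleAverage (fun x => P.φ j₀ (y x)) c ρ - P.φ j₀ (y c) := by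
    have h00 : (0 : ℂ) ∈ closedBall (0 : ℂ) 1 := mem_closedBall_self zero_le_one
    have h1 : N 0 = Nj P y ς c ρ j₀ 0 := by
      refine h.Nj_eq hρ hρρ hB (hself 0 h00) ?_
      intro x hx
      rw [zero_smul, add_zero]
      exact hj₀ x (hB hx)
    rw [h1]
    unfold Nj
    simp only [zero_smul, add_zero]
  -- the average of the characteristic function
  have hsph : sphere c ρ ⊆ B := fun x hx =>
    hB (closedBall_subset_closedBall hρρ.le (sphere_subset_closedBall hx))
  have hswap : Real.circleAverage (Tc P y ς) c ρ = ∫ t in (0 : ℝ)..1 / 2,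
      t * Real.log (1 / 2 / t) * Real.circleAverage (fun s =>
        Real.circleAverage (fun x => P.L (y x + s • ς x) (ς x)) c ρ) 0 t := by
    have h1 := circleAverage_integral_swap (F := fun x t => t * Real.log (1 / 2 / t) *
      Real.circleAverage (fun s => P.L (y x + s • ς x) (ς x)) 0 t) (a := c) (r := ρ)
      (R := 1 / 2) hρ.le (by norm_num) (by
        refine (((cont_w.comp continuous_snd).continuousOn).mul (h.cont_avg hU)).mono ?_
        exact prod_mono hsph (Icc_subset_Icc_right (by norm_num)))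
    have h2 : Real.circleAverage (Tc P y ς) c ρ = Real.circleAverage (fun x =>
      ∫ t in (0 : ℝ)..1 / 2, t * Real.log (1 / 2 / t) *
        Real.circleAverage (fun s => P.L (y x + s • ς x) (ς x)) 0 t) c ρ := rfl
    rw [h2, h1]
    apply intervalIntegral.integral_congr
    intro t ht
    rw [uIcc_of_le (by norm_num)] at ht
    simp only
    have h3 : Real.circleAverage (fun x => t * Real.log (1 / 2 / t) *
        Real.circleAverage (fun s => P.L (y x + s • ς x) (ς x)) 0 t) c ρ =
        t * Real.log (1 / 2 / t) * Real.circleAverage (fun x =>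
        Real.circleAverage (fun s => P.L (y x + s • ς x) (ς x)) 0 t) c ρ := by
      have := Real.circleAverage_fun_smul (a := t * Real.log (1 / 2 / t)) (f := fun x =>
        Real.circleAverage (fun s => P.L (y x + s • ς x) (ς x)) 0 t) (c := c) (R := ρ)
      simpa [smul_eq_mul] using this
    rw [h3, circleAverage_swap hρ.le ht.1]
    exact (h.cont_dens hU).mono (prod_mono hsph (subset_univ _))
  have hlap : ∫ t in (0 : ℝ)..1 / 2, t * Real.log (1 / 2 / t) *
      Real.circleAverage (Laplacian.laplacian N) 0 t =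
      Real.circleAverage (Tc P y ς) c ρ - Tc P y ς c := by
    rw [hswap]
    unfold Tc
    rw [← intervalIntegral.integral_sub]
    · apply intervalIntegral.integral_congr
      intro t ht
      rw [uIcc_of_le (by norm_num)] at ht
      simp only
      rw [← mul_sub]
      congr 1
      have hsp : ∀ s ∈ sphere (0 : ℂ) |t|, s ∈ ball (0 : ℂ) 1 := by
        intro s hs
        rw [mem_sphere, abs_of_nonneg ht.1] at hs
        rw [mem_ball, hs]
        linarith [ht.2]
      have h1 : Real.circleAverage (Laplacian.laplacian N) 0 t =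
          Real.circleAverage ((fun s => Real.circleAverage (fun x => P.L (y x + s • ς x) (ς x)) c ρ)
            - fun s => P.L (y c + s • ς c) (ς c)) 0 t := by
        apply Real.circleAverage_congr_sphere
        intro s hs
        exact (hNs s (hsp s hs)).2
      rw [h1, Real.circleAverage_sub]
      · apply ContinuousOn.circleIntegrable ht.1
        have h4 : ContinuousOn (fun s : ℂ => Real.circleAverage
            (fun x : ℂ => P.L (y x + s • ς x) (ς x)) c ρ) univ := by
          have h5 := continuousOn_circleAverage_param (α := ℂ) (A := univ)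
            (F := fun (s x : ℂ) => P.L (y x + s • ς x) (ς x)) (b := c) (R := ρ) (by
              refine (h.cont_dens hU).comp (f := fun q : ℂ × ℂ => (q.2, q.1))
                (by fun_prop) ?_
              exact fun q hq => ⟨hB (closedBall_subset_closedBall hρρ.le hq.2), trivial⟩)
          exact h5.comp (f := fun s : ℂ => (s, ρ)) (by fun_prop)
            (fun s _ => ⟨trivial, hρ.le, le_rfl⟩)
        exact h4.mono (subset_univ _)
      · apply ContinuousOn.circleIntegrable ht.1
        exact ((h.cont_dens hU).comp (f := fun s : ℂ => (c, s)) (by fun_prop)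
          (fun s _ => ⟨hc, trivial⟩) : ContinuousOn _ univ).mono (subset_univ _)
    · apply ContinuousOn.intervalIntegrable
      rw [uIcc_of_le (by norm_num)]
      refine cont_w.continuousOn.mul ?_
      have h5 := continuousOn_circleAverage_param (α := Unit) (A := univ)
            (F := fun (_ : Unit) (s : ℂ) =>
              Real.circleAverage (fun x : ℂ => P.L (y x + s • ς x) (ς x)) c ρ)
            (b := 0) (R := 1 / 2) (by
              have h6 := continuousOn_circleAverage_param (α := ℂ) (A := univ)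
                (F := fun (s x : ℂ) => P.L (y x + s • ς x) (ς x)) (b := c) (R := ρ) (by
                refine (h.cont_dens hU).comp (f := fun q : ℂ × ℂ => (q.2, q.1))
                  (by fun_prop) ?_
                exact fun q hq => ⟨hB (closedBall_subset_closedBall hρρ.le hq.2), trivial⟩)
              exact h6.comp (f := fun q : Unit × ℂ => (q.2, ρ)) (by fun_prop)
                (fun s _ => ⟨trivial, hρ.le, le_rfl⟩))
      exact h5.comp (f := fun t : ℝ => ((), t)) (by fun_prop) (fun s hs => ⟨trivial, hs⟩)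
    · apply ContinuousOn.intervalIntegrable
      rw [uIcc_of_le (by norm_num)]
      refine cont_w.continuousOn.mul ?_
      exact (h.cont_avg hU).comp (f := fun t : ℝ => (c, t)) (by fun_prop)
        (fun t ht => ⟨hc, ht.1, ht.2.trans (by norm_num)⟩)
  have hsum : Real.circleAverage (fun x => P.φ j₀ (y x) + Tc P y ς x) c ρ =
      Real.circleAverage (fun x => P.φ j₀ (y x)) c ρ + Real.circleAverage (Tc P y ς) c ρ := by
    have h1 : (fun x => P.φ j₀ (y x) + Tc P y ς x) = (fun x => P.φ j₀ (y x)) + Tc P y ς := rfl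
    rw [h1]
    apply Real.circleAverage_add
    · apply ContinuousOn.circleIntegrable hρ.le
      exact (P.smooth j₀).continuousOn.comp (h.hy.continuousOn.mono hsph)
        (fun x hx => hj₀ x (hsph hx))
    · exact ContinuousOn.circleIntegrable hρ.le ((h.cont_Tc hU).mono hsph)
  rw [hsum]
  have : (1 : ℝ) / 2 / 1 = 1 / 2 := by norm_num
  linarith [hJ, hlap, h0, hnn]

end LineFam

end Pool.Agent.H816_Nef
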