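import Pool.Agent.H816_Nef.Sub
import Pool.Agent.H816_Nef.Defs
import Pool.Agent.Helper509.Polar

/-!
# From the circle sub-mean inequality to the area sub-mean inequality; suprema
-/

set_option autoImplicit false

open MeasureTheory Set Filter Topology Metric
open scoped ContDiff ENNReal

namespace Pool.Agent.H816_Nef

lemma integral_ball_real (u : ℂ → ℝ) (hm : Measurable u) (a : ℂ) (s : ℝ)
    (hi : IntegrableOn u (ball a s)) :
    ∫ z in ball a s, u z = ∫ r in Ioo 0 s, r * (2 * Real.pi * Real.circleAverage u a r) := by
  have h1 := Helper509.Polar.integral_ball (fun z => (u z : ℂ)) (Complex.measurable_ofReal.comp hm) a s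
    hi.ofReal
  have h2 : ∀ r, Real.circleAverage (fun z => (u z : ℂ)) a r = ((Real.circleAverage u a r : ℝ) : ℂ) := by
    intro r
    rw [Real.circleAverage_def, Real.circleAverage_def, intervalIntegral.integral_ofReal]
    simp
  have h3 : ∫ z in ball a s, (u z : ℂ) = ((∫ z in ball a s, u z : ℝ) : ℂ) := integral_ofReal
  rw [h3] at h1
  have h4 : (∫ r in Ioo 0 s, (r : ℝ) • ((2 * Real.pi) • Real.circleAverage (fun z => (u z : ℂ)) a r)) =
      ((∫ r in Ioo 0 s, r * (2 * Real.pi * Real.circleAverage u a r) : ℝ) : ℂ) := by
    refine Eq.trans ?_ (integral_ofReal (𝕜 := ℂ))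
    congr 1
    funext r
    rw [h2]
    simp
  rw [h4] at h1
  exact_mod_cast h1

/-- the circle sub-mean inequality on all circles implies the area sub-mean inequality -/
lemma area_of_circle {u : ℂ → ℝ} (hm : Measurable u) {a : ℂ} {s : ℝ} (hs : 0 < s) {B : ℝ}
    (hB : ∀ z ∈ ball a s, |u z| ≤ B)
    (h : ∀ r, 0 < r → r < s → u a ≤ Real.circleAverage u a r) :
    (volume (ball a s)).toReal * u a ≤ ∫ z in ball a s, u z := by
  have hi : IntegrableOn u (ball a s) := by
    refine Measure.integrableOn_of_bounded (M := B) measure_ball_lt_top.ne hm.aestronglyMeasurable ?_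
    exact (ae_restrict_iff' measurableSet_ball).2 (Eventually.of_forall fun z hz => by
      simpa [Real.norm_eq_abs] using hB z hz)
  rw [integral_ball_real u hm a s hi]
  have hV : (volume (ball a s)).toReal = Real.pi * s ^ 2 := by
    rw [Complex.volume_ball]
    simp only [ENNReal.toReal_mul, ENNReal.toReal_pow, ENNReal.toReal_ofReal hs.le]
    rw [mul_comm]; rfl
  have hcm : Measurable fun r : ℝ => Real.circleAverage u a r := by
    have h1 : (fun r : ℝ => Real.circleAverage u a r) = fun r =>
        (2 * Real.pi)⁻¹ * ∫ θ in Ioc 0 (2 * Real.pi), u (circleMap a r θ) := by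
      funext r
      rw [Real.circleAverage_def, intervalIntegral.integral_of_le Real.two_pi_pos.le, smul_eq_mul]
    rw [h1]
    apply Measurable.const_mul
    have h2 : StronglyMeasurable (fun p : ℝ × ℝ => u (circleMap a p.1 p.2)) := by
      apply Measurable.stronglyMeasurable
      apply hm.comp
      have : Continuous (fun p : ℝ × ℝ => circleMap a p.1 p.2) := by
        unfold circleMap; fun_prop
      exact this.measurable
    exact (h2.integral_prod_right').measurable
  have hbd : ∀ r ∈ Ioo 0 s, |Real.circleAverage u a r| ≤ B := by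
    intro r hr
    rw [Real.circleAverage_def, smul_eq_mul, abs_mul, abs_of_pos (by positivity : 0 < (2 * Real.pi)⁻¹)]
    have h1 : ‖∫ θ in (0 : ℝ)..2 * Real.pi, u (circleMap a r θ)‖ ≤ B * |2 * Real.pi - 0| := by
      apply intervalIntegral.norm_integral_le_of_norm_le_const
      intro θ _
      rw [Real.norm_eq_abs]
      apply hB
      rw [mem_ball, dist_eq_norm]
      simpa [circleMap, abs_of_pos hr.1] using hr.2
    rw [sub_zero, abs_of_pos Real.two_pi_pos, Real.norm_eq_abs] at h1
    calc (2 * Real.pi)⁻¹ * |∫ θ in (0 : ℝ)..2 * Real.pi, u (circleMap a r θ)| ≤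
          (2 * Real.pi)⁻¹ * (B * (2 * Real.pi)) :=
          mul_le_mul_of_nonneg_left h1 (by positivity)
      _ = B := by field_simp
  have hint1 : IntegrableOn (fun r : ℝ => r * (2 * Real.pi * Real.circleAverage u a r)) (Ioo 0 s) := by
    refine Measure.integrableOn_of_bounded (M := s * (2 * Real.pi * B)) (by simp) ?_ ?_
    · exact (measurable_id.mul (hcm.const_mul _)).aestronglyMeasurable
    · refine (ae_restrict_iff' measurableSet_Ioo).2 (Eventually.of_forall fun r hr => ?_)
      rw [Real.norm_eq_abs, abs_mul, abs_mul, abs_of_pos hr.1, abs_of_pos Real.two_pi_pos]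
      have := hbd r hr
      gcongr
      exact hr.2.le
  have hint2 : IntegrableOn (fun r : ℝ => r * (2 * Real.pi * u a)) (Ioo 0 s) :=
    ((continuous_id.mul continuous_const).integrableOn_Icc).mono_set Ioo_subset_Icc_self
  have h3 : ∫ r in Ioo 0 s, r * (2 * Real.pi * u a) ≤
      ∫ r in Ioo 0 s, r * (2 * Real.pi * Real.circleAverage u a r) := by
    refine setIntegral_mono_on hint2 hint1 measurableSet_Ioo fun r hr => ?_
    have := h r hr.1 hr.2
    have hpi := Real.two_pi_pos
    have := mul_le_mul_of_nonneg_left this hpi.le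
    exact mul_le_mul_of_nonneg_left this hr.1.le
  refine le_trans (le_of_eq ?_) h3
  rw [integral_mul_const, ← integral_Ioc_eq_integral_Ioo, ← intervalIntegral.integral_of_le hs.le,
    integral_id, hV]
  ring

/-- The data of a supremum of log-subharmonic functions. -/
lemma areaSub_iSup {ι : Type} {u : ι → ℂ → ℝ} {a : ι → ℝ} {Ω : Set ℂ} (hΩ : IsOpen Ω)
    (ha : ∀ i, 0 < a i) (hu : ∀ i, LogSubharmonicOn (u i) Ω) {B : ℝ}
    (hB : ∀ i, ∀ z ∈ Ω, u i z * a i ≤ B) :
    AreaSub (Ω.indicator fun z => ⨆ i, u i z * a i) Ω := by
  set Ψ : ℂ → ℝ := Ω.indicator fun z => ⨆ i, u i z * a i with hΨ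
  have hnn : ∀ i, ∀ z ∈ Ω, 0 ≤ u i z * a i := fun i z hz => mul_nonneg ((hu i).2.1 z hz) (ha i).le
  have hΨnn : ∀ z, 0 ≤ Ψ z := by
    intro z
    by_cases hz : z ∈ Ω
    · rw [hΨ, indicator_of_mem hz]
      exact Real.iSup_nonneg fun i => hnn i z hz
    · rw [hΨ, indicator_of_notMem hz]
  have hbdd : ∀ z ∈ Ω, BddAbove (range fun i => u i z * a i) := by
    intro z hz
    refine ⟨B, ?_⟩
    rintro _ ⟨i, rfl⟩
    exact hB i z hz
  have hΨB : ∀ z ∈ Ω, Ψ z ≤ max B 0 := by
    intro z hz
    rw [hΨ, indicator_of_mem hz]
    exact Real.iSup_le (fun i => (hB i z hz).trans (le_max_left _ _)) (le_max_right _ _)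
  have hmeas : Measurable Ψ := by
    apply measurable_of_Ioi
    intro t
    apply IsOpen.measurableSet
    by_cases ht : t < 0
    · have : Ψ ⁻¹' Ioi t = univ := by
        ext z
        simp only [mem_preimage, mem_Ioi, mem_univ, iff_true]
        exact lt_of_lt_of_le ht (hΨnn z)
      rw [this]; exact isOpen_univ
    · have : Ψ ⁻¹' Ioi t = ⋃ i, (Ω ∩ (fun z => u i z * a i) ⁻¹' Ioi t) := by
        ext z
        simp only [mem_preimage, mem_Ioi, mem_iUnion, mem_inter_iff]
        constructor
        · intro h
          have hz : z ∈ Ω := by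
            by_contra hz
            rw [hΨ, indicator_of_notMem hz] at h
            exact ht h
          rw [hΨ, indicator_of_mem hz] at h
          rcases isEmpty_or_nonempty ι with he | hne
          · rw [Real.iSup_of_isEmpty] at h
            exact absurd h ht
          · obtain ⟨i, hi⟩ := exists_lt_of_lt_ciSup h
            exact ⟨i, hz, hi⟩
        · rintro ⟨i, hz, hi⟩
          rw [hΨ, indicator_of_mem hz]
          exact lt_of_lt_of_le hi (le_ciSup (hbdd z hz) i)
      rw [this]
      refine isOpen_iUnion fun i => ?_
      exact ((hu i).1.mul continuousOn_const).isOpen_inter_preimage hΩ isOpen_Ioi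
  have hcirc : ∀ z r, 0 < r → closedBall z r ⊆ Ω → ∀ δ, 0 < δ →
      Real.log (max (Ψ z) δ) ≤ Real.circleAverage (fun w => Real.log (max (Ψ w) δ)) z r := by
    intro z r hr hsub δ hδ
    have hzΩ : z ∈ Ω := hsub (mem_closedBall_self hr.le)
    have hsph : sphere z |r| ⊆ Ω := by
      rw [abs_of_pos hr]; exact sphere_subset_closedBall.trans hsub
    have hci : CircleIntegrable (fun w => Real.log (max (Ψ w) δ)) z r := by
      have hm2 : Measurable fun θ : ℝ => Real.log (max (Ψ (circleMap z r θ)) δ) :=
        (meas_trunc hmeas δ).comp (continuous_circleMap z r).measurable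
      refine (intervalIntegrable_const (c := |Real.log δ| + |Real.log (max (max B 0) δ)|)).mono_fun
        hm2.aestronglyMeasurable ?_
      refine Eventually.of_forall fun θ => ?_
      have hmem : circleMap z r θ ∈ Ω := hsph (by
        rw [abs_of_pos hr]; exact circleMap_mem_sphere z hr.le θ)
      have h1 : δ ≤ max (Ψ (circleMap z r θ)) δ := le_max_right _ _
      have h2 : max (Ψ (circleMap z r θ)) δ ≤ max (max B 0) δ := max_le_max_right _ (hΨB _ hmem)
      have h3 := Real.log_le_log hδ h1
      have h4 := Real.log_le_log (lt_of_lt_of_le hδ h1) h2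
      have h5 : (0 : ℝ) ≤ |Real.log δ| + |Real.log (max (max B 0) δ)| := by positivity
      show ‖Real.log (max (Ψ (circleMap z r θ)) δ)‖ ≤ |(|Real.log δ| + |Real.log (max (max B 0) δ)|)|
      rw [Real.norm_eq_abs, abs_of_nonneg h5, abs_le]
      constructor
      · have := neg_abs_le (Real.log δ)
        have := abs_nonneg (Real.log (max (max B 0) δ))
        linarith
      · have := le_abs_self (Real.log (max (max B 0) δ))
        have := abs_nonneg (Real.log δ)
        linarith
    rcases le_or_gt (Ψ z) δ with hle | hgt
    · rw [max_eq_right hle]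
      have h1 : Real.circleAverage (fun _ : ℂ => Real.log δ) z r ≤
          Real.circleAverage (fun w => Real.log (max (Ψ w) δ)) z r := by
        refine Real.circleAverage_mono (circleIntegrable_const _ _ _) hci fun w _ => ?_
        exact Real.log_le_log hδ (le_max_right _ _)
      rwa [Real.circleAverage_const] at h1
    · rw [max_eq_left hgt.le]
      have hΨz : Ψ z = ⨆ i, u i z * a i := by rw [hΨ, indicator_of_mem hzΩ]
      -- each index
      have key : ∀ i, δ < u i z * a i → Real.log (u i z * a i) ≤
          Real.circleAverage (fun w => Real.log (max (Ψ w) δ)) z r := by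
        intro i hi
        have hai := ha i
        have h1 := (hu i).2.2 z r hr hsub (δ / a i) (by positivity)
        have hcu : CircleIntegrable (fun w => Real.log (max (u i w) (δ / a i))) z r := by
          apply ContinuousOn.circleIntegrable hr.le
          have h2 : ContinuousOn (u i) (sphere z r) :=
            (hu i).1.mono (by rw [abs_of_pos hr] at hsph; exact hsph)
          refine ContinuousOn.log (ContinuousOn.sup h2 continuousOn_const) fun w _ => ?_
          exact (lt_of_lt_of_le (by positivity : 0 < δ / a i) (le_max_right _ _)).ne'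
        have h3 : Real.circleAverage (fun w => Real.log (a i) + Real.log (max (u i w) (δ / a i))) z r ≤
            Real.circleAverage (fun w => Real.log (max (Ψ w) δ)) z r := by
          refine Real.circleAverage_mono ((circleIntegrable_const _ _ _).add hcu) hci fun w hw => ?_
          have hwΩ := hsph hw
          rw [← Real.log_mul hai.ne' (lt_of_lt_of_le (by positivity : 0 < δ / a i)
            (le_max_right _ _)).ne']
          refine Real.log_le_log (mul_pos hai (lt_of_lt_of_le (by positivity : 0 < δ / a i)
            (le_max_right _ _))) ?_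
          rw [mul_max_of_nonneg _ _ hai.le, mul_div_cancel₀ _ hai.ne']
          apply max_le_max_right
          rw [hΨ, indicator_of_mem hwΩ, mul_comm]
          exact le_ciSup (hbdd w hwΩ) i
        rw [Real.circleAverage_fun_add (circleIntegrable_const _ _ _) hcu,
          Real.circleAverage_const] at h3
        have h4 : Real.log (u i z * a i) ≤ Real.log (a i) + Real.log (max (u i z) (δ / a i)) := by
          rw [← Real.log_mul hai.ne' (lt_of_lt_of_le (by positivity : 0 < δ / a i)
            (le_max_right _ _)).ne']
          refine Real.log_le_log (hδ.trans hi) ?_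
          rw [mul_comm]
          exact mul_le_mul_of_nonneg_left (le_max_left _ _) hai.le
        linarith
      rw [hΨz]
      rw [hΨz] at hgt
      have hne : Nonempty ι := by
        by_contra he
        rw [not_nonempty_iff] at he
        rw [Real.iSup_of_isEmpty] at hgt
        linarith
      rw [Real.log_le_iff_le_exp (hδ.trans hgt)]
      refine ciSup_le fun i => ?_
      rcases le_or_gt (u i z * a i) δ with h5 | h5
      · obtain ⟨i', hi'⟩ := exists_lt_of_lt_ciSup hgt
        have h6 := key i' hi'
        rw [Real.log_le_iff_le_exp (hδ.trans hi')] at h6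
        linarith
      · have h6 := key i h5
        rwa [Real.log_le_iff_le_exp (hδ.trans h5)] at h6
  refine ⟨hmeas, fun z _ => hΨnn z, ⟨_, hΨB⟩, ?_⟩
  intro z r hr hsub δ hδ
  refine area_of_circle (meas_trunc hmeas δ) hr
    (B := |Real.log δ| + |Real.log (max (max B 0) δ)|) ?_ ?_
  · intro w hw
    have hmem := hsub (ball_subset_closedBall hw)
    have h1 : δ ≤ max (Ψ w) δ := le_max_right _ _
    have h2 : max (Ψ w) δ ≤ max (max B 0) δ := max_le_max_right _ (hΨB _ hmem)
    have h3 := Real.log_le_log hδ h1
    have h4 := Real.log_le_log (lt_of_lt_of_le hδ h1) h2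
    rw [abs_le]
    constructor
    · have := neg_abs_le (Real.log δ)
      have := abs_nonneg (Real.log (max (max B 0) δ))
      linarith
    · have := le_abs_self (Real.log (max (max B 0) δ))
      have := abs_nonneg (Real.log δ)
      linarith
  · intro r' hr' hr'r
    exact hcirc z r' hr' ((closedBall_subset_closedBall hr'r.le).trans hsub) δ hδ

end Pool.Agent.H816_Nef
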