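import Pool.Agent.H816_Nef.Core
import Pool.Agent.H816_Nef.Sheets
import Pool.Agent.H816_Nef.SubArea
import Pool.Agent.H816_Nef.FinslerDefs

/-!
# The subexponential criterion
-/

set_option autoImplicit false

open Set Filter Topology Metric MeasureTheory
open scoped ContDiff Manifold

namespace Pool.Agent.H816_Nef

variable {E : Type} [NormedAddCommGroup E] [NormedSpace ℂ E]
variable {E' : Type} [NormedAddCommGroup E'] [NormedSpace ℂ E']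
variable {X : Type} [TopologicalSpace X] [ChartedSpace E X] [IsManifold 𝓘(ℂ, E) ω X]
variable {S : Type} [TopologicalSpace S] [ChartedSpace E' S] [IsManifold 𝓘(ℂ, E') ω S]
variable {Y : Type} [TopologicalSpace Y] [ChartedSpace E Y] [IsManifold 𝓘(ℂ, E) ω Y]
variable {C : Type} [TopologicalSpace C] [ChartedSpace ℂ C] [IsManifold 𝓘(ℂ, ℂ) ω C]

lemma vertical_comp {π : X → S} {p : Y → X} (hπ : ContMDiff 𝓘(ℂ, E) 𝓘(ℂ, E') ω π)
    (hpl : IsLocalDiffeomorph 𝓘(ℂ, E) 𝓘(ℂ, E) ω p) (w : TangentBundle 𝓘(ℂ, E) Y) :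
    IsVertical E E' (fun y => π (p y)) w ↔ IsVertical E E' π (tangentMap 𝓘(ℂ, E) 𝓘(ℂ, E) p w) := by
  unfold IsVertical
  have h1 : mfderiv 𝓘(ℂ, E) 𝓘(ℂ, E') (π ∘ p) w.proj =
      (mfderiv 𝓘(ℂ, E) 𝓘(ℂ, E') π (p w.proj)).comp (mfderiv 𝓘(ℂ, E) 𝓘(ℂ, E) p w.proj) :=
    mfderiv_comp w.proj ((hπ _).mdifferentiableAt (by simp))
      ((hpl w.proj).contMDiffAt.mdifferentiableAt (by simp))
  have h2 : (fun y => π (p y)) = π ∘ p := rfl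
  rw [h2, h1]
  rfl

/-- The local situation near the point `c₀` for a vertical section. -/
structure Loc (f : C → X) (s : ∀ c, TangentSpace 𝓘(ℂ, E) (f c)) (n : C → ℤ) (π : X → S)
    (p : Y → X) (lam : Y → ℝ) (c₀ : C) (R : ℝ) (g : ∀ c, TangentSpace 𝓘(ℂ, E) (f c))
    (K : Set (TangentBundle 𝓘(ℂ, E) X)) (V : Set X) (ι : Type) (j : ι → X → Y) (L : ℝ) : Prop where
  Rpos : 0 < R
  Lnn : 0 ≤ L
  sub : ball (chartAt ℂ c₀ c₀) R ⊆ (chartAt ℂ c₀).target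
  nz : ∀ z ∈ ball (chartAt ℂ c₀ c₀) R, z ≠ chartAt ℂ c₀ c₀ → n ((chartAt ℂ c₀).symm z) = 0
  hol : ∀ z ∈ ball (chartAt ℂ c₀ c₀) R, HolAlong E f g ((chartAt ℂ c₀).symm z)
  ne : g c₀ ≠ 0
  eq : ∀ z ∈ ball (chartAt ℂ c₀ c₀) R, z ≠ chartAt ℂ c₀ c₀ → s ((chartAt ℂ c₀).symm z) =
    (z - chartAt ℂ c₀ c₀) ^ (n c₀) • g ((chartAt ℂ c₀).symm z)
  vert : ∀ z ∈ ball (chartAt ℂ c₀ c₀) R,
    mfderiv 𝓘(ℂ, E) 𝓘(ℂ, E') π (f ((chartAt ℂ c₀).symm z)) (g ((chartAt ℂ c₀).symm z)) = 0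
  K_compact : IsCompact K
  mem_K : ∀ z ∈ ball (chartAt ℂ c₀ c₀) R, (⟨f ((chartAt ℂ c₀).symm z),
    g ((chartAt ℂ c₀).symm z)⟩ : TangentBundle 𝓘(ℂ, E) X) ∈ K
  sheets : Sheets (E := E) p V ι j
  mem_V : ∀ z ∈ ball (chartAt ℂ c₀ c₀) R, f ((chartAt ℂ c₀).symm z) ∈ V
  osc : ∀ i, ∀ z ∈ ball (chartAt ℂ c₀ c₀) R,
    |lam (j i (f ((chartAt ℂ c₀).symm z))) - lam (j i (f c₀))| ≤ L

/-- the generator is vertical at the centre -/
lemma vertical_gen {f : C → X} {s : ∀ c, TangentSpace 𝓘(ℂ, E) (f c)} {k : ℤ}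
    {π : X → S} (hπ : ContMDiff 𝓘(ℂ, E) 𝓘(ℂ, E') ω π) {c₀ : C}
    (hv : ∀ᶠ c in 𝓝[≠] c₀, mfderiv 𝓘(ℂ, E) 𝓘(ℂ, E') π (f c) (s c) = 0)
    {g : ∀ c, TangentSpace 𝓘(ℂ, E) (f c)} (hg : HolAlong E f g c₀)
    (hgs : ∀ᶠ c in 𝓝[≠] c₀, s c = (chartAt ℂ c₀ c - chartAt ℂ c₀ c₀) ^ k • g c) :
    ∀ᶠ c in 𝓝 c₀, mfderiv 𝓘(ℂ, E) 𝓘(ℂ, E') π (f c) (g c) = 0 := by
  have hz0 : ∀ᶠ c in 𝓝[≠] c₀, chartAt ℂ c₀ c - chartAt ℂ c₀ c₀ ≠ 0 := by
    have h1 := (tendsto_chart_punct c₀).eventually self_mem_nhdsWithin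
    filter_upwards [h1] with c hc
    exact sub_ne_zero.2 hc
  have hgv : ∀ᶠ c in 𝓝[≠] c₀, mfderiv 𝓘(ℂ, E) 𝓘(ℂ, E') π (f c) (g c) = 0 := by
    filter_upwards [hv, hgs, hz0] with c a1 a2 a3
    rw [a2, map_smul] at a1
    exact (smul_eq_zero.1 a1).resolve_left (zpow_ne_zero _ a3)
  have hpush := hg.push hπ
  have hgv0 : mfderiv 𝓘(ℂ, E) 𝓘(ℂ, E') π (f c₀) (g c₀) = 0 := by
    rw [holAlong_iff] at hpush
    have h1 : Tendsto (fun c => coord E' (π (f c₀))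
        (mfderiv 𝓘(ℂ, E) 𝓘(ℂ, E') π (f c) (g c) : TangentSpace 𝓘(ℂ, E') (π (f c)))) (𝓝[≠] c₀)
        (𝓝 (coord E' (π (f c₀)) (mfderiv 𝓘(ℂ, E) 𝓘(ℂ, E') π (f c₀) (g c₀) :
          TangentSpace 𝓘(ℂ, E') (π (f c₀))))) :=
      hpush.2.continuousAt.tendsto.mono_left nhdsWithin_le_nhds
    have hb : ∀ᶠ c in 𝓝[≠] c₀, π (f c) ∈ bset E' (π (f c₀)) :=
      nhdsWithin_le_nhds (hpush.1.continuousAt.eventually
        ((isOpen_bset (E := E') (π (f c₀))).mem_nhds (mem_bset _)))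
    have h2 : Tendsto (fun c => coord E' (π (f c₀))
        (mfderiv 𝓘(ℂ, E) 𝓘(ℂ, E') π (f c) (g c) : TangentSpace 𝓘(ℂ, E') (π (f c)))) (𝓝[≠] c₀)
        (𝓝 0) := by
      refine tendsto_const_nhds.congr' ?_
      filter_upwards [hgv, hb] with c a1 a2
      rw [a1]
      exact ((coord_eq_zero (π (f c₀)) a2).2 rfl).symm
    have h3 := tendsto_nhds_unique h1 h2
    exact (coord_eq_zero _ (mem_bset _)).1 h3
  have h1 := eventually_nhdsWithin_iff.1 hgv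
  filter_upwards [h1] with c hc
  by_cases h2 : c = c₀
  · rw [h2]; exact hgv0
  · exact hc h2

/-- existence of the local data -/
lemma exists_loc [T2Space C] {f : C → X} (hf : ContMDiff 𝓘(ℂ, ℂ) 𝓘(ℂ, E) ω f)
    {s : ∀ c, TangentSpace 𝓘(ℂ, E) (f c)} {n : C → ℤ} (hs : ∀ c, HasOrderAt E f s c (n c))
    {π : X → S} (hπ : ContMDiff 𝓘(ℂ, E) 𝓘(ℂ, E') ω π)
    (hv : ∀ c₀, ∀ᶠ c in 𝓝[≠] c₀, mfderiv 𝓘(ℂ, E) 𝓘(ℂ, E') π (f c) (s c) = 0)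
    {p : Y → X} (hp : IsCoveringMap p) (hpl : IsLocalDiffeomorph 𝓘(ℂ, E) 𝓘(ℂ, E) ω p)
    {lam : Y → ℝ} (hlam : CoarselyLipschitz p lam) (c₀ : C)
    {g : ∀ c, TangentSpace 𝓘(ℂ, E) (f c)} (hg : HolAlong E f g c₀) (hg0 : g c₀ ≠ 0)
    (hgs : ∀ᶠ c in 𝓝[≠] c₀, s c = (chartAt ℂ c₀ c - chartAt ℂ c₀ c₀) ^ (n c₀) • g c) :
    ∃ (R : ℝ) (K : Set (TangentBundle 𝓘(ℂ, E) X))
      (V : Set X) (ι : Type) (j : ι → X → Y) (L : ℝ),
      Loc (E' := E') f s n π p lam c₀ R g K V ι j L := by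
  obtain ⟨V, hV, ι, j, hj⟩ := exists_sheets hp hpl (f c₀)
  obtain ⟨U, hU, L, hL⟩ := hlam (f c₀)
  have hfc : Continuous f := hf.continuous
  have hgv' : ∀ᶠ c in 𝓝 c₀, mfderiv 𝓘(ℂ, E) 𝓘(ℂ, E') π (f c) (g c) = 0 :=
    vertical_gen hπ (hv c₀) hg hgs
  have hn0 : ∀ᶠ c in 𝓝 c₀, c ≠ c₀ → n c = 0 := by
    have h1 := eventually_nhdsWithin_iff.1 (hs c₀).eventually_zero
    filter_upwards [h1] with c hc hne
    exact ((hc hne).unique (hs c)).symm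
  have hgs' := eventually_nhdsWithin_iff.1 hgs
  have hall : ∀ᶠ c in 𝓝 c₀, HolAlong E f g c ∧
      mfderiv 𝓘(ℂ, E) 𝓘(ℂ, E') π (f c) (g c) = 0 ∧ (c ≠ c₀ → n c = 0) ∧
      (c ≠ c₀ → s c = (chartAt ℂ c₀ c - chartAt ℂ c₀ c₀) ^ (n c₀) • g c) ∧
      f c ∈ V ∧ f c ∈ U := by
    filter_upwards [hg.eventually_nhds, hgv', hn0, hgs',
      hfc.continuousAt.eventually (hj.isOpen.mem_nhds hV), hfc.continuousAt.eventually hU]
      with c a1 a2 a3 a4 a5 a6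
    exact ⟨a1, a2, a3, a4, a5, a6⟩
  have hall2 : ∀ᶠ z in 𝓝 (chartAt ℂ c₀ c₀), z ∈ (chartAt ℂ c₀).target ∧
      (let c := (chartAt ℂ c₀).symm z; HolAlong E f g c ∧
      mfderiv 𝓘(ℂ, E) 𝓘(ℂ, E') π (f c) (g c) = 0 ∧ (c ≠ c₀ → n c = 0) ∧
      (c ≠ c₀ → s c = (chartAt ℂ c₀ c - chartAt ℂ c₀ c₀) ^ (n c₀) • g c) ∧
      f c ∈ V ∧ f c ∈ U) := by
    have h1 := (chartAt ℂ c₀).continuousAt_symm (mem_chart_target ℂ c₀)
    have h2 : Tendsto (chartAt ℂ c₀).symm (𝓝 (chartAt ℂ c₀ c₀)) (𝓝 c₀) := by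
      have := h1.tendsto
      rwa [(chartAt ℂ c₀).left_inv (mem_chart_source ℂ c₀)] at this
    filter_upwards [h2.eventually hall, (chartAt ℂ c₀).open_target.mem_nhds
      (mem_chart_target ℂ c₀)] with z a1 a2
    exact ⟨a2, a1⟩
  obtain ⟨R', hR', hball⟩ := Metric.eventually_nhds_iff_ball.1 hall2
  have hne : ∀ z ∈ ball (chartAt ℂ c₀ c₀) R', z ≠ chartAt ℂ c₀ c₀ →
      (chartAt ℂ c₀).symm z ≠ c₀ := by
    intro z hz hzne he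
    apply hzne
    have h1 := congrArg (chartAt ℂ c₀) he
    rwa [(chartAt ℂ c₀).right_inv (hball z hz).1] at h1
  have hcont : ContinuousOn (fun z => (⟨f ((chartAt ℂ c₀).symm z),
      g ((chartAt ℂ c₀).symm z)⟩ : TangentBundle 𝓘(ℂ, E) X)) (ball (chartAt ℂ c₀ c₀) R') := by
    intro z hz
    have h1 := (hball z hz).2.1
    have h2 : ContMDiffAt 𝓘(ℂ, ℂ) 𝓘(ℂ, E).tangent ω (fun z => (⟨f ((chartAt ℂ c₀).symm z),
      g ((chartAt ℂ c₀).symm z)⟩ : TangentBundle 𝓘(ℂ, E) X)) z :=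
      ContMDiffAt.comp z h1 (symm_hol c₀ (hball z hz).1)
    exact h2.continuousAt.continuousWithinAt
  have hcb : closedBall (chartAt ℂ c₀ c₀) (R' / 2) ⊆ ball (chartAt ℂ c₀ c₀) R' :=
    closedBall_subset_ball (by linarith)
  have hbb : ball (chartAt ℂ c₀ c₀) (R' / 2) ⊆ ball (chartAt ℂ c₀ c₀) R' :=
    ball_subset_ball (by linarith)
  refine ⟨R' / 2, (fun z => (⟨f ((chartAt ℂ c₀).symm z),
      g ((chartAt ℂ c₀).symm z)⟩ : TangentBundle 𝓘(ℂ, E) X)) '' closedBall (chartAt ℂ c₀ c₀) (R' / 2),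
      V, ι, j, |L|, by positivity, abs_nonneg _, fun z hz => (hball z (hbb hz)).1,
      fun z hz hzne => (hball z (hbb hz)).2.2.2.1 (hne z (hbb hz) hzne),
      fun z hz => (hball z (hbb hz)).2.1, hg0, ?_,
      fun z hz => (hball z (hbb hz)).2.2.1,
      (isCompact_closedBall _ _).image_of_continuousOn (hcont.mono hcb),
      fun z hz => ⟨z, ball_subset_closedBall hz, rfl⟩, hj,
      fun z hz => (hball z (hbb hz)).2.2.2.2.2.1, ?_⟩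
  · intro z hz hzne
    have h1 := (hball z (hbb hz)).2.2.2.2.1 (hne z (hbb hz) hzne)
    rwa [(chartAt ℂ c₀).right_inv (hball z (hbb hz)).1] at h1
  · intro i z hz
    -- a path in the sheet
    have hseg : ∀ t : unitInterval, AffineMap.lineMap (chartAt ℂ c₀ c₀) z (t : ℝ) ∈
        ball (chartAt ℂ c₀ c₀) (R' / 2) := by
      intro t
      have h1 : segment ℝ (chartAt ℂ c₀ c₀) z ⊆ ball (chartAt ℂ c₀ c₀) (R' / 2) :=
        (convex_ball _ _).segment_subset (mem_ball_self (by positivity)) hz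
      apply h1
      rw [segment_eq_image_lineMap]
      exact ⟨t, t.2, rfl⟩
    have hcj : ContinuousOn (fun z => j i (f ((chartAt ℂ c₀).symm z)))
        (ball (chartAt ℂ c₀ c₀) (R' / 2)) := by
      intro w hw
      have a1 : ContinuousAt (chartAt ℂ c₀).symm w :=
        (chartAt ℂ c₀).continuousAt_symm (hball w (hbb hw)).1
      have a2 : ContinuousAt (fun z => f ((chartAt ℂ c₀).symm z)) w :=
        ContinuousAt.comp (g := f) hfc.continuousAt a1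
      have a3 : ContinuousAt (j i) (f ((chartAt ℂ c₀).symm w)) :=
        (hj.hol i _ (hball w (hbb hw)).2.2.2.2.2.1).continuousAt
      exact (ContinuousAt.comp (f := fun z => f ((chartAt ℂ c₀).symm z)) (g := j i) a3
        a2).continuousWithinAt
    have hcont2 : Continuous fun t : unitInterval =>
        j i (f ((chartAt ℂ c₀).symm (AffineMap.lineMap (chartAt ℂ c₀ c₀) z (t : ℝ)))) := by
      have a1 : Continuous fun t : unitInterval =>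
          (AffineMap.lineMap (chartAt ℂ c₀ c₀) z (t : ℝ) : ℂ) :=
        AffineMap.lineMap_continuous.comp continuous_subtype_val
      exact hcj.comp_continuous a1 hseg
    have h1 : JoinedIn (p ⁻¹' U) (j i (f ((chartAt ℂ c₀).symm z))) (j i (f c₀)) := by
      apply JoinedIn.symm
      refine ⟨⟨⟨fun t => j i (f ((chartAt ℂ c₀).symm
        (AffineMap.lineMap (chartAt ℂ c₀ c₀) z (t : ℝ)))), hcont2⟩, ?_, ?_⟩, ?_⟩
      · simp [(chartAt ℂ c₀).left_inv (mem_chart_source ℂ c₀)]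
      · simp
      · intro t
        have a1 := hball _ (hbb (hseg t))
        show p (j i (f ((chartAt ℂ c₀).symm (AffineMap.lineMap (chartAt ℂ c₀ c₀) z (t : ℝ))))) ∈ U
        rw [hj.inv i _ a1.2.2.2.2.2.1]
        exact a1.2.2.2.2.2.2
    exact (hL _ _ h1).trans (le_abs_self L)

section
variable {f : C → X} {s : ∀ c, TangentSpace 𝓘(ℂ, E) (f c)} {n : C → ℤ} {π : X → S}
  {p : Y → X} {lam : Y → ℝ} {c₀ : C} {R : ℝ} {g : ∀ c, TangentSpace 𝓘(ℂ, E) (f c)}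
  {K : Set (TangentBundle 𝓘(ℂ, E) X)} {V : Set X} {ι : Type} {j : ι → X → Y} {L : ℝ}

/-- the point of the tangent bundle over `z` -/
noncomputable def gpt (f : C → X) (g : ∀ c, TangentSpace 𝓘(ℂ, E) (f c)) (c₀ : C) (z : ℂ) :
    TangentBundle 𝓘(ℂ, E) X :=
  ⟨f ((chartAt ℂ c₀).symm z), g ((chartAt ℂ c₀).symm z)⟩

/-- the values of the Finsler function in the sheet `i` -/
noncomputable def ufun (f : C → X) (g : ∀ c, TangentSpace 𝓘(ℂ, E) (f c)) (c₀ : C)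
    (F : TangentBundle 𝓘(ℂ, E) Y → ℝ) (jj : X → Y) (z : ℂ) : ℝ :=
  F (tangentMap 𝓘(ℂ, E) 𝓘(ℂ, E) jj (gpt f g c₀ z))

/-- the local function `Ψ` -/
noncomputable def Psi (f : C → X) (g : ∀ c, TangentSpace 𝓘(ℂ, E) (f c)) (c₀ : C) (R : ℝ)
    (F : TangentBundle 𝓘(ℂ, E) Y → ℝ) (lam : Y → ℝ) (ε : ℝ) {ι : Type} (j : ι → X → Y) : ℂ → ℝ :=
  (ball (chartAt ℂ c₀ c₀) R).indicator fun z =>
    ⨆ i, ufun f g c₀ F (j i) z * Real.exp (-(ε * lam (j i (f c₀))))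

/-- the global function `Φ` -/
noncomputable def Phi (f : C → X) (s : ∀ c, TangentSpace 𝓘(ℂ, E) (f c)) (p : Y → X)
    (F : TangentBundle 𝓘(ℂ, E) Y → ℝ) (lam : Y → ℝ) (ε : ℝ) (c : C) : ℝ :=
  ⨆ w : {w : TangentBundle 𝓘(ℂ, E) Y //
    tangentMap 𝓘(ℂ, E) 𝓘(ℂ, E) p w = (⟨f c, s c⟩ : TangentBundle 𝓘(ℂ, E) X)},
    F w.1 * Real.exp (-(ε * lam w.1.proj))

lemma Loc.vertical_sheet (h : Loc (E' := E') f s n π p lam c₀ R g K V ι j L)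
    (hπ : ContMDiff 𝓘(ℂ, E) 𝓘(ℂ, E') ω π) (hpl : IsLocalDiffeomorph 𝓘(ℂ, E) 𝓘(ℂ, E) ω p)
    (i : ι) {z : ℂ} (hz : z ∈ ball (chartAt ℂ c₀ c₀) R) :
    IsVertical E E' (fun y => π (p y))
      (tangentMap 𝓘(ℂ, E) 𝓘(ℂ, E) (j i) (gpt f g c₀ z)) := by
  rw [vertical_comp hπ hpl, h.sheets.proj hpl (v := gpt f g c₀ z) (h.mem_V z hz) i]
  exact h.vert z hz

lemma Loc.logsub (h : Loc (E' := E') f s n π p lam c₀ R g K V ι j L)
    (hπ : ContMDiff 𝓘(ℂ, E) 𝓘(ℂ, E') ω π) (hpl : IsLocalDiffeomorph 𝓘(ℂ, E) 𝓘(ℂ, E) ω p)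
    {F : TangentBundle 𝓘(ℂ, E) Y → ℝ} (hF : LogPshFinsler E E' (fun y => π (p y)) F) (i : ι) :
    LogSubharmonicOn (ufun f g c₀ F (j i)) (ball (chartAt ℂ c₀ c₀) R) := by
  refine hF.logpsh (ball (chartAt ℂ c₀ c₀) R) (fun z => tangentMap 𝓘(ℂ, E) 𝓘(ℂ, E) (j i)
    (gpt f g c₀ z)) isOpen_ball ?_ (fun z hz => h.vertical_sheet hπ hpl i hz)
  intro z hz
  have h1 : ContMDiffAt 𝓘(ℂ, ℂ) 𝓘(ℂ, E).tangent ω (gpt f g c₀) z :=
    ContMDiffAt.comp z (h.hol z hz) (symm_hol c₀ (h.sub hz))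
  have hVz : f ((chartAt ℂ c₀).symm z) ∈ V := h.mem_V z hz
  have h2 : ContMDiffOn 𝓘(ℂ, E) 𝓘(ℂ, E) ω (j i) V := fun x hx =>
    (h.sheets.hol i x hx).contMDiffWithinAt
  have h3 := h2.contMDiffOn_tangentMapWithin (m := ω) le_top h.sheets.isOpen.uniqueMDiffOn
  have h4 : ContMDiffAt 𝓘(ℂ, E).tangent 𝓘(ℂ, E).tangent ω
      (tangentMapWithin 𝓘(ℂ, E) 𝓘(ℂ, E) (j i) V) (gpt f g c₀ z) := by
    apply h3.contMDiffAt
    exact (h.sheets.isOpen.preimage (FiberBundle.continuous_proj E (TangentSpace 𝓘(ℂ, E)))).mem_nhds hVz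
  have h5 : ContMDiffAt 𝓘(ℂ, ℂ) 𝓘(ℂ, E).tangent ω
      (fun z => tangentMapWithin 𝓘(ℂ, E) 𝓘(ℂ, E) (j i) V (gpt f g c₀ z)) z :=
    ContMDiffAt.comp z h4 h1
  refine (h5.congr_of_eventuallyEq ?_).contMDiffWithinAt
  filter_upwards [isOpen_ball.mem_nhds hz] with w hw
  have h6 : f ((chartAt ℂ c₀).symm w) ∈ V := h.mem_V w hw
  symm
  exact tangentMapWithin_eq_tangentMap (h.sheets.isOpen.uniqueMDiffOn _ h6)
    ((h.sheets.hol i _ h6).mdifferentiableAt (by simp))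

end

end Pool.Agent.H816_Nef
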