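import Pool.Agent.H816_Nef.MainM

/-!
# The subexponential criterion: conclusion
-/

set_option autoImplicit false

open Set Filter Topology Metric MeasureTheory
open scoped ContDiff Manifold

namespace Pool.Agent.H816_Nef

variable {E : Type} [NormedAddCommGroup E] [NormedSpace ℂ E]
variable {E' : Type} [NormedAddCommGroup E'] [NormedSpace ℂ E']
variable {X : Type} [TopologicalSpace X] [ChartedSpace E X] [IsManifold 𝓘(ℂ, E) ω X]
variable {S : Type} [TopologicalSpace S] [ChartedSpace E' S] [IsManifold 𝓘(ℂ, E') ω S]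
variable {Y : Type} [TopologicalSpace Y] [ChartedSpace E Y] [IsManifold 𝓘(ℂ, E) ω Y]
variable {C : Type} [TopologicalSpace C] [ChartedSpace ℂ C] [IsManifold 𝓘(ℂ, ℂ) ω C]
variable {f : C → X} {s : ∀ c, TangentSpace 𝓘(ℂ, E) (f c)} {n : C → ℤ} {π : X → S}
  {p : Y → X} {lam : Y → ℝ} {c₀ : C} {R : ℝ} {g : ∀ c, TangentSpace 𝓘(ℂ, E) (f c)}
  {K : Set (TangentBundle 𝓘(ℂ, E) X)} {V : Set X} {ι : Type} {j : ι → X → Y} {L : ℝ}

/-- growth of `F`: it is at most a constant times `exp (ε lam)` over compact sets of tangent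
vectors of `X` -/
def GrowthLe (E' : Type) [NormedAddCommGroup E'] [NormedSpace ℂ E'] [ChartedSpace E' S]
    (π : X → S) (p : Y → X) (lam : Y → ℝ) (ε : ℝ)
    (F : TangentBundle 𝓘(ℂ, E) Y → ℝ) : Prop :=
  ∀ K : Set (TangentBundle 𝓘(ℂ, E) X), IsCompact K → ∃ A : ℝ, ∀ w : TangentBundle 𝓘(ℂ, E) Y,
    IsVertical E E' (fun y => π (p y)) w → tangentMap 𝓘(ℂ, E) 𝓘(ℂ, E) p w ∈ K →
    F w ≤ A * Real.exp (ε * lam w.proj)

lemma F_nonneg {q : Y → S} {F : TangentBundle 𝓘(ℂ, E) Y → ℝ} (hF : LogPshFinsler E E' q F)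
    {w : TangentBundle 𝓘(ℂ, E) Y} (hw : IsVertical E E' q w) : 0 ≤ F w := by
  have h1 := hF.logpsh univ (fun _ => w) isOpen_univ contMDiffOn_const (fun _ _ => hw)
  exact h1.2.1 0 (mem_univ _)

/-- the bound for the local functions -/
lemma Loc.bound (h : Loc (E' := E') f s n π p lam c₀ R g K V ι j L)
    (hπ : ContMDiff 𝓘(ℂ, E) 𝓘(ℂ, E') ω π) (hpl : IsLocalDiffeomorph 𝓘(ℂ, E) 𝓘(ℂ, E) ω p)
    {F : TangentBundle 𝓘(ℂ, E) Y → ℝ} (hF : LogPshFinsler E E' (fun y => π (p y)) F)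
    {ε : ℝ} (hε : 0 < ε) {A : ℝ} (hA : ∀ w : TangentBundle 𝓘(ℂ, E) Y,
      IsVertical E E' (fun y => π (p y)) w → tangentMap 𝓘(ℂ, E) 𝓘(ℂ, E) p w ∈ K →
      F w ≤ A * Real.exp (ε * lam w.proj)) (i : ι) {z : ℂ}
    (hz : z ∈ ball (chartAt ℂ c₀ c₀) R) :
    ufun f g c₀ F (j i) z * Real.exp (-(ε * lam (j i (f c₀)))) ≤ max A 0 * Real.exp (ε * L) := by
  have hv := h.vertical_sheet hπ hpl i hz
  have h1 := hA _ hv (by
    rw [h.sheets.proj hpl (v := gpt f g c₀ z) (h.mem_V z hz) i]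
    exact h.mem_K z hz)
  have h2 : (tangentMap 𝓘(ℂ, E) 𝓘(ℂ, E) (j i) (gpt f g c₀ z)).proj =
      j i (f ((chartAt ℂ c₀).symm z)) := rfl
  rw [h2] at h1
  have h3 := (abs_le.1 (h.osc i z hz)).2
  unfold ufun
  calc F (tangentMap 𝓘(ℂ, E) 𝓘(ℂ, E) (j i) (gpt f g c₀ z)) *
        Real.exp (-(ε * lam (j i (f c₀)))) ≤
      (max A 0 * Real.exp (ε * lam (j i (f ((chartAt ℂ c₀).symm z))))) *
        Real.exp (-(ε * lam (j i (f c₀)))) := by
        apply mul_le_mul_of_nonneg_right _ (Real.exp_pos _).le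
        exact h1.trans (mul_le_mul_of_nonneg_right (le_max_left _ _) (Real.exp_pos _).le)
    _ = max A 0 * Real.exp (ε * (lam (j i (f ((chartAt ℂ c₀).symm z))) - lam (j i (f c₀)))) := by
        rw [mul_assoc, ← Real.exp_add]
        congr 2; ring
    _ ≤ _ := by
        apply mul_le_mul_of_nonneg_left _ (le_max_right _ _)
        apply Real.exp_le_exp.2
        exact mul_le_mul_of_nonneg_left h3 hε.le

/-- scaling of the lifted vector -/
lemma Loc.scale (h : Loc (E' := E') f s n π p lam c₀ R g K V ι j L)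
    (hπ : ContMDiff 𝓘(ℂ, E) 𝓘(ℂ, E') ω π) (hpl : IsLocalDiffeomorph 𝓘(ℂ, E) 𝓘(ℂ, E) ω p)
    {F : TangentBundle 𝓘(ℂ, E) Y → ℝ} (hF : LogPshFinsler E E' (fun y => π (p y)) F)
    (i : ι) {z : ℂ} (hz : z ∈ ball (chartAt ℂ c₀ c₀) R) (hne : z ≠ chartAt ℂ c₀ c₀) :
    F (tangentMap 𝓘(ℂ, E) 𝓘(ℂ, E) (j i)
      (⟨f ((chartAt ℂ c₀).symm z), s ((chartAt ℂ c₀).symm z)⟩ : TangentBundle 𝓘(ℂ, E) X)) =
      ‖z - chartAt ℂ c₀ c₀‖ ^ (n c₀) * ufun f g c₀ F (j i) z := by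
  have h1 := h.eq z hz hne
  have h2 : tangentMap 𝓘(ℂ, E) 𝓘(ℂ, E) (j i)
      (⟨f ((chartAt ℂ c₀).symm z), s ((chartAt ℂ c₀).symm z)⟩ : TangentBundle 𝓘(ℂ, E) X) =
      ⟨(tangentMap 𝓘(ℂ, E) 𝓘(ℂ, E) (j i) (gpt f g c₀ z)).proj,
        (z - chartAt ℂ c₀ c₀) ^ (n c₀) •
          (tangentMap 𝓘(ℂ, E) 𝓘(ℂ, E) (j i) (gpt f g c₀ z)).snd⟩ := by
    have h3 : tangentMap 𝓘(ℂ, E) 𝓘(ℂ, E) (j i)
      (⟨f ((chartAt ℂ c₀).symm z), s ((chartAt ℂ c₀).symm z)⟩ : TangentBundle 𝓘(ℂ, E) X) =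
      (⟨j i (f ((chartAt ℂ c₀).symm z)), mfderiv 𝓘(ℂ, E) 𝓘(ℂ, E) (j i)
        (f ((chartAt ℂ c₀).symm z)) (s ((chartAt ℂ c₀).symm z))⟩ : TangentBundle 𝓘(ℂ, E) Y) := rfl
    rw [h3, h1, map_smul]
    rfl
  rw [h2, hF.homogeneous _ _ (h.vertical_sheet hπ hpl i hz), norm_zpow]
  rfl

lemma Loc.locData_cmp (h : Loc (E' := E') f s n π p lam c₀ R g K V ι j L)
    (hπ : ContMDiff 𝓘(ℂ, E) 𝓘(ℂ, E') ω π) (hpl : IsLocalDiffeomorph 𝓘(ℂ, E) 𝓘(ℂ, E) ω p)
    {F : TangentBundle 𝓘(ℂ, E) Y → ℝ} (hF : LogPshFinsler E E' (fun y => π (p y)) F)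
    {ε : ℝ} (hε : 0 < ε) (hG : GrowthLe E' π p lam ε F) {z : ℂ}
    (hz : z ∈ ball (chartAt ℂ c₀ c₀) R) (hne : z ≠ chartAt ℂ c₀ c₀) :
    Real.exp (-(ε * L)) * (‖z - chartAt ℂ c₀ c₀‖ ^ (n c₀) * Psi f g c₀ R F lam ε j z) ≤
        Phi f s p F lam ε ((chartAt ℂ c₀).symm z) ∧
      Phi f s p F lam ε ((chartAt ℂ c₀).symm z) ≤
        Real.exp (ε * L) * (‖z - chartAt ℂ c₀ c₀‖ ^ (n c₀) * Psi f g c₀ R F lam ε j z) := by
  obtain ⟨A, hA⟩ := hG K h.K_compact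
  set c := (chartAt ℂ c₀).symm z with hc
  set N := ‖z - chartAt ℂ c₀ c₀‖ ^ (n c₀) with hN
  have hN0 : 0 < N := zpow_pos (norm_pos_iff.2 (sub_ne_zero.2 hne)) _
  have hΨ : Psi f g c₀ R F lam ε j z =
      ⨆ i, ufun f g c₀ F (j i) z * Real.exp (-(ε * lam (j i (f c₀)))) :=
    indicator_of_mem hz _
  have hunn : ∀ i, 0 ≤ ufun f g c₀ F (j i) z := fun i => F_nonneg hF (h.vertical_sheet hπ hpl i hz)
  have hbdd : BddAbove (range fun i => ufun f g c₀ F (j i) z *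
      Real.exp (-(ε * lam (j i (f c₀))))) := by
    refine ⟨max A 0 * Real.exp (ε * L), ?_⟩
    rintro _ ⟨i, rfl⟩
    exact h.bound hπ hpl hF hε hA i hz
  have hΨnn : 0 ≤ Psi f g c₀ R F lam ε j z := by
    rw [hΨ]
    exact Real.iSup_nonneg fun i => mul_nonneg (hunn i) (Real.exp_pos _).le
  -- the upper bound for each lift
  have hup : ∀ w : TangentBundle 𝓘(ℂ, E) Y,
      tangentMap 𝓘(ℂ, E) 𝓘(ℂ, E) p w = (⟨f c, s c⟩ : TangentBundle 𝓘(ℂ, E) X) →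
      F w * Real.exp (-(ε * lam w.proj)) ≤
        Real.exp (ε * L) * (N * Psi f g c₀ R F lam ε j z) := by
    intro w hw
    have hpw : p w.proj = f c := congrArg Bundle.TotalSpace.proj hw
    have hwV : p w.proj ∈ V := by rw [hpw]; exact h.mem_V z hz
    obtain ⟨i, hi, hi2⟩ := h.sheets.lift hpl hwV
    rw [hw] at hi2
    rw [hpw] at hi
    have h1 : F w = N * ufun f g c₀ F (j i) z := by
      rw [← hi2]
      exact h.scale hπ hpl hF i hz hne
    have h2 := (abs_le.1 (h.osc i z hz)).1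
    have h3 : Real.exp (-(ε * lam w.proj)) ≤
        Real.exp (ε * L) * Real.exp (-(ε * lam (j i (f c₀)))) := by
      rw [← Real.exp_add, ← hi]
      apply Real.exp_le_exp.2
      have := mul_le_mul_of_nonneg_left h2 hε.le
      linarith
    have h4 : ufun f g c₀ F (j i) z * Real.exp (-(ε * lam (j i (f c₀)))) ≤
        Psi f g c₀ R F lam ε j z := by
      rw [hΨ]; exact le_ciSup hbdd i
    rw [h1]
    calc N * ufun f g c₀ F (j i) z * Real.exp (-(ε * lam w.proj)) ≤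
          N * ufun f g c₀ F (j i) z * (Real.exp (ε * L) * Real.exp (-(ε * lam (j i (f c₀))))) :=
          mul_le_mul_of_nonneg_left h3 (mul_nonneg hN0.le (hunn i))
      _ = Real.exp (ε * L) * (N * (ufun f g c₀ F (j i) z *
            Real.exp (-(ε * lam (j i (f c₀)))))) := by ring
      _ ≤ _ := by
          apply mul_le_mul_of_nonneg_left _ (Real.exp_pos _).le
          exact mul_le_mul_of_nonneg_left h4 hN0.le
  constructor
  · have hbdd2 : BddAbove (range fun w : {w : TangentBundle 𝓘(ℂ, E) Y //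
        tangentMap 𝓘(ℂ, E) 𝓘(ℂ, E) p w = (⟨f c, s c⟩ : TangentBundle 𝓘(ℂ, E) X)} =>
        F w.1 * Real.exp (-(ε * lam w.1.proj))) := by
      refine ⟨Real.exp (ε * L) * (N * Psi f g c₀ R F lam ε j z), ?_⟩
      rintro _ ⟨w, rfl⟩
      exact hup w.1 w.2
    have hΦnn : 0 ≤ Phi f s p F lam ε c := by
      unfold Phi
      apply Real.iSup_nonneg
      intro w
      refine mul_nonneg (F_nonneg hF ?_) (Real.exp_pos _).le
      rw [vertical_comp hπ hpl, w.2]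
      show mfderiv 𝓘(ℂ, E) 𝓘(ℂ, E') π (f c) (s c) = 0
      rw [hc, h.eq z hz hne, map_smul, h.vert z hz, smul_zero]
    rw [hΨ, ← mul_assoc, Real.mul_iSup_of_nonneg (mul_nonneg (Real.exp_pos _).le hN0.le)]
    refine Real.iSup_le (fun i => ?_) hΦnn
    set w := tangentMap 𝓘(ℂ, E) 𝓘(ℂ, E) (j i) (⟨f c, s c⟩ : TangentBundle 𝓘(ℂ, E) X) with hw
    have hpw : tangentMap 𝓘(ℂ, E) 𝓘(ℂ, E) p w = (⟨f c, s c⟩ : TangentBundle 𝓘(ℂ, E) X) :=
      h.sheets.proj hpl (v := (⟨f c, s c⟩ : TangentBundle 𝓘(ℂ, E) X)) (h.mem_V z hz) i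
    have h1 : F w = N * ufun f g c₀ F (j i) z := h.scale hπ hpl hF i hz hne
    have hwp : w.proj = j i (f c) := rfl
    have h2 := (abs_le.1 (h.osc i z hz)).2
    have h3 : Real.exp (-(ε * L)) * Real.exp (-(ε * lam (j i (f c₀)))) ≤
        Real.exp (-(ε * lam w.proj)) := by
      rw [← Real.exp_add, hwp]
      apply Real.exp_le_exp.2
      have := mul_le_mul_of_nonneg_left h2 hε.le
      linarith
    calc Real.exp (-(ε * L)) * N * (ufun f g c₀ F (j i) z * Real.exp (-(ε * lam (j i (f c₀))))) =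
          N * ufun f g c₀ F (j i) z * (Real.exp (-(ε * L)) * Real.exp (-(ε * lam (j i (f c₀))))) := by
          ring
      _ ≤ N * ufun f g c₀ F (j i) z * Real.exp (-(ε * lam w.proj)) :=
          mul_le_mul_of_nonneg_left h3 (mul_nonneg hN0.le (hunn i))
      _ = F w * Real.exp (-(ε * lam w.proj)) := by rw [h1]
      _ ≤ _ := le_ciSup hbdd2 ⟨w, hpw⟩
  · unfold Phi
    exact Real.iSup_le (fun w => hup w.1 w.2)
      (mul_nonneg (Real.exp_pos _).le (mul_nonneg hN0.le hΨnn))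

/-- **The subexponential criterion.** -/
theorem criterion [CompleteSpace E'] {S : Type} [TopologicalSpace S] [ChartedSpace E' S]
    [IsManifold 𝓘(ℂ, E') ω S] (π : X → S)
    (hπ : ContMDiff 𝓘(ℂ, E) 𝓘(ℂ, E') ω π) (hS : CotangentNef E' S)
    (H : ∀ v : TangentBundle 𝓘(ℂ, E) X, IsVertical E E' π v → v.snd ≠ 0 →
      SubexpDetected E E' π v) : CotangentNef E X := by
  intro C _ _ _ _ _ _ f hf s n hs
  rcases push_dichotomy hS hπ hf hs with h | hv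
  · exact h
  have hs' := hs
  choose g hg hg0 hgs using hs
  obtain ⟨c₁⟩ : Nonempty C := inferInstance
  obtain ⟨Y, _, _, _, p, lam, hp, hpl, hlam, H⟩ := H (⟨f c₁, g c₁ c₁⟩ : TangentBundle 𝓘(ℂ, E) X)
    (vertical_gen hπ (hv c₁) (hg c₁) (hgs c₁)).self_of_nhds (hg0 c₁)
  choose R K V ι j L hloc using fun c₀ => exists_loc hf hs' hπ hv hp hpl hlam c₀ (hg c₀) (hg0 c₀)
    (hgs c₀)
  obtain ⟨t, A, hA, hcore⟩ := core n R (fun c => (hloc c).Rpos) (fun c => (hloc c).sub)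
    (fun c => (hloc c).nz)
  have hz₁ : chartAt ℂ c₁ c₁ ∈ ball (chartAt ℂ c₁ c₁) (R c₁) := mem_ball_self (hloc c₁).Rpos
  have hc₁ : (chartAt ℂ c₁).symm (chartAt ℂ c₁ c₁) = c₁ := (chartAt ℂ c₁).left_inv (mem_chart_source ℂ c₁)
  have hgpt : gpt f (g c₁) c₁ (chartAt ℂ c₁ c₁) = (⟨f c₁, g c₁ c₁⟩ : TangentBundle 𝓘(ℂ, E) X) := by
    unfold gpt
    rw [hc₁]
  have hbound : ∀ ε : ℝ, 0 < ε → ((∑ᶠ c, n c : ℤ) : ℝ) ≤ ε * ∑ i : t, A i * L i := by
    intro ε hε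
    obtain ⟨F, hF, hG, w, hw, hFw⟩ := H ε hε
    rw [← hgpt] at hw
    have hdata : LocData n R (fun c => ε * L c) (Phi f s p F lam ε)
        (fun c => Psi f (g c) c (R c) F lam ε (j c)) := by
      refine ⟨fun c => (hloc c).Rpos, fun c => (hloc c).sub, fun c => (hloc c).nz, ?_, ?_, ?_⟩
      · intro c
        obtain ⟨A', hA'⟩ := hG (K c) (hloc c).K_compact
        exact areaSub_iSup isOpen_ball (fun i => Real.exp_pos _)
          (fun i => (hloc c).logsub hπ hpl hF i)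
          (fun i z hz => (hloc c).bound hπ hpl hF hε hA' i hz)
      · intro c z hz hne
        exact (hloc c).locData_cmp hπ hpl hF hε hG hz hne
      · refine ⟨c₁, ?_⟩
        have hmem : p w.proj ∈ V c₁ := by
          have h1 : p w.proj = f ((chartAt ℂ c₁).symm (chartAt ℂ c₁ c₁)) :=
            congrArg Bundle.TotalSpace.proj hw
          rw [h1]
          exact (hloc c₁).mem_V _ hz₁
        obtain ⟨i, hi, hi2⟩ := (hloc c₁).sheets.lift hpl hmem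
        rw [hw] at hi2
        obtain ⟨A', hA'⟩ := hG (K c₁) (hloc c₁).K_compact
        have hval : Psi f (g c₁) c₁ (R c₁) F lam ε (j c₁) (chartAt ℂ c₁ c₁) =
          ⨆ i, ufun f (g c₁) c₁ F (j c₁ i) (chartAt ℂ c₁ c₁) *
            Real.exp (-(ε * lam (j c₁ i (f c₁)))) := indicator_of_mem hz₁ _
        rw [hval]
        refine lt_of_lt_of_le ?_ (le_ciSup (f := fun i => ufun f (g c₁) c₁ F (j c₁ i)
          (chartAt ℂ c₁ c₁) * Real.exp (-(ε * lam (j c₁ i (f c₁))))) ?_ i)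
        · refine mul_pos ?_ (Real.exp_pos _)
          unfold ufun
          rw [hi2]
          exact hFw
        · refine ⟨max A' 0 * Real.exp (ε * L c₁), ?_⟩
          rintro _ ⟨i, rfl⟩
          exact (hloc c₁).bound hπ hpl hF hε hA' i hz₁
    refine (hcore _ _ _ hdata).trans (le_of_eq ?_)
    rw [Finset.mul_sum]
    refine Finset.sum_congr rfl fun i _ => ?_
    ring
  have hle : ((∑ᶠ c, n c : ℤ) : ℝ) ≤ 0 := by
    have h1 : Tendsto (fun ε : ℝ => ε * ∑ i : t, A i * L i) (𝓝[>] 0) (𝓝 (0 * ∑ i : t, A i * L i)) :=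
      (tendsto_id.mono_left nhdsWithin_le_nhds).mul_const _
    rw [zero_mul] at h1
    refine ge_of_tendsto h1 ?_
    filter_upwards [self_mem_nhdsWithin] with ε hε using hbound ε hε
  exact_mod_cast hle

end Pool.Agent.H816_Nef
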