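import Pool.Agent.H816_Nef.InfA
import Pool.Agent.H816_Nef.MainM2
import Pool.Agent.H816_Nef.J8

/-!
# Theorem N: the case of a detected generator, and preparations for the vertical case
-/

set_option autoImplicit false

open Set Filter Topology Metric MeasureTheory
open scoped ContDiff Manifold

namespace Pool.Agent.H816_Nef

section Pt
variable {E : Type} [NormedAddCommGroup E] [NormedSpace ℂ E]
variable {X : Type} [TopologicalSpace X] [ChartedSpace E X] [IsManifold 𝓘(ℂ, E) ω X]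
variable {C : Type} [TopologicalSpace C] [ChartedSpace ℂ C] [IsManifold 𝓘(ℂ, ℂ) ω C]

omit [IsManifold 𝓘(ℂ, ℂ) ω C] in
/-- holomorphic sections which agree off a point agree at the point -/
lemma gen_eq {f : C → X} {c₀ : C} {g g' : ∀ c, TangentSpace 𝓘(ℂ, E) (f c)}
    (hg : HolAlong E f g c₀) (hg' : HolAlong E f g' c₀) (h : ∀ᶠ c in 𝓝[≠] c₀, g c = g' c) :
    g c₀ = g' c₀ := by
  rw [holAlong_iff] at hg hg'
  have h1 : Tendsto (fun c => coord E (f c₀) (g c)) (𝓝[≠] c₀) (𝓝 (coord E (f c₀) (g c₀))) :=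
    hg.2.continuousAt.tendsto.mono_left nhdsWithin_le_nhds
  have h2 : Tendsto (fun c => coord E (f c₀) (g' c)) (𝓝[≠] c₀) (𝓝 (coord E (f c₀) (g' c₀))) :=
    hg'.2.continuousAt.tendsto.mono_left nhdsWithin_le_nhds
  have h3 : (fun c => coord E (f c₀) (g c)) =ᶠ[𝓝[≠] c₀] fun c => coord E (f c₀) (g' c) := by
    filter_upwards [h] with c hc
    rw [hc]
  exact coord_inj _ (mem_bset _) (tendsto_nhds_unique (h1.congr' h3) h2)

/-- the criterion, for a section whose generator at one point is detected -/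
theorem criterion_pt [T2Space C] [CompactSpace C] [ConnectedSpace C] {f : C → X}
    (hf : ContMDiff 𝓘(ℂ, ℂ) 𝓘(ℂ, E) ω f) {s : ∀ c, TangentSpace 𝓘(ℂ, E) (f c)} {n : C → ℤ}
    {g : ∀ c₀ c, TangentSpace 𝓘(ℂ, E) (f c)} (hg : ∀ c₀, HolAlong E f (g c₀) c₀)
    (hg0 : ∀ c₀, g c₀ c₀ ≠ 0)
    (hgs : ∀ c₀, ∀ᶠ c in 𝓝[≠] c₀, s c = (chartAt ℂ c₀ c - chartAt ℂ c₀ c₀) ^ (n c₀) • g c₀ c)
    (c₁ : C) (H : SubexpDetected E ℂ (fun _ : X => (0 : ℂ))
      (⟨f c₁, g c₁ c₁⟩ : TangentBundle 𝓘(ℂ, E) X)) : ∑ᶠ c, n c ≤ 0 := by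
  have hs' : ∀ c, HasOrderAt E f s c (n c) := fun c => ⟨g c, hg c, hg0 c, hgs c⟩
  have hπ : ContMDiff 𝓘(ℂ, E) 𝓘(ℂ, ℂ) ω (fun _ : X => (0 : ℂ)) := contMDiff_const
  have hv : ∀ c₀, ∀ᶠ c in 𝓝[≠] c₀,
      mfderiv 𝓘(ℂ, E) 𝓘(ℂ, ℂ) (fun _ : X => (0 : ℂ)) (f c) (s c) = 0 := by
    intro c₀
    refine Eventually.of_forall fun c => ?_
    rw [mfderiv_const]
    rfl
  obtain ⟨Y, _, _, _, p, lam, hp, hpl, hlam, H⟩ := H
  choose R K V ι j L hloc using fun c₀ => exists_loc hf hs' hπ hv hp hpl hlam c₀ (hg c₀) (hg0 c₀)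
    (hgs c₀)
  obtain ⟨t, A, hA, hcore⟩ := core n R (fun c => (hloc c).Rpos) (fun c => (hloc c).sub)
    (fun c => (hloc c).nz)
  have hz₁ : chartAt ℂ c₁ c₁ ∈ ball (chartAt ℂ c₁ c₁) (R c₁) := mem_ball_self (hloc c₁).Rpos
  have hc₁ : (chartAt ℂ c₁).symm (chartAt ℂ c₁ c₁) = c₁ :=
    (chartAt ℂ c₁).left_inv (mem_chart_source ℂ c₁)
  have hgpt : gpt f (g c₁) c₁ (chartAt ℂ c₁ c₁) = (⟨f c₁, g c₁ c₁⟩ : TangentBundle 𝓘(ℂ, E) X) := by
    unfold gpt
    rw [hc₁]
  have hbound : ∀ ε : ℝ, 0 < ε → ((∑ᶠ c, n c : ℤ) : ℝ) ≤ ε * ∑ i : t, A i * L i := by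
    intro ε hε
    obtain ⟨F, hF, hG, w, hw, hFw⟩ := H ε hε
    rw [← hgpt] at hw
    have hdata : LocData n R (fun c => ε * L c) (Phi f s p F lam ε)
        (fun c => Psi f (g c) c (R c) F lam ε (j c)) := by
      refine ⟨fun c => (hloc c).Rpos, fun c => (hloc c).sub, fun c => (hloc c).nz, ?_, ?_, ?_⟩
      · intro c
        obtain ⟨A', hA'⟩ := hG (K c) (hloc c).K_compact
        exact areaSub_iSup isOpen_ball (fun i => Real.exp_pos _)
          (fun i => (hloc c).logsub hπ hpl hF i)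
          (fun i z hz => (hloc c).bound hπ hpl hF hε hA' i hz)
      · intro c z hz hne
        exact (hloc c).locData_cmp hπ hpl hF hε hG hz hne
      · refine ⟨c₁, ?_⟩
        have hmem : p w.proj ∈ V c₁ := by
          have h1 : p w.proj = f ((chartAt ℂ c₁).symm (chartAt ℂ c₁ c₁)) :=
            congrArg Bundle.TotalSpace.proj hw
          rw [h1]
          exact (hloc c₁).mem_V _ hz₁
        obtain ⟨i, hi, hi2⟩ := (hloc c₁).sheets.lift hpl hmem
        rw [hw] at hi2
        obtain ⟨A', hA'⟩ := hG (K c₁) (hloc c₁).K_compact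
        have hval : Psi f (g c₁) c₁ (R c₁) F lam ε (j c₁) (chartAt ℂ c₁ c₁) =
          ⨆ i, ufun f (g c₁) c₁ F (j c₁ i) (chartAt ℂ c₁ c₁) *
            Real.exp (-(ε * lam (j c₁ i (f c₁)))) := indicator_of_mem hz₁ _
        rw [hval]
        refine lt_of_lt_of_le ?_ (le_ciSup (f := fun i => ufun f (g c₁) c₁ F (j c₁ i)
          (chartAt ℂ c₁ c₁) * Real.exp (-(ε * lam (j c₁ i (f c₁))))) ?_ i)
        · refine mul_pos ?_ (Real.exp_pos _)
          unfold ufun
          rw [hi2]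
          exact hFw
        · refine ⟨max A' 0 * Real.exp (ε * L c₁), ?_⟩
          rintro _ ⟨i, rfl⟩
          exact (hloc c₁).bound hπ hpl hF hε hA' i hz₁
    refine (hcore _ _ _ hdata).trans (le_of_eq ?_)
    rw [Finset.mul_sum]
    refine Finset.sum_congr rfl fun i _ => ?_
    ring
  have hle : ((∑ᶠ c, n c : ℤ) : ℝ) ≤ 0 := by
    have h1 : Tendsto (fun ε : ℝ => ε * ∑ i : t, A i * L i) (𝓝[>] 0) (𝓝 (0 * ∑ i : t, A i * L i)) :=
      (tendsto_id.mono_left nhdsWithin_le_nhds).mul_const _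
    rw [zero_mul] at h1
    refine ge_of_tendsto h1 ?_
    filter_upwards [self_mem_nhdsWithin] with ε hε using hbound ε hε
  exact_mod_cast hle

end Pt

/-- exponentials of subharmonic functions are log-subharmonic -/
lemma logSubharmonicOn_exp {u : ℂ → ℝ} {Ω : Set ℂ} (hc : ContinuousOn u Ω)
    (hu : ∀ z r, 0 < r → closedBall z r ⊆ Ω → u z ≤ Real.circleAverage u z r) :
    LogSubharmonicOn (fun z => Real.exp (u z)) Ω := by
  refine ⟨Real.continuous_exp.comp_continuousOn hc, fun z _ => (Real.exp_pos _).le, ?_⟩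
  intro z r hr hsub δ hδ
  have hlog : ∀ w, Real.log (max (Real.exp (u w)) δ) = max (u w) (Real.log δ) := by
    intro w
    rcases le_total (Real.exp (u w)) δ with h | h
    · rw [max_eq_right h, max_eq_right]
      rw [← Real.log_exp (u w)]
      exact Real.log_le_log (Real.exp_pos _) h
    · rw [max_eq_left h, Real.log_exp, max_eq_left]
      rw [← Real.log_exp (u w)]
      exact Real.log_le_log hδ h
  simp only [hlog]
  have hsph : sphere z r ⊆ Ω := sphere_subset_closedBall.trans hsub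
  have hcu : ContinuousOn u (sphere z r) := hc.mono hsph
  have hcm : ContinuousOn (fun w => max (u w) (Real.log δ)) (sphere z r) := by
    exact hcu.sup continuousOn_const
  have hi1 : CircleIntegrable u z r := ContinuousOn.circleIntegrable hr.le hcu
  have hi2 : CircleIntegrable (fun w => max (u w) (Real.log δ)) z r :=
    ContinuousOn.circleIntegrable hr.le hcm
  apply max_le
  · exact (hu z r hr hsub).trans (Real.circleAverage_mono hi1 hi2 fun w _ => le_max_left _ _)
  · have h1 : Real.circleAverage (fun _ : ℂ => Real.log δ) z r ≤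
        Real.circleAverage (fun w => max (u w) (Real.log δ)) z r :=
      Real.circleAverage_mono (ContinuousOn.circleIntegrable hr.le continuousOn_const) hi2
        fun w _ => le_max_right _ _
    rwa [Real.circleAverage_const] at h1

/-- the function `exp (u / σ)`, cut off outside a disc -/
lemma areaSub_exp {u : ℂ → ℝ} {z₀ : ℂ} {R R' : ℝ} (hR : R < R') (hc : ContinuousOn u (ball z₀ R'))
    (hu : ∀ z r, 0 < r → closedBall z r ⊆ ball z₀ R' → u z ≤ Real.circleAverage u z r) {σ : ℝ}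
    (hσ : 0 < σ) : AreaSub ((ball z₀ R).indicator fun z => Real.exp (u z / σ)) (ball z₀ R) := by
  have hbb : ball z₀ R ⊆ ball z₀ R' := ball_subset_ball hR.le
  have hcb : closedBall z₀ R ⊆ ball z₀ R' := closedBall_subset_ball hR
  have hc' : ContinuousOn (fun z => u z / σ) (ball z₀ R') := hc.div_const σ
  obtain ⟨M, hM⟩ := (isCompact_closedBall z₀ R).exists_bound_of_continuousOn (hc'.mono hcb)
  have hls : LogSubharmonicOn (fun z => Real.exp (u z / σ)) (ball z₀ R) := by
    apply logSubharmonicOn_exp (hc'.mono hbb)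
    intro z r hr hzr
    have h1 : Real.circleAverage (fun z => u z / σ) z r = Real.circleAverage u z r / σ := by
      have h2 : (fun z => u z / σ) = fun z => σ⁻¹ • u z := by
        funext z
        rw [smul_eq_mul, div_eq_inv_mul]
      rw [h2, Real.circleAverage_fun_smul, smul_eq_mul, div_eq_inv_mul]
    rw [h1]
    exact div_le_div_of_nonneg_right (hu z r hr (hzr.trans hbb)) hσ.le
  have h1 := areaSub_iSup (ι := Unit) (u := fun _ z => Real.exp (u z / σ)) (a := fun _ => 1)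
    (Ω := ball z₀ R) isOpen_ball (fun _ => one_pos) (fun _ => hls) (B := Real.exp M) (by
      intro _ z hz
      rw [mul_one]
      exact Real.exp_le_exp.2 ((le_abs_self _).trans (hM z (ball_subset_closedBall hz))))
  have h2 : ((ball z₀ R).indicator fun z => ⨆ _ : Unit, Real.exp (u z / σ) * (1 : ℝ)) =
      (ball z₀ R).indicator fun z => Real.exp (u z / σ) := by
    congr 1
    funext z
    rw [ciSup_const, mul_one]
  rwa [h2] at h1

end Pool.Agent.H816_Nef
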