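import Pool.Agent.H816_Nef.NMain

/-!
# Theorem N: local data in the vertical case
-/

set_option autoImplicit false

open Set Filter Topology Metric MeasureTheory
open scoped ContDiff Manifold

namespace Pool.Agent.H816_Nef

section General
variable {E : Type} [NormedAddCommGroup E] [NormedSpace ℂ E]
variable {X : Type} [TopologicalSpace X] [ChartedSpace E X] [IsManifold 𝓘(ℂ, E) ω X]

/-- the second component of a holomorphic map into the tangent bundle of a vector space -/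
lemma contMDiffAt_snd {F : Type} [NormedAddCommGroup F] [NormedSpace ℂ F]
    {G : ℂ → TangentBundle 𝓘(ℂ, F) F} {z : ℂ}
    (hG : ContMDiffAt 𝓘(ℂ, ℂ) 𝓘(ℂ, F).tangent ω G z) :
    ContMDiffAt 𝓘(ℂ, ℂ) 𝓘(ℂ, F) ω (fun z => (G z).proj) z ∧
      ContMDiffAt 𝓘(ℂ, ℂ) 𝓘(ℂ, F) ω (fun z => ((G z).snd : F)) z := by
  have h0 := (Bundle.contMDiffAt_totalSpace (n := ω) (F := F)
    (E := (TangentSpace 𝓘(ℂ, F) : F → Type)) (IM := 𝓘(ℂ, ℂ)) (IB := 𝓘(ℂ, F)) (f := G)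
    (x₀ := z)).1 hG
  refine ⟨h0.1, ?_⟩
  refine h0.2.congr_of_eventuallyEq (Eventually.of_forall fun w => ?_)
  simp only [TangentBundle.trivializationAt_apply]
  simp only [chartAt_self_eq, modelWithCornersSelf_coe, modelWithCornersSelf_coe_symm,
    range_id, fderivWithin_univ]
  show ((G w).snd : F) = fderiv ℂ (id : F → F) _ (G w).snd
  rw [fderiv_id]
  rfl

end General

variable {E₁ E₂ : Type} [NormedAddCommGroup E₁] [NormedSpace ℂ E₁]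
  [NormedAddCommGroup E₂] [NormedSpace ℂ E₂]
variable {X : Type} [TopologicalSpace X] [ChartedSpace (E₁ × E₂) X]
  [IsManifold 𝓘(ℂ, E₁ × E₂) ω X]
variable {D : TopologicalSpace.Opens E₁} {p : cylinder D E₂ → X} {x₀ : X}

/-- a tangent vector is detected by bounded holomorphic functions or it is vertical -/
lemma lift_dichotomy (hD : Bornology.IsBounded (D : Set E₁)) (hp : IsCoveringMap p)
    (hpl : IsLocalDiffeomorph 𝓘(ℂ, E₁ × E₂) 𝓘(ℂ, E₁ × E₂) ω p) (hps : Function.Surjective p)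
    (w : TangentBundle 𝓘(ℂ, E₁ × E₂) X) :
    SubexpDetected (E₁ × E₂) ℂ (fun _ : X => (0 : ℂ)) w ∨
      ∃ (y : E₁ × E₂) (ς : E₂), VL p x₀ w y ς := by
  obtain ⟨y₀, hy₀⟩ := hps w.proj
  obtain ⟨V, hxV, ι, j, hj⟩ := exists_sheets hp hpl w.proj
  obtain ⟨i, -⟩ := hj.surj y₀ (by rw [hy₀]; exact hxV)
  set J : X → E₁ × E₂ := fun x => ((j i x : cylinder D E₂) : E₁ × E₂) with hJ
  have hji : ContMDiffAt 𝓘(ℂ, E₁ × E₂) 𝓘(ℂ, E₁ × E₂) ω (j i) w.proj := hj.hol i _ hxV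
  have hJc : ContMDiffAt 𝓘(ℂ, E₁ × E₂) 𝓘(ℂ, E₁ × E₂) ω J w.proj :=
    contMDiff_subtype_val.contMDiffAt.comp _ hji
  set v : E₁ × E₂ := mfderiv 𝓘(ℂ, E₁ × E₂) 𝓘(ℂ, E₁ × E₂) J w.proj w.snd with hv
  by_cases h1 : v.1 = 0
  · right
    refine ⟨J w.proj, v.2, (j i w.proj).2, ?_⟩
    have h2 := tangentMap_comp_at (I := 𝓘(ℂ, E₁ × E₂)) (I' := 𝓘(ℂ, E₁ × E₂))
      (I'' := 𝓘(ℂ, E₁ × E₂)) (f := J) (g := pe p x₀) w
      ((pe_contMDiffAt hpl (j i w.proj).2).mdifferentiableAt (by simp))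
      (hJc.mdifferentiableAt (by simp))
    have h3 : tangentMap 𝓘(ℂ, E₁ × E₂) 𝓘(ℂ, E₁ × E₂) (pe p x₀ ∘ J) w = w := by
      apply tangentMap_of_eventually_id
      filter_upwards [hj.isOpen.mem_nhds hxV] with x hx
      show pe p x₀ (J x) = x
      rw [hJ]
      simp only
      rw [pe_coe]
      exact hj.inv i x hx
    rw [h3] at h2
    have h4 : tangentMap 𝓘(ℂ, E₁ × E₂) 𝓘(ℂ, E₁ × E₂) J w =
        (⟨J w.proj, ((0, v.2) : E₁ × E₂)⟩ : TangentBundle 𝓘(ℂ, E₁ × E₂) (E₁ × E₂)) := by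
      refine tb_ext rfl ?_
      show v = (0, v.2)
      exact Prod.ext h1 rfl
    rw [h4] at h2
    exact h2.symm
  · left
    obtain ⟨ℓ, -, hℓ⟩ := exists_dual_vector ℂ v.1 (norm_ne_zero_iff.2 h1)
    set L : E₁ × E₂ →L[ℂ] ℂ := ℓ.comp (ContinuousLinearMap.fst ℂ E₁ E₂) with hL
    set h : cylinder D E₂ → ℂ := fun y => L (y : E₁ × E₂) with hh
    have hhc : ContMDiff 𝓘(ℂ, E₁ × E₂) 𝓘(ℂ, ℂ) ω h :=
      L.contMDiff.comp contMDiff_subtype_val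
    obtain ⟨M, hM⟩ := hD.exists_norm_le
    have hbd : ∀ y, ‖h y‖ ≤ ‖ℓ‖ * M := by
      intro y
      calc ‖h y‖ = ‖ℓ (y : E₁ × E₂).1‖ := rfl
        _ ≤ ‖ℓ‖ * ‖(y : E₁ × E₂).1‖ := ℓ.le_opNorm _
        _ ≤ ‖ℓ‖ * M := mul_le_mul_of_nonneg_left (hM _ y.2.1) (norm_nonneg _)
    have hne : mfderiv 𝓘(ℂ, E₁ × E₂) 𝓘(ℂ, ℂ) h
        (tangentMap 𝓘(ℂ, E₁ × E₂) 𝓘(ℂ, E₁ × E₂) (j i) w).proj
        (tangentMap 𝓘(ℂ, E₁ × E₂) 𝓘(ℂ, E₁ × E₂) (j i) w).snd ≠ 0 := by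
      have e1 : mfderiv 𝓘(ℂ, E₁ × E₂) 𝓘(ℂ, ℂ) (h ∘ j i) w.proj w.snd =
          mfderiv 𝓘(ℂ, E₁ × E₂) 𝓘(ℂ, ℂ) h (j i w.proj)
            (mfderiv 𝓘(ℂ, E₁ × E₂) 𝓘(ℂ, E₁ × E₂) (j i) w.proj w.snd) := by
        rw [mfderiv_comp w.proj (hhc.contMDiffAt.mdifferentiableAt (by simp))
          (hji.mdifferentiableAt (by simp))]
        rfl
      have e2 : mfderiv 𝓘(ℂ, E₁ × E₂) 𝓘(ℂ, ℂ) (L ∘ J) w.proj w.snd = L v := by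
        rw [mfderiv_comp w.proj (L.contMDiff.contMDiffAt.mdifferentiableAt
          (show (ω : WithTop ℕ∞) ≠ 0 by simp)) (hJc.mdifferentiableAt (by simp)),
          L.mfderiv_eq]
        rfl
      have e3 : (h ∘ j i) = (L ∘ J) := rfl
      rw [e3, e2] at e1
      show mfderiv 𝓘(ℂ, E₁ × E₂) 𝓘(ℂ, ℂ) h (j i w.proj)
            (mfderiv 𝓘(ℂ, E₁ × E₂) 𝓘(ℂ, E₁ × E₂) (j i) w.proj w.snd) ≠ 0
      rw [← e1]
      show ℓ v.1 ≠ 0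
      rw [hℓ]
      simpa using h1
    have h5 := detected_of_bounded hp hpl hhc hbd hne
    have h6 : tangentMap 𝓘(ℂ, E₁ × E₂) 𝓘(ℂ, E₁ × E₂) p
        (tangentMap 𝓘(ℂ, E₁ × E₂) 𝓘(ℂ, E₁ × E₂) (j i) w) = w := hj.proj hpl hxV i
    rwa [h6] at h5

variable {C : Type} [TopologicalSpace C] [ChartedSpace ℂ C] [IsManifold 𝓘(ℂ, ℂ) ω C]

/-- the local situation near `c₀` in the vertical case -/
structure LocK [CompleteSpace E₁] [CompleteSpace E₂] (κ : PNB.ClosedForm (E₁ × E₂) X)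
    (hκ : κ.IsKahler) (hpl : IsLocalDiffeomorph 𝓘(ℂ, E₁ × E₂) 𝓘(ℂ, E₁ × E₂) ω p) (x₀ : X)
    (f : C → X) (s : ∀ c, TangentSpace 𝓘(ℂ, E₁ × E₂) (f c)) (n : C → ℤ) (c₀ : C) (R : ℝ)
    (g : ∀ c, TangentSpace 𝓘(ℂ, E₁ × E₂) (f c)) (y v : ℂ → E₁ × E₂) (j₀ : κ.J) (M : ℝ) :
    Prop where
  Rpos : 0 < R
  sub : ball (chartAt ℂ c₀ c₀) (2 * R) ⊆ (chartAt ℂ c₀).target
  nz : ∀ z ∈ ball (chartAt ℂ c₀ c₀) (2 * R), z ≠ chartAt ℂ c₀ c₀ → n ((chartAt ℂ c₀).symm z) = 0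
  fam : LineFam ((cylinder D E₂ : TopologicalSpace.Opens (E₁ × E₂)) : Set (E₁ × E₂))
    (ball (chartAt ℂ c₀ c₀) (2 * R)) y v
  vert : ∀ z ∈ ball (chartAt ℂ c₀ c₀) (2 * R), v z = (0, (v z).2)
  ne : ∀ z ∈ ball (chartAt ℂ c₀ c₀) (2 * R), (v z).2 ≠ 0
  lift : ∀ z ∈ ball (chartAt ℂ c₀ c₀) (2 * R), VL p x₀ (gpt f g c₀ z) (y z) (v z).2
  eq : ∀ z ∈ ball (chartAt ℂ c₀ c₀) (2 * R), z ≠ chartAt ℂ c₀ c₀ → s ((chartAt ℂ c₀).symm z) =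
    (z - chartAt ℂ c₀ c₀) ^ (n c₀) • g ((chartAt ℂ c₀).symm z)
  pot : ∀ z ∈ ball (chartAt ℂ c₀ c₀) (2 * R), y z ∈ (potSys κ hκ p hpl x₀).O j₀
  bd : ∀ z ∈ ball (chartAt ℂ c₀ c₀) R, |(potSys κ hκ p hpl x₀).φ j₀ (y z)| ≤ M

/-- scaling of vertical lifts -/
lemma VL.smul (hpl : IsLocalDiffeomorph 𝓘(ℂ, E₁ × E₂) 𝓘(ℂ, E₁ × E₂) ω p)
    {w : TangentBundle 𝓘(ℂ, E₁ × E₂) X} {y : E₁ × E₂} {ς : E₂} (h : VL p x₀ w y ς) (a : ℂ) :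
    VL p x₀ (⟨w.proj, a • w.snd⟩ : TangentBundle 𝓘(ℂ, E₁ × E₂) X) y (a • ς) := by
  obtain ⟨hy, rfl⟩ := h
  refine ⟨hy, ?_⟩
  refine tb_ext rfl ?_
  show mfderiv 𝓘(ℂ, E₁ × E₂) 𝓘(ℂ, E₁ × E₂) (pe p x₀) y ((0, a • ς) : E₁ × E₂) =
    a • mfderiv 𝓘(ℂ, E₁ × E₂) 𝓘(ℂ, E₁ × E₂) (pe p x₀) y ((0, ς) : E₁ × E₂)
  have h1 : ((0, a • ς) : E₁ × E₂) = a • ((0, ς) : E₁ × E₂) := by
    rw [Prod.smul_mk, smul_zero]
  rw [h1]
  exact (mfderiv 𝓘(ℂ, E₁ × E₂) 𝓘(ℂ, E₁ × E₂) (pe p x₀) y).map_smul a _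

lemma exists_locK [CompleteSpace E₁] [CompleteSpace E₂] [T2Space C]
    (κ : PNB.ClosedForm (E₁ × E₂) X)
    (hκ : κ.IsKahler) (hpl : IsLocalDiffeomorph 𝓘(ℂ, E₁ × E₂) 𝓘(ℂ, E₁ × E₂) ω p)
    (haff : FibrewiseAffine p)
    {f : C → X} (hf : ContMDiff 𝓘(ℂ, ℂ) 𝓘(ℂ, E₁ × E₂) ω f)
    {s : ∀ c, TangentSpace 𝓘(ℂ, E₁ × E₂) (f c)} {n : C → ℤ}
    {g : ∀ c₀ c, TangentSpace 𝓘(ℂ, E₁ × E₂) (f c)} (hg : ∀ c₀, HolAlong (E₁ × E₂) f (g c₀) c₀)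
    (hg0 : ∀ c₀, g c₀ c₀ ≠ 0)
    (hgs : ∀ c₀, ∀ᶠ c in 𝓝[≠] c₀, s c = (chartAt ℂ c₀ c - chartAt ℂ c₀ c₀) ^ (n c₀) • g c₀ c)
    (hvert : ∀ c, ∃ (y : E₁ × E₂) (ς : E₂),
      VL p x₀ (⟨f c, g c c⟩ : TangentBundle 𝓘(ℂ, E₁ × E₂) X) y ς) (c₀ : C) :
    ∃ (R : ℝ) (y v : ℂ → E₁ × E₂) (j₀ : κ.J) (M : ℝ),
      LocK κ hκ hpl x₀ f s n c₀ R (g c₀) y v j₀ M := by
  have hs' : ∀ c, HasOrderAt (E₁ × E₂) f s c (n c) := fun c => ⟨g c, hg c, hg0 c, hgs c⟩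
  have hfc : Continuous f := hf.continuous
  set z₀ := chartAt ℂ c₀ c₀ with hz₀
  have hsymm0 : (chartAt ℂ c₀).symm z₀ = c₀ := (chartAt ℂ c₀).left_inv (mem_chart_source ℂ c₀)
  obtain ⟨y₀, ς₀, hy₀U, hy₀⟩ := hvert c₀
  have hy₀p : pe p x₀ y₀ = f c₀ := congrArg Bundle.TotalSpace.proj hy₀
  obtain ⟨J, hJ1, hJ2, hJ3, hJ4⟩ := pe_section (x₀ := x₀) hpl hy₀U
  rw [hy₀p] at hJ1 hJ2 hJ3
  -- near `c₀`
  have hJ1' : ∀ᶠ x in 𝓝 (f c₀), ContMDiffAt 𝓘(ℂ, E₁ × E₂) 𝓘(ℂ, E₁ × E₂) ω J x :=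
    (contMDiffAt_iff_contMDiffAt_nhds (by simp)).1 hJ1
  have hJ3' : ∀ᶠ x in 𝓝 (f c₀), ∀ᶠ x' in 𝓝 x, J x' ∈ cylinder D E₂ ∧ pe p x₀ (J x') = x' :=
    hJ3.eventually_nhds
  obtain ⟨j₀, hj₀⟩ := κ.cover (f c₀)
  have hn0 : ∀ᶠ c in 𝓝 c₀, c ≠ c₀ → n c = 0 := by
    have h1 := eventually_nhdsWithin_iff.1 (hs' c₀).eventually_zero
    filter_upwards [h1] with c hc hne
    exact ((hc hne).unique (hs' c)).symm
  have hgs' : ∀ᶠ c in 𝓝 c₀, ∀ᶠ c' in 𝓝 c, c' ≠ c₀ →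
      s c' = (chartAt ℂ c₀ c' - chartAt ℂ c₀ c₀) ^ (n c₀) • g c₀ c' :=
    (eventually_nhdsWithin_iff.1 (hgs c₀)).eventually_nhds
  set y : ℂ → E₁ × E₂ := fun z => J (f ((chartAt ℂ c₀).symm z)) with hy
  set v : ℂ → E₁ × E₂ := fun z => mfderiv 𝓘(ℂ, E₁ × E₂) 𝓘(ℂ, E₁ × E₂) J
    (f ((chartAt ℂ c₀).symm z)) (g c₀ ((chartAt ℂ c₀).symm z)) with hv
  have hall : ∀ᶠ c in 𝓝 c₀, HolAlong (E₁ × E₂) f (g c₀) c ∧ (c ≠ c₀ → n c = 0) ∧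
      (∀ᶠ c' in 𝓝 c, c' ≠ c₀ → s c' = (chartAt ℂ c₀ c' - chartAt ℂ c₀ c₀) ^ (n c₀) • g c₀ c') ∧
      ContMDiffAt 𝓘(ℂ, E₁ × E₂) 𝓘(ℂ, E₁ × E₂) ω J (f c) ∧
      (∀ᶠ x' in 𝓝 (f c), J x' ∈ cylinder D E₂ ∧ pe p x₀ (J x') = x') ∧ f c ∈ κ.V j₀ ∧
      c ∈ (chartAt ℂ c₀).source := by
    filter_upwards [(hg c₀).eventually_nhds, hn0, hgs', hfc.continuousAt.eventually hJ1',
      hfc.continuousAt.eventually hJ3', hfc.continuousAt.eventually ((κ.isOpen_V j₀).mem_nhds hj₀),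
      (chartAt ℂ c₀).open_source.mem_nhds (mem_chart_source ℂ c₀)] with c a1 a2 a3 a4 a5 a6 a7
    exact ⟨a1, a2, a3, a4, a5, a6, a7⟩
  have htsymm : Tendsto (chartAt ℂ c₀).symm (𝓝 z₀) (𝓝 c₀) := by
    have := ((chartAt ℂ c₀).continuousAt_symm (mem_chart_target ℂ c₀)).tendsto
    rwa [hsymm0] at this
  have hall2 : ∀ᶠ z in 𝓝 z₀, z ∈ (chartAt ℂ c₀).target ∧
      (let c := (chartAt ℂ c₀).symm z; HolAlong (E₁ × E₂) f (g c₀) c ∧ (c ≠ c₀ → n c = 0) ∧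
      (∀ᶠ c' in 𝓝 c, c' ≠ c₀ → s c' = (chartAt ℂ c₀ c' - chartAt ℂ c₀ c₀) ^ (n c₀) • g c₀ c') ∧
      ContMDiffAt 𝓘(ℂ, E₁ × E₂) 𝓘(ℂ, E₁ × E₂) ω J (f c) ∧
      (∀ᶠ x' in 𝓝 (f c), J x' ∈ cylinder D E₂ ∧ pe p x₀ (J x') = x') ∧ f c ∈ κ.V j₀ ∧
      c ∈ (chartAt ℂ c₀).source) := by
    filter_upwards [htsymm.eventually hall, (chartAt ℂ c₀).open_target.mem_nhds
      (mem_chart_target ℂ c₀)] with z a1 a2
    exact ⟨a2, a1⟩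
  -- holomorphy of the lift
  have hhol : ∀ᶠ z in 𝓝 z₀, ContMDiffAt 𝓘(ℂ, ℂ) 𝓘(ℂ, E₁ × E₂) ω y z ∧
      ContMDiffAt 𝓘(ℂ, ℂ) 𝓘(ℂ, E₁ × E₂) ω v z := by
    -- `J` is holomorphic on an open neighbourhood
    obtain ⟨O, hO, hOo, hOf⟩ := eventually_nhds_iff.1 hJ1'
    have hfO : ∀ᶠ z in 𝓝 z₀, f ((chartAt ℂ c₀).symm z) ∈ O := by
      have h1 : Tendsto (fun z => f ((chartAt ℂ c₀).symm z)) (𝓝 z₀) (𝓝 (f c₀)) :=
        hfc.continuousAt.tendsto.comp htsymm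
      exact h1.eventually (hOo.mem_nhds hOf)
    have hfO' := hfO.eventually_nhds
    filter_upwards [hall2, hfO'] with z hz hzO
    have hVz : f ((chartAt ℂ c₀).symm z) ∈ O := hzO.self_of_nhds
    have h1 : ContMDiffAt 𝓘(ℂ, ℂ) 𝓘(ℂ, E₁ × E₂).tangent ω (gpt f (g c₀) c₀) z :=
      ContMDiffAt.comp z hz.2.1 (symm_hol c₀ hz.1)
    have h2 : ContMDiffOn 𝓘(ℂ, E₁ × E₂) 𝓘(ℂ, E₁ × E₂) ω J O := fun x hx =>
      (hO x hx).contMDiffWithinAt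
    have h3 := h2.contMDiffOn_tangentMapWithin (m := ω) le_top hOo.uniqueMDiffOn
    have h4 : ContMDiffAt 𝓘(ℂ, E₁ × E₂).tangent 𝓘(ℂ, E₁ × E₂).tangent ω
        (tangentMapWithin 𝓘(ℂ, E₁ × E₂) 𝓘(ℂ, E₁ × E₂) J O) (gpt f (g c₀) c₀ z) := by
      apply h3.contMDiffAt
      exact (hOo.preimage (FiberBundle.continuous_proj (E₁ × E₂)
        (TangentSpace 𝓘(ℂ, E₁ × E₂)))).mem_nhds hVz
    have h5 : ContMDiffAt 𝓘(ℂ, ℂ) 𝓘(ℂ, E₁ × E₂).tangent ω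
        (fun z => tangentMapWithin 𝓘(ℂ, E₁ × E₂) 𝓘(ℂ, E₁ × E₂) J O (gpt f (g c₀) c₀ z)) z :=
      ContMDiffAt.comp z h4 h1
    have h6 : ContMDiffAt 𝓘(ℂ, ℂ) 𝓘(ℂ, E₁ × E₂).tangent ω
        (fun z => tangentMap 𝓘(ℂ, E₁ × E₂) 𝓘(ℂ, E₁ × E₂) J (gpt f (g c₀) c₀ z)) z := by
      refine h5.congr_of_eventuallyEq ?_
      filter_upwards [hzO] with w hw
      symm
      exact tangentMapWithin_eq_tangentMap (hOo.uniqueMDiffOn _ hw)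
        ((hO _ hw).mdifferentiableAt (by simp))
    exact contMDiffAt_snd h6
  -- vertical lifts of all values of the generator
  have hvl : ∀ z, (z ∈ (chartAt ℂ c₀).target ∧
      (let c := (chartAt ℂ c₀).symm z; HolAlong (E₁ × E₂) f (g c₀) c ∧ (c ≠ c₀ → n c = 0) ∧
      (∀ᶠ c' in 𝓝 c, c' ≠ c₀ → s c' = (chartAt ℂ c₀ c' - chartAt ℂ c₀ c₀) ^ (n c₀) • g c₀ c') ∧
      ContMDiffAt 𝓘(ℂ, E₁ × E₂) 𝓘(ℂ, E₁ × E₂) ω J (f c) ∧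
      (∀ᶠ x' in 𝓝 (f c), J x' ∈ cylinder D E₂ ∧ pe p x₀ (J x') = x') ∧ f c ∈ κ.V j₀ ∧
      c ∈ (chartAt ℂ c₀).source)) → ∃ (y : E₁ × E₂) (ς : E₂),
        VL p x₀ (gpt f (g c₀) c₀ z) y ς := by
    intro z hz
    set c := (chartAt ℂ c₀).symm z with hc
    obtain ⟨hzt, b1, b2, b3, b4, b5, b6, b7⟩ := hz
    by_cases hcc : c = c₀
    · have h1 : gpt f (g c₀) c₀ z = (⟨f c₀, g c₀ c₀⟩ : TangentBundle 𝓘(ℂ, E₁ × E₂) X) := by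
        unfold gpt
        rw [← hc, hcc]
      rw [h1]
      exact hvert c₀
    · obtain ⟨y', ς', h'⟩ := hvert c
      have hne : chartAt ℂ c₀ c - chartAt ℂ c₀ c₀ ≠ 0 := by
        rw [sub_ne_zero]
        intro he
        exact hcc ((chartAt ℂ c₀).injOn b7 (mem_chart_source ℂ c₀) he)
      -- the two generators are proportional
      set g' : ∀ c, TangentSpace 𝓘(ℂ, E₁ × E₂) (f c) := fun c' =>
        (chartAt ℂ c₀ c' - chartAt ℂ c₀ c₀) ^ (n c₀) • g c₀ c' with hg'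
      have hg'hol : HolAlong (E₁ × E₂) f g' c := by
        have b1' := b1
        rw [holAlong_iff] at b1 ⊢
        refine ⟨b1.1, ?_⟩
        have h8 : ContMDiffAt 𝓘(ℂ, ℂ) 𝓘(ℂ, ℂ) ω
            (fun c' => (chartAt ℂ c₀ c' - chartAt ℂ c₀ c₀) ^ (n c₀)) c := by
          have h9 : AnalyticAt ℂ (fun z : ℂ => (z - chartAt ℂ c₀ c₀) ^ (n c₀)) (chartAt ℂ c₀ c) :=
            AnalyticAt.fun_zpow (analyticAt_id.sub analyticAt_const) hne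
          exact (h9.contDiffAt.contMDiffAt).comp c (chart_hol c₀ b7)
        have h9 : ∀ᶠ c' in 𝓝 c, f c' ∈ bset (E₁ × E₂) (f c) :=
          b1.1.continuousAt.eventually ((isOpen_bset (E := E₁ × E₂) (f c)).mem_nhds (mem_bset _))
        refine (h8.smul b1.2).congr_of_eventuallyEq ?_
        filter_upwards [h9] with c' h10
        exact coord_smul _ h10 _ _
      have heq : g c c = g' c := by
        apply gen_eq (hg c) hg'hol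
        have e1 := hgs c
        rw [b2 hcc] at e1
        have e2 : ∀ᶠ c' in 𝓝[≠] c, c' ≠ c₀ := nhdsWithin_le_nhds (isOpen_ne.mem_nhds hcc)
        filter_upwards [e1, nhdsWithin_le_nhds b3, e2] with c' a1 a2 a3
        rw [zpow_zero, one_smul] at a1
        rw [← a1, a2 a3]
      set a := (chartAt ℂ c₀ c - chartAt ℂ c₀ c₀) ^ (n c₀) with ha
      have ha0 : a ≠ 0 := zpow_ne_zero _ hne
      refine ⟨y', a⁻¹ • ς', ?_⟩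
      have h2 := h'.smul hpl a⁻¹
      have h3 : (⟨f c, a⁻¹ • g c c⟩ : TangentBundle 𝓘(ℂ, E₁ × E₂) X) = gpt f (g c₀) c₀ z := by
        unfold gpt
        refine tb_ext rfl ?_
        show a⁻¹ • (g c c : E₁ × E₂) = g c₀ c
        rw [heq]
        show a⁻¹ • (a • (g c₀ c : E₁ × E₂)) = g c₀ c
        rw [smul_smul, inv_mul_cancel₀ ha0, one_smul]
      rw [← h3]
      exact h2
  -- lifts
  have hproj : ∀ᶠ z in 𝓝 z₀, y z ∈ cylinder D E₂ ∧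
      tangentMap 𝓘(ℂ, E₁ × E₂) 𝓘(ℂ, E₁ × E₂) (pe p x₀)
        (⟨y z, v z⟩ : TangentBundle 𝓘(ℂ, E₁ × E₂) (E₁ × E₂)) = gpt f (g c₀) c₀ z := by
    filter_upwards [hall2] with z hz
    obtain ⟨hzt, b1, b2, b3, b4, b5, b6, b7⟩ := hz
    refine ⟨b5.self_of_nhds.1, ?_⟩
    have h2 := tangentMap_comp_at (I := 𝓘(ℂ, E₁ × E₂)) (I' := 𝓘(ℂ, E₁ × E₂))
      (I'' := 𝓘(ℂ, E₁ × E₂)) (f := J) (g := pe p x₀) (gpt f (g c₀) c₀ z)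
      ((pe_contMDiffAt hpl b5.self_of_nhds.1).mdifferentiableAt (by simp))
      (b4.mdifferentiableAt (by simp))
    have h3 : tangentMap 𝓘(ℂ, E₁ × E₂) 𝓘(ℂ, E₁ × E₂) (pe p x₀ ∘ J) (gpt f (g c₀) c₀ z) =
        gpt f (g c₀) c₀ z := by
      apply tangentMap_of_eventually_id
      filter_upwards [b5] with x hx using hx.2
    rw [h3] at h2
    exact h2.symm
  have hvz : ∀ᶠ z in 𝓝 z₀, v z = (0, (v z).2) := by
    filter_upwards [hproj, hall2] with z hz hz2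
    obtain ⟨y', ς', h'⟩ := hvl z hz2
    obtain ⟨A, hA, -⟩ := h'.affine hpl haff hz.1 hz.2
    rw [hA]
  have hv0 : v z₀ ≠ 0 := by
    intro h0
    have h1 := hproj.self_of_nhds.2
    rw [h0] at h1
    have h2 : tangentMap 𝓘(ℂ, E₁ × E₂) 𝓘(ℂ, E₁ × E₂) (pe p x₀)
        (⟨y z₀, 0⟩ : TangentBundle 𝓘(ℂ, E₁ × E₂) (E₁ × E₂)) =
        (⟨pe p x₀ (y z₀), 0⟩ : TangentBundle 𝓘(ℂ, E₁ × E₂) X) := by
      refine tb_ext rfl ?_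
      exact (mfderiv 𝓘(ℂ, E₁ × E₂) 𝓘(ℂ, E₁ × E₂) (pe p x₀) (y z₀)).map_zero
    replace h1 := h2.symm.trans h1
    have h3 : ((g c₀ ((chartAt ℂ c₀).symm z₀) : TangentSpace 𝓘(ℂ, E₁ × E₂)
        (f ((chartAt ℂ c₀).symm z₀))) : E₁ × E₂) = 0 := by
      have h4 := congrArg (fun w : TangentBundle 𝓘(ℂ, E₁ × E₂) X => (w.snd : E₁ × E₂)) h1
      exact h4.symm
    apply hg0 c₀
    have h5 : ∀ c, c = c₀ → ((g c₀ c : TangentSpace 𝓘(ℂ, E₁ × E₂) (f c)) : E₁ × E₂) = 0 →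
        g c₀ c₀ = 0 := by
      rintro c rfl h6
      exact h6
    exact h5 _ hsymm0 h3
  have hvne : ∀ᶠ z in 𝓝 z₀, v z ≠ 0 :=
    (hhol.self_of_nhds.2.continuousAt).eventually_ne hv0
  obtain ⟨r, hr, hrb⟩ := Metric.eventually_nhds_iff_ball.1
    (hall2.and (hhol.and (hproj.and (hvz.and hvne))))
  have hr2 : 2 * (r / 2) = r := by ring
  have hne : ∀ z ∈ ball z₀ r, z ≠ z₀ → (chartAt ℂ c₀).symm z ≠ c₀ := by
    intro z hz hzne he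
    apply hzne
    have h1 := congrArg (chartAt ℂ c₀) he
    rwa [(chartAt ℂ c₀).right_inv (hrb z hz).1.1] at h1
  have hyd : DifferentiableOn ℂ y (ball z₀ r) := fun z hz =>
    ((hrb z hz).2.1.1.contDiffAt.differentiableAt (by simp)).differentiableWithinAt
  have hvd : DifferentiableOn ℂ v (ball z₀ r) := fun z hz =>
    ((hrb z hz).2.1.2.contDiffAt.differentiableAt (by simp)).differentiableWithinAt
  have hpot : ∀ z ∈ ball z₀ r, y z ∈ (potSys κ hκ p hpl x₀).O j₀ := by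
    intro z hz
    refine ⟨(hrb z hz).2.2.1.1, ?_⟩
    have h1 := congrArg Bundle.TotalSpace.proj (hrb z hz).2.2.1.2
    have h2 : pe p x₀ (y z) = f ((chartAt ℂ c₀).symm z) := h1
    rw [h2]
    exact (hrb z hz).1.2.2.2.2.2.2.1
  have hcb : closedBall z₀ (r / 2) ⊆ ball z₀ r := closedBall_subset_ball (by linarith)
  obtain ⟨M, hM⟩ := (isCompact_closedBall z₀ (r / 2)).exists_bound_of_continuousOn
    (f := fun z => (potSys κ hκ p hpl x₀).φ j₀ (y z))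
    ((((potSys κ hκ p hpl x₀).smooth j₀).continuousOn.comp hyd.continuousOn hpot).mono hcb)
  refine ⟨r / 2, y, v, j₀, M, by positivity, ?_, ?_, ?_, ?_, ?_, ?_, ?_, ?_, ?_⟩
  · rw [hr2]
    exact fun z hz => (hrb z hz).1.1
  · rw [hr2]
    exact fun z hz hzne => (hrb z hz).1.2.2.1 (hne z hz hzne)
  · rw [hr2]
    refine ⟨isOpen_ball, hyd, hvd, fun z hz t => ?_⟩
    have h1 := (hrb z hz).2.2.2.1
    rw [h1]
    exact mem_cyl_line (hrb z hz).2.2.1.1 _ t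
  · rw [hr2]
    exact fun z hz => (hrb z hz).2.2.2.1
  · rw [hr2]
    intro z hz h0
    apply (hrb z hz).2.2.2.2
    rw [(hrb z hz).2.2.2.1, h0]
    rfl
  · rw [hr2]
    intro z hz
    refine ⟨(hrb z hz).2.2.1.1, ?_⟩
    rw [← (hrb z hz).2.2.2.1]
    exact (hrb z hz).2.2.1.2
  · rw [hr2]
    intro z hz hzne
    have h1 := (hrb z hz).1.2.2.2.1.self_of_nhds (hne z hz hzne)
    rwa [(chartAt ℂ c₀).right_inv (hrb z hz).1.1] at h1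
  · rw [hr2]
    exact hpot
  · intro z hz
    exact hM z (ball_subset_closedBall hz)

end Pool.Agent.H816_Nef
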