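import Pool.Agent.H816_Nef.NMain2

/-!
# Theorem N: the main theorem
-/

set_option autoImplicit false

open Set Filter Topology Metric MeasureTheory
open scoped ContDiff Manifold

namespace Pool.Agent.H816_Nef

/-- the function which defines `Kf` is bounded below -/
lemma bddBelow_of_infArea {E : Type} [NormedAddCommGroup E] [NormedSpace ℂ E] [CompleteSpace E]
    {U : Set E} {P : PotSys E U} (hU : IsOpen U) {y ς : E} (hmem : ∀ t : ℂ, y + t • ς ∈ U)
    (hinf : InfArea P y ς) {σ : ℝ} (hσ : 0 < σ) :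
    BddBelow (range fun T => chf (mr P y ς) T - σ * T) := by
  obtain ⟨T₁, hT₁, hlt⟩ := hinf σ
  have hconv : ConvexOn ℝ univ (chf (mr P y ς)) :=
    convexOn_chf (cont_mr hU hmem).continuousOn (fun t _ => mr_nonneg _ _ _)
  have hnn : ∀ T, 0 ≤ chf (mr P y ς) T := fun T => chf_nonneg (fun t _ => mr_nonneg _ _ _) T
  refine ⟨-(σ * T₁), ?_⟩
  rintro _ ⟨T, rfl⟩
  show -(σ * T₁) ≤ chf (mr P y ς) T - σ * T
  have h0 := hnn T
  rcases le_or_gt T T₁ with h | h
  · have := mul_le_mul_of_nonneg_left h hσ.le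
    linarith
  · have h2 : ConvexOn ℝ univ (fun T : ℝ => -(σ * T)) := by
      refine ⟨convex_univ, fun a _ b _ s t _ _ _ => le_of_eq ?_⟩
      simp only [smul_eq_mul]; ring
    have h3 := hconv.add h2
    have h7 := h3.le_max_of_mem_Icc (mem_univ 0) (mem_univ T) (z := T₁) ⟨hT₁.le, h.le⟩
    simp only [Pi.add_apply, mul_zero, neg_zero, add_zero] at h7
    have h8 := hnn 0
    have h9 : 0 ≤ σ * T₁ := by positivity
    rcases le_max_iff.1 h7 with h4 | h4
    · linarith
    · linarith

variable {E₁ E₂ : Type} [NormedAddCommGroup E₁] [NormedSpace ℂ E₁] [FiniteDimensional ℂ E₁]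
  [NormedAddCommGroup E₂] [NormedSpace ℂ E₂] [FiniteDimensional ℂ E₂]
variable {X : Type} [TopologicalSpace X] [ChartedSpace (E₁ × E₂) X]
  [IsManifold 𝓘(ℂ, E₁ × E₂) ω X] [CompactSpace X]
variable {D : TopologicalSpace.Opens E₁} {p : cylinder D E₂ → X}

/-- **Theorem N.** -/
theorem mainN (κ : PNB.ClosedForm (E₁ × E₂) X) (hκ : κ.IsKahler)
    (hD : Bornology.IsBounded (D : Set E₁)) (hp : IsCoveringMap p)
    (hpl : IsLocalDiffeomorph 𝓘(ℂ, E₁ × E₂) 𝓘(ℂ, E₁ × E₂) ω p) (hps : Function.Surjective p)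
    (haff : FibrewiseAffine p) : CotangentNef (E₁ × E₂) X := by
  intro C _ _ _ _ _ _ f hf s n hs
  have : CompleteSpace E₁ := FiniteDimensional.complete ℂ E₁
  have : CompleteSpace E₂ := FiniteDimensional.complete ℂ E₂
  choose g hg hg0 hgs using hs
  by_cases hdet : ∃ c₁, SubexpDetected (E₁ × E₂) ℂ (fun _ : X => (0 : ℂ))
      (⟨f c₁, g c₁ c₁⟩ : TangentBundle 𝓘(ℂ, E₁ × E₂) X)
  · obtain ⟨c₁, h⟩ := hdet
    exact criterion_pt hf hg hg0 hgs c₁ h
  push Not at hdet
  obtain ⟨c₁⟩ : Nonempty C := inferInstance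
  set x₀ : X := f c₁ with hx₀
  have hvert : ∀ c, ∃ (y : E₁ × E₂) (ς : E₂),
      VL p x₀ (⟨f c, g c c⟩ : TangentBundle 𝓘(ℂ, E₁ × E₂) X) y ς := fun c =>
    (lift_dichotomy (x₀ := x₀) hD hp hpl hps _).resolve_left (hdet c)
  choose R y v j₀ M hloc using fun c₀ => exists_locK κ hκ hpl haff hf hg hg0 hgs hvert c₀
  have hballR : ∀ c, ball (chartAt ℂ c c) (R c) ⊆ ball (chartAt ℂ c c) (2 * R c) := fun c =>
    ball_subset_ball (by linarith [(hloc c).Rpos])
  obtain ⟨t, A, hA, hcore⟩ := core n R (fun c => (hloc c).Rpos)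
    (fun c => (hballR c).trans (hloc c).sub) (fun c z hz => (hloc c).nz z (hballR c hz))
  have hU : IsOpen ((cylinder D E₂ : TopologicalSpace.Opens (E₁ × E₂)) : Set (E₁ × E₂)) :=
    (cylinder D E₂).isOpen
  have hne : ∀ c, ∀ z ∈ ball (chartAt ℂ c c) (2 * R c),
      InfArea (potSys κ hκ p hpl x₀) (y c z) (v c z) := by
    intro c z hz
    rw [(hloc c).vert z hz]
    exact infArea κ hκ hpl haff hps ((hloc c).lift z hz).1 ((hloc c).ne z hz)
  have hbound : ∀ σ : ℝ, 0 < σ → ((∑ᶠ c, n c : ℤ) : ℝ) ≤ (∑ i : t, A i * M i) / σ := by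
    intro σ hσ
    have hdata : LocData n R (fun c => M c / σ)
        (fun c => Real.exp (KX κ hκ hpl x₀ σ
          (⟨f c, s c⟩ : TangentBundle 𝓘(ℂ, E₁ × E₂) X) / σ))
        (fun c => (ball (chartAt ℂ c c) (R c)).indicator fun z =>
          Real.exp (((potSys κ hκ p hpl x₀).φ (j₀ c) (y c z) +
            Kf (potSys κ hκ p hpl x₀) σ (y c z) (v c z)) / σ)) := by
      refine ⟨fun c => (hloc c).Rpos, fun c => (hballR c).trans (hloc c).sub,
        fun c z hz => (hloc c).nz z (hballR c hz), ?_, ?_, ?_⟩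
      · intro c
        have hsub := (hloc c).fam.submean_K (P := potSys κ hκ p hpl x₀) hU (j₀ := j₀ c)
          (hloc c).pot (hne c) hσ
        exact areaSub_exp (by linarith [(hloc c).Rpos]) hsub.1 hsub.2 hσ
      · intro c z hz hzne
        have hz2 := hballR c hz
        set a : ℂ := (z - chartAt ℂ c c) ^ (n c) with ha
        have hz0 : z - chartAt ℂ c c ≠ 0 := sub_ne_zero.2 hzne
        have ha0 : a ≠ 0 := zpow_ne_zero _ hz0
        have h1 := ((hloc c).lift z hz2).smul hpl a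
        have h2 : (⟨(gpt f (g c) c z).proj, a • (gpt f (g c) c z).snd⟩ :
            TangentBundle 𝓘(ℂ, E₁ × E₂) X) =
            (⟨f ((chartAt ℂ c).symm z), s ((chartAt ℂ c).symm z)⟩ :
              TangentBundle 𝓘(ℂ, E₁ × E₂) X) := by
          refine tb_ext rfl ?_
          rw [(hloc c).eq z hz2 hzne]
          rfl
        rw [h2] at h1
        have h3 : ((0, a • (v c z).2) : E₁ × E₂) = a • v c z := by
          conv_rhs => rw [(hloc c).vert z hz2]
          rw [Prod.smul_mk, smul_zero]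
        have h4 : KX κ hκ hpl x₀ σ (⟨f ((chartAt ℂ c).symm z), s ((chartAt ℂ c).symm z)⟩ :
              TangentBundle 𝓘(ℂ, E₁ × E₂) X) =
            Kf (potSys κ hκ p hpl x₀) σ (y c z) (v c z) + σ * Real.log ‖a‖ := by
          rw [KX_eq κ hκ hpl haff h1, h3]
          exact Kf_smul ((hloc c).fam.mem z hz2) ha0
            (bddBelow_of_infArea hU ((hloc c).fam.mem z hz2) (hne c z hz2) hσ)
        have hnorm : ‖a‖ = ‖z - chartAt ℂ c c‖ ^ (n c) := by rw [ha, norm_zpow]
        have hapos : 0 < ‖a‖ := norm_pos_iff.2 ha0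
        have h5 : Real.exp ((Kf (potSys κ hκ p hpl x₀) σ (y c z) (v c z) +
            σ * Real.log ‖a‖) / σ) = ‖a‖ *
              Real.exp (Kf (potSys κ hκ p hpl x₀) σ (y c z) (v c z) / σ) := by
          have h6 : (Kf (potSys κ hκ p hpl x₀) σ (y c z) (v c z) + σ * Real.log ‖a‖) / σ =
              Real.log ‖a‖ + Kf (potSys κ hκ p hpl x₀) σ (y c z) (v c z) / σ := by
            field_simp
            ring
          rw [h6, Real.exp_add, Real.exp_log hapos]
        have hbd := abs_le.1 ((hloc c).bd z hz)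
        beta_reduce
        rw [indicator_of_mem hz, h4, h5, ← hnorm]
        have hK := Real.exp_pos (Kf (potSys κ hκ p hpl x₀) σ (y c z) (v c z) / σ)
        constructor
        · have h7 : Real.exp (-(M c / σ)) * (‖a‖ *
              Real.exp (((potSys κ hκ p hpl x₀).φ (j₀ c) (y c z) +
                Kf (potSys κ hκ p hpl x₀) σ (y c z) (v c z)) / σ)) =
              ‖a‖ * (Real.exp (((potSys κ hκ p hpl x₀).φ (j₀ c) (y c z) - M c) / σ +
                Kf (potSys κ hκ p hpl x₀) σ (y c z) (v c z) / σ)) := by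
            rw [mul_left_comm, ← Real.exp_add]
            congr 2
            ring
          rw [h7]
          refine mul_le_mul_of_nonneg_left (Real.exp_le_exp.2 ?_) hapos.le
          have h8 : ((potSys κ hκ p hpl x₀).φ (j₀ c) (y c z) - M c) / σ ≤ 0 :=
            div_nonpos_of_nonpos_of_nonneg (by linarith [hbd.2]) hσ.le
          linarith
        · have h7 : Real.exp (M c / σ) * (‖a‖ *
              Real.exp (((potSys κ hκ p hpl x₀).φ (j₀ c) (y c z) +
                Kf (potSys κ hκ p hpl x₀) σ (y c z) (v c z)) / σ)) =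
              ‖a‖ * (Real.exp (((potSys κ hκ p hpl x₀).φ (j₀ c) (y c z) + M c) / σ +
                Kf (potSys κ hκ p hpl x₀) σ (y c z) (v c z) / σ)) := by
            rw [mul_left_comm, ← Real.exp_add]
            congr 2
            ring
          rw [h7]
          refine mul_le_mul_of_nonneg_left (Real.exp_le_exp.2 ?_) hapos.le
          have h8 : 0 ≤ ((potSys κ hκ p hpl x₀).φ (j₀ c) (y c z) + M c) / σ :=
            div_nonneg (by linarith [hbd.1]) hσ.le
          linarith
      · refine ⟨c₁, ?_⟩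
        rw [indicator_of_mem (mem_ball_self (hloc c₁).Rpos)]
        exact Real.exp_pos _
    refine (hcore _ _ _ hdata).trans (le_of_eq ?_)
    rw [Finset.sum_div]
    refine Finset.sum_congr rfl fun i _ => ?_
    ring
  have hle : ((∑ᶠ c, n c : ℤ) : ℝ) ≤ 0 := by
    have h1 : Tendsto (fun σ : ℝ => (∑ i : t, A i * M i) / σ) atTop (𝓝 0) :=
      tendsto_const_nhds.div_atTop tendsto_id
    refine ge_of_tendsto h1 ?_
    filter_upwards [eventually_gt_atTop 0] with σ hσ using hbound σ hσ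
  exact_mod_cast hle

end Pool.Agent.H816_Nef
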