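import Pool.Agent.H816_Nef.Defs

/-!
# Orders of meromorphic sections of the pulled back tangent bundle
-/

set_option autoImplicit false

open Set Filter Topology Metric
open scoped ContDiff Manifold

namespace Pool.Agent.H816_Nef

variable {E : Type} [NormedAddCommGroup E] [NormedSpace ℂ E]
variable {X : Type} [TopologicalSpace X] [ChartedSpace E X] [IsManifold 𝓘(ℂ, E) ω X]
variable {C : Type} [TopologicalSpace C] [ChartedSpace ℂ C]

/-- the coordinate of a tangent vector in the trivialization of the tangent bundle at `x` -/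
noncomputable def coord (E : Type) [NormedAddCommGroup E] [NormedSpace ℂ E]
    {X : Type} [TopologicalSpace X] [ChartedSpace E X] [IsManifold 𝓘(ℂ, E) ω X] (x : X) {y : X}
    (v : TangentSpace 𝓘(ℂ, E) y) : E :=
  (trivializationAt E (TangentSpace 𝓘(ℂ, E)) x (⟨y, v⟩ : TangentBundle 𝓘(ℂ, E) X)).2

/-- the base set of the trivialization at `x` -/
def bset (E : Type) [NormedAddCommGroup E] [NormedSpace ℂ E]
    {X : Type} [TopologicalSpace X] [ChartedSpace E X] [IsManifold 𝓘(ℂ, E) ω X] (x : X) : Set X :=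
  (trivializationAt E (TangentSpace 𝓘(ℂ, E) (M := X)) x).baseSet

lemma isOpen_bset (x : X) : IsOpen (bset E x) :=
  (trivializationAt E (TangentSpace 𝓘(ℂ, E) (M := X)) x).open_baseSet

lemma mem_bset (x : X) : x ∈ bset E x := mem_baseSet_trivializationAt E (TangentSpace 𝓘(ℂ, E) (M := X)) x

lemma coord_eq (x : X) {y : X} (hy : y ∈ bset E x) (v : TangentSpace 𝓘(ℂ, E) y) :
    coord E x v = (trivializationAt E (TangentSpace 𝓘(ℂ, E) (M := X)) x).continuousLinearEquivAt ℂ y hy v :=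
  rfl

lemma coord_smul (x : X) {y : X} (hy : y ∈ bset E x) (a : ℂ) (v : TangentSpace 𝓘(ℂ, E) y) :
    coord E x (a • v) = a • coord E x v := by
  rw [coord_eq x hy, coord_eq x hy, map_smul]

lemma coord_eq_zero (x : X) {y : X} (hy : y ∈ bset E x) {v : TangentSpace 𝓘(ℂ, E) y} :
    coord E x v = 0 ↔ v = 0 := by
  rw [coord_eq x hy]
  exact ((trivializationAt E (TangentSpace 𝓘(ℂ, E) (M := X)) x).continuousLinearEquivAt ℂ y hy).map_eq_zero_iff

lemma coord_inj (x : X) {y : X} (hy : y ∈ bset E x) {v w : TangentSpace 𝓘(ℂ, E) y}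
    (h : coord E x v = coord E x w) : v = w := by
  rw [coord_eq x hy, coord_eq x hy] at h
  exact ((trivializationAt E (TangentSpace 𝓘(ℂ, E) (M := X)) x).continuousLinearEquivAt ℂ y hy).injective h

lemma holAlong_iff {f : C → X} {g : ∀ c, TangentSpace 𝓘(ℂ, E) (f c)} {c₀ : C} :
    HolAlong E f g c₀ ↔ ContMDiffAt 𝓘(ℂ, ℂ) 𝓘(ℂ, E) ω f c₀ ∧
      ContMDiffAt 𝓘(ℂ, ℂ) 𝓘(ℂ, E) ω (fun c => coord E (f c₀) (g c)) c₀ :=
  Bundle.contMDiffAt_totalSpace

/-! ### Charts of the Riemann surface -/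

lemma tendsto_chart_punct (c₀ : C) :
    Tendsto (chartAt ℂ c₀) (𝓝[≠] c₀) (𝓝[≠] (chartAt ℂ c₀ c₀)) := by
  rw [tendsto_nhdsWithin_iff]
  refine ⟨((chartAt ℂ c₀).continuousAt (mem_chart_source ℂ c₀)).tendsto.mono_left
    nhdsWithin_le_nhds, ?_⟩
  have h1 : ∀ᶠ c in 𝓝[≠] c₀, c ∈ (chartAt ℂ c₀).source :=
    nhdsWithin_le_nhds ((chartAt ℂ c₀).open_source.mem_nhds (mem_chart_source ℂ c₀))
  filter_upwards [h1, self_mem_nhdsWithin] with c h2 h3 h4
  exact h3 ((chartAt ℂ c₀).injOn h2 (mem_chart_source ℂ c₀) h4)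

lemma tendsto_symm_punct (c₀ : C) :
    Tendsto (chartAt ℂ c₀).symm (𝓝[≠] (chartAt ℂ c₀ c₀)) (𝓝[≠] c₀) := by
  rw [tendsto_nhdsWithin_iff]
  constructor
  · have h1 := ((chartAt ℂ c₀).continuousAt_symm (mem_chart_target ℂ c₀)).tendsto
    rw [(chartAt ℂ c₀).left_inv (mem_chart_source ℂ c₀)] at h1
    exact h1.mono_left nhdsWithin_le_nhds
  · have h1 : ∀ᶠ z in 𝓝[≠] (chartAt ℂ c₀ c₀), z ∈ (chartAt ℂ c₀).target :=
      nhdsWithin_le_nhds ((chartAt ℂ c₀).open_target.mem_nhds (mem_chart_target ℂ c₀))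
    filter_upwards [h1, self_mem_nhdsWithin] with z h2 h3 h4
    apply h3
    have h5 := congrArg (chartAt ℂ c₀) h4
    rwa [(chartAt ℂ c₀).right_inv h2] at h5

instance neBot_punct (c₀ : C) : (𝓝[≠] c₀).NeBot := (tendsto_symm_punct c₀).neBot

lemma chart_hol [IsManifold 𝓘(ℂ, ℂ) ω C] (c₀ : C) {c : C} (hc : c ∈ (chartAt ℂ c₀).source) :
    ContMDiffAt 𝓘(ℂ, ℂ) 𝓘(ℂ, ℂ) ω (chartAt ℂ c₀) c :=
  (contMDiffOn_chart (I := 𝓘(ℂ, ℂ)) (n := ω) (x := c₀)).contMDiffAt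
    ((chartAt ℂ c₀).open_source.mem_nhds hc)

lemma symm_hol [IsManifold 𝓘(ℂ, ℂ) ω C] (c₀ : C) {z : ℂ} (hz : z ∈ (chartAt ℂ c₀).target) :
    ContMDiffAt 𝓘(ℂ, ℂ) 𝓘(ℂ, ℂ) ω (chartAt ℂ c₀).symm z :=
  (contMDiffOn_chart_symm (I := 𝓘(ℂ, ℂ)) (n := ω) (x := c₀)).contMDiffAt
    ((chartAt ℂ c₀).open_target.mem_nhds hz)

/-- a holomorphic function read in a chart is analytic -/
lemma analyticAt_chart {F : Type} [NormedAddCommGroup F] [NormedSpace ℂ F] [CompleteSpace F]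
    [IsManifold 𝓘(ℂ, ℂ) ω C] {u : C → F} {c₀ : C} {z : ℂ} (hz : z ∈ (chartAt ℂ c₀).target)
    (hu : ContMDiffAt 𝓘(ℂ, ℂ) 𝓘(ℂ, F) ω u ((chartAt ℂ c₀).symm z)) :
    AnalyticAt ℂ (fun w => u ((chartAt ℂ c₀).symm w)) z := by
  have h1 : ContMDiffAt 𝓘(ℂ, ℂ) 𝓘(ℂ, F) ω (fun w => u ((chartAt ℂ c₀).symm w)) z :=
    hu.comp z (symm_hol c₀ hz)
  exact h1.contDiffAt.analyticAt

/-- the orders are unique -/
lemma HasOrderAt.unique {f : C → X} {s : ∀ c, TangentSpace 𝓘(ℂ, E) (f c)} {c₀ : C} {k k' : ℤ}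
    (h : HasOrderAt E f s c₀ k) (h' : HasOrderAt E f s c₀ k') : k = k' := by
  -- a lemma for one direction
  have key : ∀ {k k' : ℤ}, HasOrderAt E f s c₀ k → HasOrderAt E f s c₀ k' → ¬ k < k' := by
    intro k k' h h' hlt
    obtain ⟨g, hg, hg0, hgs⟩ := h
    obtain ⟨g', hg', hg0', hgs'⟩ := h'
    rw [holAlong_iff] at hg hg'
    have hf : ContinuousAt f c₀ := hg.1.continuousAt
    have hb : ∀ᶠ c in 𝓝[≠] c₀, f c ∈ bset E (f c₀) :=
      nhdsWithin_le_nhds (hf.eventually ((isOpen_bset (E := E) (f c₀)).mem_nhds (mem_bset _)))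
    have hz : Tendsto (fun c => chartAt ℂ c₀ c - chartAt ℂ c₀ c₀) (𝓝[≠] c₀) (𝓝 0) := by
      have h1 := (tendsto_chart_punct c₀).mono_right nhdsWithin_le_nhds
      simpa using h1.sub_const (chartAt ℂ c₀ c₀)
    have hz0 : ∀ᶠ c in 𝓝[≠] c₀, chartAt ℂ c₀ c - chartAt ℂ c₀ c₀ ≠ 0 := by
      have h1 := (tendsto_chart_punct c₀).eventually self_mem_nhdsWithin
      filter_upwards [h1] with c hc
      exact sub_ne_zero.2 hc
    have heq : ∀ᶠ c in 𝓝[≠] c₀, coord E (f c₀) (g c) =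
        (chartAt ℂ c₀ c - chartAt ℂ c₀ c₀) ^ (k' - k).toNat • coord E (f c₀) (g' c) := by
      filter_upwards [hb, hgs, hgs', hz0] with c h1 h2 h3 h4
      rw [h2] at h3
      have h5 := congrArg (coord E (f c₀)) h3
      rw [coord_smul _ h1, coord_smul _ h1] at h5
      have h6 : (chartAt ℂ c₀ c - chartAt ℂ c₀ c₀) ^ k' =
          (chartAt ℂ c₀ c - chartAt ℂ c₀ c₀) ^ k *
            (chartAt ℂ c₀ c - chartAt ℂ c₀ c₀) ^ (k' - k).toNat := by
        rw [← zpow_natCast, Int.toNat_of_nonneg (by omega), ← zpow_add₀ h4]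
        congr 1; ring
      rw [h6, mul_smul] at h5
      exact smul_right_injective E (zpow_ne_zero k h4) h5
    have hl : Tendsto (fun c => coord E (f c₀) (g c)) (𝓝[≠] c₀) (𝓝 (coord E (f c₀) (g c₀))) :=
      hg.2.continuousAt.tendsto.mono_left nhdsWithin_le_nhds
    have hr : Tendsto (fun c => (chartAt ℂ c₀ c - chartAt ℂ c₀ c₀) ^ (k' - k).toNat •
        coord E (f c₀) (g' c)) (𝓝[≠] c₀) (𝓝 ((0 : ℂ) ^ (k' - k).toNat • coord E (f c₀) (g' c₀))) :=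
      (hz.pow _).smul (hg'.2.continuousAt.tendsto.mono_left nhdsWithin_le_nhds)
    have hne : (k' - k).toNat ≠ 0 := by omega
    rw [zero_pow hne, zero_smul] at hr
    have h7 := tendsto_nhds_unique (hl.congr' heq) hr
    rw [coord_eq_zero _ (mem_bset _)] at h7
    exact hg0 h7
  have h1 := key h h'
  have h2 := key h' h
  omega

lemma HolAlong.eventually_nhds [IsManifold 𝓘(ℂ, ℂ) ω C] {f : C → X}
    {g : ∀ c, TangentSpace 𝓘(ℂ, E) (f c)} {c₀ : C}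
    (h : HolAlong E f g c₀) : ∀ᶠ c in 𝓝 c₀, HolAlong E f g c :=
  (contMDiffAt_iff_contMDiffAt_nhds (by simp)).1 h

/-- near `c₀` the order is zero -/
lemma HasOrderAt.eventually_zero [IsManifold 𝓘(ℂ, ℂ) ω C] [T1Space C] {f : C → X}
    {s : ∀ c, TangentSpace 𝓘(ℂ, E) (f c)} {c₀ : C} {k : ℤ}
    (h : HasOrderAt E f s c₀ k) : ∀ᶠ c in 𝓝[≠] c₀, HasOrderAt E f s c 0 := by
  obtain ⟨g, hg, hg0, hgs⟩ := h
  have hg1 : ∀ᶠ c in 𝓝[≠] c₀, HolAlong E f g c := by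
    exact nhdsWithin_le_nhds hg.eventually_nhds
  rw [holAlong_iff] at hg
  have hf : ContinuousAt f c₀ := hg.1.continuousAt
  have hb : ∀ᶠ c in 𝓝[≠] c₀, f c ∈ bset E (f c₀) :=
    nhdsWithin_le_nhds (hf.eventually ((isOpen_bset (E := E) (f c₀)).mem_nhds (mem_bset _)))
  have hg2 : ∀ᶠ c in 𝓝[≠] c₀, coord E (f c₀) (g c) ≠ 0 := by
    have h1 : coord E (f c₀) (g c₀) ≠ 0 := by
      rw [Ne, coord_eq_zero _ (mem_bset _)]; exact hg0
    exact nhdsWithin_le_nhds (hg.2.continuousAt.eventually_ne h1)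
  have hsrc : ∀ᶠ c in 𝓝[≠] c₀, c ∈ (chartAt ℂ c₀).source :=
    nhdsWithin_le_nhds ((chartAt ℂ c₀).open_source.mem_nhds (mem_chart_source ℂ c₀))
  have hall := eventually_eventually_nhdsWithin.2 hgs
  filter_upwards [hg1, hb, hg2, hsrc, hgs, hall, self_mem_nhdsWithin] with c h1 h2 h3 h4 h5 h6 h7
  have hz0 : chartAt ℂ c₀ c - chartAt ℂ c₀ c₀ ≠ 0 := by
    rw [sub_ne_zero]
    intro he
    exact h7 ((chartAt ℂ c₀).injOn h4 (mem_chart_source ℂ c₀) he)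
  refine ⟨fun c' => (chartAt ℂ c₀ c' - chartAt ℂ c₀ c₀) ^ k • g c', ?_, ?_, ?_⟩
  · rw [holAlong_iff] at h1 ⊢
    refine ⟨h1.1, ?_⟩
    have h8 : ContMDiffAt 𝓘(ℂ, ℂ) 𝓘(ℂ, ℂ) ω
        (fun c' => (chartAt ℂ c₀ c' - chartAt ℂ c₀ c₀) ^ k) c := by
      have h9 : AnalyticAt ℂ (fun z : ℂ => (z - chartAt ℂ c₀ c₀) ^ k) (chartAt ℂ c₀ c) :=
        AnalyticAt.fun_zpow (analyticAt_id.sub analyticAt_const) hz0
      exact (h9.contDiffAt.contMDiffAt).comp c (chart_hol c₀ h4)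
    have h9 : ∀ᶠ c' in 𝓝 c, f c' ∈ bset E (f c) :=
      h1.1.continuousAt.eventually ((isOpen_bset (E := E) (f c)).mem_nhds (mem_bset _))
    refine (h8.smul h1.2).congr_of_eventuallyEq ?_
    filter_upwards [h9] with c' h10
    exact coord_smul _ h10 _ _
  · intro he
    have h8 := congrArg (coord E (f c₀)) he
    rw [coord_smul _ h2] at h8
    rcases smul_eq_zero.1 (h8.trans (by rw [coord_eq_zero _ h2])) with h9 | h9
    · exact zpow_ne_zero k hz0 h9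
    · exact h3 h9
  · have h8 : 𝓝[{c₀}ᶜ] c = 𝓝 c := isOpen_compl_singleton.nhdsWithin_eq h7
    rw [h8] at h6
    refine nhdsWithin_le_nhds ?_
    filter_upwards [h6] with c' h9
    rw [h9, zpow_zero, one_smul]

end Pool.Agent.H816_Nef
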