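import Pool.Agent.H816_Nef.J1
import Pool.Agent.H816_Nef.J3
import Pool.Agent.H816_Nef.J4
import Pool.Agent.H816_Nef.J5

/-!
# Systems of local potentials of a Kähler form on an open subset of a vector space
-/

set_option autoImplicit false

open Set Filter Topology Metric MeasureTheory
open scoped ContDiff

namespace Pool.Agent.H816_Nef

/-- local potentials of a Kähler form on an open subset of a vector space -/
structure PotSys (E : Type) [NormedAddCommGroup E] [NormedSpace ℂ E] (U : Set E) where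
  J : Type
  O : J → Set E
  φ : J → E → ℝ
  isOpen_O : ∀ j, IsOpen (O j)
  cover : ∀ y ∈ U, ∃ j, y ∈ O j
  smooth : ∀ j, ContDiffOn ℝ ∞ (φ j) (O j)
  plh : ∀ j k, ∀ y ∈ O j ∩ O k, ∀ v, levi (φ j) y v = levi (φ k) y v
  pos : ∀ j, ∀ y ∈ O j, ∀ v, v ≠ 0 → 0 < levi (φ j) y v

variable {E : Type} [NormedAddCommGroup E] [NormedSpace ℂ E] {U : Set E} (P : PotSys E U)

namespace PotSys

open Classical in
/-- the metric -/
noncomputable def L (y v : E) : ℝ :=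
  if h : ∃ j, y ∈ P.O j then levi (P.φ h.choose) y v else 0

lemma L_eq {j : P.J} {y : E} (hy : y ∈ P.O j) (v : E) : P.L y v = levi (P.φ j) y v := by
  have h : ∃ j, y ∈ P.O j := ⟨j, hy⟩
  unfold L
  rw [dif_pos h]
  exact P.plh _ _ y ⟨h.choose_spec, hy⟩ v

lemma contDiffAt (j : P.J) {y : E} (hy : y ∈ P.O j) : ContDiffAt ℝ ∞ (P.φ j) y :=
  (P.smooth j).contDiffAt ((P.isOpen_O j).mem_nhds hy)

lemma two_le : (2 : WithTop ℕ∞) ≤ ∞ := WithTop.coe_le_coe.2 le_top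

lemma contDiffAt2 (j : P.J) {y : E} (hy : y ∈ P.O j) : ContDiffAt ℝ 2 (P.φ j) y :=
  (P.contDiffAt j hy).of_le two_le

lemma L_pos {y v : E} (hy : y ∈ U) (hv : v ≠ 0) : 0 < P.L y v := by
  obtain ⟨j, hj⟩ := P.cover y hy
  rw [P.L_eq hj]
  exact P.pos j y hj v hv

lemma levi_zero (φ : E → ℝ) (x : E) : levi φ x 0 = 0 := by
  unfold levi
  simp

lemma L_nonneg (y v : E) : 0 ≤ P.L y v := by
  unfold L
  split_ifs with h
  · by_cases hv : v = 0
    · rw [hv, levi_zero]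
    · exact (P.pos _ y h.choose_spec v hv).le
  · exact le_rfl

lemma L_smul {y : E} (hy : y ∈ U) (a : ℂ) (v : E) : P.L y (a • v) = ‖a‖ ^ 2 * P.L y v := by
  obtain ⟨j, hj⟩ := P.cover y hy
  rw [P.L_eq hj, P.L_eq hj]
  exact levi_smul _ (P.contDiffAt2 j hj) a v

lemma continuousOn_L (hU : IsOpen U) :
    ContinuousOn (fun q : E × E => P.L q.1 q.2) (U ×ˢ univ) := by
  rintro ⟨y, v⟩ ⟨hy, -⟩
  obtain ⟨j, hj⟩ := P.cover y hy
  have h1 := continuousOn_levi (P.isOpen_O j) ((P.smooth j).of_le two_le) (y, v) ⟨hj, trivial⟩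
  have h2 : ContinuousAt (fun q : E × E => levi (P.φ j) q.1 q.2) (y, v) :=
    h1.continuousAt (((P.isOpen_O j).prod isOpen_univ).mem_nhds ⟨hj, trivial⟩)
  refine (h2.congr ?_).continuousWithinAt
  filter_upwards [((P.isOpen_O j).prod isOpen_univ).mem_nhds ⟨hj, trivial⟩] with q hq
  exact (P.L_eq hq.1 q.2).symm

end PotSys

/-- A holomorphic family of affine lines in `U`. -/
structure LineFam (U : Set E) (B : Set ℂ) (y ς : ℂ → E) : Prop where
  isOpen : IsOpen B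
  hy : DifferentiableOn ℂ y B
  hς : DifferentiableOn ℂ ς B
  mem : ∀ c ∈ B, ∀ t : ℂ, y c + t • ς c ∈ U

namespace LineFam

variable {P}
variable {B : Set ℂ} {y ς : ℂ → E} (h : LineFam U B y ς)
include h

lemma cont : ContinuousOn (fun q : ℂ × ℂ => y q.1 + q.2 • ς q.1) (B ×ˢ univ) := by
  have h1 : ContinuousOn (fun q : ℂ × ℂ => y q.1) (B ×ˢ univ) :=
    h.hy.continuousOn.comp continuousOn_fst (fun q hq => hq.1)
  have h2 : ContinuousOn (fun q : ℂ × ℂ => ς q.1) (B ×ˢ univ) :=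
    h.hς.continuousOn.comp continuousOn_fst (fun q hq => hq.1)
  exact h1.add (continuousOn_snd.smul h2)

/-- the density is continuous -/
lemma cont_dens (hU : IsOpen U) :
    ContinuousOn (fun q : ℂ × ℂ => P.L (y q.1 + q.2 • ς q.1) (ς q.1)) (B ×ˢ univ) := by
  have h2 : ContinuousOn (fun q : ℂ × ℂ => ς q.1) (B ×ˢ univ) :=
    h.hς.continuousOn.comp continuousOn_fst (fun q hq => hq.1)
  exact (P.continuousOn_L hU).comp (h.cont.prodMk h2) (fun q hq => ⟨h.mem q.1 hq.1 q.2, trivial⟩)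

/-- a common potential near a point `(c, t)`, uniformly in `t` -/
lemma exists_radius {c : ℂ} (hc : c ∈ B) : ∃ ρ₀ : ℝ, 0 < ρ₀ ∧ closedBall c ρ₀ ⊆ B ∧
    ∀ t ∈ closedBall (0 : ℂ) 1, ∃ (j : P.J) (δ : ℝ), 0 < δ ∧ ∀ c' ∈ closedBall c ρ₀,
      ∀ t' ∈ ball t δ, y c' + t' • ς c' ∈ P.O j := by
  obtain ⟨ρ₁, hρ₁, hB⟩ := Metric.nhds_basis_closedBall.mem_iff.1 (h.isOpen.mem_nhds hc)
  have key : ∀ K : Set ℂ, IsCompact K → ∃ ρ₀ : ℝ, 0 < ρ₀ ∧ ρ₀ ≤ ρ₁ ∧
      ∀ t ∈ K, ∃ (j : P.J) (δ : ℝ), 0 < δ ∧ ∀ c' ∈ closedBall c ρ₀,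
      ∀ t' ∈ ball t δ, y c' + t' • ς c' ∈ P.O j := by
    intro K hK
    refine hK.induction_on (p := fun s => ∃ ρ₀ : ℝ, 0 < ρ₀ ∧ ρ₀ ≤ ρ₁ ∧
      ∀ t ∈ s, ∃ (j : P.J) (δ : ℝ), 0 < δ ∧ ∀ c' ∈ closedBall c ρ₀,
      ∀ t' ∈ ball t δ, y c' + t' • ς c' ∈ P.O j) ?_ ?_ ?_ ?_
    · exact ⟨ρ₁, hρ₁, le_rfl, fun t ht => ht.elim⟩
    · rintro s s' hs ⟨ρ, h1, h2, h3⟩
      exact ⟨ρ, h1, h2, fun t ht => h3 t (hs ht)⟩
    · rintro s s' ⟨ρ, h1, h2, h3⟩ ⟨ρ', h1', h2', h3'⟩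
      refine ⟨min ρ ρ', lt_min h1 h1', (min_le_left _ _).trans h2, ?_⟩
      rintro t (ht | ht)
      · obtain ⟨j, δ, hδ, H⟩ := h3 t ht
        exact ⟨j, δ, hδ, fun c' hc' => H c' (closedBall_subset_closedBall (min_le_left _ _) hc')⟩
      · obtain ⟨j, δ, hδ, H⟩ := h3' t ht
        exact ⟨j, δ, hδ, fun c' hc' => H c' (closedBall_subset_closedBall (min_le_right _ _) hc')⟩
    · intro t _
      obtain ⟨j, hj⟩ := P.cover _ (h.mem c hc t)
      have h1 : ContinuousAt (fun q : ℂ × ℂ => y q.1 + q.2 • ς q.1) (c, t) :=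
        h.cont.continuousAt ((h.isOpen.prod isOpen_univ).mem_nhds ⟨hc, trivial⟩)
      have h2 : ∀ᶠ q in 𝓝 (c, t), y q.1 + q.2 • ς q.1 ∈ P.O j :=
        h1.eventually ((P.isOpen_O j).mem_nhds hj)
      rw [nhds_prod_eq, Filter.eventually_prod_iff] at h2
      obtain ⟨pa, ha, pb, hb, hab⟩ := h2
      obtain ⟨ρ, hρ, Hρ⟩ := Metric.nhds_basis_closedBall.eventually_iff.1 ha
      obtain ⟨δ, hδ, Hδ⟩ := Metric.nhds_basis_ball.eventually_iff.1 hb
      refine ⟨ball t (δ / 2), mem_nhdsWithin_of_mem_nhds (ball_mem_nhds t (by positivity)),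
        min ρ ρ₁, lt_min hρ hρ₁, min_le_right _ _, fun t' ht' => ⟨j, δ / 2, by positivity, ?_⟩⟩
      intro c' hc' t'' ht''
      refine hab (Hρ (closedBall_subset_closedBall (min_le_left _ _) hc')) (Hδ ?_)
      have h3 : dist t'' t ≤ dist t'' t' + dist t' t := dist_triangle _ _ _
      have h4 : dist t'' t' < δ / 2 := ht''
      have h5 : dist t' t < δ / 2 := ht'
      show dist t'' t < δ
      linarith
  obtain ⟨ρ₀, h1, h2, h3⟩ := key (closedBall 0 1) (isCompact_closedBall 0 1)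
  exact ⟨ρ₀, h1, (closedBall_subset_closedBall h2).trans hB, h3⟩

end LineFam

end Pool.Agent.H816_Nef
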