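import Pool.Agent.H816_Nef.Ord

/-!
# Push-forward of meromorphic sections of the pulled back tangent bundle
-/

set_option autoImplicit false

open Set Filter Topology Metric
open scoped ContDiff Manifold

namespace Pool.Agent.H816_Nef

variable {E : Type} [NormedAddCommGroup E] [NormedSpace ℂ E]
variable {X : Type} [TopologicalSpace X] [ChartedSpace E X] [IsManifold 𝓘(ℂ, E) ω X]
variable {E' : Type} [NormedAddCommGroup E'] [NormedSpace ℂ E']
variable {S : Type} [TopologicalSpace S] [ChartedSpace E' S] [IsManifold 𝓘(ℂ, E') ω S]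
variable {C : Type} [TopologicalSpace C] [ChartedSpace ℂ C] [IsManifold 𝓘(ℂ, ℂ) ω C]

lemma finite_support [T1Space C] [CompactSpace C] {f : C → X}
    {s : ∀ c, TangentSpace 𝓘(ℂ, E) (f c)} {n : C → ℤ} (hs : ∀ c, HasOrderAt E f s c (n c)) :
    (Function.support n).Finite := by
  have h1 : ∀ c : C, ∃ V ∈ 𝓝 c, V ∩ Function.support n ⊆ {c} := by
    intro c
    have h2 := eventually_nhdsWithin_iff.1 (hs c).eventually_zero
    refine ⟨_, h2, ?_⟩
    rintro c' ⟨h3, h4⟩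
    by_contra hne
    exact h4 ((h3 hne).unique (hs c')).symm
  choose V hV hVs using h1
  obtain ⟨t, ht⟩ := CompactSpace.elim_nhds_subcover V hV
  refine (t.finite_toSet).subset ?_
  intro c hc
  have h2 : c ∈ ⋃ x ∈ t, V x := by rw [ht]; trivial
  simp only [mem_iUnion] at h2
  obtain ⟨x, hx, hcx⟩ := h2
  have h3 := hVs x ⟨hcx, hc⟩
  rw [mem_singleton_iff] at h3
  rw [h3]; exact hx

/-- a holomorphic section which is not identically zero near `c₀` has an order -/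
lemma HolAlong.exists_order [CompleteSpace E] {f : C → X} {g : ∀ c, TangentSpace 𝓘(ℂ, E) (f c)}
    {c₀ : C} (hg : HolAlong E f g c₀) (hne : ∃ᶠ c in 𝓝[≠] c₀, g c ≠ 0) :
    ∃ m : ℕ, HasOrderAt E f g c₀ m := by
  rw [holAlong_iff] at hg
  have hf : ContinuousAt f c₀ := hg.1.continuousAt
  have hb : ∀ᶠ c in 𝓝 c₀, f c ∈ bset E (f c₀) :=
    hf.eventually ((isOpen_bset (E := E) (f c₀)).mem_nhds (mem_bset _))
  set z₀ := chartAt ℂ c₀ c₀ with hz₀
  set h : ℂ → E := fun z => coord E (f c₀) (g ((chartAt ℂ c₀).symm z)) with hh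
  have hlinv : (chartAt ℂ c₀).symm z₀ = c₀ := (chartAt ℂ c₀).left_inv (mem_chart_source ℂ c₀)
  have hsrc : ∀ᶠ c in 𝓝 c₀, c ∈ (chartAt ℂ c₀).source :=
    (chartAt ℂ c₀).open_source.mem_nhds (mem_chart_source ℂ c₀)
  have han : AnalyticAt ℂ h z₀ := by
    refine analyticAt_chart (u := fun c => coord E (f c₀) (g c)) (mem_chart_target ℂ c₀) ?_
    rw [hlinv]
    exact hg.2
  have hnz : ¬ ∀ᶠ z in 𝓝 z₀, h z = 0 := by
    intro h1
    have h2 := ((chartAt ℂ c₀).continuousAt (mem_chart_source ℂ c₀)).eventually h1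
    have h3 : ∀ᶠ c in 𝓝[≠] c₀, ¬ (g c ≠ 0) := by
      refine nhdsWithin_le_nhds ?_
      filter_upwards [h2, hb, hsrc] with c a1 a2 a3
      rw [hh] at a1
      simp only at a1
      rw [(chartAt ℂ c₀).left_inv a3, coord_eq_zero _ a2] at a1
      exact not_not.2 a1
    exact hne h3
  obtain ⟨m, h', h'an, h'0, h'eq⟩ := han.exists_eventuallyEq_pow_smul_nonzero_iff.2 hnz
  set e := trivializationAt E (TangentSpace 𝓘(ℂ, E) (M := X)) (f c₀) with he
  have hcoord : ∀ᶠ c in 𝓝 c₀, coord E (f c₀)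
      ((e.symm (f c) (h' (chartAt ℂ c₀ c)) : TangentSpace 𝓘(ℂ, E) (f c))) =
      h' (chartAt ℂ c₀ c) := by
    filter_upwards [hb] with c hc
    exact congrArg Prod.snd (e.apply_mk_symm hc (h' (chartAt ℂ c₀ c)))
  refine ⟨m, fun c => e.symm (f c) (h' (chartAt ℂ c₀ c)), ?_, ?_, ?_⟩
  · rw [holAlong_iff]
    refine ⟨hg.1, ?_⟩
    have h1 : ContMDiffAt 𝓘(ℂ, ℂ) 𝓘(ℂ, E) ω (fun c => h' (chartAt ℂ c₀ c)) c₀ :=
      (h'an.contDiffAt.contMDiffAt).comp c₀ (chart_hol c₀ (mem_chart_source ℂ c₀))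
    exact h1.congr_of_eventuallyEq hcoord
  · intro h1
    have h2 := hcoord.self_of_nhds
    have h1' : (e.symm (f c₀) (h' (chartAt ℂ c₀ c₀)) : TangentSpace 𝓘(ℂ, E) (f c₀)) = 0 := h1
    rw [h1'] at h2
    have h3 : coord E (f c₀) (0 : TangentSpace 𝓘(ℂ, E) (f c₀)) = 0 :=
      (coord_eq_zero _ (mem_bset _)).2 rfl
    rw [h3] at h2
    exact h'0 h2.symm
  · have h2 := ((chartAt ℂ c₀).continuousAt (mem_chart_source ℂ c₀)).eventually h'eq
    refine nhdsWithin_le_nhds ?_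
    filter_upwards [h2, hb, hsrc, hcoord] with c a1 a2 a3 a4
    apply coord_inj (f c₀) a2
    rw [coord_smul _ a2, a4, zpow_natCast, ← a1, hh]
    simp only
    rw [(chartAt ℂ c₀).left_inv a3]

lemma HasOrderAt.of_smul {f : C → X} {s g : ∀ c, TangentSpace 𝓘(ℂ, E) (f c)} {c₀ : C} {k m : ℤ}
    (hg : HasOrderAt E f g c₀ m)
    (hs : ∀ᶠ c in 𝓝[≠] c₀, s c = (chartAt ℂ c₀ c - chartAt ℂ c₀ c₀) ^ k • g c) :
    HasOrderAt E f s c₀ (k + m) := by
  obtain ⟨g', h1, h2, h3⟩ := hg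
  refine ⟨g', h1, h2, ?_⟩
  have hz0 : ∀ᶠ c in 𝓝[≠] c₀, chartAt ℂ c₀ c - chartAt ℂ c₀ c₀ ≠ 0 := by
    have h1 := (tendsto_chart_punct c₀).eventually self_mem_nhdsWithin
    filter_upwards [h1] with c hc
    exact sub_ne_zero.2 hc
  filter_upwards [hs, h3, hz0] with c a1 a2 a3
  rw [a1, a2, smul_smul, zpow_add₀ a3]

/-- the push-forward of a holomorphic section is holomorphic -/
lemma HolAlong.push {π : X → S} (hπ : ContMDiff 𝓘(ℂ, E) 𝓘(ℂ, E') ω π) {f : C → X}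
    {g : ∀ c, TangentSpace 𝓘(ℂ, E) (f c)} {c₀ : C} (hg : HolAlong E f g c₀) :
    HolAlong E' (fun c => π (f c)) (fun c => mfderiv 𝓘(ℂ, E) 𝓘(ℂ, E') π (f c) (g c)) c₀ := by
  have h1 : ContMDiff 𝓘(ℂ, E).tangent 𝓘(ℂ, E').tangent ω (tangentMap 𝓘(ℂ, E) 𝓘(ℂ, E') π) :=
    hπ.contMDiff_tangentMap le_top
  exact (h1 _).comp c₀ hg

/-- Push-forward dichotomy: either the degree is at most `0`, or the section is vertical. -/
theorem push_dichotomy [CompleteSpace E'] [T2Space C] [CompactSpace C] [ConnectedSpace C]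
    (hS : CotangentNef E' S) {π : X → S} (hπ : ContMDiff 𝓘(ℂ, E) 𝓘(ℂ, E') ω π) {f : C → X}
    (hf : ContMDiff 𝓘(ℂ, ℂ) 𝓘(ℂ, E) ω f) {s : ∀ c, TangentSpace 𝓘(ℂ, E) (f c)} {n : C → ℤ}
    (hs : ∀ c, HasOrderAt E f s c (n c)) :
    ∑ᶠ c, n c ≤ 0 ∨ ∀ c₀, ∀ᶠ c in 𝓝[≠] c₀, mfderiv 𝓘(ℂ, E) 𝓘(ℂ, E') π (f c) (s c) = 0 := by
  classical
  set s' : ∀ c, TangentSpace 𝓘(ℂ, E') (π (f c)) :=
    fun c => mfderiv 𝓘(ℂ, E) 𝓘(ℂ, E') π (f c) (s c) with hs'
  -- the order of the push-forward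
  have hord : ∀ c₀, (∃ᶠ c in 𝓝[≠] c₀, s' c ≠ 0) →
      ∃ m : ℕ, HasOrderAt E' (fun c => π (f c)) s' c₀ (n c₀ + m) := by
    intro c₀ hfr
    obtain ⟨g, hg, hg0, hgs⟩ := hs c₀
    have h1 := hg.push hπ
    have h2 : ∀ᶠ c in 𝓝[≠] c₀, s' c = (chartAt ℂ c₀ c - chartAt ℂ c₀ c₀) ^ (n c₀) •
        (mfderiv 𝓘(ℂ, E) 𝓘(ℂ, E') π (f c) (g c) : TangentSpace 𝓘(ℂ, E') (π (f c))) := by
      filter_upwards [hgs] with c hc
      rw [hs']
      simp only
      rw [hc, map_smul]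
    have h3 : ∃ᶠ c in 𝓝[≠] c₀,
        (mfderiv 𝓘(ℂ, E) 𝓘(ℂ, E') π (f c) (g c) : TangentSpace 𝓘(ℂ, E') (π (f c))) ≠ 0 := by
      refine (hfr.and_eventually h2).mono ?_
      rintro c ⟨a1, a2⟩ a3
      apply a1
      rw [a2, a3, smul_zero]
    obtain ⟨m, hm⟩ := h1.exists_order h3
    exact ⟨m, hm.of_smul h2⟩
  set Z : Set C := {c₀ | ∀ᶠ c in 𝓝[≠] c₀, s' c = 0} with hZ
  have hopen : ∀ P : C → Prop, IsOpen {c₀ : C | ∀ᶠ c in 𝓝[≠] c₀, P c} := by
    intro P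
    rw [isOpen_iff_mem_nhds]
    intro a ha
    have h1 := eventually_nhdsWithin_iff.1 ha
    obtain ⟨V, hV, hVo, haV⟩ := eventually_nhds_iff.1 h1
    refine mem_of_superset (hVo.mem_nhds haV) fun b hb => ?_
    by_cases hba : b = a
    · rw [hba]; exact ha
    · refine nhdsWithin_le_nhds ?_
      filter_upwards [hVo.mem_nhds hb, isOpen_compl_singleton.mem_nhds hba] with c' h1 h2
      exact hV c' h1 h2
  have hZo : IsOpen Z := hopen _
  have hZc : Zᶜ = {c₀ : C | ∀ᶠ c in 𝓝[≠] c₀, s' c ≠ 0} := by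
    ext c₀
    constructor
    · intro h1
      have h2 : ∃ᶠ c in 𝓝[≠] c₀, s' c ≠ 0 := by
        intro h3
        exact h1 (by filter_upwards [h3] with c hc using not_not.1 hc)
      obtain ⟨m, hm⟩ := hord c₀ h2
      obtain ⟨g, hg, hg0, hgs⟩ := hm
      rw [holAlong_iff] at hg
      have hb : ∀ᶠ c in 𝓝[≠] c₀, π (f c) ∈ bset E' (π (f c₀)) :=
        nhdsWithin_le_nhds (hg.1.continuousAt.eventually
          ((isOpen_bset (E := E') (π (f c₀))).mem_nhds (mem_bset _)))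
      have hg2 : ∀ᶠ c in 𝓝[≠] c₀, coord E' (π (f c₀)) (g c) ≠ 0 := by
        have h1 : coord E' (π (f c₀)) (g c₀) ≠ 0 := by
          rw [Ne, coord_eq_zero _ (mem_bset _)]; exact hg0
        exact nhdsWithin_le_nhds (hg.2.continuousAt.eventually_ne h1)
      have hz0 : ∀ᶠ c in 𝓝[≠] c₀, chartAt ℂ c₀ c - chartAt ℂ c₀ c₀ ≠ 0 := by
        have h1 := (tendsto_chart_punct c₀).eventually self_mem_nhdsWithin
        filter_upwards [h1] with c hc
        exact sub_ne_zero.2 hc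
      show ∀ᶠ c in 𝓝[≠] c₀, s' c ≠ 0
      filter_upwards [hgs, hb, hg2, hz0] with c a1 a2 a3 a4 a5
      rw [a1] at a5
      rcases smul_eq_zero.1 a5 with a6 | a6
      · exact zpow_ne_zero _ a4 a6
      · exact a3 ((coord_eq_zero _ a2).2 a6)
    · intro h1 h2
      have h1' : ∀ᶠ c in 𝓝[≠] c₀, s' c ≠ 0 := h1
      have h2' : ∀ᶠ c in 𝓝[≠] c₀, s' c = 0 := h2
      have h3 := (h2'.and h1').exists
      obtain ⟨c, hc1, hc2⟩ := h3
      exact hc2 hc1
  have hZco : IsOpen Zᶜ := by rw [hZc]; exact hopen _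
  rcases isClopen_iff.1 (⟨⟨hZco⟩, hZo⟩ : IsClopen Z) with hZe | hZu
  · left
    have hfr : ∀ c₀, ∃ᶠ c in 𝓝[≠] c₀, s' c ≠ 0 := by
      intro c₀
      have h1 : c₀ ∈ Zᶜ := by rw [hZe]; simp
      rw [hZc] at h1
      have h1' : ∀ᶠ c in 𝓝[≠] c₀, s' c ≠ 0 := h1
      exact h1'.frequently
    choose m hm using fun c₀ => hord c₀ (hfr c₀)
    have h1 := hS C (fun c => π (f c)) (hπ.comp hf) s' (fun c => n c + m c) hm
    refine le_trans ?_ h1
    have hfin1 := finite_support hs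
    have hfin2 := finite_support hm
    rw [finsum_eq_sum_of_support_subset (s := hfin1.toFinset ∪ hfin2.toFinset) _
        (by intro c hc; simp only [Finset.coe_union, Finite.coe_toFinset, mem_union]; left; exact hc),
      finsum_eq_sum_of_support_subset (s := hfin1.toFinset ∪ hfin2.toFinset) _
        (by intro c hc; simp only [Finset.coe_union, Finite.coe_toFinset, mem_union]; right; exact hc)]
    exact Finset.sum_le_sum fun c _ => by simp
  · right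
    intro c₀
    have h1 : c₀ ∈ Z := by rw [hZu]; trivial
    exact h1

end Pool.Agent.H816_Nef
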