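import Pool.Agent.R235.BD.Lap
import Pool.Agent.Helper486.TP.SubmeanWeak

/-!
# Log-subharmonic functions on plane domains (area sub-mean form) and their weak Laplacian
-/

set_option autoImplicit false

open MeasureTheory Set Filter Topology Metric
open scoped InnerProductSpace ContDiff Laplacian ENNReal

namespace Pool.Agent.H816_Nef

/-- `Ψ ≥ 0` is bounded and measurable on `Ω`, and `log Ψ` has the area sub-mean value property there
(stated for the truncations `log (max Ψ δ)`). -/
structure AreaSub (Ψ : ℂ → ℝ) (Ω : Set ℂ) : Prop where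
  meas : Measurable Ψ
  nonneg : ∀ z ∈ Ω, 0 ≤ Ψ z
  bdd : ∃ B, ∀ z ∈ Ω, Ψ z ≤ B
  sub : ∀ z r, 0 < r → closedBall z r ⊆ Ω → ∀ δ, 0 < δ →
    (volume (ball z r)).toReal * Real.log (max (Ψ z) δ) ≤
      ∫ w in ball z r, Real.log (max (Ψ w) δ)

lemma meas_trunc {Ψ : ℂ → ℝ} (h : Measurable Ψ) (δ : ℝ) :
    Measurable fun w => Real.log (max (Ψ w) δ) :=
  Real.measurable_log.comp (h.max measurable_const)

/-- positivity at a point gives positivity almost everywhere and integrability around it -/
lemma AreaSub.integrable {Ψ : ℂ → ℝ} {Ω : Set ℂ} (h : AreaSub Ψ Ω) {x : ℂ} {r : ℝ} (hr : 0 < r)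
    (hx : closedBall x r ⊆ Ω) (hpos : 0 < Ψ x) :
    (∀ᵐ z ∂(volume.restrict (ball x r)), 0 < Ψ z) ∧
      IntegrableOn (fun z => Real.log (Ψ z)) (ball x r) := by
  obtain ⟨B0, hB0⟩ := h.bdd
  set B := max B0 1 with hBdef
  have hB1 : 1 ≤ B := le_max_right _ _
  have hBpos : 0 < B := lt_of_lt_of_le one_pos hB1
  have hB : ∀ z ∈ ball x r, Ψ z ≤ B := fun z hz =>
    (hB0 z (hx (ball_subset_closedBall hz))).trans (le_max_left _ _)
  have hnn : ∀ z ∈ ball x r, 0 ≤ Ψ z := fun z hz => h.nonneg z (hx (ball_subset_closedBall hz))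
  set V := (volume (ball x r)).toReal with hV
  have hVfin : volume (ball x r) ≠ ⊤ := measure_ball_lt_top.ne
  -- the truncations
  have key : ∀ δ, 0 < δ → δ ≤ 1 → ∫⁻ z in ball x r,
      ENNReal.ofReal (Real.log B - Real.log (max (Ψ z) δ)) ≤
        ENNReal.ofReal (V * (Real.log B - Real.log (Ψ x))) := by
    intro δ hδ hδ1
    have hbd : ∀ z ∈ ball x r, |Real.log (max (Ψ z) δ)| ≤ |Real.log δ| + |Real.log B| := by
      intro z hz
      have h1 : δ ≤ max (Ψ z) δ := le_max_right _ _
      have h2 : max (Ψ z) δ ≤ B := max_le (hB z hz) (hδ1.trans hB1)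
      have h3 := Real.log_le_log hδ h1
      have h4 := Real.log_le_log (lt_of_lt_of_le hδ h1) h2
      rw [abs_le]
      constructor
      · have := neg_abs_le (Real.log δ)
        have := abs_nonneg (Real.log B)
        linarith
      · have := le_abs_self (Real.log B)
        have := abs_nonneg (Real.log δ)
        linarith
    have hint : IntegrableOn (fun z => Real.log (max (Ψ z) δ)) (ball x r) := by
      refine Measure.integrableOn_of_bounded (M := |Real.log δ| + |Real.log B|) hVfin
        (meas_trunc h.meas δ).aestronglyMeasurable ?_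
      exact (ae_restrict_iff' measurableSet_ball).2 (Eventually.of_forall fun z hz => by
        simpa [Real.norm_eq_abs] using hbd z hz)
    have hnn2 : 0 ≤ᵐ[volume.restrict (ball x r)] fun z =>
        Real.log B - Real.log (max (Ψ z) δ) := by
      refine (ae_restrict_iff' measurableSet_ball).2 (Eventually.of_forall fun z hz => ?_)
      have h1 : δ ≤ max (Ψ z) δ := le_max_right _ _
      have h2 : max (Ψ z) δ ≤ B := max_le (hB z hz) (hδ1.trans hB1)
      have h4 := Real.log_le_log (lt_of_lt_of_le hδ h1) h2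
      simpa using h4
    have hint2 : Integrable (fun z => Real.log B - Real.log (max (Ψ z) δ))
        (volume.restrict (ball x r)) :=
      (integrableOn_const hVfin).sub hint
    rw [← ofReal_integral_eq_lintegral_ofReal hint2 hnn2]
    apply ENNReal.ofReal_le_ofReal
    have hci : Integrable (fun _ : ℂ => Real.log B) (volume.restrict (ball x r)) :=
      integrableOn_const hVfin
    rw [integral_sub hci hint, setIntegral_const]
    have h5 := h.sub x r hr hx δ hδ
    have h6 : Real.log (Ψ x) ≤ Real.log (max (Ψ x) δ) := Real.log_le_log hpos (le_max_left _ _)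
    have hV0 : 0 ≤ V := ENNReal.toReal_nonneg
    have h7 : V * Real.log (Ψ x) ≤ V * Real.log (max (Ψ x) δ) := mul_le_mul_of_nonneg_left h6 hV0
    have h8 : (volume.real (ball x r)) • Real.log B = V * Real.log B := rfl
    rw [h8]
    have h9 : (volume (ball x r)).toReal = V := rfl
    rw [h9] at h5
    nlinarith [h5, h7]
  set M := ENNReal.ofReal (V * (Real.log B - Real.log (Ψ x))) with hM
  have hMfin : M < ⊤ := ENNReal.ofReal_lt_top
  have hpos_ae : ∀ᵐ z ∂(volume.restrict (ball x r)), 0 < Ψ z := by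
    rw [ae_restrict_iff' measurableSet_ball]
    have hset : volume {z | z ∈ ball x r ∧ Ψ z ≤ 0} = 0 := by
      by_contra hne
      set Z := {z | z ∈ ball x r ∧ Ψ z ≤ 0} with hZ
      have hZm : MeasurableSet Z := measurableSet_ball.inter (measurableSet_le h.meas measurable_const)
      have hZpos : 0 < volume Z := pos_iff_ne_zero.2 hne
      have hZfin : volume Z < ⊤ := lt_of_le_of_lt (measure_mono fun z hz => hz.1) measure_ball_lt_top
      have hb : ∀ n : ℕ, (n : ℝ≥0∞) * volume Z ≤ M := by
        intro n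
        set δ := Real.exp (-n : ℝ) with hδ
        have hδ0 : 0 < δ := Real.exp_pos _
        have hδ1 : δ ≤ 1 := Real.exp_le_one_iff.2 (by simp)
        refine le_trans ?_ (key δ hδ0 hδ1)
        calc (n : ℝ≥0∞) * volume Z = ∫⁻ _ in Z, (n : ℝ≥0∞) := by rw [setLIntegral_const]
          _ ≤ ∫⁻ z in Z, ENNReal.ofReal (Real.log B - Real.log (max (Ψ z) δ)) := by
              refine setLIntegral_mono' hZm fun z hz => ?_
              have h1 : max (Ψ z) δ = δ := max_eq_right (hz.2.trans hδ0.le)
              rw [h1, hδ, Real.log_exp]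
              rw [← ENNReal.ofReal_natCast]
              apply ENNReal.ofReal_le_ofReal
              have := Real.log_nonneg hB1
              linarith
          _ ≤ _ := lintegral_mono_set fun z hz => hz.1
      have : (⊤ : ℝ≥0∞) ≤ M := by
        have h1 : Tendsto (fun n : ℕ => (n : ℝ≥0∞) * volume Z) atTop (𝓝 (⊤ * volume Z)) :=
          ENNReal.Tendsto.mul_const ENNReal.tendsto_nat_nhds_top (Or.inl (by simp))
        rw [ENNReal.top_mul hne] at h1
        exact le_of_tendsto' h1 hb
      exact absurd hMfin (not_lt.2 this)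
    have h2 : ∀ᵐ z ∂(volume : Measure ℂ), ¬ (z ∈ ball x r ∧ Ψ z ≤ 0) := by
      rw [ae_iff]; simpa using hset
    filter_upwards [h2] with z hz hzb
    by_contra hc
    exact hz ⟨hzb, not_lt.1 hc⟩
  refine ⟨hpos_ae, ?_⟩
  have hlim : ∫⁻ z in ball x r, ENNReal.ofReal (Real.log B - Real.log (Ψ z)) ≤ M := by
    set δ : ℕ → ℝ := fun n => Real.exp (-n : ℝ) with hδ
    have hF : ∫⁻ z in ball x r, liminf (fun n : ℕ =>
        ENNReal.ofReal (Real.log B - Real.log (max (Ψ z) (δ n)))) atTop ≤
        liminf (fun n : ℕ => ∫⁻ z in ball x r,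
          ENNReal.ofReal (Real.log B - Real.log (max (Ψ z) (δ n)))) atTop := by
      apply lintegral_liminf_le
      intro n
      exact (measurable_const.sub (meas_trunc h.meas _)).ennreal_ofReal
    have hR : liminf (fun n : ℕ => ∫⁻ z in ball x r,
          ENNReal.ofReal (Real.log B - Real.log (max (Ψ z) (δ n)))) atTop ≤ M := by
      refine liminf_le_of_frequently_le' (Eventually.frequently (Eventually.of_forall fun n => ?_))
      exact key _ (Real.exp_pos _) (Real.exp_le_one_iff.2 (by simp))
    refine le_trans ?_ (hF.trans hR)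
    apply lintegral_mono_ae
    filter_upwards [hpos_ae] with z hz
    have hev : ∀ᶠ n : ℕ in atTop, max (Ψ z) (δ n) = Ψ z := by
      have ht : Tendsto δ atTop (𝓝 0) := by
        have h1 : Tendsto (fun n : ℕ => -(n : ℝ)) atTop atBot :=
          tendsto_neg_atTop_atBot.comp tendsto_natCast_atTop_atTop
        exact Real.tendsto_exp_atBot.comp h1
      filter_upwards [ht.eventually (gt_mem_nhds hz)] with n hn
      exact max_eq_left hn.le
    have h2 : Tendsto (fun n : ℕ => ENNReal.ofReal (Real.log B - Real.log (max (Ψ z) (δ n)))) atTop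
        (𝓝 (ENNReal.ofReal (Real.log B - Real.log (Ψ z)))) := by
      refine tendsto_const_nhds.congr' ?_
      filter_upwards [hev] with n hn
      rw [hn]
    rw [h2.liminf_eq]
  have hmeas : Measurable fun z => Real.log B - Real.log (Ψ z) :=
    measurable_const.sub (Real.measurable_log.comp h.meas)
  have hnn3 : 0 ≤ᵐ[volume.restrict (ball x r)] fun z => Real.log B - Real.log (Ψ z) := by
    filter_upwards [hpos_ae, ae_restrict_mem measurableSet_ball] with z hz hzb
    have := Real.log_le_log hz (hB z hzb)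
    simpa using this
  have hI : Integrable (fun z => Real.log B - Real.log (Ψ z)) (volume.restrict (ball x r)) := by
    refine ⟨hmeas.aestronglyMeasurable, ?_⟩
    rw [hasFiniteIntegral_iff_ofReal hnn3]
    exact lt_of_le_of_lt hlim hMfin
  have hI2 := (integrableOn_const (μ := (volume : Measure ℂ)) (s := ball x r) (C := Real.log B) hVfin).sub hI
  refine hI2.congr (Eventually.of_forall fun z => ?_)
  simp

/-- the linear isometry to Euclidean space -/
noncomputable def iso : ℂ ≃ₗᵢ[ℝ] EuclideanSpace ℝ (Fin 2) := Complex.orthonormalBasisOneI.repr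

lemma lap_iso {φ : ℂ → ℝ} (hφ : ContDiff ℝ 2 φ) (z : ℂ) :
    (Δ fun w => φ (iso.symm w)) (iso z) = (Δ φ) z := by
  rw [InnerProductSpace.laplacian_eq_iteratedFDeriv_orthonormalBasis _
      (EuclideanSpace.basisFun (Fin 2) ℝ),
    InnerProductSpace.laplacian_eq_iteratedFDeriv_orthonormalBasis φ
      Complex.orthonormalBasisOneI]
  refine Finset.sum_congr rfl fun i _ => ?_
  have h1 : (fun w => φ (iso.symm w)) = φ ∘ (iso.symm.toContinuousLinearEquiv :
      EuclideanSpace ℝ (Fin 2) →L[ℝ] ℂ) := rfl
  rw [h1, ContinuousLinearMap.iteratedFDeriv_comp_right (n := 2) _ hφ _ (by norm_num)]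
  have h2 : (iso.symm.toContinuousLinearEquiv : EuclideanSpace ℝ (Fin 2) →L[ℝ] ℂ) (iso z) = z :=
    iso.symm_apply_apply z
  have h3 : ∀ v, (iso.symm.toContinuousLinearEquiv : EuclideanSpace ℝ (Fin 2) →L[ℝ] ℂ) v =
    iso.symm v := fun v => rfl
  rw [h2]
  have h4 : (iso.symm.toContinuousLinearEquiv : EuclideanSpace ℝ (Fin 2) →L[ℝ] ℂ)
      ((EuclideanSpace.basisFun (Fin 2) ℝ) i) = Complex.orthonormalBasisOneI i := by
    rw [h3]
    simp [iso]
  simp only [ContinuousMultilinearMap.compContinuousLinearMap_apply]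
  congr 1
  funext j
  fin_cases j <;> simpa using h4

lemma iso_mp : MeasurePreserving (iso : ℂ → EuclideanSpace ℝ (Fin 2)) volume volume :=
  iso.measurePreserving

/-- the weak Laplacian of a log-subharmonic function is nonnegative -/
lemma AreaSub.weak {Ψ : ℂ → ℝ} {Ω : Set ℂ} (h : AreaSub Ψ Ω) (hΩ : IsOpen Ω)
    (hpos : ∀ᵐ z ∂(volume : Measure ℂ), z ∈ Ω → 0 < Ψ z)
    (hint : LocallyIntegrableOn (fun z => Real.log (Ψ z)) Ω) {φ : ℂ → ℝ}
    (hφ : ContDiff ℝ ∞ φ) (hc : HasCompactSupport φ) (hs : tsupport φ ⊆ Ω) (h0 : ∀ z, 0 ≤ φ z) :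
    0 ≤ ∫ z, Real.log (Ψ z) * (Δ φ) z := by
  set Ω' : Set (EuclideanSpace ℝ (Fin 2)) := iso.symm ⁻¹' Ω with hΩ'
  set f' : EuclideanSpace ℝ (Fin 2) → ℝ := fun w => Real.log (Ψ (iso.symm w)) with hf'
  have hΩ'o : IsOpen Ω' := hΩ.preimage iso.symm.continuous
  have hemb : MeasurableEmbedding (iso : ℂ → EuclideanSpace ℝ (Fin 2)) :=
    iso.toHomeomorph.measurableEmbedding
  have hcomp : ∀ z, f' (iso z) = Real.log (Ψ z) := fun z => by simp [hf']
  -- integrability transfers
  have hset : ∀ K : Set ℂ, ∀ g : EuclideanSpace ℝ (Fin 2) → ℝ,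
      IntegrableOn (fun z => g (iso z)) K ↔ IntegrableOn g (iso.symm ⁻¹' K) := by
    intro K g
    have h1 := iso_mp.integrableOn_comp_preimage hemb (f := g) (s := iso.symm ⁻¹' K)
    have h2 : (iso : ℂ → EuclideanSpace ℝ (Fin 2)) ⁻¹' (iso.symm ⁻¹' K) = K := by
      ext z; simp
    rw [h2] at h1
    exact h1
  have hsetI : ∀ K : Set ℂ, ∀ g : EuclideanSpace ℝ (Fin 2) → ℝ,
      ∫ z in K, g (iso z) = ∫ w in (iso.symm ⁻¹' K), g w := by
    intro K g
    have h1 := iso_mp.setIntegral_preimage_emb hemb g (iso.symm ⁻¹' K)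
    have h2 : (iso : ℂ → EuclideanSpace ℝ (Fin 2)) ⁻¹' (iso.symm ⁻¹' K) = K := by
      ext z; simp
    rw [h2] at h1
    exact h1
  have hball : ∀ (w : EuclideanSpace ℝ (Fin 2)) (r : ℝ),
      iso.symm ⁻¹' (ball (iso.symm w) r) = ball w r := by
    intro w r
    ext v
    simp only [mem_preimage, mem_ball]
    rw [iso.symm.dist_map]
  have hcball : ∀ (w : EuclideanSpace ℝ (Fin 2)) (r : ℝ),
      iso.symm ⁻¹' (closedBall (iso.symm w) r) = closedBall w r := by
    intro w r
    ext v
    simp only [mem_preimage, mem_closedBall]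
    rw [iso.symm.dist_map]
  have hf'int : LocallyIntegrableOn f' Ω' := by
    intro w hw
    obtain ⟨K, hK, hKi⟩ := hint (iso.symm w) hw
    refine ⟨iso.symm ⁻¹' K, ?_, ?_⟩
    · have := (iso.symm.continuous.continuousWithinAt (s := Ω') (x := w)).tendsto_nhdsWithin
        (t := Ω) (fun v hv => hv)
      exact this hK
    · rw [← hset]
      simpa [hcomp] using hKi
  have hφ2 : ContDiff ℝ 2 φ := hφ.of_le Helper486.TP.two_le_infty
  set φ' : EuclideanSpace ℝ (Fin 2) → ℝ := fun w => φ (iso.symm w) with hφ'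
  have hT : Helper486.TP.TestOn Ω' φ' := by
    refine ⟨hφ.comp iso.symm.toContinuousLinearEquiv.contDiff, ?_, ?_⟩
    · exact hc.comp_homeomorph iso.symm.toHomeomorph
    · have h1 : tsupport φ' ⊆ iso.symm ⁻¹' (tsupport φ) :=
        tsupport_comp_subset_preimage (g := φ) iso.symm.continuous
      exact h1.trans (preimage_mono hs)
  have hmain := Helper486.TP.submean_weak (n := 2) (by norm_num) hΩ'o hf'int ?_ φ' hT
    (fun x => h0 _)
  · have h1 : ∫ z, Real.log (Ψ z) * (Δ φ) z = ∫ w, f' w * (Δ φ') w := by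
      have h2 := hsetI univ (fun w => f' w * (Δ φ') w)
      rw [preimage_univ, setIntegral_univ, setIntegral_univ] at h2
      rw [← h2]
      congr 1
      funext z
      rw [hcomp, hφ', lap_iso hφ2]
    rw [h1]
    exact hmain
  · intro r hr
    have hposE : ∀ᵐ w ∂(volume : Measure (EuclideanSpace ℝ (Fin 2))),
        w ∈ Ω' → 0 < Ψ (iso.symm w) := by
      have h1 : MeasurePreserving (iso.symm : EuclideanSpace ℝ (Fin 2) → ℂ) volume volume :=
        iso.symm.measurePreserving
      exact h1.quasiMeasurePreserving.ae hpos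
    filter_upwards [hposE] with w hw hcb
    set z := iso.symm w with hz
    have hwz : w = iso z := by simp [hz]
    have hcbz : closedBall z r ⊆ Ω := by
      intro v hv
      have : iso v ∈ closedBall w r := by
        rw [hwz]
        simpa [mem_closedBall, iso.dist_map] using hv
      simpa [hΩ'] using hcb this
    have hzΩ : z ∈ Ω := hcbz (mem_closedBall_self hr.le)
    have hzpos : 0 < Ψ z := hw (by simpa [hΩ'] using hzΩ)
    have hVeq : (volume (ball w r)).toReal = (volume (ball z r)).toReal := by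
      rw [← hball w r]
      have h1 : MeasurePreserving (iso.symm : EuclideanSpace ℝ (Fin 2) → ℂ) volume volume :=
        iso.symm.measurePreserving
      rw [h1.measure_preimage measurableSet_ball.nullMeasurableSet]
    have hIeq : ∫ y in ball w r, f' y = ∫ y in ball z r, Real.log (Ψ y) := by
      rw [← hball w r, ← hsetI]
      simp [hcomp, hz]
    rw [hVeq, hIeq, hf']
    show (volume (ball z r)).toReal * Real.log (Ψ z) ≤ _
    obtain ⟨hae, hInt⟩ := h.integrable hr hcbz hzpos
    obtain ⟨B0, hB0⟩ := h.bdd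
    set δ : ℕ → ℝ := fun n => Real.exp (-n : ℝ) with hδ
    have ht : Tendsto δ atTop (𝓝 0) := by
      have h1 : Tendsto (fun n : ℕ => -(n : ℝ)) atTop atBot :=
        tendsto_neg_atTop_atBot.comp tendsto_natCast_atTop_atTop
      exact Real.tendsto_exp_atBot.comp h1
    have hlim : Tendsto (fun n => ∫ y in ball z r, Real.log (max (Ψ y) (δ n))) atTop
        (𝓝 (∫ y in ball z r, Real.log (Ψ y))) := by
      apply tendsto_integral_of_dominated_convergence (fun y => ‖Real.log (Ψ y)‖)
      · intro n
        exact (meas_trunc h.meas _).aestronglyMeasurable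
      · exact hInt.norm
      · intro n
        filter_upwards [hae] with y hy
        rw [Real.norm_eq_abs, Real.norm_eq_abs]
        rcases le_total (δ n) (Ψ y) with h1 | h1
        · rw [max_eq_left h1]
        · rw [max_eq_right h1]
          have hδ0 : 0 < δ n := Real.exp_pos _
          have h2 : Real.log (Ψ y) ≤ Real.log (δ n) := Real.log_le_log hy h1
          have h3 : Real.log (δ n) ≤ 0 := Real.log_nonpos hδ0.le (Real.exp_le_one_iff.2 (by simp))
          rw [abs_of_nonpos h3, abs_of_nonpos (h2.trans h3)]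
          linarith
      · filter_upwards [hae] with y hy
        refine tendsto_const_nhds.congr' ?_
        filter_upwards [ht.eventually (gt_mem_nhds hy)] with n hn
        rw [max_eq_left hn.le]
    refine ge_of_tendsto hlim ?_
    filter_upwards [ht.eventually (gt_mem_nhds hzpos)] with n hn
    have h5 := h.sub z r hr hcbz (δ n) (Real.exp_pos _)
    rwa [max_eq_left hn.le] at h5

end Pool.Agent.H816_Nef
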