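import Pool.Agent.H816_Nef.CovK
import Pool.Agent.H816_Nef.CylDefs

/-!
# Vertical tangent vectors for a fibrewise affine covering of a compact Kähler manifold
-/

set_option autoImplicit false

open Set Filter Topology Metric MeasureTheory
open scoped ContDiff Manifold

namespace Pool.Agent.H816_Nef

section General
variable {E : Type} [NormedAddCommGroup E] [NormedSpace ℂ E]
variable {X : Type} [TopologicalSpace X] [ChartedSpace E X] [IsManifold 𝓘(ℂ, E) ω X]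
variable {U : TopologicalSpace.Opens E} {p : U → X} {x₀ : X}

/-- the differential of the covering is injective -/
lemma tangentMap_pe_inj (hpl : IsLocalDiffeomorph 𝓘(ℂ, E) 𝓘(ℂ, E) ω p) {y v v' : E} (hy : y ∈ U)
    (h : tangentMap 𝓘(ℂ, E) 𝓘(ℂ, E) (pe p x₀) (⟨y, v⟩ : TangentBundle 𝓘(ℂ, E) E) =
      tangentMap 𝓘(ℂ, E) 𝓘(ℂ, E) (pe p x₀) (⟨y, v'⟩ : TangentBundle 𝓘(ℂ, E) E)) : v = v' := by
  obtain ⟨J, hJ1, hJ2, -, hJ4⟩ := pe_section (x₀ := x₀) hpl hy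
  have h1 : ∀ v : E, tangentMap 𝓘(ℂ, E) 𝓘(ℂ, E) J (tangentMap 𝓘(ℂ, E) 𝓘(ℂ, E) (pe p x₀)
      (⟨y, v⟩ : TangentBundle 𝓘(ℂ, E) E)) = (⟨y, v⟩ : TangentBundle 𝓘(ℂ, E) E) := by
    intro v
    have h2 := tangentMap_comp_at (I := 𝓘(ℂ, E)) (I' := 𝓘(ℂ, E)) (I'' := 𝓘(ℂ, E)) (f := pe p x₀)
      (g := J) (⟨y, v⟩ : TangentBundle 𝓘(ℂ, E) E) (hJ1.mdifferentiableAt (by simp))
      ((pe_contMDiffAt hpl hy).mdifferentiableAt (by simp))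
    rw [← h2]
    exact tangentMap_of_eventually_id (w := (⟨y, v⟩ : TangentBundle 𝓘(ℂ, E) E)) hJ4
  have h3 := congrArg (tangentMap 𝓘(ℂ, E) 𝓘(ℂ, E) J) h
  rw [h1, h1] at h3
  have h4 := congrArg (fun w : TangentBundle 𝓘(ℂ, E) E => (w.2 : E)) h3
  exact h4

/-- the density only depends on the image of the line -/
lemma L_line_eq [CompleteSpace E] (κ : PNB.ClosedForm E X) (hκ : κ.IsKahler)
    (hpl : IsLocalDiffeomorph 𝓘(ℂ, E) 𝓘(ℂ, E) ω p) {y y' a a' : E}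
    (hy : ∀ t : ℂ, y + t • a ∈ U) (hy' : ∀ t : ℂ, y' + t • a' ∈ U)
    (h : ∀ t : ℂ, pe p x₀ (y + t • a) = pe p x₀ (y' + t • a')) (t : ℂ) :
    (potSys κ hκ p hpl x₀).L (y + t • a) a = (potSys κ hκ p hpl x₀).L (y' + t • a') a' := by
  obtain ⟨j, hj⟩ := κ.cover (pe p x₀ (y + t • a))
  have h1 : y + t • a ∈ (potSys κ hκ p hpl x₀).O j := ⟨hy t, hj⟩
  have h2 : y' + t • a' ∈ (potSys κ hκ p hpl x₀).O j := ⟨hy' t, by rw [← h t]; exact hj⟩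
  have e1 := LineFam.lap_t (P := potSys κ hκ p hpl x₀) (y := fun _ => y) (ς := fun _ => a)
    (j := j) (x := 0) (t := t) h1
  have e2 := LineFam.lap_t (P := potSys κ hκ p hpl x₀) (y := fun _ => y') (ς := fun _ => a')
    (j := j) (x := 0) (t := t) h2
  rw [← e1, ← e2]
  have h3 : (fun t : ℂ => (potSys κ hκ p hpl x₀).φ j (y + t • a)) =
      fun t : ℂ => (potSys κ hκ p hpl x₀).φ j (y' + t • a') := by
    funext t
    show κ.pot j (pe p x₀ (y + t • a)) = κ.pot j (pe p x₀ (y' + t • a'))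
    rw [h t]
  rw [h3]

lemma mr_line_eq [CompleteSpace E] (κ : PNB.ClosedForm E X) (hκ : κ.IsKahler)
    (hpl : IsLocalDiffeomorph 𝓘(ℂ, E) 𝓘(ℂ, E) ω p) {y y' a a' : E}
    (hy : ∀ t : ℂ, y + t • a ∈ U) (hy' : ∀ t : ℂ, y' + t • a' ∈ U)
    (h : ∀ t : ℂ, pe p x₀ (y + t • a) = pe p x₀ (y' + t • a')) :
    mr (potSys κ hκ p hpl x₀) y a = mr (potSys κ hκ p hpl x₀) y' a' := by
  funext s
  unfold mr
  congr 1
  funext t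
  exact L_line_eq κ hκ hpl hy hy' h t

end General

variable {E₁ E₂ : Type} [NormedAddCommGroup E₁] [NormedSpace ℂ E₁] [NormedAddCommGroup E₂]
  [NormedSpace ℂ E₂]
variable {X : Type} [TopologicalSpace X] [ChartedSpace (E₁ × E₂) X]
  [IsManifold 𝓘(ℂ, E₁ × E₂) ω X]
variable {D : TopologicalSpace.Opens E₁} {p : cylinder D E₂ → X} {x₀ : X}

omit [NormedSpace ℂ E₁] in
lemma mem_cyl_add {E₁ E₂ : Type} [NormedAddCommGroup E₁] [NormedSpace ℂ E₁]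
    [NormedAddCommGroup E₂] [NormedSpace ℂ E₂] {D : TopologicalSpace.Opens E₁} {y : E₁ × E₂}
    (hy : y ∈ cylinder D E₂) (v : E₂) : y + (0, v) ∈ cylinder D E₂ := by
  refine ⟨?_, trivial⟩
  show y.1 + 0 ∈ (D : Set E₁)
  rw [add_zero]
  exact hy.1

lemma mem_cyl_line {y : E₁ × E₂} (hy : y ∈ cylinder D E₂) (v : E₂) (t : ℂ) :
    y + t • ((0, v) : E₁ × E₂) ∈ cylinder D E₂ := by
  have h1 : t • ((0, v) : E₁ × E₂) = (0, t • v) := by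
    rw [Prod.smul_mk, smul_zero]
  rw [h1]
  exact mem_cyl_add hy _

omit [TopologicalSpace X] [ChartedSpace (E₁ × E₂) X] [IsManifold 𝓘(ℂ, E₁ × E₂) ω X] in
/-- the affine structure in terms of the extended map -/
lemma affine_pe (haff : FibrewiseAffine p) {y y' : E₁ × E₂} (hy : y ∈ cylinder D E₂)
    (hy' : y' ∈ cylinder D E₂) (h : pe p x₀ y = pe p x₀ y') :
    ∃ A : E₂ →L[ℂ] E₂, ∀ v : E₂, pe p x₀ (y + (0, v)) = pe p x₀ (y' + (0, A v)) := by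
  rw [pe_apply hy, pe_apply hy'] at h
  obtain ⟨A, hA⟩ := haff ⟨y.1, hy.1⟩ ⟨y'.1, hy'.1⟩ y.2 y'.2 h
  refine ⟨A, fun v => ?_⟩
  rw [pe_apply (mem_cyl_add hy v), pe_apply (mem_cyl_add hy' (A v))]
  have e1 : (⟨y + (0, v), mem_cyl_add hy v⟩ : cylinder D E₂) = cpt ⟨y.1, hy.1⟩ (y.2 + v) := by
    apply Subtype.ext
    apply Prod.ext
    · show y.1 + 0 = y.1
      rw [add_zero]
    · rfl
  have e2 : (⟨y' + (0, A v), mem_cyl_add hy' (A v)⟩ : cylinder D E₂) =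
      cpt ⟨y'.1, hy'.1⟩ (y'.2 + A v) := by
    apply Subtype.ext
    apply Prod.ext
    · show y'.1 + 0 = y'.1
      rw [add_zero]
    · rfl
  rw [e1, e2]
  exact hA v

/-- the tangent map along the fibres -/
lemma tangentMap_vert (hpl : IsLocalDiffeomorph 𝓘(ℂ, E₁ × E₂) 𝓘(ℂ, E₁ × E₂) ω p)
    {y : E₁ × E₂} (hy : y ∈ cylinder D E₂) (A : E₂ →L[ℂ] E₂) (ς : E₂) :
    tangentMap 𝓘(ℂ, E₂) 𝓘(ℂ, E₁ × E₂) (fun v : E₂ => pe p x₀ (y + (0, A v)))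
      (⟨0, ς⟩ : TangentBundle 𝓘(ℂ, E₂) E₂) =
    tangentMap 𝓘(ℂ, E₁ × E₂) 𝓘(ℂ, E₁ × E₂) (pe p x₀)
      (⟨y, ((0, A ς) : E₁ × E₂)⟩ : TangentBundle 𝓘(ℂ, E₁ × E₂) (E₁ × E₂)) := by
  set f : E₂ → E₁ × E₂ := fun v => y + (0, A v) with hf
  have hfd : HasFDerivAt f ((ContinuousLinearMap.inr ℂ E₁ E₂).comp A) 0 := by
    have h1 : HasFDerivAt (fun v : E₂ => (ContinuousLinearMap.inr ℂ E₁ E₂).comp A v)
        ((ContinuousLinearMap.inr ℂ E₁ E₂).comp A) 0 :=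
      ((ContinuousLinearMap.inr ℂ E₁ E₂).comp A).hasFDerivAt
    exact h1.const_add y
  have hf0 : f 0 = y := by simp [hf]
  have hpe : MDifferentiableAt 𝓘(ℂ, E₁ × E₂) 𝓘(ℂ, E₁ × E₂) (pe p x₀) (f 0) := by
    rw [hf0]
    exact (pe_contMDiffAt hpl hy).mdifferentiableAt (by simp)
  have h2 := tangentMap_comp_at (I := 𝓘(ℂ, E₂)) (I' := 𝓘(ℂ, E₁ × E₂)) (I'' := 𝓘(ℂ, E₁ × E₂))
    (f := f) (g := pe p x₀) (⟨0, ς⟩ : TangentBundle 𝓘(ℂ, E₂) E₂) hpe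
    hfd.differentiableAt.mdifferentiableAt
  have h3 : tangentMap 𝓘(ℂ, E₂) 𝓘(ℂ, E₁ × E₂) f (⟨0, ς⟩ : TangentBundle 𝓘(ℂ, E₂) E₂) =
      (⟨y, ((0, A ς) : E₁ × E₂)⟩ : TangentBundle 𝓘(ℂ, E₁ × E₂) (E₁ × E₂)) := by
    have h4 : tangentMap 𝓘(ℂ, E₂) 𝓘(ℂ, E₁ × E₂) f (⟨0, ς⟩ : TangentBundle 𝓘(ℂ, E₂) E₂) =
      (⟨f 0, mfderiv 𝓘(ℂ, E₂) 𝓘(ℂ, E₁ × E₂) f 0 ς⟩ :
        TangentBundle 𝓘(ℂ, E₁ × E₂) (E₁ × E₂)) := rfl
    rw [h4]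
    refine tb_ext hf0 ?_
    rw [mfderiv_eq_fderiv, hfd.fderiv]
    rfl
  rw [← h3, ← h2]
  rfl

/-- `(y, ς)` is a lift of the tangent vector `w` to a vertical vector -/
def VL (p : cylinder D E₂ → X) (x₀ : X) (w : TangentBundle 𝓘(ℂ, E₁ × E₂) X) (y : E₁ × E₂)
    (ς : E₂) : Prop :=
  y ∈ cylinder D E₂ ∧ tangentMap 𝓘(ℂ, E₁ × E₂) 𝓘(ℂ, E₁ × E₂) (pe p x₀)
      (⟨y, ((0, ς) : E₁ × E₂)⟩ : TangentBundle 𝓘(ℂ, E₁ × E₂) (E₁ × E₂)) = w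

/-- the relation between two lifts, one of them vertical -/
lemma VL.affine (hpl : IsLocalDiffeomorph 𝓘(ℂ, E₁ × E₂) 𝓘(ℂ, E₁ × E₂) ω p)
    (haff : FibrewiseAffine p) {w : TangentBundle 𝓘(ℂ, E₁ × E₂) X} {y y' : E₁ × E₂} {ς : E₂}
    (h : VL p x₀ w y ς) (hy' : y' ∈ cylinder D E₂) {v' : E₁ × E₂}
    (h' : tangentMap 𝓘(ℂ, E₁ × E₂) 𝓘(ℂ, E₁ × E₂) (pe p x₀)
      (⟨y', v'⟩ : TangentBundle 𝓘(ℂ, E₁ × E₂) (E₁ × E₂)) = w) :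
    ∃ A : E₂ →L[ℂ] E₂, v' = (0, A ς) ∧ ∀ v, pe p x₀ (y + (0, v)) = pe p x₀ (y' + (0, A v)) := by
  obtain ⟨hy, hw⟩ := h
  have hpp : pe p x₀ y = pe p x₀ y' := by
    have h1 := congrArg Bundle.TotalSpace.proj (hw.trans h'.symm)
    exact h1
  obtain ⟨A, hA⟩ := affine_pe haff hy hy' hpp
  refine ⟨A, ?_, hA⟩
  have h2 := tangentMap_vert (x₀ := x₀) hpl hy (ContinuousLinearMap.id ℂ E₂) ς
  have h3 := tangentMap_vert (x₀ := x₀) hpl hy' A ς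
  have h4 : (fun v : E₂ => pe p x₀ (y + (0, (ContinuousLinearMap.id ℂ E₂) v))) =
      fun v : E₂ => pe p x₀ (y' + (0, A v)) := by
    funext v
    exact hA v
  rw [h4, h3] at h2
  have h5 : (ContinuousLinearMap.id ℂ E₂) ς = ς := rfl
  rw [h5, hw, ← h'] at h2
  exact (tangentMap_pe_inj hpl hy' h2).symm

lemma VL.line (hpl : IsLocalDiffeomorph 𝓘(ℂ, E₁ × E₂) 𝓘(ℂ, E₁ × E₂) ω p)
    (haff : FibrewiseAffine p) {w : TangentBundle 𝓘(ℂ, E₁ × E₂) X} {y y' : E₁ × E₂} {ς ς' : E₂}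
    (h : VL p x₀ w y ς) (h' : VL p x₀ w y' ς') (t : ℂ) :
    pe p x₀ (y + t • ((0, ς) : E₁ × E₂)) = pe p x₀ (y' + t • ((0, ς') : E₁ × E₂)) := by
  obtain ⟨A, hA, hA2⟩ := h.affine hpl haff h'.1 h'.2
  have h1 : ς' = A ς := congrArg Prod.snd hA
  have e : ∀ v : E₂, t • ((0, v) : E₁ × E₂) = (0, t • v) := fun v => by
    rw [Prod.smul_mk, smul_zero]
  rw [e, e, hA2, h1, map_smul]

open Classical in
/-- the invariant of vertical tangent vectors -/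
noncomputable def KX [CompleteSpace E₁] [CompleteSpace E₂] (κ : PNB.ClosedForm (E₁ × E₂) X)
    (hκ : κ.IsKahler)
    (hpl : IsLocalDiffeomorph 𝓘(ℂ, E₁ × E₂) 𝓘(ℂ, E₁ × E₂) ω p) (x₀ : X) (σ : ℝ)
    (w : TangentBundle 𝓘(ℂ, E₁ × E₂) X) : ℝ :=
  if h : ∃ (y : E₁ × E₂) (ς : E₂), VL p x₀ w y ς then
    Kf (potSys κ hκ p hpl x₀) σ h.choose (0, h.choose_spec.choose) else 0

lemma KX_eq [CompleteSpace E₁] [CompleteSpace E₂] (κ : PNB.ClosedForm (E₁ × E₂) X)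
    (hκ : κ.IsKahler)
    (hpl : IsLocalDiffeomorph 𝓘(ℂ, E₁ × E₂) 𝓘(ℂ, E₁ × E₂) ω p) (haff : FibrewiseAffine p)
    {σ : ℝ} {w : TangentBundle 𝓘(ℂ, E₁ × E₂) X} {y : E₁ × E₂} {ς : E₂} (h : VL p x₀ w y ς) :
    KX κ hκ hpl x₀ σ w = Kf (potSys κ hκ p hpl x₀) σ y (0, ς) := by
  have hex : ∃ (y : E₁ × E₂) (ς : E₂), VL p x₀ w y ς := ⟨y, ς, h⟩
  have h1 : VL p x₀ w hex.choose hex.choose_spec.choose := hex.choose_spec.choose_spec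
  unfold KX
  rw [dif_pos hex]
  unfold Kf
  rw [mr_line_eq κ hκ hpl (fun t => mem_cyl_line h1.1 _ t) (fun t => mem_cyl_line h.1 _ t)
    (fun t => h1.line hpl haff h t)]

end Pool.Agent.H816_Nef
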